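import Mathlib
import Pool.Agent.Lib.CFT.D0
import Pool.Agent.Lib.Helper90.GSem.Defs

/-!
# H25G: definitions

Groups: ind (induced function), Gs (the subgroup generated by U and one element), Cst (constituents of a restriction).
Matrices: mM g = 1 + g + transpose of the inverse of g (block diagonal), tT a g its Kronecker power (matrix coefficients of
tT a are the polynomials of degree at most a in the entries of g and of its inverse). rg f g: value of the regular function f, Zar A: Zariski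
closure in GL_n. Galois side: IsFrP M P g: g is a Frobenius element at the prime P of M; GoodChar: the characters which occur.
-/

set_option autoImplicit false

open NumberField Module Pool.Agent.GSem

namespace H25G

section grp

variable {Γ k : Type*} [Group Γ] [Field k]

open Classical in
/-- The function induced by a function on a subgroup of finite index. -/
noncomputable def ind (H : Subgroup Γ) (F : H → k) (g : Γ) : k :=
  ∑ᶠ t : Γ ⧸ H, if h : t.out⁻¹ * g * t.out ∈ H then F ⟨_, h⟩ else 0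

/-- The preimage of the cyclic subgroup generated by s. -/
def Gs (U : Subgroup Γ) [U.Normal] (s : Γ ⧸ U) : Subgroup Γ := (Subgroup.zpowers s).comap (QuotientGroup.mk' U)

/-- psi is eta times a constituent of R restricted to H, eta of finite order and trivial on U. -/
def Cst {W : Type*} [AddCommGroup W] [Module k W] (R : Γ →* Module.End k W) (U H : Subgroup Γ) (N : ℕ) (ψ : H →* kˣ) : Prop :=
  ∃ (η : H →* kˣ) (v : W) (f : Module.Dual k W), (∀ h, η h ^ N = 1) ∧ (∀ h : H, (h : Γ) ∈ U → η h = 1) ∧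
    (∀ h : H, (ψ h : k) = (η h : k) * f (R h v)) ∧ ∀ h : H, ∃ w : W, w ≠ 0 ∧ R h w = (((η h)⁻¹ * ψ h : kˣ) : k) • w

/-- The invariants of the subgroup U. -/
def inv {W : Type*} [AddCommGroup W] [Module k W] (R : Γ →* Module.End k W) (U : Subgroup Γ) : Submodule k W where
  carrier := {w | ∀ u ∈ U, R u w = w}
  zero_mem' := fun u _ => map_zero _
  add_mem' := fun {a b} ha hb u hu => by rw [map_add, ha u hu, hb u hu]
  smul_mem' := fun c w hw u hu => by rw [map_smul, hw u hu]

end grp

section mat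

variable {k : Type*} [Field k] {n : ℕ}

/-- Index type: 1 + n + n. -/
abbrev Jx (n : ℕ) := Unit ⊕ (Fin n ⊕ Fin n)

/-- The matrix 1 + g + (g^-1)^T. -/
def mM (g : GL (Fin n) k) : Matrix (Jx n) (Jx n) k :=
  Matrix.fromBlocks 1 0 0 (Matrix.fromBlocks (g : Matrix (Fin n) (Fin n) k) 0 0 (((g⁻¹ : GL (Fin n) k) : Matrix (Fin n) (Fin n) k).transpose))

theorem mM_one : mM (1 : GL (Fin n) k) = 1 := by
  unfold mM
  rw [inv_one, Units.val_one, Matrix.transpose_one, Matrix.fromBlocks_one, Matrix.fromBlocks_one]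

theorem mM_mul (g h : GL (Fin n) k) : mM (g * h) = mM g * mM h := by
  unfold mM
  rw [Matrix.fromBlocks_multiply, Matrix.fromBlocks_multiply, mul_inv_rev, Units.val_mul, Units.val_mul, Matrix.transpose_mul]
  simp

/-- The Kronecker power of mM. -/
def tF (a : ℕ) (g : GL (Fin n) k) : Matrix (Fin a → Jx n) (Fin a → Jx n) k := fun I J => ∏ t, mM g (I t) (J t)

theorem tF_one (a : ℕ) : tF a (1 : GL (Fin n) k) = 1 := by
  classical
  ext I J
  unfold tF
  rw [mM_one]
  by_cases h : I = J
  · subst h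
    simp
  · rw [Matrix.one_apply_ne h]
    obtain ⟨t, ht⟩ := Function.ne_iff.1 h
    exact Finset.prod_eq_zero (Finset.mem_univ t) (Matrix.one_apply_ne ht)

theorem tF_mul (a : ℕ) (g h : GL (Fin n) k) : tF a (g * h) = tF a g * tF a h := by
  ext I J
  rw [Matrix.mul_apply]
  unfold tF
  rw [mM_mul]
  simp only [Matrix.mul_apply, ← Finset.prod_mul_distrib]
  rw [Finset.prod_univ_sum, Fintype.piFinset_univ]

/-- The Kronecker power as a homomorphism. -/
def tT (a : ℕ) : GL (Fin n) k →* Matrix (Fin a → Jx n) (Fin a → Jx n) k where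
  toFun := tF a
  map_one' := tF_one a
  map_mul' := tF_mul a

theorem tT_apply (a : ℕ) (g : GL (Fin n) k) (I J : Fin a → Jx n) : tT a g I J = ∏ t, mM g (I t) (J t) := rfl

/-- Extension of scalars. -/
theorem tT_map {k' : Type*} [Field k'] (a : ℕ) (g : GL (Fin n) k) (f : k →+* k') :
    tT a (Matrix.GeneralLinearGroup.map f g) = (tT a g).map f := by
  ext I J
  rw [tT_apply, Matrix.map_apply, tT_apply, map_prod]
  refine Finset.prod_congr rfl fun t _ => ?_
  have h1 : mM (Matrix.GeneralLinearGroup.map f g) = (mM g).map f := by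
    unfold mM
    rw [Matrix.fromBlocks_map, Matrix.fromBlocks_map]
    ext i j
    rcases i with i | i | i <;> rcases j with j | j | j <;> simp [Matrix.fromBlocks, Matrix.transpose_apply, ← map_inv]
  rw [h1, Matrix.map_apply]

/-- Variables: the entries of the matrix and of its inverse. -/
abbrev Vr (n : ℕ) := (Fin n × Fin n) ⊕ (Fin n × Fin n)

/-- The value at g of a polynomial in the entries of the matrix and of its inverse. -/
noncomputable def rg (f : MvPolynomial (Vr n) k) (g : GL (Fin n) k) : k :=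
  MvPolynomial.eval (Sum.elim (fun ij => (g : Matrix (Fin n) (Fin n) k) ij.1 ij.2)
    (fun ij => ((g⁻¹ : GL (Fin n) k) : Matrix (Fin n) (Fin n) k) ij.1 ij.2)) f

/-- The Zariski closure of a subset of GL_n. -/
def Zar (A : Set (GL (Fin n) k)) : Set (GL (Fin n) k) := {h | ∀ f : MvPolynomial (Vr n) k, (∀ g ∈ A, rg f g = 0) → rg f h = 0}

end mat

section gal

/-- The algebraic closure of the rationals. -/
abbrev Om := AlgebraicClosure ℚ

/-- g is a Frobenius element at the prime P of M. -/
def IsFrP (M : IntermediateField ℚ Om) [NumberField M] (P : CFT.Pr M) (g : Gal(Om/ℚ)) : Prop :=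
  g ∈ M.fixingSubgroup ∧ ∃ Q : Ideal (𝓞 Om), Q.IsPrime ∧ Q.comap (algebraMap (𝓞 M) (𝓞 Om)) = P.asIdeal ∧
    ∀ x : 𝓞 Om, g • x - x ^ CFT.Nm P ∈ Q

variable {l : ℕ} [Fact l.Prime] {n : ℕ}

/-- Unramified outside S. -/
def Unram (ρ : Gal(Om/ℚ) →* GL (Fin n) ℚ_[l]) (S : Finset ℕ) : Prop :=
  ∀ p : ℕ, p.Prime → p ∉ S → ∀ Q : Ideal (𝓞 Om), Q.IsPrime → (p : 𝓞 Om) ∈ Q → ∀ s : Gal(Om/ℚ), (∀ x : 𝓞 Om, s • x - x ∈ Q) → ρ s = 1

/-- The conditions on the representation: continuous, unramified outside S, and for p outside S the characteristic polynomial of the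
Frobenius elements at p has rational coefficients, its complex roots have absolute value 1 and become algebraic integers after multiplication by p^m. -/
structure Geom (ρ : Gal(Om/ℚ) →* GL (Fin n) ℚ_[l]) (S : Finset ℕ) (m : ℕ) : Prop where
  cont : Continuous ρ
  unram : Unram ρ S
  frob : ∀ p : ℕ, p.Prime → p ∉ S → ∀ φ : Gal(Om/ℚ), IsFrobAt p φ → ∃ P : Polynomial ℚ,
    (ρ φ : Matrix (Fin n) (Fin n) ℚ_[l]).charpoly = P.map (algebraMap ℚ ℚ_[l]) ∧
    ∀ z : ℂ, Polynomial.aeval z P = 0 → ‖z‖ = 1 ∧ IsIntegral ℤ ((p : ℂ) ^ m * z)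

/-- The l-adic representation obtained from the Kronecker power. -/
noncomputable def Rl (ρ : Gal(Om/ℚ) →* GL (Fin n) ℚ_[l]) (a : ℕ) :
    Gal(Om/ℚ) →* Module.End (PadicAlgCl l) ((Fin a → Jx n) → PadicAlgCl l) :=
  ((Matrix.toLinAlgEquiv' : Matrix (Fin a → Jx n) (Fin a → Jx n) (PadicAlgCl l) ≃ₐ[PadicAlgCl l] _) :
    Matrix (Fin a → Jx n) (Fin a → Jx n) (PadicAlgCl l) →* _).comp
    ((tT a).comp ((Matrix.GeneralLinearGroup.map (algebraMap ℚ_[l] (PadicAlgCl l))).comp ρ))

/-- The characters which occur: constituents of the Kronecker powers of rho restricted to the Galois group of M, times a character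
of finite order. -/
def GoodChar (ρ : Gal(Om/ℚ) →* GL (Fin n) ℚ_[l]) (H : Subgroup Gal(Om/ℚ)) (ψ : H →* (PadicAlgCl l)ˣ) : Prop :=
  IsOpen (H : Set Gal(Om/ℚ)) ∧ ∃ (a N : ℕ) (U : Subgroup Gal(Om/ℚ)), 0 < N ∧ IsOpen (U : Set Gal(Om/ℚ)) ∧ U ≤ H ∧ Cst (Rl ρ a) U H N ψ

end gal

end H25G
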