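import Pool.Agent.Lib.H25G.Defs
import Pool.Agent.Lib.Helper95.Ord.FrobExists

/-! # H25G, chunk GB1B: transitivity over Q -/

set_option autoImplicit false

open NumberField Pool.Agent.GSem

namespace H25G

theorem gb1b_alg : @Algebra.IsAlgebraic ℚ Om _ _ DivisionRing.toRatAlgebra := by
  have h : (DivisionRing.toRatAlgebra : Algebra ℚ Om) = AlgebraicClosure.instAlgebra ℚ := Subsingleton.elim _ _
  rw [h]
  infer_instance

theorem gb1b_cl : IsAlgClosure ℚ Om := ⟨inferInstance, gb1b_alg⟩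

open scoped Pointwise in
/-- (M) GB1b. The Galois group acts transitively on the primes over p.
Proof: Mathlib, Algebra.IsInvariant.exists_smul_of_under_eq for finite groups and its profinite version (Ideal.Quotient / Mathlib.RingTheory.Invariant.Profinite:
Algebra.IsInvariant.exists_smul_of_under_eq_of_profinite); the topology on the ring of integers is set up in the proof of exists_frob, and isInvariant_int is in the same file. -/
theorem gb1_trans {p : ℕ} (hp : p.Prime) {Q Q' : Ideal (𝓞 Om)} (hQ : Q.IsPrime) (hpQ : (p : 𝓞 Om) ∈ Q) (hQ' : Q'.IsPrime) (hpQ' : (p : 𝓞 Om) ∈ Q') :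
    ∃ t : Gal(Om/ℚ), ∀ x : 𝓞 Om, x ∈ Q ↔ t • x ∈ Q' := by
  classical
  have hcl : IsAlgClosure ℚ Om := gb1b_cl
  have halg : Algebra.IsAlgebraic ℚ Om := gb1b_alg
  have hinv := Pool.Agent.Ord.isInvariant_int (Ω := Om)
  let _ : TopologicalSpace (𝓞 Om) := ⊥
  have : DiscreteTopology (𝓞 Om) := ⟨rfl⟩
  have hcont : ContinuousSMul Gal(Om/ℚ) (𝓞 Om) := by
    rw [continuousSMul_iff_stabilizer_isOpen]
    intro x
    have h1 := stabilizer_isOpen_of_isIntegral (K := ℚ) (x : Om)
    have h2 : (MulAction.stabilizer Gal(Om/ℚ) x : Set Gal(Om/ℚ)) = (MulAction.stabilizer Gal(Om/ℚ) (x : Om) : Set Gal(Om/ℚ)) := by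
      ext g
      simp only [SetLike.mem_coe, MulAction.mem_stabilizer_iff]
      constructor
      · intro h
        exact congrArg (fun y : 𝓞 Om => (y : Om)) h
      · intro h
        exact RingOfIntegers.coe_injective h
    rw [h2]
    exact h1
  have hP : ∀ R : Ideal (𝓞 Om), R.IsPrime → (p : 𝓞 Om) ∈ R → R.under ℤ = Ideal.span {(p : ℤ)} := by
    intro R hR hpR
    ext m
    rw [Ideal.mem_span_singleton, ← Pool.Agent.Ord.intCast_mem_iff hp hR hpR]
    show algebraMap ℤ (𝓞 Om) m ∈ R ↔ _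
    simp
  obtain ⟨g, hg⟩ := Algebra.IsInvariant.exists_smul_of_under_eq_of_profinite (A := ℤ) (G := Gal(Om/ℚ)) Q Q'
    ((hP Q hQ hpQ).trans (hP Q' hQ' hpQ').symm)
  refine ⟨g, fun x => ?_⟩
  rw [hg]
  exact (Ideal.smul_mem_pointwise_smul_iff (a := g) (S := Q) (x := x)).symm

end H25G
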