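import Pool.Agent.Lib.H25G.GB1
import Pool.Agent.Lib.H25G.GB1B

/-! # H25G, chunk GB2B: Frobenius elements at P and powers of Frobenius elements at p -/

set_option autoImplicit false

open NumberField Pool.Agent.GSem

namespace H25G

variable {l : ℕ} [Fact l.Prime] {n : ℕ}

/-- (M) GB2b. A Frobenius element at a prime P of M of degree f over p has the same image as the f-th power of a Frobenius element at p.
Proof. Q from IsFrP. p^f = Nm P is in P (Ideal.absNorm_mem), so p is in Q. gb1_frob: φ for Q. φ^f x = x^(p^f) modulo Q by induction (φ maps Q to Q). So g and φ^f agree modulo Q and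
s = (φ^f)^-1 g satisfies s x - x in Q (as in gb2_conj), so ρ s = 1. -/
theorem gb2_pow {ρ : Gal(Om/ℚ) →* GL (Fin n) ℚ_[l]} {S : Finset ℕ} (hρ : Unram ρ S) (M : IntermediateField ℚ Om) [NumberField M] (P : CFT.Pr M)
    {g : Gal(Om/ℚ)} (hg : IsFrP M P g) {p f : ℕ} (hp : p.Prime) (hpS : p ∉ S) (hN : CFT.Nm P = p ^ f) :
    ∃ φ : Gal(Om/ℚ), IsFrobAt p φ ∧ ρ g = ρ φ ^ f := by
  obtain ⟨hgM, Q, hQ, hPQ, h1⟩ := hg
  have hNQ : ((p ^ f : ℕ) : 𝓞 Om) ∈ Q := by
    have h2 : ((CFT.Nm P : ℕ) : 𝓞 M) ∈ P.asIdeal := Ideal.absNorm_mem P.asIdeal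
    rw [← hPQ, Ideal.mem_comap, map_natCast, hN] at h2
    exact h2
  have hpQ : (p : 𝓞 Om) ∈ Q := by
    rw [Nat.cast_pow] at hNQ
    exact hQ.mem_of_pow_mem _ hNQ
  obtain ⟨φ, hφ⟩ := gb1_frob hp hQ hpQ
  refine ⟨φ, ⟨Q, hQ, hpQ, hφ⟩, ?_⟩
  have h2 : ∀ (k : ℕ) (x : 𝓞 Om), (φ ^ k) • x - x ^ (p ^ k) ∈ Q := by
    intro k
    induction k with
    | zero =>
      intro x
      rw [pow_zero, pow_zero, one_smul, pow_one, sub_self]
      exact Q.zero_mem
    | succ k ih =>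
      intro x
      have h3 := hφ ((φ ^ k) • x)
      rw [← mul_smul, ← pow_succ'] at h3
      have h4 : ((φ ^ k) • x) ^ p - (x ^ (p ^ k)) ^ p ∈ Q := by
        rw [← Ideal.Quotient.eq, map_pow, map_pow, Ideal.Quotient.eq.2 (ih x)]
      have h5 := Q.add_mem h3 h4
      rw [sub_add_sub_cancel, ← pow_mul, ← pow_succ] at h5
      exact h5
  have h5 : ∀ y : 𝓞 Om, (φ ^ f) • y ∈ Q → y ∈ Q := by
    intro y hy
    have h6 : y ^ (p ^ f) ∈ Q := by
      have h7 := Q.sub_mem hy (h2 f y)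
      rwa [sub_sub_cancel] at h7
    exact hQ.mem_of_pow_mem _ h6
  have h6 : ρ ((φ ^ f)⁻¹ * g) = 1 := by
    refine hρ p hp hpS Q hQ hpQ _ fun x => ?_
    apply h5
    rw [smul_sub, mul_smul, smul_inv_smul]
    have h7 := Q.sub_mem (h1 x) (h2 f x)
    rw [hN] at h7
    rwa [sub_sub_sub_cancel_right] at h7
  rw [map_mul, map_inv, inv_mul_eq_one] at h6
  rw [← h6, map_pow]

end H25G
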