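import Pool.Agent.Lib.H25G.Defs

/-! # H25G, chunk GF1: eigenvalues of Kronecker powers -/

set_option autoImplicit false

open Module

namespace H25G

/-- An eigenvector in a stable subspace. -/
theorem gf1_stable {k V : Type*} [Field k] [IsAlgClosed k] [AddCommGroup V] [Module k V] [FiniteDimensional k V] (p : Submodule k V)
    (hp : p ≠ ⊥) (f : Module.End k V) (hf : ∀ x ∈ p, f x ∈ p) : ∃ v ∈ p, v ≠ 0 ∧ ∃ α : k, f v = α • v := by
  have hnt : Nontrivial p := (Submodule.nontrivial_iff_ne_bot).2 hp
  obtain ⟨α, hα⟩ := Module.End.exists_eigenvalue (f.restrict hf)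
  obtain ⟨v, hv⟩ := hα.exists_hasEigenvector
  refine ⟨v, v.2, fun h => hv.2 (Subtype.ext h), α, ?_⟩
  have h1 := hv.apply_eq_smul
  have h2 := congrArg Subtype.val h1
  rw [LinearMap.coe_restrict_apply] at h2
  exact h2

theorem gf1_comm {k V : Type*} [Field k] [IsAlgClosed k] [AddCommGroup V] [Module k V] [FiniteDimensional k V]
    (f g : Module.End k V) (hfg : ∀ x, f (g x) = g (f x)) (c : k) (w : V) (hw : w ≠ 0) (h : f (g w) = c • w) :
    ∃ v : V, v ≠ 0 ∧ ∃ α β : k, f v = α • v ∧ g v = β • v ∧ c = α * β := by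
  let E : Submodule k V :=
    { carrier := {x | f (g x) = c • x}
      zero_mem' := by
        show f (g 0) = c • 0
        rw [map_zero, map_zero, smul_zero]
      add_mem' := by
        intro a b ha hb
        show f (g (a + b)) = c • (a + b)
        rw [map_add, map_add, show f (g a) = c • a from ha, show f (g b) = c • b from hb, smul_add]
      smul_mem' := by
        intro r x hx
        show f (g (r • x)) = c • (r • x)
        rw [map_smul, map_smul, show f (g x) = c • x from hx, smul_comm] }
  have hE : E ≠ ⊥ := by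
    intro h0
    have h1 : w ∈ E := h
    rw [h0, Submodule.mem_bot] at h1
    exact hw h1
  obtain ⟨v, hvE, hv0, α, hα⟩ := gf1_stable E hE f (by
    intro x hx
    show f (g (f x)) = c • f x
    rw [← hfg, show f (g x) = c • x from hx, map_smul])
  let E1 : Submodule k V :=
    { carrier := {x | f (g x) = c • x ∧ f x = α • x}
      zero_mem' := by
        refine ⟨E.zero_mem, ?_⟩
        rw [map_zero, smul_zero]
      add_mem' := by
        intro a b ha hb
        refine ⟨E.add_mem ha.1 hb.1, ?_⟩
        rw [map_add, ha.2, hb.2, smul_add]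
      smul_mem' := by
        intro r x hx
        refine ⟨E.smul_mem r hx.1, ?_⟩
        rw [map_smul, hx.2, smul_comm] }
  have hE1 : E1 ≠ ⊥ := by
    intro h0
    have h1 : v ∈ E1 := ⟨hvE, hα⟩
    rw [h0, Submodule.mem_bot] at h1
    exact hv0 h1
  obtain ⟨u, huE, hu0, β, hβ⟩ := gf1_stable E1 hE1 g (by
    intro x hx
    refine ⟨?_, ?_⟩
    · show f (g (g x)) = c • g x
      rw [hfg (g x), hx.1, map_smul]
    · show f (g x) = α • g x
      rw [hfg, hx.2, map_smul])
  refine ⟨u, hu0, α, β, huE.2, hβ, ?_⟩
  have h1 : f (g u) = c • u := huE.1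
  rw [hβ, map_smul, huE.2, smul_smul] at h1
  have h2 : (β * α - c) • u = 0 := by rw [sub_smul, h1, sub_self]
  rcases smul_eq_zero.1 h2 with h3 | h3
  · rw [mul_comm α β]
    exact (sub_eq_zero.1 h3).symm
  · exact absurd h3 hu0

/-- Kronecker powers of a general matrix. -/
theorem gf1_gen {k : Type*} [Field k] [IsAlgClosed k] {J : Type*} [Fintype J] (A : Matrix J J k) (a : ℕ) :
    ∀ (c : k) (w : (Fin a → J) → k), w ≠ 0 → (∀ I, ∑ K : Fin a → J, (∏ t, A (I t) (K t)) * w K = c * w I) →
      ∃ μ : Fin a → k, c = ∏ t, μ t ∧ ∀ t, ∃ u : J → k, u ≠ 0 ∧ A.mulVec u = μ t • u := by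
  induction a with
  | zero =>
    intro c w hw h
    refine ⟨fun t => t.elim0, ?_, fun t => t.elim0⟩
    obtain ⟨I, hI⟩ := Function.ne_iff.1 hw
    have h1 := h I
    rw [Fintype.sum_unique] at h1
    have h2 : (default : Fin 0 → J) = I := Subsingleton.elim _ _
    rw [h2, Finset.univ_eq_empty, Finset.prod_empty, one_mul] at h1
    rw [Finset.univ_eq_empty, Finset.prod_empty]
    have h3 : (c - 1) * w I = 0 := by rw [sub_mul, one_mul, ← h1, sub_self]
    rcases mul_eq_zero.1 h3 with h4 | h4
    · exact sub_eq_zero.1 h4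
    · exact absurd h4 hI
  | succ a ih =>
    intro c w hw h
    let B : Matrix (Fin a → J) (Fin a → J) k := fun x y => ∏ t, A (x t) (y t)
    let f : Module.End k (Matrix J (Fin a → J) k) :=
      { toFun := fun W => A * W
        map_add' := fun X Y => Matrix.mul_add A X Y
        map_smul' := fun r X => Matrix.mul_smul A r X }
    let g : Module.End k (Matrix J (Fin a → J) k) :=
      { toFun := fun W => W * B.transpose
        map_add' := fun X Y => Matrix.add_mul X Y _
        map_smul' := fun r X => Matrix.smul_mul r X _ }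
    let W : Matrix J (Fin a → J) k := fun i x => w (Fin.cons i x)
    have hW : W ≠ 0 := by
      intro h0
      apply hw
      funext I
      have h1 : W (I 0) (Fin.tail I) = 0 := by rw [h0]; rfl
      have h2 : W (I 0) (Fin.tail I) = w I := by
        show w (Fin.cons (I 0) (Fin.tail I)) = w I
        rw [Fin.cons_self_tail]
      rw [← h2, h1]
      rfl
    have hWc : f (g W) = c • W := by
      ext i x
      show (A * (W * B.transpose)) i x = c * w (Fin.cons i x)
      rw [← h (Fin.cons i x), ← (Fin.consEquiv (fun _ => J)).sum_comp, Fintype.sum_prod_type, Matrix.mul_apply]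
      refine Finset.sum_congr rfl fun j _ => ?_
      rw [Matrix.mul_apply, Finset.mul_sum]
      refine Finset.sum_congr rfl fun y _ => ?_
      rw [Fin.prod_univ_succ]
      show A i j * (w (Fin.cons j y) * ∏ t, A (x t) (y t)) = _
      have e1 : (Fin.consEquiv (fun _ => J)) (j, y) = (Fin.cons j y : Fin (a + 1) → J) := rfl
      rw [e1]
      simp only [Fin.cons_zero, Fin.cons_succ]
      ring
    obtain ⟨v, hv0, α, β, hα, hβ, hc⟩ := gf1_comm f g (fun X => (Matrix.mul_assoc A X _).symm) c W hW hWc
    obtain ⟨i, hi⟩ := Function.ne_iff.1 hv0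
    obtain ⟨x, hx⟩ := Function.ne_iff.1 hi
    obtain ⟨μ, hμ, hμ2⟩ := ih β (fun y => v i y) (fun h0 => hi h0) (by
      intro y
      have h1 : (v * B.transpose) i y = β * v i y := congrFun (congrFun hβ i) y
      rw [← h1, Matrix.mul_apply]
      refine Finset.sum_congr rfl fun z _ => ?_
      exact mul_comm _ _)
    refine ⟨Fin.cons α μ, ?_, ?_⟩
    · rw [Fin.prod_univ_succ]
      simp only [Fin.cons_zero, Fin.cons_succ]
      rw [hc, hμ]
    · intro t
      refine Fin.cases ?_ (fun t' => ?_) t
      · refine ⟨fun j => v j x, fun h0 => hx (congrFun h0 i), ?_⟩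
        funext j
        have h1 : (A * v) j x = α * v j x := congrFun (congrFun hα j) x
        rw [Fin.cons_zero]
        show (A.mulVec fun j => v j x) j = α * v j x
        rw [← h1]
        rfl
      · rw [Fin.cons_succ]
        exact hμ2 t'

theorem gf1_root {k : Type*} [Field k] {J : Type*} [Fintype J] [DecidableEq J] (A : Matrix J J k) (c : k) (u : J → k) (hu : u ≠ 0)
    (h : A.mulVec u = c • u) : A.charpoly.IsRoot c := by
  rw [Polynomial.IsRoot.def, Matrix.eval_charpoly, ← Matrix.exists_mulVec_eq_zero_iff]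
  refine ⟨u, hu, ?_⟩
  rw [Matrix.sub_mulVec, h, Matrix.scalar_apply]
  funext i
  rw [Pi.sub_apply, Matrix.mulVec_diagonal]
  exact sub_self _

theorem gf1_root' {k : Type*} [Field k] {J : Type*} [Fintype J] [DecidableEq J] (A : Matrix J J k) (c : k)
    (h : A.charpoly.IsRoot c) : ∃ u : J → k, u ≠ 0 ∧ A.mulVec u = c • u := by
  rw [Polynomial.IsRoot.def, Matrix.eval_charpoly, ← Matrix.exists_mulVec_eq_zero_iff] at h
  obtain ⟨u, hu, h1⟩ := h
  refine ⟨u, hu, ?_⟩
  rw [Matrix.sub_mulVec, sub_eq_zero, Matrix.scalar_apply] at h1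
  rw [← h1]
  funext i
  rw [Matrix.mulVec_diagonal]
  rfl

/-- (M) GF1. k algebraically closed. An eigenvalue of tT a g is a product of a numbers, each of which is 1, a root of the characteristic polynomial of g, or the inverse of such a root.
Proof. For t in Fin a let S_t be the matrix with entry mM g (I t) (J t) if I and J agree outside t, and 0 otherwise (the operator mM g in the slot t). The S_t commute and their product is tT a g.
The eigenspace E of tT a g for c is stable under all S_t, so it contains a common eigenvector w: S_t w = μ_t w, c = product of the μ_t. q(S_t) is the operator q(mM g) in the slot t for every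
polynomial q; with q the characteristic polynomial of mM g (Cayley-Hamilton) q(S_t) = 0, so q(μ_t) = 0. And q = (X - 1) charpoly(g) charpoly(transpose of g^-1) (block diagonal), the roots of the last one being the
inverses of those of g (det(μ - g^-1) = 0 iff det(μ g - 1) = 0 iff det(μ^-1 - g) = 0, μ not 0).
Alternative: induction on a with Fin (a+1) -> J equivalent to J x (Fin a -> J): an eigenvalue of a Kronecker product A (x) B is a product of an eigenvalue of A and one of B. -/
theorem gf1 {k : Type*} [Field k] [IsAlgClosed k] {n : ℕ} (a : ℕ) (g : GL (Fin n) k) (c : k) (w : (Fin a → Jx n) → k) (hw : w ≠ 0)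
    (h : (tT a g).mulVec w = c • w) :
    ∃ μ : Fin a → k, c = ∏ t, μ t ∧ ∀ t, μ t = 1 ∨ (g : Matrix (Fin n) (Fin n) k).charpoly.IsRoot (μ t) ∨
      (g : Matrix (Fin n) (Fin n) k).charpoly.IsRoot (μ t)⁻¹ := by
  obtain ⟨μ, hμ, hμ2⟩ := gf1_gen (mM g) a c w hw (fun I => congrFun h I)
  refine ⟨μ, hμ, fun t => ?_⟩
  obtain ⟨u, hu, hu2⟩ := hμ2 t
  unfold mM at hu2
  rw [Matrix.fromBlocks_mulVec] at hu2
  by_cases h0 : u (Sum.inl ()) = 0
  · by_cases h1 : (fun i => u (Sum.inr (Sum.inl i))) = (0 : Fin n → k)
    · right; right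
      have h2 : (fun i => u (Sum.inr (Sum.inr i))) ≠ (0 : Fin n → k) := by
        intro h2
        apply hu
        funext i
        rcases i with i | i | i
        · exact h0
        · exact congrFun h1 i
        · exact congrFun h2 i
      have h3 : (((g⁻¹ : GL (Fin n) k) : Matrix (Fin n) (Fin n) k).transpose).mulVec (fun i => u (Sum.inr (Sum.inr i))) =
          μ t • (fun i => u (Sum.inr (Sum.inr i))) := by
        funext i
        have h4 := congrFun hu2 (Sum.inr (Sum.inr i))
        simp only [Matrix.fromBlocks_mulVec, Sum.elim_inr, Matrix.zero_mulVec, Pi.add_apply, Pi.zero_apply, zero_add, Pi.smul_apply] at h4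
        rw [Pi.smul_apply, ← h4]
        rfl
      have h5 : (fun i => u (Sum.inr (Sum.inr i))) = μ t • ((g : Matrix (Fin n) (Fin n) k).transpose).mulVec (fun i => u (Sum.inr (Sum.inr i))) := by
        rw [← Matrix.mulVec_smul, ← h3, Matrix.mulVec_mulVec, ← Matrix.transpose_mul]
        rw [← Units.val_mul, inv_mul_cancel, Units.val_one, Matrix.transpose_one, Matrix.one_mulVec]
      have h6 : μ t ≠ 0 := by
        intro h7
        rw [h7, zero_smul] at h5
        exact h2 h5
      rw [← Matrix.charpoly_transpose]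
      apply gf1_root _ _ _ h2
      conv_rhs => rw [h5]
      rw [smul_smul, inv_mul_cancel₀ h6, one_smul]
    · right; left
      apply gf1_root _ _ _ h1
      funext i
      have h4 := congrFun hu2 (Sum.inr (Sum.inl i))
      simp only [Matrix.fromBlocks_mulVec, Sum.elim_inr, Sum.elim_inl, Matrix.zero_mulVec, Pi.add_apply, Pi.zero_apply, zero_add, add_zero, Pi.smul_apply] at h4
      rw [Pi.smul_apply, ← h4]
      rfl
  · left
    have h4 := congrFun hu2 (Sum.inl ())
    simp only [Sum.elim_inl, Matrix.one_mulVec, Matrix.zero_mulVec, Pi.add_apply, Pi.zero_apply, add_zero, Pi.smul_apply, smul_eq_mul, Function.comp] at h4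
    have h5 : (μ t - 1) * u (Sum.inl ()) = 0 := by rw [sub_mul, one_mul, ← h4, sub_self]
    rcases mul_eq_zero.1 h5 with h6 | h6
    · exact sub_eq_zero.1 h6
    · exact absurd h6 h0

/-- (S/M) GF1b. A root of the characteristic polynomial of g^f is the f-th power of a root of that of g (f >= 1 or n >= 1; spectral mapping: Module.End / Matrix.charpoly_pow or spectrum.map_pow_of_nonempty;
or: over an algebraically closed field det(x - g^f) = product of det(y - g) over y^f = x up to sign). -/
theorem gf1_pow {k : Type*} [Field k] [IsAlgClosed k] {n : ℕ} (f : ℕ) (g : Matrix (Fin n) (Fin n) k) (c : k) (h : (g ^ f).charpoly.IsRoot c) :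
    ∃ d : k, g.charpoly.IsRoot d ∧ c = d ^ f := by
  obtain ⟨u, hu, hu2⟩ := gf1_root' _ _ h
  let E : Submodule k (Fin n → k) :=
    { carrier := {x | (g ^ f).mulVec x = c • x}
      zero_mem' := by
        show (g ^ f).mulVec 0 = c • 0
        rw [Matrix.mulVec_zero, smul_zero]
      add_mem' := by
        intro a b ha hb
        show (g ^ f).mulVec (a + b) = c • (a + b)
        rw [Matrix.mulVec_add, show (g ^ f).mulVec a = c • a from ha, show (g ^ f).mulVec b = c • b from hb, smul_add]
      smul_mem' := by
        intro r x hx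
        show (g ^ f).mulVec (r • x) = c • (r • x)
        rw [Matrix.mulVec_smul, show (g ^ f).mulVec x = c • x from hx, smul_comm] }
  have hE : E ≠ ⊥ := by
    intro h0
    have h1 : u ∈ E := hu2
    rw [h0, Submodule.mem_bot] at h1
    exact hu h1
  obtain ⟨v, hvE, hv0, d, hd⟩ := gf1_stable E hE (Matrix.mulVecLin g) (by
    intro x hx
    show (g ^ f).mulVec (g.mulVec x) = c • g.mulVec x
    rw [Matrix.mulVec_mulVec, ← pow_succ, pow_succ', ← Matrix.mulVec_mulVec, show (g ^ f).mulVec x = c • x from hx, Matrix.mulVec_smul])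
  have hd' : g.mulVec v = d • v := hd
  refine ⟨d, gf1_root _ _ _ hv0 hd', ?_⟩
  have h1 : ∀ m : ℕ, (g ^ m).mulVec v = d ^ m • v := by
    intro m
    induction m with
    | zero => rw [pow_zero, pow_zero, Matrix.one_mulVec, one_smul]
    | succ m ih => rw [pow_succ, ← Matrix.mulVec_mulVec, hd', Matrix.mulVec_smul, ih, smul_smul, pow_succ']
  have h2 : (g ^ f).mulVec v = c • v := hvE
  rw [h1 f] at h2
  have h3 : (d ^ f - c) • v = 0 := by rw [sub_smul, h2, sub_self]
  rcases smul_eq_zero.1 h3 with h4 | h4
  · exact (sub_eq_zero.1 h4).symm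
  · exact absurd h4 hv0

end H25G
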