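import Pool.Agent.Lib.H25G.TwD
import Pool.Agent.Lib.Helper95.Ord.DegOne

/-! # H25G, chunk GB4B: separation modulo a large prime -/

set_option autoImplicit false

open NumberField Pool.Agent.GSem

namespace H25G

theorem gb4b_alg : @Algebra.IsAlgebraic ℚ Om _ _ DivisionRing.toRatAlgebra := by
  have h : (DivisionRing.toRatAlgebra : Algebra ℚ Om) = AlgebraicClosure.instAlgebra ℚ := Subsingleton.elim _ _
  rw [h]
  infer_instance

theorem gb4b_cl : IsAlgClosure ℚ Om := ⟨inferInstance, gb4b_alg⟩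

/-- (M) GB4b. For p large: if t and t' have the same restriction to 𝓞 M modulo Q then they agree on M. Proof. Choose B, η, Δ by Pool.Agent.Ord.exists_intPowerBasis and exists_int_discr for K = M
(Helper95/Ord/DegOne.lean); b = |Δ|. If p > b is in Q and t η - t' η is in Q then the embeddings t|M and t'|M are equal by
Pool.Agent.Ord.eq_of_sub_mem. -/
theorem gb4_sep (M : IntermediateField ℚ Om) [NumberField M] : ∃ b : ℕ, ∀ p : ℕ, b < p → p.Prime → ∀ Q : Ideal (𝓞 Om), Q.IsPrime → (p : 𝓞 Om) ∈ Q →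
    ∀ t t' : Gal(Om/ℚ), (∀ x : 𝓞 M, t • (algebraMap (𝓞 M) (𝓞 Om) x) - t' • (algebraMap (𝓞 M) (𝓞 Om) x) ∈ Q) → t'⁻¹ * t ∈ M.fixingSubgroup := by
  classical
  have hcl : IsAlgClosure ℚ Om := gb4b_cl
  obtain ⟨B, η, hη⟩ := Pool.Agent.Ord.exists_intPowerBasis M
  obtain ⟨Δ, hΔ⟩ := Pool.Agent.Lib.H59.exists_int_discr hη
  have hΔ0 : Δ ≠ 0 := by
    intro h0
    have h1 := Algebra.discr_not_zero_of_basis ℚ B.basis
    rw [← hΔ, h0] at h1
    simp at h1
  refine ⟨Δ.natAbs, fun p hp hpp Q hQ hpQ t t' h => ?_⟩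
  have hpΔ : ¬ (p : ℤ) ∣ Δ := by
    intro h
    have h1 := Nat.le_of_dvd (Int.natAbs_pos.2 hΔ0) (Int.natCast_dvd.1 h)
    omega
  have hom : ∀ (s : Gal(Om/ℚ)) (x : 𝓞 M), Pool.Agent.Ord.om (Pool.Agent.Ord.actE s M.val) x = s • (algebraMap (𝓞 M) (𝓞 Om) x) := by
    intro s x
    apply RingOfIntegers.coe_injective
    rfl
  have key : Pool.Agent.Ord.actE t M.val = Pool.Agent.Ord.actE t' M.val := by
    apply Pool.Agent.Ord.eq_of_sub_mem hη hΔ hpp hpΔ hQ hpQ
    rw [hom, hom]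
    exact h η
  rw [IntermediateField.mem_fixingSubgroup_iff]
  intro x hx
  have h1 : t x = t' x := DFunLike.congr_fun key (⟨x, hx⟩ : M)
  show t'⁻¹ (t x) = x
  rw [h1]
  exact t'.symm_apply_apply x

end H25G
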