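import Pool.Agent.Lib.H25G.GB4B

/-! # H25G, chunk GB7: the characters which occur are unramified outside a finite set -/

set_option autoImplicit false

open NumberField Pool.Agent.GSem

namespace H25G

variable {l : ℕ} [Fact l.Prime] {n : ℕ}

/-- (M) GB7. A good character is trivial on the inertia groups at all primes outside a finite set.
Proof. GoodChar gives a, N, U open, η, v, f. ψ(h) = η(h) f(R(h) v), h = 1: f(v) = 1. Choose a finite extension M' of Q in Om with M'.fixingSubgroup <= U (U is open: krullTopology_mem_nhds_one_iff), and b from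
gb4_sep for M'. S' = S together with all numbers <= b. Let p be outside S', p in Q, s x - x in Q for all x. ρ(s) = 1 by Unram, so R(s) = 1 and ψ(s) = η(s) f(v) = η(s). gb4_sep with t = s, t' = 1:
s is in M'.fixingSubgroup, so in U, so η(s) = 1. -/
theorem gb7 {ρ : Gal(Om/ℚ) →* GL (Fin n) ℚ_[l]} {S : Finset ℕ} (hρ : Unram ρ S) (H : Subgroup Gal(Om/ℚ)) (ψ : H →* (PadicAlgCl l)ˣ) (hψ : GoodChar ρ H ψ) :
    ∃ S' : Finset ℕ, S ⊆ S' ∧ ∀ p : ℕ, p.Prime → p ∉ S' → ∀ Q : Ideal (𝓞 Om), Q.IsPrime → (p : 𝓞 Om) ∈ Q →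
      ∀ s : H, (∀ x : 𝓞 Om, (s : Gal(Om/ℚ)) • x - x ∈ Q) → ψ s = 1 := by
  obtain ⟨-, a, N, U, -, hUo, hUH, η, v, f, -, hηU, hψ1, -⟩ := hψ
  have hnhds : (U : Set Gal(Om/ℚ)) ∈ nhds (1 : Gal(Om/ℚ)) := hUo.mem_nhds U.one_mem
  obtain ⟨E, hE, hEU⟩ := (krullTopology_mem_nhds_one_iff ℚ Om _).1 hnhds
  have hnf : NumberField E := { to_charZero := inferInstance, to_finiteDimensional := hE }
  obtain ⟨b, hb⟩ := gb4_sep E
  have hf1 : f v = 1 := by
    have h1 := hψ1 1
    rw [map_one, map_one, OneMemClass.coe_one, map_one, Units.val_one, one_mul] at h1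
    exact h1.symm
  refine ⟨S ∪ Finset.range (b + 1), Finset.subset_union_left, fun p hp hpS Q hQ hpQ s hs => ?_⟩
  rw [Finset.mem_union, not_or, Finset.mem_range, not_lt] at hpS
  have hρs : ρ s = 1 := hρ p hp hpS.1 Q hQ hpQ s hs
  have hR : Rl ρ a s = 1 := by
    have : Rl ρ a s = Rl ρ a 1 := by
      unfold Rl
      simp [hρs]
    rw [this, map_one]
  have hsE : (s : Gal(Om/ℚ)) ∈ E.fixingSubgroup := by
    have := hb p (by omega) hp Q hQ hpQ s 1 (fun x => by
      rw [one_smul]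
      exact hs _)
    rwa [inv_one, one_mul] at this
  have hη : η s = 1 := hηU s (hEU hsE)
  apply Units.ext
  rw [hψ1 s, hη, hR, Units.val_one, one_mul]
  exact hf1

end H25G
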