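import Pool.Agent.Lib.H25G.Defs

/-! # H25G, chunk GA1: basic facts on induced functions -/

set_option autoImplicit false

namespace H25G

variable {Γ k : Type*} [Group Γ] [Field k]

/-- (S) GA1a. For a function F on H which is constant on the conjugacy classes of H the value of the summand does not depend on the representative:
if s and t are in the same coset then s = t h, h in H, and s^-1 g s = h^-1 (t^-1 g t) h. -/
theorem ga1_ind (H : Subgroup Γ) (F : H → k) (hF : ∀ a b : H, F (a * b * a⁻¹) = F b) (g s t : Γ) (hst : (s : Γ ⧸ H) = t)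
    (hs : s⁻¹ * g * s ∈ H) : ∃ ht : t⁻¹ * g * t ∈ H, F ⟨_, hs⟩ = F ⟨_, ht⟩ := by
  have h1 : s⁻¹ * t ∈ H := QuotientGroup.eq.1 hst
  have h2 : t⁻¹ * g * t = (s⁻¹ * t)⁻¹ * (s⁻¹ * g * s) * (s⁻¹ * t) := by group
  have h3 : t⁻¹ * g * t ∈ H := by
    rw [h2]
    exact H.mul_mem (H.mul_mem (H.inv_mem h1) hs) h1
  refine ⟨h3, ?_⟩
  have h4 := hF (⟨_, h1⟩ : H)⁻¹ ⟨_, hs⟩
  rw [← h4]
  congr 1
  apply Subtype.ext
  change ((s⁻¹ * t)⁻¹) * (s⁻¹ * g * s) * ((s⁻¹ * t)⁻¹)⁻¹ = t⁻¹ * g * t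
  group


/-- (S) GA1b. ind is linear in F (H of finite index). -/
theorem ga1_sum (H : Subgroup Γ) [H.FiniteIndex] {m : ℕ} (c : Fin m → k) (F : Fin m → H → k) (g : Γ) :
    ind H (fun h => ∑ i, c i * F i h) g = ∑ i, c i * ind H (F i) g := by
  classical
  haveI : Fintype (Γ ⧸ H) := Fintype.ofFinite _
  unfold ind
  simp only [finsum_eq_sum_of_fintype, Finset.mul_sum]
  rw [Finset.sum_comm]
  refine Finset.sum_congr rfl fun t _ => ?_
  split_ifs with h
  · rfl
  · simp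


/-- (S) GA1c. Conjugation in the big group: ind F (x g x^-1) = ind F g for F constant on the conjugacy classes of H
(reindex the cosets by t -> x t and use ga1_ind). -/
theorem ga1_conj (H : Subgroup Γ) (F : H → k) (hF : ∀ a b : H, F (a * b * a⁻¹) = F b) (g x : Γ) :
    ind H F (x * g * x⁻¹) = ind H F g := by
  classical
  have hsm : ∀ (g s t : Γ), (s : Γ ⧸ H) = t → (if h : s⁻¹ * g * s ∈ H then F ⟨_, h⟩ else 0) = (if h : t⁻¹ * g * t ∈ H then F ⟨_, h⟩ else 0) := by
    intro g s t hst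
    by_cases hs : s⁻¹ * g * s ∈ H
    · obtain ⟨ht, h⟩ := ga1_ind H F hF g s t hst hs
      rw [dif_pos hs, dif_pos ht, h]
    · have ht : ¬ (t⁻¹ * g * t ∈ H) := by
        intro ht
        obtain ⟨hs', _⟩ := ga1_ind H F hF g t s hst.symm ht
        exact hs hs'
      rw [dif_neg hs, dif_neg ht]
  unfold ind
  rw [← finsum_comp_equiv (MulAction.toPerm x : Equiv.Perm (Γ ⧸ H))]
  refine finsum_congr fun t => ?_
  rw [MulAction.toPerm_apply]
  have h1 : ((x • t).out : Γ ⧸ H) = ((x * t.out : Γ) : Γ ⧸ H) := by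
    rw [QuotientGroup.out_eq', ← smul_eq_mul, ← MulAction.Quotient.smul_coe]
    rw [QuotientGroup.out_eq']
  rw [hsm _ _ _ h1]
  have h2 : (x * t.out)⁻¹ * (x * g * x⁻¹) * (x * t.out) = t.out⁻¹ * g * t.out := by group
  simp only [h2]


end H25G
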