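import Pool.Agent.Lib.H25G.GA1

/-! # H25G, chunk GA2: Artin's formula -/

set_option autoImplicit false

namespace H25G

variable {Γ k : Type*} [Group Γ] [Field k]

open Classical in
/-- (M) GA2. U normal of finite index, F constant on conjugacy classes. For s in the finite group G = Γ/U let F_s be the function on Gs U s
(preimage of the cyclic group <s>) which is F on the coset s and 0 elsewhere. Then sum_s |<s>| ind(F_s)(g) = |G| F(g).

Proof. The summand of ind(F_s)(g) at a coset t of Gs U s is F(t^-1 g t) = F(g) if the class of t^-1 g t in G is s, and 0 otherwise (an element whose class is s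
is in Gs U s; the condition depends only on the coset of t modulo Gs U s: for u with class s^j: (t u)^-1 g (t u) has class s^-j s s^j = s).
So the sum over t is F(g) times the number of cosets t in Γ/Gs with t^-1 g t of class s. Each coset of Gs contains |<s>| elements of G = Γ/U
(Subgroup.card_quotient / the map Γ/U -> Γ/Gs has fibres of that size), so |<s>| ind(F_s)(g) = F(g) #{t in G : t^-1 gbar t = s}, and summing over s gives F(g) |G|.
(One can also define the map G -> (Γ/Gs) directly.) -/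
theorem ga2 (U : Subgroup Γ) [U.Normal] [U.FiniteIndex] (F : Γ → k) (hF : ∀ a b, F (a * b * a⁻¹) = F b) (g : Γ) :
    ∑ᶠ s : Γ ⧸ U, (Nat.card (Subgroup.zpowers s) : k) * ind (Gs U s) (fun h => if ((h : Γ) : Γ ⧸ U) = s then F h else 0) g =
      (Nat.card (Γ ⧸ U) : k) * F g := by
  classical
  haveI : Fintype (Γ ⧸ U) := Fintype.ofFinite _
  have hle : ∀ s : Γ ⧸ U, U ≤ Gs U s := by
    intro s u hu
    change (QuotientGroup.mk' U) u ∈ Subgroup.zpowers s
    have h1 : (QuotientGroup.mk' U) u = 1 := (QuotientGroup.eq_one_iff u).2 hu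
    rw [h1]
    exact Subgroup.one_mem _
  have hfi : ∀ s : Γ ⧸ U, (Gs U s).FiniteIndex := fun s => Subgroup.finiteIndex_of_le (hle s)
  -- number of elements of a fibre
  have hcard : ∀ s : Γ ⧸ U, Nat.card (Gs U s ⧸ U.subgroupOf (Gs U s)) = Nat.card (Subgroup.zpowers s) := by
    intro s
    have h2 : U.relIndex (Gs U s) = Nat.card (Subgroup.zpowers s) := by
      have h3 := Subgroup.relIndex_comap (⊥ : Subgroup (Γ ⧸ U)) (QuotientGroup.mk' U) (Gs U s)
      rw [MonoidHom.comap_bot, QuotientGroup.ker_mk', Subgroup.relIndex_bot_left] at h3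
      rw [h3, Gs, Subgroup.map_comap_eq_self_of_surjective (QuotientGroup.mk'_surjective U)]
    exact h2
  have hmain : ∀ s : Γ ⧸ U, (Nat.card (Subgroup.zpowers s) : k) * ind (Gs U s) (fun h => if ((h : Γ) : Γ ⧸ U) = s then F h else 0) g =
      F g * ∑ t : Γ ⧸ U, if t⁻¹ * (g : Γ ⧸ U) * t = s then (1 : k) else 0 := by
    intro s
    haveI := hfi s
    haveI : Fintype (Γ ⧸ Gs U s) := Fintype.ofFinite _
    haveI : Finite (Gs U s ⧸ U.subgroupOf (Gs U s)) := by
      apply Nat.finite_of_card_ne_zero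
      rw [hcard s]
      exact Nat.card_pos.ne'
    haveI : Fintype (Gs U s ⧸ U.subgroupOf (Gs U s)) := Fintype.ofFinite _
    have e := Subgroup.quotientEquivProdOfLE (hle s)
    -- the condition depends only on the coset
    have hdep : ∀ a b : Γ, (a : Γ ⧸ Gs U s) = b → (a : Γ ⧸ U)⁻¹ * (g : Γ ⧸ U) * a = s → (b : Γ ⧸ U)⁻¹ * (g : Γ ⧸ U) * b = s := by
      intro a b hab h
      have h1 : a⁻¹ * b ∈ Gs U s := QuotientGroup.eq.1 hab
      have h2 : ((a⁻¹ * b : Γ) : Γ ⧸ U) ∈ Subgroup.zpowers s := h1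
      obtain ⟨j, hj⟩ := Subgroup.mem_zpowers_iff.1 h2
      have h3 : (b : Γ ⧸ U) = a * s ^ j := by
        rw [hj, ← QuotientGroup.mk_mul, mul_inv_cancel_left]
      rw [h3]
      calc ((a : Γ ⧸ U) * s ^ j)⁻¹ * g * (a * s ^ j) = (s ^ j)⁻¹ * ((a : Γ ⧸ U)⁻¹ * g * a) * s ^ j := by group
        _ = s := by
          rw [h]
          group
    have hsum : ∑ t : Γ ⧸ U, (if t⁻¹ * (g : Γ ⧸ U) * t = s then (1 : k) else 0) =
        ∑ τ : Γ ⧸ Gs U s, (Nat.card (Subgroup.zpowers s) : k) * if ((τ.out : Γ) : Γ ⧸ U)⁻¹ * (g : Γ ⧸ U) * ((τ.out : Γ) : Γ ⧸ U) = s then (1 : k) else 0 := by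
      rw [← (Subgroup.quotientEquivProdOfLE (hle s)).symm.sum_comp, Fintype.sum_prod_type]
      refine Finset.sum_congr rfl fun τ _ => ?_
      have h1 : ∀ y : Gs U s ⧸ U.subgroupOf (Gs U s), (if ((Subgroup.quotientEquivProdOfLE (hle s)).symm (τ, y))⁻¹ * (g : Γ ⧸ U) * ((Subgroup.quotientEquivProdOfLE (hle s)).symm (τ, y)) = s then (1 : k) else 0)
          = if ((τ.out : Γ) : Γ ⧸ U)⁻¹ * (g : Γ ⧸ U) * ((τ.out : Γ) : Γ ⧸ U) = s then (1 : k) else 0 := by
        intro y
        obtain ⟨b, hb⟩ := QuotientGroup.mk_surjective ((Subgroup.quotientEquivProdOfLE (hle s)).symm (τ, y))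
        have h2 : (b : Γ ⧸ Gs U s) = τ := by
          have h3 : Subgroup.quotientEquivProdOfLE (hle s) (b : Γ ⧸ U) = (τ, y) := by
            rw [hb, Equiv.apply_symm_apply]
          exact congrArg Prod.fst h3
        have h4 : ((τ.out : Γ) : Γ ⧸ Gs U s) = b := by
          rw [QuotientGroup.out_eq', h2]
        rw [← hb]
        by_cases h5 : ((τ.out : Γ) : Γ ⧸ U)⁻¹ * (g : Γ ⧸ U) * ((τ.out : Γ) : Γ ⧸ U) = s
        · rw [if_pos h5, if_pos (hdep _ _ h4 h5)]
        · rw [if_neg h5, if_neg (fun h6 => h5 (hdep _ _ h4.symm h6))]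
      rw [Finset.sum_congr rfl fun y _ => h1 y, Finset.sum_const, nsmul_eq_mul, Finset.card_univ, ← Nat.card_eq_fintype_card, hcard s]
    rw [hsum, Finset.mul_sum]
    unfold ind
    rw [finsum_eq_sum_of_fintype, Finset.mul_sum]
    refine Finset.sum_congr rfl fun τ _ => ?_
    have hcoe : ((τ.out⁻¹ * g * τ.out : Γ) : Γ ⧸ U) = ((τ.out : Γ) : Γ ⧸ U)⁻¹ * (g : Γ ⧸ U) * ((τ.out : Γ) : Γ ⧸ U) := rfl
    by_cases h5 : ((τ.out : Γ) : Γ ⧸ U)⁻¹ * (g : Γ ⧸ U) * ((τ.out : Γ) : Γ ⧸ U) = s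
    · have h6 : τ.out⁻¹ * g * τ.out ∈ Gs U s := by
        change ((τ.out⁻¹ * g * τ.out : Γ) : Γ ⧸ U) ∈ Subgroup.zpowers s
        rw [hcoe, h5]
        exact Subgroup.mem_zpowers s
      rw [if_pos h5, dif_pos h6]
      have h7 : F (τ.out⁻¹ * g * τ.out) = F g := by
        have h8 := hF τ.out⁻¹ g
        rwa [inv_inv] at h8
      change _ * (if ((τ.out⁻¹ * g * τ.out : Γ) : Γ ⧸ U) = s then F (τ.out⁻¹ * g * τ.out) else 0) = _
      rw [hcoe, if_pos h5, h7]
      ring
    · rw [if_neg h5]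
      split_ifs with h6
      · change _ * (if ((τ.out⁻¹ * g * τ.out : Γ) : Γ ⧸ U) = s then F (τ.out⁻¹ * g * τ.out) else 0) = _
        rw [hcoe, if_neg h5]
        ring
      · ring
  rw [finsum_eq_sum_of_fintype, Finset.sum_congr rfl fun s _ => hmain s, ← Finset.mul_sum, Finset.sum_comm]
  have h9 : ∀ t : Γ ⧸ U, ∑ s : Γ ⧸ U, (if t⁻¹ * (g : Γ ⧸ U) * t = s then (1 : k) else 0) = 1 := by
    intro t
    rw [Finset.sum_ite_eq]
    simp
  rw [Finset.sum_congr rfl fun t _ => h9 t, Finset.sum_const, nsmul_eq_mul, mul_one, Finset.card_univ, ← Nat.card_eq_fintype_card]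
  ring


end H25G
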