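import Pool.Agent.Lib.H25G.Defs

/-! # H25G, chunk GA3: the indicator of a coset as a combination of characters -/

set_option autoImplicit false

namespace H25G

variable {Γ k : Type*} [Group Γ] [Field k]

open Classical in
/-- (M) GA3. k algebraically closed of characteristic 0, U normal of finite index in Γ, s in Γ/U of order e. The group Gs U s / U = <s> is cyclic of order e.
Choose a primitive e-th root of unity w in k (HasEnoughRootsOfUnity / IsAlgClosed; characteristic 0). For i = 0, .., e-1 let η_i be the character of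
Gs U s trivial on U with η_i(h) = w^(i j) if the class of h is s^j. Then sum_i w^(-i) η_i(h) = sum_i w^(i(j-1)) = e if s^j = s, else 0 (geometric sum). Take z_i = w^(-i)/e.
Construction of η_1: the homomorphism from zpowers s to k^* sending s to w (for instance zpowersHom on Multiplicative (ZMod e), or
monoidHomOfForallMemZpowers from Mathlib.GroupTheory.SpecificGroups.Cyclic, or the duality theory of finite abelian groups in
Mathlib.GroupTheory.FiniteAbelian.Duality), composed with Gs U s -> zpowers s; η_i = η_1^i. -/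
theorem ga3 [IsAlgClosed k] [CharZero k] (U : Subgroup Γ) [U.Normal] [U.FiniteIndex] (s : Γ ⧸ U) :
    ∃ (e : ℕ) (η : Fin e → (Gs U s →* kˣ)) (z : Fin e → k), (∀ i h, η i h ^ Nat.card (Γ ⧸ U) = 1) ∧
      (∀ i (h : Gs U s), (h : Γ) ∈ U → η i h = 1) ∧
      ∀ h : Gs U s, ∑ i, z i * (η i h : k) = if ((h : Γ) : Γ ⧸ U) = s then 1 else 0 := by
  classical
  haveI : Finite (Γ ⧸ U) := inferInstance
  have hepos : 0 < orderOf s := orderOf_pos s
  have he0 : orderOf s ≠ 0 := hepos.ne'
  haveI : NeZero (orderOf s) := ⟨he0⟩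
  haveI : NeZero ((orderOf s : ℕ) : k) := ⟨Nat.cast_ne_zero.2 he0⟩
  obtain ⟨w, hw⟩ := HasEnoughRootsOfUnity.exists_primitiveRoot k (orderOf s)
  have hwu : IsUnit w := hw.isUnit he0
  obtain ⟨wu, hwu2⟩ := hwu
  have hwp : IsPrimitiveRoot wu (orderOf s) := by
    apply IsPrimitiveRoot.coe_units_iff.1
    rw [hwu2]
    exact hw
  have hgen : ∀ x : Subgroup.zpowers s, x ∈ Subgroup.zpowers (⟨s, Subgroup.mem_zpowers s⟩ : Subgroup.zpowers s) := by
    rintro ⟨x, hx⟩
    obtain ⟨j, hj⟩ := Subgroup.mem_zpowers_iff.1 hx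
    exact Subgroup.mem_zpowers_iff.2 ⟨j, Subtype.ext hj⟩
  have hord : orderOf wu ∣ orderOf (⟨s, Subgroup.mem_zpowers s⟩ : Subgroup.zpowers s) := by
    rw [← hwp.eq_orderOf, Subgroup.orderOf_mk]
  let f : Subgroup.zpowers s →* kˣ := monoidHomOfForallMemZpowers hgen hord
  have hf : f ⟨s, Subgroup.mem_zpowers s⟩ = wu := monoidHomOfForallMemZpowers_apply_gen hgen hord
  let π : Gs U s →* Subgroup.zpowers s := ((QuotientGroup.mk' U).comp (Gs U s).subtype).codRestrict (Subgroup.zpowers s) (fun h => h.2)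
  let η : Gs U s →* kˣ := f.comp π
  have hη : ∀ (h : Gs U s) (j : ℤ), s ^ j = ((h : Γ) : Γ ⧸ U) → η h = wu ^ j := by
    intro h j hj
    have h1 : π h = (⟨s, Subgroup.mem_zpowers s⟩ : Subgroup.zpowers s) ^ j := by
      apply Subtype.ext
      change ((h : Γ) : Γ ⧸ U) = s ^ j
      exact hj.symm
    change f (π h) = _
    rw [h1, map_zpow, hf]
  have hηU : ∀ h : Gs U s, (h : Γ) ∈ U → η h = 1 := by
    intro h hh
    have h1 := hη h 0 (by rw [zpow_zero]; exact ((QuotientGroup.eq_one_iff (h : Γ)).2 hh).symm)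
    rw [h1, zpow_zero]
  have hηc : ∀ h : Gs U s, η h ^ Nat.card (Γ ⧸ U) = 1 := by
    intro h
    rw [← map_pow]
    apply hηU
    have h2 : ((((h ^ Nat.card (Γ ⧸ U) : Gs U s) : Γ)) : Γ ⧸ U) = ((h : Γ) : Γ ⧸ U) ^ Nat.card (Γ ⧸ U) := rfl
    rw [← QuotientGroup.eq_one_iff, h2, pow_card_eq_one']
  refine ⟨orderOf s, fun i => η ^ (i : ℕ), fun i => ((w ^ (i : ℕ))⁻¹) / (orderOf s : k), ?_, ?_, ?_⟩
  · intro i h
    rw [MonoidHom.pow_apply, ← pow_mul, mul_comm, pow_mul, hηc, one_pow]
  · intro i h hh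
    rw [MonoidHom.pow_apply, hηU h hh, one_pow]
  · intro h
    have hw0 : w ≠ 0 := hw.ne_zero he0
    obtain ⟨j, hj⟩ := Subgroup.mem_zpowers_iff.1 (show ((h : Γ) : Γ ⧸ U) ∈ Subgroup.zpowers s from h.2)
    have hηj := hη h j hj
    have hsum : ∑ i : Fin (orderOf s), ((w ^ (i : ℕ))⁻¹) / (orderOf s : k) * (((η ^ (i : ℕ)) h : kˣ) : k) =
        (∑ i ∈ Finset.range (orderOf s), ((η h : k) / w) ^ i) / (orderOf s : k) := by
      rw [Finset.sum_div, ← Fin.sum_univ_eq_sum_range (fun i => ((η h : k) / w) ^ i / (orderOf s : k))]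
      refine Finset.sum_congr rfl fun i _ => ?_
      rw [MonoidHom.pow_apply, Units.val_pow_eq_pow_val, div_pow]
      field_simp
    rw [hsum]
    have hpow : ((η h : k) / w) ^ (orderOf s) = 1 := by
      rw [div_pow, hw.pow_eq_one, div_one, ← Units.val_pow_eq_pow_val, hηj, ← zpow_natCast, ← zpow_mul, mul_comm, zpow_mul, zpow_natCast, hwp.pow_eq_one, one_zpow,
        Units.val_one]
    by_cases hs : ((h : Γ) : Γ ⧸ U) = s
    · rw [if_pos hs]
      have h1 : η h = wu := by
        rw [hη h 1 (by rw [zpow_one, hs]), zpow_one]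
      rw [h1, hwu2, div_self hw0]
      simp only [one_pow, Finset.sum_const, Finset.card_range, nsmul_eq_mul, mul_one]
      exact div_self (Nat.cast_ne_zero.2 he0)
    · rw [if_neg hs]
      have h1 : (η h : k) / w ≠ 1 := by
        intro h2
        apply hs
        rw [div_eq_one_iff_eq hw0, ← hwu2, Units.val_inj, hηj] at h2
        have h3 : wu ^ (j - 1) = 1 := by rw [zpow_sub, h2, zpow_one, mul_inv_cancel]
        rw [hwp.zpow_eq_one_iff_dvd] at h3
        rw [← hj]
        have h4 : s ^ (j - 1) = 1 := orderOf_dvd_iff_zpow_eq_one.1 h3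
        calc s ^ j = s ^ (j - 1) * s := by rw [zpow_sub, zpow_one]; group
          _ = s := by rw [h4, one_mul]
      have h2 := mul_neg_geom_sum ((η h : k) / w) (orderOf s)
      rw [hpow, sub_self] at h2
      have h3 : ∑ i ∈ Finset.range (orderOf s), ((η h : k) / w) ^ i = 0 := by
        rcases mul_eq_zero.1 h2 with h | h
        · exact absurd (sub_eq_zero.1 h).symm h1
        · exact h
      rw [h3, zero_div]


end H25G
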