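import Pool.Agent.Lib.H25G.Defs

/-! # H25G, chunk GA4: irreducible representations of a group generated by a commuting normal subgroup and one element -/

set_option autoImplicit false

namespace H25G

variable {G k W : Type*} [Group G] [Field k] [AddCommGroup W] [Module k W]

/-- (S/M) GA4a. A commuting family of operators on a nonzero finite dimensional space over an algebraically closed field has a common eigenvector
(Mathlib: Module.End.exists_hasEigenvalue_of_... / iInf of eigenspaces; or induction: if all operators are scalar take any vector, else restrict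
to an eigenspace of a non scalar one, of smaller dimension). -/
theorem ga4_eig [IsAlgClosed k] [FiniteDimensional k W] [Nontrivial W] {ι : Type*} (T : ι → Module.End k W) (h : ∀ i j, Commute (T i) (T j)) :
    ∃ w : W, w ≠ 0 ∧ ∀ i, ∃ c : k, T i w = c • w := by
  classical
  have key : ∀ (n : ℕ) (A : Submodule k W), Module.finrank k A = n → A ≠ ⊥ → (∀ i, ∀ w ∈ A, T i w ∈ A) →
      ∃ w ∈ A, w ≠ 0 ∧ ∀ i, ∃ c : k, T i w = c • w := by
    intro n
    induction n using Nat.strong_induction_on with
    | _ n ih =>
      intro A hA hne hst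
      by_cases hall : ∀ i, ∃ c : k, ∀ w ∈ A, T i w = c • w
      · obtain ⟨w, hw, hw0⟩ := (Submodule.ne_bot_iff A).1 hne
        refine ⟨w, hw, hw0, fun i => ?_⟩
        obtain ⟨c, hc⟩ := hall i
        exact ⟨c, hc w hw⟩
      · push Not at hall
        obtain ⟨i, hi⟩ := hall
        haveI : Nontrivial A := Submodule.nontrivial_iff_ne_bot.2 hne
        let Ti : Module.End k A := (T i).restrict (hst i)
        obtain ⟨μ, hμ⟩ := Module.End.exists_eigenvalue Ti
        obtain ⟨v, hv⟩ := hμ.exists_hasEigenvector
        have hv1 : T i v = μ • (v : W) := congrArg Subtype.val hv.apply_eq_smul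
        have hv0 : (v : W) ≠ 0 := fun h => hv.2 (Subtype.ext h)
        let B : Submodule k W := A ⊓ LinearMap.ker (T i - μ • (1 : Module.End k W))
        have hB : ∀ w : W, w ∈ B ↔ w ∈ A ∧ T i w = μ • w := by
          intro w
          change w ∈ A ∧ w ∈ LinearMap.ker (T i - μ • (1 : Module.End k W)) ↔ _
          rw [LinearMap.mem_ker, LinearMap.sub_apply, LinearMap.smul_apply, Module.End.one_apply, sub_eq_zero]
        have hBle : B ≤ A := fun w hw => ((hB w).1 hw).1
        have hBlt : B < A := by
          refine lt_of_le_of_ne hBle fun h => ?_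
          obtain ⟨w, hw, hw2⟩ := hi μ
          exact hw2 ((hB w).1 (h ▸ hw)).2
        have hBne : B ≠ ⊥ := (Submodule.ne_bot_iff B).2 ⟨v, (hB v).2 ⟨v.2, hv1⟩, hv0⟩
        have hBst : ∀ j, ∀ w ∈ B, T j w ∈ B := by
          intro j w hw
          obtain ⟨h1, h2⟩ := (hB w).1 hw
          refine (hB _).2 ⟨hst j w h1, ?_⟩
          have h3 : (T i * T j) w = (T j * T i) w := by rw [(h i j).eq]
          rw [Module.End.mul_apply, Module.End.mul_apply, h2, map_smul] at h3
          exact h3
        have hfr : Module.finrank k B < n := by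
          rw [← hA]
          exact Submodule.finrank_lt_finrank_of_lt hBlt
        obtain ⟨w, hw, hw2⟩ := ih _ hfr B rfl hBne hBst
        exact ⟨w, hBle hw, hw2⟩
  obtain ⟨w, _, hw⟩ := key _ ⊤ rfl top_ne_bot (fun _ _ _ => Submodule.mem_top)
  exact ⟨w, hw⟩


/-- (M) GA4. R: G -> End(W) irreducible (no stable subspace except 0 and W, W nonzero), U normal in G, R(U) commutative, every element of G is g0^m u.
Then either R is given by a character and W is a line, or the trace of R(g0 u) is 0 for all u in U.

Proof. By ga4_eig there is a function c: U -> k with A_c = {w : R(u) w = c(u) w for all u in U} nonzero. For c: U -> k let c' (u) = c(g0^-1 u g0); then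
R(g0) A_c is contained in A_(c'), with equality by invertibility. Case 1: c' = c. Then A_c is stable under g0, g0^-1 and U, so A_c = W: U acts by scalars.
R(g0) has an eigenvector w (Module.End.exists_eigenvalue); the line kw is stable, so it is W and every R(g) is a scalar: W is a line and the scalars give a character with
values in k^* (R(g) R(g^-1) = 1). Case 2: c' is different from c. The span of all A_(d), d in the orbit of c (d = c composed with conjugation by powers of g0), is stable, so it is W, and the sum is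
direct (eigenspaces of a commuting family for different characters are independent: Module.End.independent_iInf_eigenspace or similar;
the number of nonzero A_d is finite). R(g0 u) maps A_d to A_(d') and d' is different from d for all d in the orbit (d = d' gives c = c' by conjugating back with a power of g0).
LinearMap.trace_eq_zero_of_mapsTo_ne (Mathlib.Algebra.DirectSum.LinearMap) gives trace 0. -/
theorem ga4 [IsAlgClosed k] [FiniteDimensional k W] [Nontrivial W] (R : G →* Module.End k W) (U : Subgroup G) [U.Normal] (g0 : G)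
    (hgen : ∀ g : G, ∃ (m : ℤ) (u : G), u ∈ U ∧ g = g0 ^ m * u) (hU : ∀ u ∈ U, ∀ v ∈ U, R u * R v = R v * R u)
    (hirr : ∀ A : Submodule k W, (∀ g, ∀ w ∈ A, R g w ∈ A) → A = ⊥ ∨ A = ⊤) :
    (∃ ψ : G →* kˣ, (∀ g w, R g w = (ψ g : k) • w) ∧ Module.finrank k W = 1) ∨ ∀ u ∈ U, LinearMap.trace k W (R (g0 * u)) = 0 := by
  classical
  have hinv : ∀ g w, R g⁻¹ (R g w) = w := by
    intro g w
    rw [← Module.End.mul_apply, ← map_mul, inv_mul_cancel, map_one, Module.End.one_apply]
  have hinv2 : ∀ g w, R g (R g⁻¹ w) = w := by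
    intro g w
    rw [← Module.End.mul_apply, ← map_mul, mul_inv_cancel, map_one, Module.End.one_apply]
  -- the eigenspaces
  let A : (U → k) → Submodule k W := fun c => ⨅ u : U, (R (u : G)).maxGenEigenspace (c u) ⊓ LinearMap.ker (R (u : G) - c u • (1 : Module.End k W))
  have hA : ∀ c w, w ∈ A c ↔ ∀ u : U, R (u : G) w = c u • w := by
    intro c w
    change w ∈ (⨅ u : U, (R (u : G)).maxGenEigenspace (c u) ⊓ LinearMap.ker (R (u : G) - c u • (1 : Module.End k W))) ↔ _
    rw [Submodule.mem_iInf]
    refine forall_congr' fun u => ?_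
    rw [Submodule.mem_inf, LinearMap.mem_ker, LinearMap.sub_apply, LinearMap.smul_apply, Module.End.one_apply, sub_eq_zero]
    refine ⟨fun h => h.2, fun h => ⟨?_, h⟩⟩
    have h1 : w ∈ (R (u : G)).eigenspace (c u) := Module.End.mem_eigenspace_iff.2 h
    exact (Module.End.mem_maxGenEigenspace _ _ _).2 ⟨1, by
      rw [pow_one, LinearMap.sub_apply, LinearMap.smul_apply, Module.End.one_apply, h, sub_self]⟩
  have hindep : iSupIndep A := by
    have h1 := Module.End.independent_iInf_maxGenEigenspace_of_forall_mapsTo (fun u : U => R (u : G)) (fun i j χ =>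
      Module.End.mapsTo_maxGenEigenspace_of_comm (show Commute (R (j : G)) (R (i : G)) from hU _ j.2 _ i.2) χ)
    exact h1.mono fun c => iInf_mono fun u => inf_le_left
  -- conjugation
  have hnorm : ∀ (g : G) (u : U), g⁻¹ * u * g ∈ U := fun g u => by
    have h1 := (inferInstance : U.Normal).conj_mem (u : G) u.2 g⁻¹
    rwa [inv_inv] at h1
  let cj : G → (U → k) → (U → k) := fun g c u => c ⟨g⁻¹ * u * g, hnorm g u⟩
  have hcj : ∀ g c w, w ∈ A c → R g w ∈ A (cj g c) := by
    intro g c w hw
    rw [hA] at hw ⊢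
    intro u
    have h1 := hw ⟨g⁻¹ * u * g, hnorm g u⟩
    change R (u : G) (R g w) = c ⟨g⁻¹ * u * g, hnorm g u⟩ • R g w
    rw [← map_smul, ← h1]
    simp only [← Module.End.mul_apply, ← map_mul]
    congr 2
    group
  have hcj2 : ∀ g h c, cj g (cj h c) = cj (g * h) c := by
    intro g h c
    funext u
    change c ⟨h⁻¹ * (g⁻¹ * u * g) * h, _⟩ = c ⟨(g * h)⁻¹ * u * (g * h), _⟩
    congr 1
    apply Subtype.ext
    change h⁻¹ * (g⁻¹ * u * g) * h = (g * h)⁻¹ * u * (g * h)
    group
  have hcj1 : ∀ c, cj 1 c = c := by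
    intro c
    funext u
    change c ⟨(1 : G)⁻¹ * u * 1, _⟩ = c u
    congr 1
    apply Subtype.ext
    change (1 : G)⁻¹ * u * 1 = (u : G)
    group
  -- stable under g0, its inverse and U implies stable
  have hzp : ∀ (S : Submodule k W), (∀ w ∈ S, R g0 w ∈ S) → (∀ w ∈ S, R g0⁻¹ w ∈ S) → (∀ u ∈ U, ∀ w ∈ S, R u w ∈ S) →
      ∀ g, ∀ w ∈ S, R g w ∈ S := by
    intro S h1 h2 h3 g w hw
    obtain ⟨m, u, hu, rfl⟩ := hgen g
    rw [map_mul, Module.End.mul_apply]
    have h4 : ∀ (m : ℤ) (w : W), w ∈ S → R (g0 ^ m) w ∈ S := by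
      intro m
      induction m using Int.induction_on with
      | zero =>
        intro w hw
        rw [zpow_zero, map_one, Module.End.one_apply]
        exact hw
      | succ i ih =>
        intro w hw
        rw [zpow_add, zpow_one, map_mul, Module.End.mul_apply]
        exact ih _ (h1 w hw)
      | pred i ih =>
        intro w hw
        rw [zpow_sub, zpow_one, map_mul, Module.End.mul_apply]
        exact ih _ (h2 w hw)
    exact h4 m _ (h3 u hu w hw)
  obtain ⟨w0, hw0, hw0c⟩ := ga4_eig (fun u : U => R (u : G)) (fun i j => hU _ i.2 _ j.2)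
  choose c hc using hw0c
  have hw0A : w0 ∈ A c := (hA c w0).2 hc
  have hAU : ∀ d, ∀ u ∈ U, ∀ w ∈ A d, R u w ∈ A d := by
    intro d u hu w hw
    have h1 := (hA d w).1 hw ⟨u, hu⟩
    change R u w = _ at h1
    rw [h1]
    exact (A d).smul_mem _ hw
  by_cases hcc : cj g0 c = c
  · left
    have hcc' : cj g0⁻¹ c = c := by
      conv_lhs => rw [← hcc]
      rw [hcj2, inv_mul_cancel, hcj1]
    have hst := hzp (A c) (fun w hw => by
      have h1 := hcj g0 c w hw
      rwa [hcc] at h1) (fun w hw => by
      have h1 := hcj g0⁻¹ c w hw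
      rwa [hcc'] at h1) (hAU c)
    have htop : A c = ⊤ := by
      rcases hirr (A c) hst with h | h
      · rw [h, Submodule.mem_bot] at hw0A
        exact absurd hw0A hw0
      · exact h
    obtain ⟨μ, hμ⟩ := Module.End.exists_eigenvalue (R g0)
    obtain ⟨v, hv⟩ := hμ.exists_hasEigenvector
    have hv1 : R g0 v = μ • v := hv.apply_eq_smul
    have hv0 : v ≠ 0 := hv.2
    have hμ0 : μ ≠ 0 := by
      rintro rfl
      rw [zero_smul] at hv1
      have h1 := hinv g0 v
      rw [hv1, map_zero] at h1
      exact hv0 h1.symm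
    have hst2 := hzp (Submodule.span k {v}) (fun w hw => by
      obtain ⟨a, rfl⟩ := Submodule.mem_span_singleton.1 hw
      rw [map_smul, hv1, smul_smul]
      exact Submodule.mem_span_singleton.2 ⟨_, rfl⟩) (fun w hw => by
      obtain ⟨a, rfl⟩ := Submodule.mem_span_singleton.1 hw
      have h1 : R g0⁻¹ v = μ⁻¹ • v := by
        have h2 := hinv g0 v
        rw [hv1, map_smul] at h2
        calc R g0⁻¹ v = (μ⁻¹ * μ) • R g0⁻¹ v := by rw [inv_mul_cancel₀ hμ0, one_smul]
          _ = μ⁻¹ • v := by rw [mul_smul, h2]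
      rw [map_smul, h1, smul_smul]
      exact Submodule.mem_span_singleton.2 ⟨_, rfl⟩) (fun u hu w hw => by
      obtain ⟨a, rfl⟩ := Submodule.mem_span_singleton.1 hw
      have h1 : v ∈ A c := htop ▸ Submodule.mem_top
      have h2 := (hA c v).1 h1 ⟨u, hu⟩
      change R u v = _ at h2
      rw [map_smul, h2, smul_smul]
      exact Submodule.mem_span_singleton.2 ⟨_, rfl⟩)
    have htop2 : Submodule.span k {v} = ⊤ := by
      rcases hirr _ hst2 with h | h
      · exact absurd (Submodule.span_singleton_eq_bot.1 h) hv0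
      · exact h
    have hsc : ∀ g, ∃ a : k, R g v = a • v := by
      intro g
      obtain ⟨a, ha⟩ := Submodule.mem_span_singleton.1 (hst2 g v (Submodule.mem_span_singleton_self v))
      exact ⟨a, ha.symm⟩
    choose a ha using hsc
    have hinj : ∀ x y : k, x • v = y • v → x = y := fun x y h => smul_left_injective k hv0 h
    let ψ0 : G →* k :=
      { toFun := a
        map_one' := hinj _ _ (by rw [← ha, map_one, Module.End.one_apply, one_smul])
        map_mul' := fun g h => hinj _ _ (by
          rw [← ha, map_mul, Module.End.mul_apply, ha h, map_smul, ha g, smul_smul, mul_comm]) }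
    refine ⟨ψ0.toHomUnits, fun g w => ?_, ?_⟩
    · have h1 : w ∈ Submodule.span k {v} := htop2 ▸ Submodule.mem_top
      obtain ⟨b, rfl⟩ := Submodule.mem_span_singleton.1 h1
      rw [MonoidHom.coe_toHomUnits]
      change R g (b • v) = a g • b • v
      rw [map_smul, ha, smul_comm]
    · rw [finrank_eq_one_iff']
      refine ⟨v, hv0, fun w => ?_⟩
      have h1 : w ∈ Submodule.span k {v} := htop2 ▸ Submodule.mem_top
      exact Submodule.mem_span_singleton.1 h1
  · right
    let I : Set (U → k) := Set.range fun m : ℤ => cj (g0 ^ m) c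
    let N : I → Submodule k W := fun d => A d
    have hNind : iSupIndep N := hindep.comp Subtype.val_injective
    have hNle : ∀ m : ℤ, A (cj (g0 ^ m) c) ≤ ⨆ d : I, N d := fun m => le_iSup N ⟨_, ⟨m, rfl⟩⟩
    have hstN : ∀ (x : G) (hx : ∀ m : ℤ, ∃ m' : ℤ, cj x (cj (g0 ^ m) c) = cj (g0 ^ m') c), ∀ w ∈ (⨆ d : I, N d), R x w ∈ (⨆ d : I, N d) := by
      intro x hx
      have h1 : (⨆ d : I, N d) ≤ (⨆ d : I, N d).comap (R x) := by
        refine iSup_le fun d => ?_
        obtain ⟨d, m, rfl⟩ := d
        intro w hw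
        have h2 := hcj x _ w hw
        obtain ⟨m', hm'⟩ := hx m
        change R x w ∈ A (cj x (cj (g0 ^ m) c)) at h2
        rw [hm'] at h2
        exact hNle m' h2
      exact h1
    have hstall := hzp (⨆ d : I, N d) (hstN g0 fun m => ⟨1 + m, by rw [hcj2, zpow_add, zpow_one]⟩)
      (hstN g0⁻¹ fun m => ⟨-1 + m, by rw [hcj2, zpow_add, zpow_neg_one]⟩) (fun u hu w hw => by
        have h1 : (⨆ d : I, N d) ≤ (⨆ d : I, N d).comap (R u) := by
          refine iSup_le fun d => ?_
          intro w hw
          exact (le_iSup N d) (hAU _ u hu w hw)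
        exact h1 hw)
    have htop : (⨆ d : I, N d) = ⊤ := by
      rcases hirr _ hstall with h | h
      · have h1 : w0 ∈ (⨆ d : I, N d) := hNle 0 (by rw [zpow_zero, hcj1]; exact hw0A)
        rw [h, Submodule.mem_bot] at h1
        exact absurd h1 hw0
      · exact h
    have hint : DirectSum.IsInternal N := DirectSum.isInternal_submodule_of_iSupIndep_of_iSup_eq_top hNind htop
    intro u hu
    let σ : I → I := fun d => ⟨cj g0 d, by
      obtain ⟨d, m, rfl⟩ := d
      exact ⟨1 + m, by
        change cj (g0 ^ (1 + m)) c = cj g0 (cj (g0 ^ m) c)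
        rw [hcj2, zpow_add, zpow_one]⟩⟩
    have hσ : ∀ d, σ d ≠ d := by
      rintro ⟨d, m, rfl⟩ h
      have h1 : cj g0 (cj (g0 ^ m) c) = cj (g0 ^ m) c := congrArg Subtype.val h
      apply hcc
      have h2 : cj (g0 ^ (-m)) (cj g0 (cj (g0 ^ m) c)) = cj (g0 ^ (-m)) (cj (g0 ^ m) c) := by rw [h1]
      rw [hcj2, hcj2, hcj2] at h2
      have h3 : g0 ^ (-m) * (g0 * g0 ^ m) = g0 := by
        rw [← zpow_one_add, ← zpow_add]
        have h4 : -m + (1 + m) = 1 := by ring
        rw [h4, zpow_one]
      have h5 : g0 ^ (-m) * g0 ^ m = 1 := by rw [← zpow_add, neg_add_cancel, zpow_zero]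
      have h6 : g0 ^ (-m) * g0 * g0 ^ m = g0 := by rw [mul_assoc, h3]
      first
        | (rw [h3, h5, hcj1] at h2; exact h2)
        | (rw [h6, h5, hcj1] at h2; exact h2)
    refine LinearMap.trace_eq_zero_of_mapsTo_ne hint σ hσ fun d w hw => ?_
    rw [map_mul, Module.End.mul_apply]
    exact hcj g0 d _ (hAU d u hu w hw)


end H25G
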