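import Pool.Agent.Lib.H25G.GA4

/-! # H25G, chunk GA5: the trace on a coset is a sum of characters -/

set_option autoImplicit false

namespace H25G

variable {G k W : Type*} [Group G] [Field k] [AddCommGroup W] [Module k W]

/-- trace of an operator with a stable subspace -/
theorem ga5_trace {k W : Type*} [Field k] [AddCommGroup W] [Module k W] [FiniteDimensional k W] (A : Submodule k W)
    (e : W →ₗ[k] W) (he : A ≤ A.comap e) :
    LinearMap.trace k W e = LinearMap.trace k A (e.restrict he) + LinearMap.trace k (W ⧸ A) (A.mapQ A e he) := by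
  classical
  let m := Module.Free.ChooseBasisIndex k A
  let bW : Module.Basis m k A := Module.Free.chooseBasis k A
  let n := Module.Free.ChooseBasisIndex k (W ⧸ A)
  let bQ : Module.Basis n k (W ⧸ A) := Module.Free.chooseBasis k (W ⧸ A)
  let b := Module.Basis.sumQuot bW bQ
  rw [LinearMap.trace_eq_matrix_trace k b e, LinearMap.trace_eq_matrix_trace k bW (e.restrict he),
    LinearMap.trace_eq_matrix_trace k bQ (A.mapQ A e he)]
  simp only [Matrix.trace, Matrix.diag]
  rw [Fintype.sum_sum_type]
  congr 1
  · refine Finset.sum_congr rfl fun i _ => ?_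
    simp only [b, Module.Basis.sumQuot_inl, LinearMap.toMatrix_apply]
    apply Module.Basis.sumQuot_repr_inl_of_mem
  · refine Finset.sum_congr rfl fun j _ => ?_
    simp only [LinearMap.toMatrix_apply, Module.Basis.sumQuot_repr_inr, b]
    rw [← Module.Basis.sumQuot_inr bW bQ j, A.mapQ_apply]
    simp

/-- lifting an eigenvector of the quotient -/
theorem ga5_lift {k W : Type*} [Field k] [AddCommGroup W] [Module k W] [FiniteDimensional k W] (A : Submodule k W)
    (e : W →ₗ[k] W) (he : A ≤ A.comap e) (c : k) (w' : W ⧸ A) (hw' : w' ≠ 0) (h : A.mapQ A e he w' = c • w') :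
    ∃ w : W, w ≠ 0 ∧ e w = c • w := by
  by_contra hcon
  push Not at hcon
  have hinj : Function.Injective (e - c • (LinearMap.id : W →ₗ[k] W)) := by
    rw [← LinearMap.ker_eq_bot, LinearMap.ker_eq_bot']
    intro w hw
    by_contra hne
    apply hcon w hne
    have : e w - c • w = 0 := by simpa using hw
    exact sub_eq_zero.mp this
  have hsurj : Function.Surjective (e - c • (LinearMap.id : W →ₗ[k] W)) := LinearMap.injective_iff_surjective.mp hinj
  have hsurj2 : Function.Surjective (A.mapQ A e he - c • (LinearMap.id : (W ⧸ A) →ₗ[k] (W ⧸ A))) := by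
    intro y
    obtain ⟨y, rfl⟩ := A.mkQ_surjective y
    obtain ⟨x, hx⟩ := hsurj y
    refine ⟨A.mkQ x, ?_⟩
    rw [← hx]
    simp
  have hinj2 : Function.Injective (A.mapQ A e he - c • (LinearMap.id : (W ⧸ A) →ₗ[k] (W ⧸ A))) := LinearMap.injective_iff_surjective.mpr hsurj2
  apply hw'
  apply hinj2
  simp [h]

theorem ga5_aux.{u, v, w} {G : Type u} {k : Type v} [Group G] [Field k] [IsAlgClosed k] (U : Subgroup G) [U.Normal] (g0 : G)
    (hgen : ∀ g : G, ∃ (m : ℤ) (u : G), u ∈ U ∧ g = g0 ^ m * u) (n : ℕ) :
    ∀ (W : Type w) [AddCommGroup W] [Module k W] [FiniteDimensional k W] (R : G →* Module.End k W),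
      (∀ u ∈ U, ∀ v ∈ U, R u * R v = R v * R u) → Module.finrank k W ≤ n →
    ∃ (m : ℕ) (ψ : Fin m → (G →* kˣ)), (∀ i, (∃ (v : W) (f : Module.Dual k W), ∀ g, (ψ i g : k) = f (R g v)) ∧
      ∀ g, ∃ w : W, w ≠ 0 ∧ R g w = (ψ i g : k) • w) ∧
      ∀ u ∈ U, LinearMap.trace k W (R (g0 * u)) = ∑ i, (ψ i (g0 * u) : k) := by
  classical
  induction n with
  | zero =>
    intro W _ _ _ R _ hn
    have hs : Subsingleton W := Module.finrank_zero_iff.mp (Nat.le_zero.mp hn)
    refine ⟨0, fun i => i.elim0, fun i => i.elim0, fun u _ => ?_⟩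
    have : R (g0 * u) = 0 := by
      ext w
      exact Subsingleton.elim _ _
    rw [this]
    simp
  | succ n ih =>
    intro W _ _ _ R hU hn
    by_cases hW : Subsingleton W
    · refine ⟨0, fun i => i.elim0, fun i => i.elim0, fun u _ => ?_⟩
      have : R (g0 * u) = 0 := by
        ext w
        exact Subsingleton.elim _ _
      rw [this]
      simp
    have hNW : Nontrivial W := not_subsingleton_iff_nontrivial.mp hW
    -- minimal stable subspace
    have hex : ∃ d : ℕ, ∃ A : Submodule k W, A ≠ ⊥ ∧ (∀ g, ∀ w ∈ A, R g w ∈ A) ∧ Module.finrank k A = d :=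
      ⟨_, ⊤, top_ne_bot, fun _ _ _ => Submodule.mem_top, rfl⟩
    obtain ⟨A, hA0, hA, hAd⟩ := Nat.find_spec hex
    have hmin : ∀ B : Submodule k W, B ≠ ⊥ → (∀ g, ∀ w ∈ B, R g w ∈ B) → Module.finrank k A ≤ Module.finrank k B := by
      intro B hB0 hB
      rw [hAd]
      exact Nat.find_min' hex ⟨B, hB0, hB, rfl⟩
    have hle : ∀ g, A ≤ A.comap (R g) := fun g w hw => hA g w hw
    let RA : G →* Module.End k A :=
      { toFun := fun g => (R g).restrict (hle g)
        map_one' := by
          ext w
          simp
        map_mul' := by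
          intro g h
          ext w
          simp }
    let RB : G →* Module.End k (W ⧸ A) :=
      { toFun := fun g => A.mapQ A (R g) (hle g)
        map_one' := by
          ext w
          simp
        map_mul' := by
          intro g h
          ext w
          simp }
    have hRA : ∀ g (w : A), ((RA g w : A) : W) = R g w := fun g w => rfl
    have hRB : ∀ g (w : W), RB g (A.mkQ w) = A.mkQ (R g w) := fun g w => by simp [RB]
    have hNA : Nontrivial A := Submodule.nontrivial_iff_ne_bot.mpr hA0
    have hirr : ∀ B : Submodule k A, (∀ g, ∀ w ∈ B, RA g w ∈ B) → B = ⊥ ∨ B = ⊤ := by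
      intro B hB
      by_cases hB0 : B = ⊥
      · exact Or.inl hB0
      right
      have h1 : Module.finrank k A ≤ Module.finrank k (B.map A.subtype) := by
        apply hmin
        · intro h
          apply hB0
          rw [eq_bot_iff]
          intro b hb
          have : (b : W) ∈ B.map A.subtype := ⟨b, hb, rfl⟩
          rw [h, Submodule.mem_bot] at this
          simpa using this
        · rintro g w ⟨b, hb, rfl⟩
          exact ⟨RA g b, hB g b hb, rfl⟩
      have h2 : Module.finrank k (B.map A.subtype) = Module.finrank k B :=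
        (LinearEquiv.finrank_eq (Submodule.equivMapOfInjective A.subtype A.injective_subtype B)).symm
      apply Submodule.eq_top_of_finrank_eq
      exact le_antisymm (Submodule.finrank_le B) (by omega)
    have hUA : ∀ u ∈ U, ∀ v ∈ U, RA u * RA v = RA v * RA u := by
      intro u hu v hv
      rw [← map_mul, ← map_mul]
      ext w
      rw [hRA, hRA, map_mul, map_mul, hU u hu v hv]
    have hUB : ∀ u ∈ U, ∀ v ∈ U, RB u * RB v = RB v * RB u := by
      intro u hu v hv
      rw [← map_mul, ← map_mul]
      apply LinearMap.ext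
      intro w
      obtain ⟨w, rfl⟩ := A.mkQ_surjective w
      rw [hRB, hRB, map_mul, map_mul, hU u hu v hv]
    have hposA : 0 < Module.finrank k A := Module.finrank_pos
    have hadd := Submodule.finrank_quotient_add_finrank A
    obtain ⟨m, ψ, hψ, htr⟩ := ih (W ⧸ A) RB hUB (by omega)
    have hψ' : ∀ i, (∃ (v : W) (f : Module.Dual k W), ∀ g, (ψ i g : k) = f (R g v)) ∧
        ∀ g, ∃ w : W, w ≠ 0 ∧ R g w = (ψ i g : k) • w := by
      intro i
      obtain ⟨⟨v', f', hf'⟩, he'⟩ := hψ i
      refine ⟨?_, ?_⟩
      · obtain ⟨v, rfl⟩ := A.mkQ_surjective v'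
        refine ⟨v, f'.comp A.mkQ, fun g => ?_⟩
        rw [hf' g, hRB]
        rfl
      · intro g
        obtain ⟨w', hw', hw⟩ := he' g
        exact ga5_lift A (R g) (hle g) (ψ i g) w' hw' hw
    have htrace : ∀ g, LinearMap.trace k W (R g) = LinearMap.trace k A (RA g) + LinearMap.trace k (W ⧸ A) (RB g) :=
      fun g => ga5_trace A (R g) (hle g)
    rcases ga4 RA U g0 hgen hUA hirr with ⟨χ, hχ, hfr⟩ | h0
    · obtain ⟨a, ha⟩ := exists_ne (0 : A)
      refine ⟨m + 1, Fin.cons χ ψ, ?_, ?_⟩
      · intro i
        refine Fin.cases ?_ (fun j => ?_) i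
        · simp only [Fin.cons_zero]
          refine ⟨?_, ?_⟩
          · have haW : (a : W) ≠ 0 := by simpa using ha
            obtain ⟨f, hf⟩ := Module.Projective.exists_dual_ne_zero k haW
            refine ⟨(f (a : W))⁻¹ • (a : W), f, fun g => ?_⟩
            rw [map_smul, map_smul, ← hRA, hχ g a]
            simp only [Submodule.coe_smul, map_smul, smul_eq_mul]
            field_simp
          · intro g
            refine ⟨a, by simpa using ha, ?_⟩
            rw [← hRA, hχ g a]
            rfl
        · simp only [Fin.cons_succ]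
          exact hψ' j
      · intro u hu
        rw [htrace, htr u hu, Fin.sum_univ_succ]
        simp only [Fin.cons_zero, Fin.cons_succ]
        congr 1
        have : RA (g0 * u) = (χ (g0 * u) : k) • LinearMap.id := by
          ext w
          rw [hχ]
          simp
        rw [this, map_smul, LinearMap.trace_id, hfr]
        simp
    · refine ⟨m, ψ, hψ', fun u hu => ?_⟩
      rw [htrace, htr u hu, h0 u hu, zero_add]

/-- (M) GA5. Same situation, W arbitrary finite dimensional. There are characters ψ_1, .., ψ_m of G with trace R(g0 u) = sum ψ_i(g0 u) for all u in U;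
each ψ_i is of the form f(R(g) v), and ψ_i(g) is an eigenvalue of R(g).

Proof. Strong induction on dim W, for all W (universe fixed). dim 0: m = 0. Otherwise choose a minimal nonzero stable subspace A. R induces R_A on A (irreducible) and R_B on W/A
(Submodule.mapQ), trace R(g) = trace R_A(g) + trace R_B(g) (LinearMap.trace_eq_trace_restrict_add_... or a basis adapted to A; see also
LinearMap.trace_restrict / Submodule quotient lemma). Apply ga4 to A and induction to W/A. A character on A: v in A nonzero, f any linear form on W with f(v) = 1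
(R(g) v = ψ(g) v, w = v). A character of W/A: f composed with the projection, v any lift, and an eigenvalue c of R_B(g) is an eigenvalue of R(g):
if R(g) - c were injective on W it would be bijective (finite dimension), so R_B(g) - c would be surjective, hence injective. -/
theorem ga5 [IsAlgClosed k] [FiniteDimensional k W] (R : G →* Module.End k W) (U : Subgroup G) [U.Normal] (g0 : G)
    (hgen : ∀ g : G, ∃ (m : ℤ) (u : G), u ∈ U ∧ g = g0 ^ m * u) (hU : ∀ u ∈ U, ∀ v ∈ U, R u * R v = R v * R u) :
    ∃ (m : ℕ) (ψ : Fin m → (G →* kˣ)), (∀ i, (∃ (v : W) (f : Module.Dual k W), ∀ g, (ψ i g : k) = f (R g v)) ∧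
      ∀ g, ∃ w : W, w ≠ 0 ∧ R g w = (ψ i g : k) • w) ∧
      ∀ u ∈ U, LinearMap.trace k W (R (g0 * u)) = ∑ i, (ψ i (g0 * u) : k) :=
  ga5_aux U g0 hgen (Module.finrank k W) W R hU le_rfl

end H25G
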