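import Pool.Agent.Lib.H25G.GA2
import Pool.Agent.Lib.H25G.GA3
import Pool.Agent.Lib.H25G.GA5

/-! # H25G, chunk GA6: the trace is a combination of induced characters -/

set_option autoImplicit false

namespace H25G

variable {Γ k W : Type*} [Group Γ] [Field k] [AddCommGroup W] [Module k W]

theorem ga6_le (U : Subgroup Γ) [U.Normal] (s : Γ ⧸ U) : U ≤ Gs U s := by
  intro u hu
  show ((u : Γ) : Γ ⧸ U) ∈ Subgroup.zpowers s
  rw [(QuotientGroup.eq_one_iff u).2 hu]
  exact one_mem _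

open Classical in
theorem ga6_one [IsAlgClosed k] [CharZero k] [FiniteDimensional k W] (R : Γ →* Module.End k W) (U : Subgroup Γ) [U.Normal] [U.FiniteIndex]
    (hU : ∀ u ∈ U, ∀ v ∈ U, R u * R v = R v * R u) (s : Γ ⧸ U) :
    ∃ (m : ℕ) (ψ : Fin m → (Gs U s →* kˣ)) (c : Fin m → k), (∀ i, Cst R U (Gs U s) (Nat.card (Γ ⧸ U)) (ψ i)) ∧
      ∀ h : Gs U s, (if ((h : Γ) : Γ ⧸ U) = s then LinearMap.trace k W (R h) else 0) = ∑ i, c i * (ψ i h : k) := by
  obtain ⟨e, η, z, hη1, hη2, hη3⟩ := ga3 (k := k) U s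
  have hs : s.out ∈ Gs U s := by
    show ((s.out : Γ) : Γ ⧸ U) ∈ Subgroup.zpowers s
    rw [QuotientGroup.out_eq']
    exact Subgroup.mem_zpowers s
  obtain ⟨m, ψ, hψ1, hψ2⟩ := ga5 (k := k) (W := W) (R.comp (Gs U s).subtype) (U.subgroupOf (Gs U s)) ⟨s.out, hs⟩ (by
      rintro ⟨h, hh⟩
      obtain ⟨j, hj⟩ := Subgroup.mem_zpowers_iff.1 (show ((h : Γ) : Γ ⧸ U) ∈ Subgroup.zpowers s from hh)
      refine ⟨j, (⟨s.out, hs⟩ : Gs U s) ^ (-j) * ⟨h, hh⟩, ?_, ?_⟩
      · rw [Subgroup.mem_subgroupOf]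
        show (s.out ^ (-j) * h : Γ) ∈ U
        rw [← QuotientGroup.eq_one_iff, QuotientGroup.mk_mul, QuotientGroup.mk_zpow, QuotientGroup.out_eq', ← hj, zpow_neg,
          inv_mul_cancel]
      · rw [← mul_assoc, ← zpow_add, add_neg_cancel, zpow_zero, one_mul])
    (fun u hu v hv => hU _ (Subgroup.mem_subgroupOf.1 hu) _ (Subgroup.mem_subgroupOf.1 hv))
  refine ⟨e * m, fun x => η (finProdFinEquiv.symm x).1 * ψ (finProdFinEquiv.symm x).2, fun x => z (finProdFinEquiv.symm x).1, fun x => ?_, fun h => ?_⟩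
  · set i := (finProdFinEquiv.symm x).1
    set j := (finProdFinEquiv.symm x).2
    obtain ⟨⟨v, f, hvf⟩, hw⟩ := hψ1 j
    refine ⟨η i, v, f, hη1 i, hη2 i, fun h => ?_, fun h => ?_⟩
    · rw [MonoidHom.mul_apply, Units.val_mul, hvf h]
      rfl
    · obtain ⟨w, hw0, hw1⟩ := hw h
      refine ⟨w, hw0, ?_⟩
      rw [MonoidHom.mul_apply, inv_mul_cancel_left]
      exact hw1
  · have h1 : ∑ x : Fin (e * m), z (finProdFinEquiv.symm x).1 *
        (((η (finProdFinEquiv.symm x).1 * ψ (finProdFinEquiv.symm x).2) h : kˣ) : k) =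
        (∑ i, z i * (η i h : k)) * ∑ j, (ψ j h : k) := by
      rw [Equiv.sum_comp finProdFinEquiv.symm (fun y : Fin e × Fin m => z y.1 * (((η y.1 * ψ y.2) h : kˣ) : k)),
        Fintype.sum_prod_type, Finset.sum_mul_sum]
      refine Finset.sum_congr rfl fun i _ => Finset.sum_congr rfl fun j _ => ?_
      rw [MonoidHom.mul_apply, Units.val_mul, mul_assoc]
    rw [h1, hη3 h]
    split_ifs with h2
    · rw [one_mul]
      have h3 : (⟨s.out, hs⟩ : Gs U s)⁻¹ * h ∈ U.subgroupOf (Gs U s) := by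
        rw [Subgroup.mem_subgroupOf]
        show (s.out⁻¹ * (h : Γ) : Γ) ∈ U
        rw [← QuotientGroup.eq_one_iff, QuotientGroup.mk_mul, QuotientGroup.mk_inv, QuotientGroup.out_eq', h2, inv_mul_cancel]
      have h4 := hψ2 _ h3
      rw [mul_inv_cancel_left] at h4
      exact h4
    · rw [zero_mul]

/-- (M) GA6. U normal of finite index, U acts through commuting operators. Then trace R(g) is a linear combination of functions induced from characters ψ_i
of subgroups H_i containing U, all of the form Cst.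

Proof. F(g) = trace R(g) is constant on conjugacy classes (LinearMap.trace_mul_comm). By ga2 it is (1/|G|) sum_s |<s>| ind(F_s). For s in Γ/U, H = Gs U s, choose g0 in Γ
of class s (g0 in H); every element of H is g0^m u. ga5 for the group H, the subgroup U.subgroupOf H, R restricted to H: F(h) = sum_j ψ_j(h) for h of class s.
By ga3 the function F_s on H is sum_i sum_j z_i η_i ψ_j; so F_s is a combination of the characters η_i ψ_j of H, each of which satisfies
Cst R U H |G| (η = η_i; eigenvalue η_i^-1 η_i ψ_j = ψ_j). ind is linear (ga1_sum; H has finite index because it contains U). Collect everything in one finite family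
(for instance a Fintype index, then Finset.univ.equivFin; or sums of families indexed by lists). -/
theorem ga6 [IsAlgClosed k] [CharZero k] [FiniteDimensional k W] (R : Γ →* Module.End k W) (U : Subgroup Γ) [U.Normal] [U.FiniteIndex]
    (hU : ∀ u ∈ U, ∀ v ∈ U, R u * R v = R v * R u) :
    ∃ (m : ℕ) (H : Fin m → Subgroup Γ) (ψ : ∀ i, H i →* kˣ) (c : Fin m → k), (∀ i, U ≤ H i) ∧
      (∀ i, Cst R U (H i) (Nat.card (Γ ⧸ U)) (ψ i)) ∧
      ∀ g, LinearMap.trace k W (R g) = ∑ i, c i * ind (H i) (fun h => (ψ i h : k)) g := by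
  classical
  have : Fintype (Γ ⧸ U) := Fintype.ofFinite _
  have hN : (Nat.card (Γ ⧸ U) : k) ≠ 0 := Nat.cast_ne_zero.2 Nat.card_pos.ne'
  choose m ψ c hψ hc using ga6_one R U hU
  let E := Fintype.equivFin (Σ s : Γ ⧸ U, Fin (m s))
  refine ⟨Fintype.card (Σ s : Γ ⧸ U, Fin (m s)), fun i => Gs U (E.symm i).1, fun i => ψ (E.symm i).1 (E.symm i).2,
    fun i => (Nat.card (Γ ⧸ U) : k)⁻¹ * ((Nat.card (Subgroup.zpowers (E.symm i).1) : k) * c (E.symm i).1 (E.symm i).2),
    fun i => ga6_le U _, fun i => hψ _ _, fun g => ?_⟩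
  have h1 := ga2 U (fun g => LinearMap.trace k W (R g)) (fun a b => by
    have e1 : R (a * b * a⁻¹) = R (a * b) * R a⁻¹ := map_mul _ _ _
    have e2 : R a⁻¹ * R (a * b) = R b := by rw [← map_mul, inv_mul_cancel_left]
    show LinearMap.trace k W (R (a * b * a⁻¹)) = LinearMap.trace k W (R b)
    rw [e1, LinearMap.trace_mul_comm, e2]) g
  rw [finsum_eq_sum_of_fintype] at h1
  rw [Equiv.sum_comp E.symm (fun x : (Σ s : Γ ⧸ U, Fin (m s)) => (Nat.card (Γ ⧸ U) : k)⁻¹ *
    ((Nat.card (Subgroup.zpowers x.1) : k) * c x.1 x.2) * ind (Gs U x.1) (fun h => (ψ x.1 x.2 h : k)) g),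
    Fintype.sum_sigma]
  have h2 : ∀ s : Γ ⧸ U, ind (Gs U s) (fun h => if ((h : Γ) : Γ ⧸ U) = s then LinearMap.trace k W (R h) else 0) g =
      ∑ i, c s i * ind (Gs U s) (fun h => (ψ s i h : k)) g := by
    intro s
    have : (Gs U s).FiniteIndex := Subgroup.finiteIndex_of_le (ga6_le U s)
    rw [← ga1_sum]
    congr 1
    funext h
    exact hc s h
  have h3 : LinearMap.trace k W (R g) = (Nat.card (Γ ⧸ U) : k)⁻¹ * ((Nat.card (Γ ⧸ U) : k) * LinearMap.trace k W (R g)) := by
    rw [inv_mul_cancel_left₀ hN]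
  rw [h3, ← h1, Finset.mul_sum]
  refine Finset.sum_congr rfl fun s _ => ?_
  rw [h2, Finset.mul_sum, Finset.mul_sum]
  refine Finset.sum_congr rfl fun i _ => ?_
  ring

end H25G
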