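import Pool.Agent.Lib.H25G.GA1

/-! # H25G, chunk GA7: means over the finite quotient, invariants -/

set_option autoImplicit false

namespace H25G

variable {Γ k W : Type*} [Group Γ] [Field k] [AddCommGroup W] [Module k W]

open Classical in
/-- The function psi extended by zero. -/
noncomputable def ga7_ext (H : Subgroup Γ) (ψ : H →* kˣ) (g : Γ) : k := if h : g ∈ H then (ψ ⟨g, h⟩ : k) else 0

theorem ga7_ext_u (U H : Subgroup Γ) (hUH : U ≤ H) (ψ : H →* kˣ) (hψ : ∀ h : H, (h : Γ) ∈ U → ψ h = 1) (g u : Γ) (hu : u ∈ U) :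
    ga7_ext H ψ (g * u) = ga7_ext H ψ g := by
  unfold ga7_ext
  by_cases h : g ∈ H
  · have h2 : g * u ∈ H := H.mul_mem h (hUH hu)
    rw [dif_pos h, dif_pos h2]
    have e : (⟨g * u, h2⟩ : H) = ⟨g, h⟩ * ⟨u, hUH hu⟩ := rfl
    rw [e, map_mul, hψ ⟨u, hUH hu⟩ hu, mul_one]
  · have h2 : g * u ∉ H := fun h3 => h ((Subgroup.mul_mem_cancel_right H (hUH hu)).1 h3)
    rw [dif_neg h, dif_neg h2]

theorem ga7_ext_h (H : Subgroup Γ) (ψ : H →* kˣ) (g : Γ) (h0 : H) :
    ga7_ext H ψ (h0 * g) = (ψ h0 : k) * ga7_ext H ψ g := by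
  unfold ga7_ext
  by_cases h : g ∈ H
  · have h2 : (h0 : Γ) * g ∈ H := H.mul_mem h0.2 h
    rw [dif_pos h, dif_pos h2]
    have e : (⟨(h0 : Γ) * g, h2⟩ : H) = h0 * ⟨g, h⟩ := rfl
    rw [e, map_mul, Units.val_mul]
  · have h2 : (h0 : Γ) * g ∉ H := fun h3 => h ((Subgroup.mul_mem_cancel_left H h0.2).1 h3)
    rw [dif_neg h, dif_neg h2, mul_zero]

theorem ga7_out (U : Subgroup Γ) [U.Normal] {α : Type*} (F : Γ → α) (hF : ∀ g u : Γ, u ∈ U → F (g * u) = F g) (g : Γ) :
    F ((g : Γ ⧸ U)).out = F g := by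
  obtain ⟨u, hu⟩ := QuotientGroup.mk_out_eq_mul U g
  rw [hu]
  exact hF _ _ u.2

open Classical in
/-- (M) GA7a. psi a character of H trivial on U, U <= H, U normal in Γ of finite index: the mean over Γ/U of the induced function is 1 if psi = 1 and 0 otherwise.
Proof. ind ψ is constant on the cosets of U. Sum over the cosets x of U of the sum over t in Γ/H with t^-1 x t in H of ψ(t^-1 x t): exchange; for fixed t the map
x -> t^-1 x t is a bijection of Γ/U, so the inner sum is the sum of ψ over H/U, which is |H/U| if ψ = 1, else 0 (multiply by ψ(h0), ψ(h0) not 1). And |Γ/H| |H/U| = |Γ/U|. -/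
theorem ga7_mean [CharZero k] (U H : Subgroup Γ) [U.Normal] [U.FiniteIndex] (hUH : U ≤ H) (ψ : H →* kˣ) (hψ : ∀ h : H, (h : Γ) ∈ U → ψ h = 1) :
    ∑ᶠ x : Γ ⧸ U, ind H (fun h => (ψ h : k)) x.out = if ψ = 1 then (Nat.card (Γ ⧸ U) : k) else 0 := by
  have : H.FiniteIndex := Subgroup.finiteIndex_of_le hUH
  have : Fintype (Γ ⧸ U) := Fintype.ofFinite _
  have : Fintype (Γ ⧸ H) := Fintype.ofFinite _
  have hU := ga7_ext_u (k := k) U H hUH ψ hψ
  have e1 : ∀ x : Γ, ind H (fun h => (ψ h : k)) x = ∑ t : Γ ⧸ H, ga7_ext H ψ (t.out⁻¹ * x * t.out) := by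
    intro x
    unfold ind
    rw [finsum_eq_sum_of_fintype]
    rfl
  rw [finsum_eq_sum_of_fintype, Finset.sum_congr rfl fun x _ => e1 x.out, Finset.sum_comm]
  set A : k := ∑ y : Γ ⧸ U, ga7_ext H ψ y.out with hA
  have e2 : ∀ t : Γ, ∑ x : Γ ⧸ U, ga7_ext H ψ (t⁻¹ * x.out * t) = A := by
    intro t
    conv_rhs => rw [hA, ← Equiv.sum_comp (MulAut.conj ((t : Γ ⧸ U)⁻¹)).toEquiv]
    refine Finset.sum_congr rfl fun x _ => ?_
    have h1 : ((MulAut.conj ((t : Γ ⧸ U)⁻¹)).toEquiv x) = ((t⁻¹ * x.out * t : Γ) : Γ ⧸ U) := by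
      show (t : Γ ⧸ U)⁻¹ * x * ((t : Γ ⧸ U)⁻¹)⁻¹ = _
      rw [inv_inv, QuotientGroup.mk_mul, QuotientGroup.mk_mul, QuotientGroup.mk_inv, QuotientGroup.out_eq']
    rw [h1]
    exact (ga7_out U (ga7_ext H ψ) hU _).symm
  rw [Finset.sum_congr rfl fun t _ => e2 t.out, Finset.sum_const, nsmul_eq_mul]
  have e3 : ∀ h0 : H, (ψ h0 : k) * A = A := by
    intro h0
    conv_rhs => rw [hA, ← Equiv.sum_comp (Equiv.mulLeft ((h0 : Γ) : Γ ⧸ U))]
    rw [hA, Finset.mul_sum]
    refine Finset.sum_congr rfl fun x _ => ?_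
    have h1 : (Equiv.mulLeft ((h0 : Γ) : Γ ⧸ U)) x = (((h0 : Γ) * x.out : Γ) : Γ ⧸ U) := by
      show ((h0 : Γ) : Γ ⧸ U) * x = _
      rw [QuotientGroup.mk_mul, QuotientGroup.out_eq']
    rw [h1, ga7_out U (ga7_ext H ψ) hU, ga7_ext_h]
  split_ifs with h1
  · subst h1
    set H' : Subgroup (Γ ⧸ U) := H.map (QuotientGroup.mk' U) with hH'
    have hc : H'.comap (QuotientGroup.mk' U) = H := by
      rw [hH', Subgroup.comap_map_eq, QuotientGroup.ker_mk', sup_eq_left]
      exact hUH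
    have hmem : ∀ y : Γ ⧸ U, y.out ∈ H ↔ y ∈ H' := by
      intro y
      rw [← hc, Subgroup.mem_comap]
      show ((y.out : Γ) : Γ ⧸ U) ∈ H' ↔ y ∈ H'
      rw [QuotientGroup.out_eq']
    have hAc : A = (Nat.card H' : k) := by
      have h3 : A = ∑ y : Γ ⧸ U, if y ∈ H' then (1 : k) else 0 := by
        rw [hA]
        refine Finset.sum_congr rfl fun y _ => ?_
        unfold ga7_ext
        by_cases hy : y.out ∈ H
        · rw [dif_pos hy, if_pos ((hmem y).1 hy)]
          simp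
        · rw [dif_neg hy, if_neg (fun h => hy ((hmem y).2 h))]
      rw [h3, Finset.sum_ite, Finset.sum_const_zero, add_zero, Finset.sum_const, nsmul_eq_mul, mul_one,
        Nat.card_eq_fintype_card, Fintype.card_subtype]
    have hidx : Fintype.card (Γ ⧸ H) * Nat.card H' = Nat.card (Γ ⧸ U) := by
      rw [Subgroup.card_eq_card_quotient_mul_card_subgroup H']
      congr 1
      rw [← Nat.card_eq_fintype_card]
      change H.index = H'.index
      have := Subgroup.index_comap_of_surjective H' (QuotientGroup.mk'_surjective U)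
      rw [hc] at this
      exact this
    rw [hAc, Finset.card_univ, ← Nat.cast_mul, hidx]
  · have h2 : ∃ h0 : H, ψ h0 ≠ 1 := by
      by_contra h3
      push Not at h3
      exact h1 (MonoidHom.ext h3)
    obtain ⟨h0, hh0⟩ := h2
    have h4 : ((ψ h0 : k) - 1) * A = 0 := by rw [sub_mul, e3, one_mul, sub_self]
    rcases mul_eq_zero.1 h4 with h5 | h5
    · exact absurd (Units.ext (sub_eq_zero.1 h5)) hh0
    · rw [h5, mul_zero]

/-- (M) GA7b. If U acts trivially, the mean of the trace over Γ/U is the dimension of the invariants of Γ.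
Proof. Representation of the finite group Γ/U; Representation.average / FDRep.average_char_eq_finrank_invariants, or directly: P = (1/|G|) sum R(x) is a projection onto the
invariants and the trace of a projection is the dimension of its image (LinearMap.IsProj.trace). -/
theorem ga7_inv [CharZero k] [FiniteDimensional k W] (R : Γ →* Module.End k W) (U : Subgroup Γ) [U.Normal] [U.FiniteIndex]
    (hU : ∀ u ∈ U, R u = 1) :
    ∑ᶠ x : Γ ⧸ U, LinearMap.trace k W (R x.out) = (Nat.card (Γ ⧸ U) : k) * (Module.finrank k (inv R ⊤) : k) := by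
  have : Fintype (Γ ⧸ U) := Fintype.ofFinite _
  have hR : ∀ g u : Γ, u ∈ U → R (g * u) = R g := fun g u hu => by rw [map_mul, hU u hu, mul_one]
  have hN : (Nat.card (Γ ⧸ U) : k) ≠ 0 := Nat.cast_ne_zero.2 Nat.card_pos.ne'
  set P : Module.End k W := (Nat.card (Γ ⧸ U) : k)⁻¹ • ∑ x : Γ ⧸ U, R x.out with hP
  have hproj : LinearMap.IsProj (inv R ⊤) P := by
    refine ⟨fun w g _ => ?_, fun w hw => ?_⟩
    · have h1 : R g (P w) = (R g * P) w := rfl
      rw [h1]
      congr 1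
      rw [hP, mul_smul_comm, Finset.mul_sum]
      congr 1
      conv_rhs => rw [← Equiv.sum_comp (Equiv.mulLeft ((g : Γ) : Γ ⧸ U))]
      refine Finset.sum_congr rfl fun x _ => ?_
      have h1 : (Equiv.mulLeft ((g : Γ) : Γ ⧸ U)) x = ((g * x.out : Γ) : Γ ⧸ U) := by
        show ((g : Γ) : Γ ⧸ U) * x = _
        rw [QuotientGroup.mk_mul, QuotientGroup.out_eq']
      rw [h1, ga7_out U (fun g => R g) hR, ← map_mul]
    · have h1 : ∀ x : Γ ⧸ U, R x.out w = w := fun x => hw _ (Subgroup.mem_top _)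
      rw [hP, LinearMap.smul_apply, LinearMap.sum_apply, Finset.sum_congr rfl fun x _ => h1 x, Finset.sum_const,
        Finset.card_univ, ← Nat.cast_smul_eq_nsmul k, smul_smul, ← Nat.card_eq_fintype_card, inv_mul_cancel₀ hN, one_smul]
  have h2 := hproj.trace
  rw [hP, map_smul, map_sum, smul_eq_mul] at h2
  rw [finsum_eq_sum_of_fintype, ← h2, mul_inv_cancel_left₀ hN]

end H25G
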