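import Pool.Agent.Lib.H25G.GA4

/-! # H25G, chunk GA8: a commuting group with trivial constituent has an invariant vector -/

set_option autoImplicit false

namespace H25G

variable {G k W : Type*} [Group G] [Field k] [AddCommGroup W] [Module k W]

theorem ga8_aux {G : Type*} {k : Type*} [Group G] [Field k] [IsAlgClosed k] (n : ℕ) :
    ∀ (W : Type _) [AddCommGroup W] [Module k W] [FiniteDimensional k W] (R : G →* Module.End k W)
      (_ : Module.finrank k W = n) (_ : ∀ a b, R a * R b = R b * R a) (Q : Submodule k W)
      (_ : ∀ g, ∀ w ∈ Q, R g w ∈ Q) (v : W) (_ : v ∉ Q) (_ : ∀ g, R g v - v ∈ Q),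
      ∃ w : W, w ≠ 0 ∧ ∀ g, R g w = w := by
  induction n using Nat.strong_induction_on with
  | _ n ih =>
    intro W _ _ _ R hn hR Q hQ v hv hvQ
    by_cases hQ0 : Q = ⊥
    · subst hQ0
      refine ⟨v, fun h => hv (h ▸ Submodule.zero_mem _), fun g => ?_⟩
      have := hvQ g
      rw [Submodule.mem_bot, sub_eq_zero] at this
      exact this
    · have : Nontrivial Q := Submodule.nontrivial_iff_ne_bot.2 hQ0
      obtain ⟨⟨a, haQ⟩, ha0, ha⟩ := ga4_eig (k := k) (W := Q)
        (fun g : G => (R g).restrict (hQ g)) (fun g h => by
          refine LinearMap.ext fun x => Subtype.ext ?_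
          have := congrArg (fun T : Module.End k W => T x) (hR g h)
          simpa using this)
      have ha0' : a ≠ 0 := fun h => ha0 (Subtype.ext h)
      have ha' : ∀ g, ∃ c : k, R g a = c • a := fun g => by
        obtain ⟨c, hc⟩ := ha g
        exact ⟨c, congrArg Subtype.val hc⟩
      choose χ hχ using ha'
      by_cases h1 : ∀ g, χ g = 1
      · exact ⟨a, ha0', fun g => by rw [hχ, h1, one_smul]⟩
      · push Not at h1
        obtain ⟨g0, hg0⟩ := h1
        set p : Submodule k W := Submodule.span k {a} with hp
        have hst : ∀ g, p ≤ p.comap (R g) := by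
          intro g
          rw [hp, Submodule.span_le]
          intro x hx
          rw [Set.mem_singleton_iff] at hx
          subst hx
          show R g x ∈ Submodule.span k {x}
          rw [hχ]
          exact Submodule.smul_mem _ _ (Submodule.mem_span_singleton_self x)
        let R' : G →* Module.End k (W ⧸ p) :=
          { toFun := fun g => p.mapQ p (R g) (hst g)
            map_one' := by
              refine LinearMap.ext fun x => ?_
              obtain ⟨y, rfl⟩ := p.mkQ_surjective x
              simp
            map_mul' := fun g h => by
              refine LinearMap.ext fun x => ?_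
              obtain ⟨y, rfl⟩ := p.mkQ_surjective x
              simp }
        have hR' : ∀ g x, R' g (p.mkQ x) = p.mkQ (R g x) := fun g x => rfl
        have hpQ : p ≤ Q := by
          rw [hp, Submodule.span_le]
          intro x hx
          rw [Set.mem_singleton_iff] at hx
          subst hx
          exact haQ
        have hfr : Module.finrank k (W ⧸ p) < n := by
          have e1 := Submodule.finrank_quotient_add_finrank p
          have e2 : Module.finrank k p = 1 := finrank_span_singleton ha0'
          omega
        obtain ⟨w', hw0, hw'⟩ := ih _ hfr (W ⧸ p) R' rfl (by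
            intro g h
            refine LinearMap.ext fun x => ?_
            obtain ⟨y, rfl⟩ := p.mkQ_surjective x
            show R' g (R' h (p.mkQ y)) = R' h (R' g (p.mkQ y))
            rw [hR', hR', hR', hR']
            exact congrArg (fun T : Module.End k W => p.mkQ (T y)) (hR g h))
          (Q.map p.mkQ) (by
            intro g x hx
            obtain ⟨y, hy, rfl⟩ := hx
            exact ⟨R g y, hQ g y hy, rfl⟩)
          (p.mkQ v) (by
            rintro ⟨y, hy, hyv⟩
            have : y - v ∈ p := by
              rw [← Submodule.ker_mkQ p, LinearMap.mem_ker, map_sub, hyv, sub_self]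
            have h2 : v = y - (y - v) := by abel
            exact hv (h2 ▸ Q.sub_mem hy (hpQ this)))
          (by
            intro g
            exact ⟨R g v - v, hvQ g, by rw [map_sub, hR']⟩)
        obtain ⟨w, rfl⟩ := p.mkQ_surjective w'
        have hwp : w ∉ p := fun h => hw0 (by rwa [← LinearMap.mem_ker, Submodule.ker_mkQ])
        have hc : ∀ g, ∃ c : k, R g w = w + c • a := by
          intro g
          have h2 : R g w - w ∈ p := by
            rw [← Submodule.ker_mkQ p, LinearMap.mem_ker, map_sub, ← hR', hw', sub_self]
          obtain ⟨c, hc⟩ := Submodule.mem_span_singleton.1 h2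
          exact ⟨c, by rw [hc]; abel⟩
        choose c hc using hc
        set t : k := c g0 / (1 - χ g0) with ht
        have hne : (1 - χ g0) ≠ 0 := sub_ne_zero.2 (Ne.symm hg0)
        set w2 : W := w + t • a with hw2
        have e0 : R g0 w2 = w2 := by
          rw [hw2, map_add, map_smul, hc, hχ, smul_smul, add_assoc, ← add_smul]
          congr 2
          rw [ht]
          field_simp
          ring
        refine ⟨w2, fun h => hwp ?_, fun g => ?_⟩
        · have : w = - (t • a) := by rw [← add_eq_zero_iff_eq_neg]; exact h
          rw [this]
          exact p.neg_mem (p.smul_mem _ (Submodule.mem_span_singleton_self a))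
        · have e1 : R g w2 = w2 + (c g + t * χ g - t) • a := by
            rw [hw2, map_add, map_smul, hc, hχ, smul_smul, sub_smul, add_smul]
            abel
          set d : k := c g + t * χ g - t with hd
          have e2 : R g0 (R g w2) = R g (R g0 w2) := congrArg (fun T : Module.End k W => T w2) (hR g0 g)
          rw [e0, e1, map_add, e0, map_smul, hχ, smul_smul, add_right_inj, ← sub_eq_zero, ← sub_smul, smul_eq_zero] at e2
          rcases e2 with e2 | e2
          · have e3 : d * (χ g0 - 1) = 0 := by rw [mul_sub, mul_one]; exact e2
            rcases mul_eq_zero.1 e3 with e4 | e4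
            · rw [e1, e4, zero_smul, add_zero]
            · exact absurd (sub_eq_zero.1 e4) hg0
          · exact absurd e2 ha0'

/-- (M) GA8. R: G -> End(W) with commuting values, k algebraically closed, dim W finite, and a vector v and a linear form f with f(R(g) v) = 1 for all g. Then G has a nonzero invariant vector.

Proof. Claim: if Q <= W1 are stable subspaces, v in W1, v not in Q, R(g) v - v in Q for all g, then there is a nonzero invariant vector in W1. (Apply with W1 = W,
Q = {w : f(R(g) w) = 0 for all g}: v is not in Q because f(v) = 1, and f(R(h)(R(g) v - v)) = 1 - 1 = 0.) Induction on dim Q (or on dim W for all W with W1 = W). Q = 0: v is invariant.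
Otherwise ga4_eig gives a common eigenvector a in Q, R(g) a = χ(g) a. If χ = 1, take a. Otherwise χ(g0) is not 1 for some g0. By induction applied to W/ka there is w in W, not in ka,
with R(g) w - w in ka for all g: R(g) w = w + c(g) a. Put w' = w + t a, t = c(g0)/(1 - χ(g0)): R(g0) w' = w'. For every g, R(g) w' = w' + c'(g) a; R(g0) commutes
with R(g), so R(g0)(R(g) w') = R(g) w', that is w' + c'(g) χ(g0) a = w' + c'(g) a, so c'(g) = 0: w' is invariant, and not zero since w is not in ka. -/
theorem ga8 [IsAlgClosed k] [FiniteDimensional k W] (R : G →* Module.End k W) (hR : ∀ a b, R a * R b = R b * R a)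
    (v : W) (f : Module.Dual k W) (h : ∀ g, f (R g v) = 1) : ∃ w : W, w ≠ 0 ∧ ∀ g, R g w = w := by
  let Q : Submodule k W :=
    { carrier := {w | ∀ g, f (R g w) = 0}
      zero_mem' := fun g => by rw [map_zero, map_zero]
      add_mem' := fun {a b} ha hb g => by rw [map_add, map_add, ha g, hb g, add_zero]
      smul_mem' := fun c w hw g => by rw [map_smul, map_smul, hw g, smul_zero] }
  refine ga8_aux (Module.finrank k W) W R rfl hR Q (fun g w hw h' => ?_) v (fun hv => ?_) (fun g h' => ?_)
  · show f (R h' (R g w)) = 0
    have : R h' (R g w) = R (h' * g) w := by rw [map_mul]; rfl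
    rw [this]
    exact hw _
  · have := hv 1
    rw [h 1] at this
    exact one_ne_zero this
  · show f (R h' (R g v - v)) = 0
    have : R h' (R g v) = R (h' * g) v := by rw [map_mul]; rfl
    rw [map_sub, map_sub, this, h, h, sub_self]

end H25G
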