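import Pool.Agent.Lib.H25G.GA6
import Pool.Agent.Lib.H25G.GA7
import Pool.Agent.Lib.H25G.GA8

/-! # H25G, chunk GA9: the main theorem of module GA -/

set_option autoImplicit false

namespace H25G

variable {Γ k W : Type*} [Group Γ] [Field k] [AddCommGroup W] [Module k W]

/-- Restriction of a representation to a stable subspace. -/
def ga9_res (R : Γ →* Module.End k W) (A : Submodule k W) (hA : ∀ g, ∀ w ∈ A, R g w ∈ A) : Γ →* Module.End k A where
  toFun g := (R g).restrict (hA g)
  map_one' := by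
    refine LinearMap.ext fun x => Subtype.ext ?_
    show R 1 (x : W) = x
    rw [map_one]
    rfl
  map_mul' g h := by
    refine LinearMap.ext fun x => Subtype.ext ?_
    show R (g * h) (x : W) = R g (R h (x : W))
    rw [map_mul]
    rfl

theorem ga9_cst (R : Γ →* Module.End k W) (A : Submodule k W) (hA : ∀ g, ∀ w ∈ A, R g w ∈ A) (U H : Subgroup Γ) (N : ℕ)
    (ψ : H →* kˣ) (h : Cst (ga9_res R A hA) U H N ψ) : Cst R U H N ψ := by
  obtain ⟨η, v, f, h1, h2, h3, h4⟩ := h
  obtain ⟨f', hf'⟩ := LinearMap.exists_extend f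
  refine ⟨η, v, f', h1, h2, fun g => ?_, fun g => ?_⟩
  · rw [h3 g]
    congr 1
    exact (congrArg (fun T : A →ₗ[k] k => T ((ga9_res R A hA) g v)) hf').symm
  · obtain ⟨w, hw0, hw⟩ := h4 g
    exact ⟨w, fun h => hw0 (Subtype.ext h), congrArg Subtype.val hw⟩

theorem ga9_trace [FiniteDimensional k W] (T : Module.End k W) (A B : Submodule k W) (hA : ∀ w ∈ A, T w ∈ A) (hB : ∀ w ∈ B, T w ∈ B)
    (hAB : IsCompl A B) : LinearMap.trace k W T = LinearMap.trace k A (T.restrict hA) + LinearMap.trace k B (T.restrict hB) := by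
  let N : Bool → Submodule k W := fun b => if b then A else B
  have hN : DirectSum.IsInternal N := by
    rw [DirectSum.isInternal_submodule_iff_isCompl N (i := true) (j := false) (by simp) (by ext x; cases x <;> simp)]
    exact hAB
  have h1 := LinearMap.trace_eq_sum_trace_restrict hN (f := T) (by
    intro b
    cases b
    · exact hB
    · exact hA)
  rw [h1, Fintype.sum_bool]
  rfl

open Classical in
/-- (M) GA9. As GA6, and the invariants of U have a stable complement W'. Then the sum of the c_i with ψ_i = 1 is the dimension of the invariants of Γ.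

Proof. W0 = inv R U is stable (U normal). Restrict R to W0 and to W' (R0, R1). trace R(g) = trace R0(g) + trace R1(g) (IsCompl). Apply ga6 to both and put the families together; Cst for the
restriction to a stable subspace implies Cst for W (extend the linear form f from the subspace to W: LinearMap.exists_extend; v and w in the subspace).
For W0: U acts trivially, so Cst gives ψ(u) = η(u) f(v) = f(v) = ψ(1) = 1 for u in U. Sum over x in Γ/U of trace R0(x.out) = sum_i c_i ind ψ_i (x.out): by ga7_mean and ga7_inv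
|G| sum_{ψ_i = 1} c_i = |G| dim (W0)^Γ, and the invariants of Γ in W0 are those in W. For W': no ψ_i is 1: if ψ_i = 1, then for u in U: 1 = η(u) f(R(u) v) = f(R(u) v), so by ga8 (group U) there
is a nonzero w in W' invariant under U, which lies in W0 and W': contradiction. So the sum for W' is 0. -/
theorem ga9 [IsAlgClosed k] [CharZero k] [FiniteDimensional k W] (R : Γ →* Module.End k W) (U : Subgroup Γ) [U.Normal] [U.FiniteIndex]
    (hU : ∀ u ∈ U, ∀ v ∈ U, R u * R v = R v * R u)
    (W' : Submodule k W) (hW' : ∀ g, ∀ w ∈ W', R g w ∈ W') (hc : IsCompl (inv R U) W') :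
    ∃ (m : ℕ) (H : Fin m → Subgroup Γ) (ψ : ∀ i, H i →* kˣ) (c : Fin m → k), (∀ i, U ≤ H i) ∧
      (∀ i, Cst R U (H i) (Nat.card (Γ ⧸ U)) (ψ i)) ∧
      (∀ g, LinearMap.trace k W (R g) = ∑ i, c i * ind (H i) (fun h => (ψ i h : k)) g) ∧
      ∑ i, c i * (if ψ i = 1 then 1 else 0) = (Module.finrank k (inv R ⊤) : k) := by
  have : Fintype (Γ ⧸ U) := Fintype.ofFinite _
  have hN : (Nat.card (Γ ⧸ U) : k) ≠ 0 := Nat.cast_ne_zero.2 Nat.card_pos.ne'
  have hA : ∀ g, ∀ w ∈ inv R U, R g w ∈ inv R U := by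
    intro g w hw u hu
    have h1 : g⁻¹ * u * g ∈ U := by
      have := Subgroup.Normal.conj_mem ‹U.Normal› u hu g⁻¹
      rwa [inv_inv] at this
    have h2 : R u (R g w) = R g (R (g⁻¹ * u * g) w) := by
      rw [← Module.End.mul_apply, ← Module.End.mul_apply, ← map_mul, ← map_mul]
      congr 2
      group
    rw [h2, hw _ h1]
  set R0 := ga9_res R (inv R U) hA with hR0
  set R1 := ga9_res R W' hW' with hR1
  have hcomm : ∀ (A : Submodule k W) (hA : ∀ g, ∀ w ∈ A, R g w ∈ A), ∀ u ∈ U, ∀ v ∈ U,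
      ga9_res R A hA u * ga9_res R A hA v = ga9_res R A hA v * ga9_res R A hA u := by
    intro A hA u hu v hv
    refine LinearMap.ext fun x => Subtype.ext ?_
    exact congrArg (fun T : Module.End k W => T x) (hU u hu v hv)
  obtain ⟨m0, H0, ψ0, c0, a1, a2, a3⟩ := ga6 R0 U (hcomm _ _)
  obtain ⟨m1, H1, ψ1, c1, b1, b2, b3⟩ := ga6 R1 U (hcomm _ _)
  -- the sum for the invariants
  have s0 : ∑ i, c0 i * (if ψ0 i = 1 then 1 else 0) = (Module.finrank k (inv R ⊤) : k) := by
    have hR0U : ∀ u ∈ U, R0 u = 1 := by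
      intro u hu
      refine LinearMap.ext fun x => Subtype.ext ?_
      exact x.2 u hu
    have h1 := ga7_inv R0 U hR0U
    rw [finsum_eq_sum_of_fintype] at h1
    have h2 : ∀ i, ∀ h : H0 i, (h : Γ) ∈ U → ψ0 i h = 1 := by
      intro i h hh
      obtain ⟨η, v, f, q1, q2, q3, q4⟩ := a2 i
      have e1 : ((ψ0 i h : kˣ) : k) = f v := by
        have := q3 h
        rw [q2 h hh, hR0U _ hh] at this
        simpa using this
      have e2 : (1 : k) = f v := by simpa using q3 1
      refine Units.ext ?_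
      rw [e1, ← e2]
      rfl
    have h3 : ∀ i, ∑ x : Γ ⧸ U, ind (H0 i) (fun h => (ψ0 i h : k)) x.out = if ψ0 i = 1 then (Nat.card (Γ ⧸ U) : k) else 0 := by
      intro i
      have := ga7_mean U (H0 i) (a1 i) (ψ0 i) (h2 i)
      rwa [finsum_eq_sum_of_fintype] at this
    rw [Finset.sum_congr rfl fun x _ => a3 x.out, Finset.sum_comm,
      Finset.sum_congr rfl fun i _ => (Finset.mul_sum _ _ _).symm, Finset.sum_congr rfl fun i _ => congrArg (c0 i * ·) (h3 i)] at h1
    have h4 : Module.finrank k (inv R0 ⊤) = Module.finrank k (inv R ⊤) := by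
      have e1 : inv R0 ⊤ = (inv R ⊤).comap (inv R U).subtype := by
        ext x
        constructor
        · intro hx g hg
          exact congrArg Subtype.val (hx g hg)
        · intro hx g hg
          exact Subtype.ext (hx g hg)
      have e2 : inv R ⊤ ≤ inv R U := fun w hw u _ => hw u (Subgroup.mem_top _)
      rw [e1]
      exact (Submodule.comapSubtypeEquivOfLe e2).finrank_eq
    rw [h4] at h1
    refine mul_left_cancel₀ hN ?_
    rw [← h1, Finset.mul_sum]
    refine Finset.sum_congr rfl fun i _ => ?_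
    split_ifs
    · ring
    · ring
  have s1 : ∑ i, c1 i * (if ψ1 i = 1 then 1 else 0) = 0 := by
    refine Finset.sum_eq_zero fun i _ => ?_
    rw [if_neg, mul_zero]
    intro h1
    obtain ⟨η, v, f, q1, q2, q3, q4⟩ := b2 i
    obtain ⟨w, hw0, hw⟩ := ga8 (R1.comp U.subtype) (fun a b => hcomm W' hW' a a.2 b b.2) v f (fun u => by
      have e1 := q3 ⟨u, b1 i u.2⟩
      rw [q2 _ u.2, h1] at e1
      have e2 : (1 : k) = f (R1 u v) := by simpa using e1
      exact e2.symm)
    have h2 : (w : W) ∈ inv R U := fun u hu => congrArg Subtype.val (hw ⟨u, hu⟩)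
    have h3 : (w : W) ∈ (⊥ : Submodule k W) := hc.disjoint.le_bot ⟨h2, w.2⟩
    exact hw0 (Subtype.ext ((Submodule.mem_bot k).1 h3))
  have ht : ∀ g, LinearMap.trace k W (R g) = LinearMap.trace k (inv R U) (R0 g) + LinearMap.trace k W' (R1 g) := fun g =>
    ga9_trace (R g) (inv R U) W' (hA g) (hW' g) hc
  let E : Fin (m0 + m1) ≃ Fin m0 ⊕ Fin m1 := finSumFinEquiv.symm
  let H : Fin m0 ⊕ Fin m1 → Subgroup Γ := Sum.elim H0 H1
  let ψ : ∀ i : Fin m0 ⊕ Fin m1, H i →* kˣ := fun i => match i with
    | Sum.inl i => ψ0 i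
    | Sum.inr i => ψ1 i
  let c : Fin m0 ⊕ Fin m1 → k := Sum.elim c0 c1
  refine ⟨m0 + m1, fun i => H (E i), fun i => ψ (E i), fun i => c (E i), fun i => ?_, fun i => ?_, fun g => ?_, ?_⟩
  · show U ≤ H (E i)
    generalize E i = x
    rcases x with j | j
    · exact a1 j
    · exact b1 j
  · show Cst R U (H (E i)) (Nat.card (Γ ⧸ U)) (ψ (E i))
    generalize E i = x
    rcases x with j | j
    · exact ga9_cst R _ hA U _ _ _ (a2 j)
    · exact ga9_cst R _ hW' U _ _ _ (b2 j)
  · rw [Equiv.sum_comp E (fun i => c i * ind (H i) (fun h => (ψ i h : k)) g), Fintype.sum_sum_type, ht g, a3 g, b3 g]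
    rfl
  · rw [Equiv.sum_comp E (fun i => c i * (if ψ i = 1 then 1 else 0)), Fintype.sum_sum_type, ← s0]
    have h1 : ∑ i : Fin m1, c (Sum.inr i) * (if ψ (Sum.inr i) = 1 then 1 else 0) = 0 := s1
    rw [h1, add_zero]
    rfl

end H25G
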