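import Pool.Agent.Lib.H25G.Defs
import Pool.Agent.Lib.Helper95.Ord.FrobExists

/-! # H25G, chunk GB1: Frobenius elements at a given prime of the ring of all algebraic integers -/

set_option autoImplicit false

open NumberField Pool.Agent.GSem

namespace H25G

section gb1aux

variable {Ω : Type*} [Field Ω] [CharZero Ω] [IsAlgClosure ℚ Ω]

theorem gb1_gen {p : ℕ} (hp : p.Prime) {Q : Ideal (𝓞 Ω)} (hQ : Q.IsPrime) (hpQ : (p : 𝓞 Ω) ∈ Q) :
    ∃ φ : Gal(Ω/ℚ), ∀ x : 𝓞 Ω, φ • x - x ^ p ∈ Q := by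
  classical
  have hG : IsGalois ℚ Ω := Pool.Agent.Ord.isGaloisΩ
  have hfact : Fact p.Prime := ⟨hp⟩
  let P : Ideal ℤ := Q.under ℤ
  have hlo : Q.LiesOver P := ⟨rfl⟩
  have hinv := Pool.Agent.Ord.isInvariant_int (Ω := Ω)
  have hP : P = Ideal.span {(p : ℤ)} := by
    ext m
    rw [Ideal.mem_span_singleton, ← Pool.Agent.Ord.intCast_mem_iff hp hQ hpQ]
    show algebraMap ℤ (𝓞 Ω) m ∈ Q ↔ _
    simp
  have hPmax : P.IsMaximal := by
    rw [hP]
    exact Int.ideal_span_isMaximal_of_prime p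
  have hint : Algebra.IsIntegral ℤ (𝓞 Ω) := inferInstance
  have hQmax : Q.IsMaximal := Ideal.isMaximal_of_isIntegral_of_isMaximal_comap (R := ℤ) Q hPmax
  let _ : TopologicalSpace (𝓞 Ω) := ⊥
  have : DiscreteTopology (𝓞 Ω) := ⟨rfl⟩
  have hcont : ContinuousSMul Gal(Ω/ℚ) (𝓞 Ω) := by
    rw [continuousSMul_iff_stabilizer_isOpen]
    intro x
    have h1 := stabilizer_isOpen_of_isIntegral (K := ℚ) (x : Ω)
    have h2 : ((MulAction.stabilizer Gal(Ω/ℚ) x : Subgroup Gal(Ω/ℚ)) : Set Gal(Ω/ℚ)) =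
        (MulAction.stabilizer Gal(Ω/ℚ) (x : Ω) : Subgroup Gal(Ω/ℚ)) := by
      ext g
      simp only [SetLike.mem_coe, MulAction.mem_stabilizer_iff]
      constructor
      · intro h
        exact congrArg (fun y : 𝓞 Ω => (y : Ω)) h
      · intro h
        exact RingOfIntegers.coe_injective h
    rw [h2]
    exact h1
  let _ : Field (𝓞 Ω ⧸ Q) := Ideal.Quotient.field Q
  let _ : Field (ℤ ⧸ P) := Ideal.Quotient.field P
  have hchar : CharP (𝓞 Ω ⧸ Q) p := by
    have h0 : ((p : ℕ) : 𝓞 Ω ⧸ Q) = 0 := by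
      have := Ideal.Quotient.eq_zero_iff_mem.2 hpQ
      rwa [map_natCast] at this
    exact (CharP.charP_iff_prime_eq_zero hp).2 h0
  have hexp : ExpChar (𝓞 Ω ⧸ Q) p := ExpChar.prime hp
  have halg : Algebra.IsAlgebraic (ℤ ⧸ P) (𝓞 Ω ⧸ Q) := by
    have : Algebra.IsIntegral (ℤ ⧸ P) (𝓞 Ω ⧸ Q) := inferInstance
    infer_instance
  let F : (𝓞 Ω ⧸ Q) →ₐ[ℤ ⧸ P] (𝓞 Ω ⧸ Q) :=
    { toRingHom := frobenius (𝓞 Ω ⧸ Q) p
      commutes' := by
        intro r
        obtain ⟨m, rfl⟩ := Ideal.Quotient.mk_surjective r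
        show (algebraMap (ℤ ⧸ P) (𝓞 Ω ⧸ Q) (Ideal.Quotient.mk P m)) ^ p = _
        rw [← map_pow, ← map_pow]
        congr 1
        rw [Ideal.Quotient.eq, hP, Ideal.mem_span_singleton]
        rw [← ZMod.intCast_zmod_eq_zero_iff_dvd]
        push_cast
        rw [ZMod.pow_card, sub_self] }
  have hF : Function.Bijective F := Algebra.IsAlgebraic.algHom_bijective F
  obtain ⟨σ, hσ⟩ := Ideal.Quotient.stabilizerHom_surjective_of_profinite (G := Gal(Ω/ℚ)) P Q
    (AlgEquiv.ofBijective F hF)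
  refine ⟨σ, fun x => ?_⟩
  rw [← Ideal.Quotient.eq]
  exact DFunLike.congr_fun hσ (Ideal.Quotient.mk Q x)


theorem gb1_alg : @Algebra.IsAlgebraic ℚ Om _ _ DivisionRing.toRatAlgebra := by
  have h : (DivisionRing.toRatAlgebra : Algebra ℚ Om) = AlgebraicClosure.instAlgebra ℚ := Subsingleton.elim _ _
  rw [h]
  exact AlgebraicClosure.isAlgebraic ℚ

theorem gb1_cl : IsAlgClosure ℚ Om := ⟨inferInstance, gb1_alg⟩

end gb1aux

/-- (M) GB1a. For every prime Q of the ring of all algebraic integers over the prime number p there is a Frobenius element for Q (not only for some Q over p).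
Proof: copy Pool.Agent.Ord.exists_frob (Helper95/Ord/FrobExists.lean), which starts with an arbitrary maximal ideal over p; Q is maximal because it is a prime over p in an integral
extension of the integers (Ideal.isMaximal_of_isIntegral_of_isMaximal_comap). -/
theorem gb1_frob {p : ℕ} (hp : p.Prime) {Q : Ideal (𝓞 Om)} (hQ : Q.IsPrime) (hpQ : (p : 𝓞 Om) ∈ Q) :
    ∃ φ : Gal(Om/ℚ), ∀ x : 𝓞 Om, φ • x - x ^ p ∈ Q := by
  have hcl : IsAlgClosure ℚ Om := gb1_cl
  exact gb1_gen hp hQ hpQ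

end H25G
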