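import Pool.Agent.Lib.H25G.GB1
import Pool.Agent.Lib.H25G.GB1B

/-! # H25G, chunk GB2: Frobenius elements at p under an unramified representation -/

set_option autoImplicit false

open NumberField Pool.Agent.GSem

namespace H25G

variable {l : ℕ} [Fact l.Prime] {n : ℕ}

/-- (S/M) GB2a. Two Frobenius elements at p outside S: the images are conjugate.
Proof. φ for Q, φ' for Q'. gb1_trans: t with x in Q iff t x in Q'. Then t φ t^-1 is a Frobenius element for Q' (apply to x = t y), and s = (t φ t^-1)^-1 φ' satisfies s x - x in Q' for all x: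
(t φ t^-1) and φ' agree modulo Q', and (t φ t^-1) maps Q' into Q' and, Q' being maximal (or: x^p in Q' implies x in Q'), y in Q' iff (t φ t^-1) y in Q'. Unram gives ρ s = 1. -/
theorem gb2_conj {ρ : Gal(Om/ℚ) →* GL (Fin n) ℚ_[l]} {S : Finset ℕ} (hρ : Unram ρ S) {p : ℕ} (hp : p.Prime) (hpS : p ∉ S) {φ φ' : Gal(Om/ℚ)}
    (hφ : IsFrobAt p φ) (hφ' : IsFrobAt p φ') : ∃ t : Gal(Om/ℚ), ρ φ' = ρ (t * φ * t⁻¹) := by
  obtain ⟨Q, hQ, hpQ, hφQ⟩ := hφ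
  obtain ⟨Q', hQ', hpQ', hφQ'⟩ := hφ'
  obtain ⟨t, ht⟩ := gb1_trans hp hQ hpQ hQ' hpQ'
  refine ⟨t, ?_⟩
  have h1 : ∀ x : 𝓞 Om, (t * φ * t⁻¹) • x - x ^ p ∈ Q' := by
    intro x
    have h2 := (ht _).1 (hφQ (t⁻¹ • x))
    have h3 : t • (φ • (t⁻¹ • x) - (t⁻¹ • x) ^ p) = (t * φ * t⁻¹) • x - x ^ p := by
      rw [smul_sub, smul_pow', smul_inv_smul, mul_smul, mul_smul]
    rwa [h3] at h2
  have h4 : ∀ y : 𝓞 Om, (t * φ * t⁻¹) • y ∈ Q' → y ∈ Q' := by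
    intro y hy
    have h5 : y ^ p ∈ Q' := by
      have h6 := Q'.sub_mem hy (h1 y)
      rwa [sub_sub_cancel] at h6
    exact hQ'.mem_of_pow_mem p h5
  have h7 : ρ ((t * φ * t⁻¹)⁻¹ * φ') = 1 := by
    refine hρ p hp hpS Q' hQ' hpQ' _ fun x => ?_
    apply h4
    rw [smul_sub, mul_smul (t * φ * t⁻¹)⁻¹ φ' x, smul_inv_smul]
    have h8 := Q'.sub_mem (hφQ' x) (h1 x)
    rwa [sub_sub_sub_cancel_right] at h8
  rw [map_mul, map_inv] at h7
  exact (inv_mul_eq_one.1 h7).symm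

end H25G
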