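import Pool.Agent.Lib.H25G.GB3B

/-! # H25G, chunk GB3: comparison of Frobenius elements over M -/

set_option autoImplicit false

open NumberField Pool.Agent.GSem

namespace H25G

/-- (S/M) GB3c. Two Frobenius elements at P differ by conjugation in M.fixingSubgroup and an inertia element: g' = t g t^-1 s, t in M.fixingSubgroup, s x - x in Q' for all x, Q' over P.
Proof: as gb2_conj with gb3_trans; s is in M.fixingSubgroup because g, g', t are. -/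
theorem gb3_conj (M : IntermediateField ℚ Om) [NumberField M] (P : CFT.Pr M) {g g' : Gal(Om/ℚ)} (hg : IsFrP M P g) (hg' : IsFrP M P g') :
    ∃ t ∈ M.fixingSubgroup, ∃ s ∈ M.fixingSubgroup, ∃ Q : Ideal (𝓞 Om), Q.IsPrime ∧ Q.comap (algebraMap (𝓞 M) (𝓞 Om)) = P.asIdeal ∧
      (∀ x : 𝓞 Om, s • x - x ∈ Q) ∧ g' = t * g * t⁻¹ * s := by
  obtain ⟨hgM, Q, hQ, hPQ, h1⟩ := hg
  obtain ⟨hgM', Q', hQ', hPQ', h2⟩ := hg'
  obtain ⟨t, ht, h3⟩ := gb3_trans M P hQ hPQ hQ' hPQ'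
  have h4 : ∀ y : 𝓞 Om, (t * g * t⁻¹) • y - y ^ CFT.Nm P ∈ Q' := by
    intro y
    have h5 := (h3 _).1 (h1 (t⁻¹ • y))
    rw [smul_sub, smul_pow', smul_inv_smul, ← mul_smul, ← mul_smul] at h5
    exact h5
  have h5 : ∀ y : 𝓞 Om, (t * g * t⁻¹) • y ∈ Q' → y ∈ Q' := by
    intro y hy
    have h6 : y ^ CFT.Nm P ∈ Q' := by
      have h7 := Q'.sub_mem hy (h4 y)
      rwa [sub_sub_cancel] at h7
    exact hQ'.mem_of_pow_mem _ h6
  refine ⟨t, ht, (t * g * t⁻¹)⁻¹ * g', ?_, Q', hQ', hPQ', fun x => ?_, ?_⟩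
  · exact mul_mem (inv_mem (mul_mem (mul_mem ht hgM) (inv_mem ht))) hgM'
  · apply h5
    rw [smul_sub, ← mul_smul, mul_inv_cancel_left]
    have h6 := Q'.sub_mem (h2 x) (h4 x)
    rwa [sub_sub_sub_cancel_right] at h6
  · rw [mul_inv_cancel_left]

end H25G
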