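import Pool.Agent.Lib.H25G.GB3B

/-! # H25G, chunk GB3A: existence of Frobenius elements over M -/

set_option autoImplicit false

open NumberField Pool.Agent.GSem

namespace H25G

/-- (M) GB3a. Frobenius elements at P exist. Proof. Q a prime over P (Ideal.exists_ideal_over_prime_of_isIntegral and injectivity; 𝓞 Om is integral over 𝓞 M). As in
Pool.Agent.Ord.exists_frob with the group M.fixingSubgroup (closed, so compact; or Gal(Om/M), IntermediateField.fixingSubgroupEquiv) acting on 𝓞 Om with invariants 𝓞 M: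
Ideal.Quotient.stabilizerHom_surjective_of_profinite for P and Q, and the automorphism x -> x^(Nm P) of the residue field of Q over the finite field 𝓞 M / P. -/
theorem gb3_exists (M : IntermediateField ℚ Om) [NumberField M] (P : CFT.Pr M) : ∃ g : Gal(Om/ℚ), IsFrP M P g := by
  classical
  have hcl : IsAlgClosure ℚ Om := gb3b_cl
  have halg : Algebra.IsAlgebraic ℚ Om := gb3b_alg
  have hG : IsGalois ℚ Om := IsAlgClosure.isGalois ℚ Om
  have hinv := gb3b_inv M
  have hcomm := gb3b_comm M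
  let _ : TopologicalSpace (𝓞 Om) := ⊥
  have : DiscreteTopology (𝓞 Om) := ⟨rfl⟩
  have hcont := gb3b_cont M
  have hcpt : CompactSpace M.fixingSubgroup :=
    isCompact_iff_compactSpace.1 (IntermediateField.fixingSubgroup_isClosed M).isCompact
  have hinj : RingHom.ker (algebraMap (𝓞 M) (𝓞 Om)) ≤ P.asIdeal := by
    rw [(RingHom.injective_iff_ker_eq_bot _).mp (FaithfulSMul.algebraMap_injective (𝓞 M) (𝓞 Om))]
    exact bot_le
  obtain ⟨Q, hQ, hQP⟩ := Ideal.exists_ideal_over_prime_of_isIntegral_of_isDomain P.asIdeal hinj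
  have hlo : Q.LiesOver P.asIdeal := ⟨hQP.symm⟩
  have hmax : P.asIdeal.IsMaximal := P.isMaximal
  have hfin : Finite (𝓞 M ⧸ P.asIdeal) := Ideal.finiteQuotientOfFreeOfNeBot _ P.ne_bot
  let _ : Field (𝓞 M ⧸ P.asIdeal) := Ideal.Quotient.field _
  have : Fintype (𝓞 M ⧸ P.asIdeal) := Fintype.ofFinite _
  have hcard : Fintype.card (𝓞 M ⧸ P.asIdeal) = CFT.Nm P := by
    rw [← Nat.card_eq_fintype_card]
    show _ = Ideal.absNorm P.asIdeal
    rw [Ideal.absNorm_apply, Submodule.cardQuot_apply]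
  have hQmax : Q.IsMaximal := Ideal.isMaximal_of_isIntegral_of_isMaximal_comap Q (by rw [hQP]; exact hmax)
  let _ : Field (𝓞 Om ⧸ Q) := Ideal.Quotient.field Q
  have halg2 : Algebra.IsAlgebraic (𝓞 M ⧸ P.asIdeal) (𝓞 Om ⧸ Q) := by
    have : Algebra.IsIntegral (𝓞 M ⧸ P.asIdeal) (𝓞 Om ⧸ Q) := inferInstance
    infer_instance
  let F : (𝓞 Om ⧸ Q) →ₐ[𝓞 M ⧸ P.asIdeal] (𝓞 Om ⧸ Q) := FiniteField.frobeniusAlgHom (𝓞 M ⧸ P.asIdeal) (𝓞 Om ⧸ Q)
  have hF : Function.Bijective F := Algebra.IsAlgebraic.algHom_bijective F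
  obtain ⟨σ, hσ⟩ := Ideal.Quotient.stabilizerHom_surjective_of_profinite (G := M.fixingSubgroup) P.asIdeal Q
    (AlgEquiv.ofBijective F hF)
  refine ⟨σ, (σ : M.fixingSubgroup).2, Q, hQ, hQP, fun x => ?_⟩
  have h1 := DFunLike.congr_fun hσ (Ideal.Quotient.mk Q x)
  rw [← Ideal.Quotient.eq, map_pow, ← hcard]
  exact h1

end H25G
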