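import Pool.Agent.Lib.H25G.GB1

/-! # H25G, chunk GB3B: transitivity over M -/

set_option autoImplicit false

open NumberField Pool.Agent.GSem

namespace H25G

theorem gb3b_alg : @Algebra.IsAlgebraic ℚ Om _ _ DivisionRing.toRatAlgebra := by
  have h : (DivisionRing.toRatAlgebra : Algebra ℚ Om) = AlgebraicClosure.instAlgebra ℚ := Subsingleton.elim _ _
  rw [h]
  infer_instance

theorem gb3b_cl : IsAlgClosure ℚ Om := ⟨inferInstance, gb3b_alg⟩

/-- the group acts linearly over the integers of M -/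
theorem gb3b_comm (M : IntermediateField ℚ Om) [NumberField M] : SMulCommClass M.fixingSubgroup (𝓞 M) (𝓞 Om) := by
  refine ⟨fun g a x => ?_⟩
  apply RingOfIntegers.coe_injective
  have h1 : (g : Gal(Om/ℚ)) ((a : M) : Om) = ((a : M) : Om) := (IntermediateField.mem_fixingSubgroup_iff _ _).1 g.2 _ (a : M).2
  rw [Algebra.smul_def, Algebra.smul_def]
  show (g : Gal(Om/ℚ)) (((a : M) : Om) * (x : Om)) = ((a : M) : Om) * (g : Gal(Om/ℚ)) (x : Om)
  rw [map_mul, h1]

/-- the invariants are the integers of M -/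
theorem gb3b_inv (M : IntermediateField ℚ Om) [NumberField M] : Algebra.IsInvariant (𝓞 M) (𝓞 Om) M.fixingSubgroup := by
  have hcl : IsAlgClosure ℚ Om := gb3b_cl
  have hG : IsGalois ℚ Om := IsAlgClosure.isGalois ℚ Om
  refine ⟨fun x hx => ?_⟩
  have h1 : ∀ g ∈ M.fixingSubgroup, g (x : Om) = x := fun g hg =>
    congrArg (fun y : 𝓞 Om => (y : Om)) (hx ⟨g, hg⟩)
  have h2 : (x : Om) ∈ M := by
    rw [← InfiniteGalois.fixedField_fixingSubgroup M, IntermediateField.mem_fixedField_iff]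
    exact h1
  have h3 : IsIntegral ℤ (⟨x, h2⟩ : M) := by
    have h4 : IsIntegral ℤ (algebraMap M Om ⟨x, h2⟩) := x.isIntegral_coe
    exact (isIntegral_algebraMap_iff (algebraMap M Om).injective).1 h4
  refine ⟨⟨⟨x, h2⟩, h3⟩, ?_⟩
  apply RingOfIntegers.coe_injective
  rfl

/-- continuity of the action -/
theorem gb3b_cont (M : IntermediateField ℚ Om) [NumberField M] [TopologicalSpace (𝓞 Om)] [DiscreteTopology (𝓞 Om)] :
    ContinuousSMul M.fixingSubgroup (𝓞 Om) := by
  have hcl : IsAlgClosure ℚ Om := gb3b_cl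
  have halg : Algebra.IsAlgebraic ℚ Om := gb3b_alg
  have hcont : ContinuousSMul Gal(Om/ℚ) (𝓞 Om) := by
    rw [continuousSMul_iff_stabilizer_isOpen]
    intro x
    have h1 := stabilizer_isOpen_of_isIntegral (K := ℚ) (x : Om)
    have h2 : (MulAction.stabilizer Gal(Om/ℚ) x : Set Gal(Om/ℚ)) = (MulAction.stabilizer Gal(Om/ℚ) (x : Om) : Set Gal(Om/ℚ)) := by
      ext g
      simp only [SetLike.mem_coe, MulAction.mem_stabilizer_iff]
      constructor
      · intro h
        exact congrArg (fun y : 𝓞 Om => (y : Om)) h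
      · intro h
        exact RingOfIntegers.coe_injective h
    rw [h2]
    exact h1
  exact ⟨(continuous_smul : Continuous fun q : Gal(Om/ℚ) × 𝓞 Om => q.1 • q.2).comp
    (Continuous.prodMk (continuous_subtype_val.comp continuous_fst) continuous_snd)⟩

open scoped Pointwise in
/-- (M) GB3b. The Galois group of M acts transitively on the primes over P (same references as GB1b, for the group M.fixingSubgroup). -/
theorem gb3_trans (M : IntermediateField ℚ Om) [NumberField M] (P : CFT.Pr M) {Q Q' : Ideal (𝓞 Om)} (hQ : Q.IsPrime)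
    (hPQ : Q.comap (algebraMap (𝓞 M) (𝓞 Om)) = P.asIdeal) (hQ' : Q'.IsPrime) (hPQ' : Q'.comap (algebraMap (𝓞 M) (𝓞 Om)) = P.asIdeal) :
    ∃ t ∈ M.fixingSubgroup, ∀ x : 𝓞 Om, x ∈ Q ↔ t • x ∈ Q' := by
  classical
  have hcl : IsAlgClosure ℚ Om := gb3b_cl
  have halg : Algebra.IsAlgebraic ℚ Om := gb3b_alg
  have hG : IsGalois ℚ Om := IsAlgClosure.isGalois ℚ Om
  have hinv := gb3b_inv M
  have hcomm := gb3b_comm M
  let _ : TopologicalSpace (𝓞 Om) := ⊥
  have : DiscreteTopology (𝓞 Om) := ⟨rfl⟩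
  have hcont := gb3b_cont M
  have hcpt : CompactSpace M.fixingSubgroup :=
    isCompact_iff_compactSpace.1 (IntermediateField.fixingSubgroup_isClosed M).isCompact
  obtain ⟨g, hg⟩ := Algebra.IsInvariant.exists_smul_of_under_eq_of_profinite (A := 𝓞 M) (G := M.fixingSubgroup) Q Q'
    (hPQ.trans hPQ'.symm)
  refine ⟨g, g.2, fun x => ?_⟩
  rw [hg]
  exact (Ideal.smul_mem_pointwise_smul_iff (a := g) (S := Q) (x := x)).symm

end H25G
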