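import Pool.Agent.Lib.H25G.TwD
import Pool.Agent.Lib.Helper95.Ord.DegOne

/-! # H25G, chunk GB4A: primes of degree one from fixed cosets -/

set_option autoImplicit false

open NumberField Pool.Agent.GSem

namespace H25G

theorem gb4a_fix (M : IntermediateField ℚ Om) {h : Gal(Om/ℚ)} (hh : h ∈ M.fixingSubgroup) (x : 𝓞 M) :
    h • (algebraMap (𝓞 M) (𝓞 Om) x) = algebraMap (𝓞 M) (𝓞 Om) x := by
  apply RingOfIntegers.coe_injective
  have h1 : ((algebraMap (𝓞 M) (𝓞 Om) x : 𝓞 Om) : Om) = ((x : M) : Om) := rfl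
  change h ((algebraMap (𝓞 M) (𝓞 Om) x : 𝓞 Om) : Om) = ((algebraMap (𝓞 M) (𝓞 Om) x : 𝓞 Om) : Om)
  rw [h1]
  exact (IntermediateField.mem_fixingSubgroup_iff _ _).1 hh _ (x : M).2

theorem gb4a_tw_prime {Q : Ideal (𝓞 Om)} (hQ : Q.IsPrime) (t : Gal(Om/ℚ)) : (tw Q t).IsPrime :=
  Ideal.IsPrime.comap _

theorem gb4a_absNorm {K : Type} [Field K] [NumberField K] {p : ℕ} (hp : p.Prime) {I : Ideal (𝓞 K)} (hI : I.IsPrime)
    (hpI : (p : 𝓞 K) ∈ I) (h : ∀ x : 𝓞 K, x - x ^ p ∈ I) : Ideal.absNorm I = p := by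
  have hfact : Fact p.Prime := ⟨hp⟩
  have hdom : IsDomain (𝓞 K ⧸ I) := Ideal.Quotient.isDomain I
  have hchar : CharP (𝓞 K ⧸ I) p := Pool.Agent.Ord.charP_quotient hp hI hpI
  let ψ : ZMod p →+* (𝓞 K ⧸ I) := ZMod.castHom (dvd_refl p) _
  have hψ : Function.Bijective ψ := by
    refine ⟨ψ.injective, fun y => ?_⟩
    obtain ⟨x, rfl⟩ := Ideal.Quotient.mk_surjective y
    obtain ⟨m, hm⟩ := Pool.Agent.Ord.exists_int_of_pow hp hI hpI (h x)
    refine ⟨(m : ZMod p), ?_⟩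
    rw [map_intCast]
    have := Ideal.Quotient.eq.2 hm
    rw [this, map_intCast]
  have h1 : Nat.card (𝓞 K ⧸ I) = p := by
    rw [← Nat.card_congr (Equiv.ofBijective ψ hψ), Nat.card_zmod]
  rw [Ideal.absNorm_apply, Submodule.cardQuot_apply]
  exact h1

/-- (M) GB4a. φ a Frobenius element for Q over p, t in Gal with t^-1 φ t in M.fixingSubgroup. Then there is a prime P of M of norm p, below tw Q t, and t^-1 φ t is a Frobenius element at P.
Proof. t^-1 φ t x - x^p in tw Q t for all x (apply the condition to t x). For x in 𝓞 M: t^-1 φ t x = x, so x - x^p is in the prime p0 = comap of tw Q t in 𝓞 M. p0 is a nonzero prime (contains p), and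
all elements of the field 𝓞 M / p0 satisfy x = x^p, so it has at most p elements, and at least p (characteristic p): absNorm = p. -/
theorem gb4_deg (M : IntermediateField ℚ Om) [NumberField M] {p : ℕ} (hp : p.Prime) {Q : Ideal (𝓞 Om)} (hQ : Q.IsPrime) (hpQ : (p : 𝓞 Om) ∈ Q)
    {φ : Gal(Om/ℚ)} (hφ : ∀ x : 𝓞 Om, φ • x - x ^ p ∈ Q) (t : Gal(Om/ℚ)) (ht : t⁻¹ * φ * t ∈ M.fixingSubgroup) :
    ∃ P : CFT.Pr M, CFT.Nm P = p ∧ (tw Q t).comap (algebraMap (𝓞 M) (𝓞 Om)) = P.asIdeal ∧ IsFrP M P (t⁻¹ * φ * t) := by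
  have h1 : ∀ x : 𝓞 M, x - x ^ p ∈ (tw Q t).comap (algebraMap (𝓞 M) (𝓞 Om)) := by
    intro x
    rw [Ideal.mem_comap, mem_tw, map_sub, map_pow, smul_sub, smul_pow']
    have h2 : φ • t • (algebraMap (𝓞 M) (𝓞 Om) x) = t • (algebraMap (𝓞 M) (𝓞 Om) x) := by
      have h3 := gb4a_fix M ht x
      rw [mul_smul, mul_smul, inv_smul_eq_iff] at h3
      exact h3
    have h4 := hφ (t • (algebraMap (𝓞 M) (𝓞 Om) x))
    rwa [h2] at h4
  have hprime : ((tw Q t).comap (algebraMap (𝓞 M) (𝓞 Om))).IsPrime := by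
    have := gb4a_tw_prime hQ t
    exact Ideal.IsPrime.comap _
  have hpI : (p : 𝓞 M) ∈ (tw Q t).comap (algebraMap (𝓞 M) (𝓞 Om)) := by
    rw [Ideal.mem_comap, mem_tw, map_natCast]
    have : t • (p : 𝓞 Om) = (p : 𝓞 Om) := map_natCast (MulSemiringAction.toRingHom Gal(Om/ℚ) (𝓞 Om) t) p
    rw [this]
    exact hpQ
  have hbot : (tw Q t).comap (algebraMap (𝓞 M) (𝓞 Om)) ≠ ⊥ := by
    intro h
    rw [h, Ideal.mem_bot] at hpI
    exact hp.ne_zero (by exact_mod_cast hpI)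
  refine ⟨⟨_, hprime, hbot⟩, gb4a_absNorm hp hprime hpI h1, rfl, ht, tw Q t, gb4a_tw_prime hQ t, rfl, ?_⟩
  intro x
  have hN : CFT.Nm (⟨_, hprime, hbot⟩ : CFT.Pr M) = p := gb4a_absNorm hp hprime hpI h1
  rw [hN, mem_tw, smul_sub, mul_smul, mul_smul, smul_inv_smul, smul_pow']
  exact hφ (t • x)

end H25G
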