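import Pool.Agent.Lib.H25G.GB4B
import Pool.Agent.Lib.H25G.GB1B

/-! # H25G, chunk GB4C: all primes of degree one are obtained -/

set_option autoImplicit false

open NumberField Pool.Agent.GSem

namespace H25G

/-- (M) GB4c. For p large (b from gb4_sep): every prime P of M of norm p is below tw Q t for some t with t^-1 φ t in M.fixingSubgroup.
Proof. Q1 a prime of 𝓞 Om over P; gb1_trans: t with x in Q1 iff t x in Q, that is Q1 = tw Q t. φ t x - t x^p in Q, for x in 𝓞 M: x - x^p in P (residue field with p elements: FiniteField / ZMod.pow_card), so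
t x - t x^p in Q, so φ t x - t x in Q for all x in 𝓞 M; gb4_sep for φ t and t: t^-1 φ t in M.fixingSubgroup. -/
theorem gb4_surj (M : IntermediateField ℚ Om) [NumberField M] : ∃ b : ℕ, ∀ p : ℕ, b < p → p.Prime → ∀ Q : Ideal (𝓞 Om), Q.IsPrime → (p : 𝓞 Om) ∈ Q →
    ∀ φ : Gal(Om/ℚ), (∀ x : 𝓞 Om, φ • x - x ^ p ∈ Q) → ∀ P : CFT.Pr M, CFT.Nm P = p →
      ∃ t : Gal(Om/ℚ), t⁻¹ * φ * t ∈ M.fixingSubgroup ∧ (tw Q t).comap (algebraMap (𝓞 M) (𝓞 Om)) = P.asIdeal := by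
  classical
  obtain ⟨b, hb⟩ := gb4_sep M
  refine ⟨b, fun p hp hpp Q hQ hpQ φ hφ P hP => ?_⟩
  -- a prime of the integers above P
  have hinj : RingHom.ker (algebraMap (𝓞 M) (𝓞 Om)) ≤ P.asIdeal := by
    rw [(RingHom.injective_iff_ker_eq_bot _).mp (FaithfulSMul.algebraMap_injective (𝓞 M) (𝓞 Om))]
    exact bot_le
  obtain ⟨Q1, hQ1, hQ1P⟩ := Ideal.exists_ideal_over_prime_of_isIntegral_of_isDomain P.asIdeal hinj
  have hpP : (p : 𝓞 M) ∈ P.asIdeal := by
    have := Ideal.absNorm_mem P.asIdeal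
    have h2 : Ideal.absNorm P.asIdeal = p := hP
    rwa [h2] at this
  have hmem : ∀ x : 𝓞 M, x ∈ P.asIdeal ↔ algebraMap (𝓞 M) (𝓞 Om) x ∈ Q1 := by
    intro x
    rw [← hQ1P]
    exact Ideal.mem_comap
  have hpQ1 : (p : 𝓞 Om) ∈ Q1 := by
    have := (hmem _).mp hpP
    rwa [map_natCast] at this
  obtain ⟨t, ht⟩ := gb1_trans hpp hQ1 hpQ1 hQ hpQ
  have htw : tw Q t = Q1 := by
    ext x
    rw [mem_tw, ht x]
  refine ⟨t, ?_, by rw [htw, hQ1P]⟩
  have h1 : ∀ x : 𝓞 M, x - x ^ p ∈ P.asIdeal := by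
    intro x
    have hfin : Finite (𝓞 M ⧸ P.asIdeal) := Ideal.finiteQuotientOfFreeOfNeBot _ P.ne_bot
    have hmax : P.asIdeal.IsMaximal := P.isMaximal
    let _ : Field (𝓞 M ⧸ P.asIdeal) := Ideal.Quotient.field _
    have : Fintype (𝓞 M ⧸ P.asIdeal) := Fintype.ofFinite _
    have hcard : Fintype.card (𝓞 M ⧸ P.asIdeal) = p := by
      rw [← Nat.card_eq_fintype_card]
      have h2 : Ideal.absNorm P.asIdeal = p := hP
      rwa [Ideal.absNorm_apply, Submodule.cardQuot_apply] at h2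
    rw [← Ideal.Quotient.eq, map_pow]
    have := FiniteField.pow_card (Ideal.Quotient.mk P.asIdeal x)
    rw [hcard] at this
    exact this.symm
  have key := hb p hp hpp Q hQ hpQ (φ * t) t (by
    intro x
    have e1 := hφ (t • algebraMap (𝓞 M) (𝓞 Om) x)
    have e2 : t • algebraMap (𝓞 M) (𝓞 Om) x - (t • algebraMap (𝓞 M) (𝓞 Om) x) ^ p ∈ Q := by
      have h3 := (ht _).mp ((hmem _).mp (h1 x))
      rw [map_sub, map_pow, smul_sub, smul_pow'] at h3
      exact h3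
    have e3 := Q.sub_mem e1 e2
    rw [mul_smul]
    have e4 : φ • t • algebraMap (𝓞 M) (𝓞 Om) x - t • algebraMap (𝓞 M) (𝓞 Om) x =
        φ • t • algebraMap (𝓞 M) (𝓞 Om) x - (t • algebraMap (𝓞 M) (𝓞 Om) x) ^ p -
        (t • algebraMap (𝓞 M) (𝓞 Om) x - (t • algebraMap (𝓞 M) (𝓞 Om) x) ^ p) := by ring
    rw [e4]
    exact e3)
  rw [mul_assoc]
  exact key

end H25G
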