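import Pool.Agent.Lib.H25G.GB4B
import Pool.Agent.Lib.H25G.GB3B

/-! # H25G, chunk GB4D: injectivity -/

set_option autoImplicit false

open NumberField Pool.Agent.GSem

namespace H25G

/-- (M) GB4d. For p large: two such t, t' for the same P are in the same coset of M.fixingSubgroup.
Proof. tw Q t and tw Q t' are primes over P; gb3_trans: c in M.fixingSubgroup with x in tw Q t iff c x in tw Q t', that is t x in Q iff t' c x in Q. Put d = t' c t^-1: y in Q iff d y in Q.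
For x in 𝓞 M put y = t x: φ y = y (t^-1 φ t fixes M), so y - y^p in Q, so y = a modulo Q with a an integer (Pool.Agent.Ord.exists_int_of_pow), so d y = a modulo Q,
so d t x - t x in Q: t' c x - t x in Q, and c x = x. gb4_sep: t^-1 t' in M.fixingSubgroup. -/
theorem gb4_inj (M : IntermediateField ℚ Om) [NumberField M] : ∃ b : ℕ, ∀ p : ℕ, b < p → p.Prime → ∀ Q : Ideal (𝓞 Om), Q.IsPrime → (p : 𝓞 Om) ∈ Q →
    ∀ φ : Gal(Om/ℚ), (∀ x : 𝓞 Om, φ • x - x ^ p ∈ Q) → ∀ P : CFT.Pr M, ∀ t t' : Gal(Om/ℚ), t⁻¹ * φ * t ∈ M.fixingSubgroup → t'⁻¹ * φ * t' ∈ M.fixingSubgroup →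
      (tw Q t).comap (algebraMap (𝓞 M) (𝓞 Om)) = P.asIdeal → (tw Q t').comap (algebraMap (𝓞 M) (𝓞 Om)) = P.asIdeal → t⁻¹ * t' ∈ M.fixingSubgroup := by
  obtain ⟨b, hb⟩ := gb4_sep M
  refine ⟨b, fun p hbp hp Q hQ hpQ φ hφ P t t' ht _ hP hP' => ?_⟩
  have hQ1 : (tw Q t).IsPrime := Ideal.IsPrime.comap _
  have hQ2 : (tw Q t').IsPrime := Ideal.IsPrime.comap _
  have hfix : ∀ {h : Gal(Om/ℚ)}, h ∈ M.fixingSubgroup → ∀ x : 𝓞 M,
      h • (algebraMap (𝓞 M) (𝓞 Om) x) = algebraMap (𝓞 M) (𝓞 Om) x := by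
    intro h hh x
    apply RingOfIntegers.coe_injective
    have h1 : ((algebraMap (𝓞 M) (𝓞 Om) x : 𝓞 Om) : Om) = ((x : M) : Om) := rfl
    change h ((algebraMap (𝓞 M) (𝓞 Om) x : 𝓞 Om) : Om) = ((algebraMap (𝓞 M) (𝓞 Om) x : 𝓞 Om) : Om)
    rw [h1]
    exact (IntermediateField.mem_fixingSubgroup_iff _ _).1 hh _ (x : M).2
  obtain ⟨c, hc, hcx⟩ := gb3_trans M P hQ1 hP hQ2 hP'
  refine hb p hbp hp Q hQ hpQ t' t fun x => ?_
  have h2 : φ • t • (algebraMap (𝓞 M) (𝓞 Om) x) = t • (algebraMap (𝓞 M) (𝓞 Om) x) := by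
    have h3 := hfix ht x
    rw [mul_smul, mul_smul, inv_smul_eq_iff] at h3
    exact h3
  have h4 := hφ (t • (algebraMap (𝓞 M) (𝓞 Om) x))
  rw [h2] at h4
  obtain ⟨m, hm⟩ := Pool.Agent.Ord.exists_int_of_pow hp hQ hpQ h4
  have hint : ∀ g : Gal(Om/ℚ), g • (m : 𝓞 Om) = (m : 𝓞 Om) := fun g =>
    map_intCast (MulSemiringAction.toRingHom Gal(Om/ℚ) (𝓞 Om) g) m
  have h5 := (hcx (algebraMap (𝓞 M) (𝓞 Om) x - (m : 𝓞 Om))).1 (by
    rw [mem_tw, smul_sub, hint]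
    exact hm)
  rw [mem_tw, smul_sub, hint, hfix hc, smul_sub, hint] at h5
  have h6 : t' • (algebraMap (𝓞 M) (𝓞 Om) x) - t • (algebraMap (𝓞 M) (𝓞 Om) x)
      = (t' • (algebraMap (𝓞 M) (𝓞 Om) x) - (m : 𝓞 Om)) - (t • (algebraMap (𝓞 M) (𝓞 Om) x) - (m : 𝓞 Om)) := by
    ring
  rw [h6]
  exact Q.sub_mem h5 hm

end H25G
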