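import Pool.Agent.Lib.H25G.GB4A
import Pool.Agent.Lib.H25G.GB4C
import Pool.Agent.Lib.H25G.GB4D
import Pool.Agent.Lib.H25G.GA1

/-! # H25G, chunk GB5: the induced function at a Frobenius element -/

set_option autoImplicit false

open NumberField Pool.Agent.GSem

namespace H25G

/-- (M) GB5. For p large, F : M.fixingSubgroup -> k constant on conjugacy classes and equal to f P at the Frobenius elements at P: the sum of f P over the primes P of norm p is ind F (φ).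
Proof. Q from IsFrobAt p φ. The map from the cosets t with t.out^-1 φ t.out in H = M.fixingSubgroup to the primes P of norm p, given by gb4_deg, is a bijection by gb4_surj (the condition and the
prime do not depend on the representative t: replace t by t c, c in H; tw Q (t c) and tw Q t have the same intersection with 𝓞 M since c fixes 𝓞 M) and gb4_inj, and F(t^-1 φ t) = f P. finsum over a bijection. -/
theorem gb5 (M : IntermediateField ℚ Om) [NumberField M] : ∃ b : ℕ, ∀ p : ℕ, b < p → p.Prime → ∀ φ : Gal(Om/ℚ), IsFrobAt p φ →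
    ∀ (k : Type) [Field k] (F : M.fixingSubgroup → k) (f : CFT.Pr M → k), (∀ a b, F (a * b * a⁻¹) = F b) →
      (∀ P : CFT.Pr M, CFT.Nm P = p → ∀ h : M.fixingSubgroup, IsFrP M P h → F h = f P) →
      ∑ᶠ P ∈ {P : CFT.Pr M | CFT.Nm P = p}, f P = ind M.fixingSubgroup F φ := by
  classical
  obtain ⟨b1, hb1⟩ := gb4_surj M
  obtain ⟨b2, hb2⟩ := gb4_inj M
  refine ⟨max b1 b2, fun p hbp hp φ hfr k _ F f hF hFf => ?_⟩
  obtain ⟨Q, hQ, hpQ, hφ⟩ := hfr
  have hp1 : b1 < p := lt_of_le_of_lt (le_max_left _ _) hbp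
  have hp2 : b2 < p := lt_of_le_of_lt (le_max_right _ _) hbp
  have hT0 : ∀ P : CFT.Pr M, ∃ t : Gal(Om/ℚ), CFT.Nm P = p →
      (t⁻¹ * φ * t ∈ M.fixingSubgroup ∧ (tw Q t).comap (algebraMap (𝓞 M) (𝓞 Om)) = P.asIdeal) := by
    intro P
    by_cases h : CFT.Nm P = p
    · obtain ⟨t, ht⟩ := hb1 p hp1 hp Q hQ hpQ φ hφ P h
      exact ⟨t, fun _ => ht⟩
    · exact ⟨1, fun h' => absurd h' h⟩
  choose T hT using hT0
  have hcoset : ∀ t t' : Gal(Om/ℚ), (t : Gal(Om/ℚ) ⧸ M.fixingSubgroup) = t' →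
      (tw Q t).comap (algebraMap (𝓞 M) (𝓞 Om)) = (tw Q t').comap (algebraMap (𝓞 M) (𝓞 Om)) := by
    intro t t' h
    have h1 : t⁻¹ * t' ∈ M.fixingSubgroup := QuotientGroup.eq.1 h
    ext x
    rw [Ideal.mem_comap, Ideal.mem_comap, mem_tw, mem_tw]
    have h2 := gb4a_fix M h1 x
    rw [mul_smul, inv_smul_eq_iff] at h2
    rw [h2]
  set g : Gal(Om/ℚ) ⧸ M.fixingSubgroup → k := fun t =>
    if h : t.out⁻¹ * φ * t.out ∈ M.fixingSubgroup then F ⟨_, h⟩ else 0 with hg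
  have hinj : Set.InjOn (fun P : CFT.Pr M => (T P : Gal(Om/ℚ) ⧸ M.fixingSubgroup))
      {P : CFT.Pr M | CFT.Nm P = p} := by
    intro P hP P' hP' h
    have h1 := hcoset _ _ h
    rw [(hT P hP).2, (hT P' hP').2] at h1
    exact IsDedekindDomain.HeightOneSpectrum.ext h1
  have hval : ∀ P ∈ {P : CFT.Pr M | CFT.Nm P = p}, f P = g (T P : Gal(Om/ℚ) ⧸ M.fixingSubgroup) := by
    intro P hP
    obtain ⟨hT1, hT2⟩ := hT P hP
    obtain ⟨ht, h⟩ := ga1_ind M.fixingSubgroup F hF φ (T P)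
      (Quotient.out (T P : Gal(Om/ℚ) ⧸ M.fixingSubgroup)) (QuotientGroup.out_eq' _).symm hT1
    simp only [hg]
    rw [dif_pos ht, ← h]
    obtain ⟨P', hP'1, hP'2, hP'3⟩ := gb4_deg M hp hQ hpQ hφ (T P) hT1
    have hPP : P' = P := IsDedekindDomain.HeightOneSpectrum.ext (hP'2.symm.trans hT2)
    subst hPP
    exact (hFf P' hP'1 ⟨_, hT1⟩ hP'3).symm
  have himg : (fun P : CFT.Pr M => (T P : Gal(Om/ℚ) ⧸ M.fixingSubgroup)) '' {P : CFT.Pr M | CFT.Nm P = p}
      ∩ Function.support g = Set.univ ∩ Function.support g := by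
    ext t
    constructor
    · rintro ⟨-, h⟩
      exact ⟨trivial, h⟩
    · rintro ⟨-, h⟩
      refine ⟨?_, h⟩
      have h1 : t.out⁻¹ * φ * t.out ∈ M.fixingSubgroup := by
        by_contra hn
        apply h
        simp only [hg]
        rw [dif_neg hn]
      obtain ⟨P, hP1, hP2, -⟩ := gb4_deg M hp hQ hpQ hφ t.out h1
      refine ⟨P, hP1, ?_⟩
      have h2 := hb2 p hp2 hp Q hQ hpQ φ hφ P (T P) t.out (hT P hP1).1 h1 (hT P hP1).2 hP2
      change (T P : Gal(Om/ℚ) ⧸ M.fixingSubgroup) = t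
      rw [QuotientGroup.eq.2 h2, QuotientGroup.out_eq']
  calc ∑ᶠ P ∈ {P : CFT.Pr M | CFT.Nm P = p}, f P
      = ∑ᶠ P ∈ {P : CFT.Pr M | CFT.Nm P = p}, g (T P : Gal(Om/ℚ) ⧸ M.fixingSubgroup) :=
        finsum_mem_congr rfl hval
    _ = ∑ᶠ t ∈ (fun P : CFT.Pr M => (T P : Gal(Om/ℚ) ⧸ M.fixingSubgroup)) '' {P : CFT.Pr M | CFT.Nm P = p}, g t :=
        (finsum_mem_image hinj).symm
    _ = ∑ᶠ t ∈ (Set.univ : Set (Gal(Om/ℚ) ⧸ M.fixingSubgroup)), g t :=
        finsum_mem_inter_support_eq g _ _ himg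
    _ = ind M.fixingSubgroup F φ := by
        rw [finsum_mem_univ]
        rfl

end H25G
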