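import Pool.Agent.Lib.H25G.Defs
import Pool.Agent.Lib.Helper95.Ord.DegOne

/-! # H25G, chunk GB6A: counting primes of M -/

set_option autoImplicit false

open NumberField Pool.Agent.GSem Filter Topology

namespace H25G

/-- (M) GB6a. There are finitely many primes of norm <= x, and at most C sqrt x of them have a norm which is not a prime number.
Proof. Nm P = p^f with p in P (Ideal.absNorm is a prime power; at most [M:Q] primes P contain p: Ideal.primesOver finite, sum e f = n). f >= 2 and p^f <= x gives p <= sqrt x. Library: Helper95/Ord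
(degOne, below, absNorm), CFT, H55N may have the counting lemma. -/
theorem gb6_count (M : IntermediateField ℚ Om) [NumberField M] : ∃ C : ℝ, ∀ x : ℕ, {P : CFT.Pr M | CFT.Nm P ≤ x}.Finite ∧
    (Set.ncard {P : CFT.Pr M | CFT.Nm P ≤ x ∧ ¬ (CFT.Nm P).Prime} : ℝ) ≤ C * Real.sqrt x := by
  classical
  refine ⟨(Module.finrank ℚ M : ℝ), fun x => ?_⟩
  have hfin : {P : CFT.Pr M | CFT.Nm P ≤ x}.Finite := Ring.HasFiniteQuotients.finite_absNorm_heightOneSpectrum_le x
  refine ⟨hfin, ?_⟩
  have hfin2 : {P : CFT.Pr M | CFT.Nm P ≤ x ∧ ¬ (CFT.Nm P).Prime}.Finite := hfin.subset fun P hP => hP.1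
  have h1 : ∀ P ∈ hfin2.toFinset, Pool.Agent.Lib.H59.below P ∈ Finset.Icc 1 (Nat.sqrt x) := by
    intro P hP
    rw [Set.Finite.mem_toFinset] at hP
    obtain ⟨f, hf, hPf⟩ := Pool.Agent.Lib.H59.absNorm_eq_below_pow P
    have hpr := Pool.Agent.Lib.H59.below_prime P
    rw [Finset.mem_Icc]
    refine ⟨hpr.one_le, ?_⟩
    rw [Nat.le_sqrt']
    have hf2 : 2 ≤ f := by
      by_contra hlt
      have hf1 : f = 1 := by omega
      apply hP.2
      have : CFT.Nm P = Pool.Agent.Lib.H59.below P := by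
        show Ideal.absNorm P.asIdeal = _
        rw [hPf, hf1, pow_one]
      rw [this]
      exact hpr
    have h2 : Pool.Agent.Lib.H59.below P ^ 2 ≤ Pool.Agent.Lib.H59.below P ^ f := Nat.pow_le_pow_right hpr.pos hf2
    have h3 : Pool.Agent.Lib.H59.below P ^ f ≤ x := by
      rw [← hPf]
      exact hP.1
    exact h2.trans h3
  have h2 := Finset.card_le_mul_card_image_of_maps_to h1 (Module.finrank ℚ M)
    (fun p _ => Pool.Agent.Lib.H59.card_filter_below_le _ p)
  rw [Nat.card_Icc, Nat.add_sub_cancel] at h2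
  rw [Set.ncard_eq_toFinset_card _ hfin2]
  have h3 : ((hfin2.toFinset.card : ℕ) : ℝ) ≤ (Module.finrank ℚ M : ℝ) * (Nat.sqrt x : ℝ) := by
    exact_mod_cast h2
  refine h3.trans ?_
  exact mul_le_mul_of_nonneg_left Real.nat_sqrt_le_real_sqrt (Nat.cast_nonneg _)

end H25G
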