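import Pool.Agent.Lib.H25G.Defs

/-! # H25G, chunk GB6B: a Chebyshev bound -/

set_option autoImplicit false

open NumberField Pool.Agent.GSem Filter Topology

namespace H25G

/-- (S/M) GB6b. sqrt x / primeCounting x -> 0 and primeCounting x -> infinity (Chebyshev: Mathlib.NumberTheory.Chebyshev or the prime number theorem in Lib/PNT). -/
theorem gb6_sqrt : Tendsto (fun x : ℕ => Real.sqrt x / (Nat.primeCounting x : ℝ)) atTop (𝓝 0) := by
  have key : ∀ n : ℕ, 35 ≤ n → Real.log ((n : ℝ) + 1) ≤ n * Real.log 2 / 2 := by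
    intro n hn
    have hn' : (35 : ℝ) ≤ n := by exact_mod_cast hn
    set m := Real.sqrt ((n : ℝ) + 1) with hm
    have hm2 : m ^ 2 = (n : ℝ) + 1 := Real.sq_sqrt (by linarith)
    have hm6 : 6 ≤ m := by
      rw [hm]
      apply Real.le_sqrt_of_sq_le
      linarith
    have h1 : Real.log ((n : ℝ) + 1) = 2 * Real.log m := by
      rw [← hm2, Real.log_pow]
      norm_num
    have h2 : Real.log m ≤ m - 1 := Real.log_le_sub_one_of_pos (by linarith)
    have h3 := Real.log_two_gt_d9
    have h4 : (n : ℝ) = (m - 1) * (m + 1) := by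
      have : (n : ℝ) = m ^ 2 - 1 := by rw [hm2]; ring
      rw [this]; ring
    rw [h1, h4]
    have h5 : 2 ≤ (m + 1) * Real.log 2 / 2 := by nlinarith
    nlinarith
  have hlim : Tendsto (fun x : ℝ => Real.log x / x ^ (1 / 2 : ℝ)) atTop (𝓝 0) :=
    (isLittleO_log_rpow_atTop (by norm_num : (0 : ℝ) < 1 / 2)).tendsto_div_nhds_zero
  have hlim2 : Tendsto (fun x : ℕ => 2 / Real.log 2 * (Real.log x / (x : ℝ) ^ (1 / 2 : ℝ))) atTop (𝓝 0) := by
    have := (hlim.comp tendsto_natCast_atTop_atTop).const_mul (2 / Real.log 2)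
    rw [mul_zero] at this
    exact this
  refine squeeze_zero' (Eventually.of_forall fun x => by positivity) ?_ hlim2
  filter_upwards [eventually_ge_atTop 35] with n hn
  have hn' : (35 : ℝ) ≤ n := by exact_mod_cast hn
  have h1 := Chebyshev.pi_ge n
  have h2 := key n hn
  have hlog : 0 < Real.log n := Real.log_pos (by linarith)
  have hl2 : 0 < Real.log 2 := Real.log_pos (by norm_num)
  have hs : 0 < Real.sqrt n := Real.sqrt_pos.2 (by linarith)
  have h3 : (n * Real.log 2 / 2) / Real.log n ≤ (Nat.primeCounting n : ℝ) := by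
    refine le_trans ?_ h1
    gcongr
    linarith
  have h4 : 0 < (n * Real.log 2 / 2) / Real.log n := by positivity
  rw [← Real.sqrt_eq_rpow]
  calc Real.sqrt n / (Nat.primeCounting n : ℝ) ≤ Real.sqrt n / ((n * Real.log 2 / 2) / Real.log n) := by gcongr
    _ = 2 / Real.log 2 * (Real.log n / Real.sqrt n) := by
        have h5 : (n : ℝ) = Real.sqrt n * Real.sqrt n := (Real.mul_self_sqrt (by linarith)).symm
        field_simp
        nlinarith [h5]

end H25G
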