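import Pool.Agent.Lib.H25G.GB5
import Pool.Agent.Lib.H25G.GB6A
import Pool.Agent.Lib.H25G.GB6B

/-! # H25G, chunk GB6: from sums over primes of M to sums over prime numbers -/

set_option autoImplicit false

open NumberField Pool.Agent.GSem Filter Topology

namespace H25G

/-- (M) GB6. Transfer of the mean value.
Proof. Let b be as in gb5, b >= max S. For p > b: ind F (φ p) = sum over Nm P = p of f P. Sum over p <= x: it is the sum of f P over Nm P <= x prime, up to O(1) (p <= b); the other P with Nm P <= x contribute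
at most C sqrt x since |f P| <= 1. Divide by primeCounting x and use gb6_sqrt. -/
theorem gb6 (M : IntermediateField ℚ Om) [NumberField M] (S : Finset ℕ) (f : CFT.Pr M → ℂ) (hf : ∀ P, ‖f P‖ ≤ 1) (φ : ℕ → Gal(Om/ℚ))
    (hφ : ∀ p, p.Prime → IsFrobAt p (φ p)) (F : M.fixingSubgroup → ℂ) (hF : ∀ a b, F (a * b * a⁻¹) = F b)
    (hFf : ∀ P : CFT.Pr M, (∀ p ∈ S, p.Prime → (p : 𝓞 M) ∉ P.asIdeal) → ∀ h : M.fixingSubgroup, IsFrP M P h → F h = f P) (L : ℂ)
    (hL : Tendsto (fun x : ℕ => (∑ᶠ P ∈ {P : CFT.Pr M | CFT.Nm P ≤ x}, f P) / (Nat.primeCounting x : ℂ)) atTop (𝓝 L)) :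
    Tendsto (fun x : ℕ => (∑ p ∈ (Finset.range (x + 1)).filter (fun p => p.Prime ∧ p ∉ S), ind M.fixingSubgroup F (φ p)) / (Nat.primeCounting x : ℂ))
      atTop (𝓝 L) := by
  classical
  obtain ⟨b, hb⟩ := gb5 M
  obtain ⟨C, hC⟩ := gb6_count M
  set B0 := max b (S.sup id) with hB0
  have hSB : ∀ p ∈ S, p ≤ B0 := fun p hp => (Finset.le_sup (f := id) hp).trans (le_max_right _ _)
  have hbB : b ≤ B0 := le_max_left _ _
  let A : ℕ → Finset (CFT.Pr M) := fun x => (hC x).1.toFinset
  have hA : ∀ x P, P ∈ A x ↔ CFT.Nm P ≤ x := fun x P => (hC x).1.mem_toFinset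
  let T : ℕ → ℂ := fun x => ∑ p ∈ (Finset.range (x + 1)).filter (fun p => p.Prime ∧ p ∉ S), ind M.fixingSubgroup F (φ p)
  let U : ℕ → ℂ := fun x => ∑ᶠ P ∈ {P : CFT.Pr M | CFT.Nm P ≤ x}, f P
  have hU : ∀ x, U x = ∑ P ∈ A x, f P := fun x => finsum_mem_eq_finite_toFinset_sum _ (hC x).1
  -- the value at a large prime
  have hval : ∀ p, p.Prime → B0 < p → ∀ x, p ≤ x → ind M.fixingSubgroup F (φ p) = ∑ P ∈ (A x).filter (fun P => CFT.Nm P = p), f P := by
    intro p hp hpB x hpx
    rw [← hb p (lt_of_le_of_lt hbB hpB) hp (φ p) (hφ p hp) ℂ F f hF ?_]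
    · have hs : {P : CFT.Pr M | CFT.Nm P = p} = (((A x).filter (fun P => CFT.Nm P = p) : Finset (CFT.Pr M)) : Set (CFT.Pr M)) := by
        ext P
        rw [Finset.mem_coe, Finset.mem_filter, hA]
        constructor
        · intro h
          have h : CFT.Nm P = p := h
          exact ⟨h.le.trans hpx, h⟩
        · intro h
          exact h.2
      rw [hs, finsum_mem_coe_finset]
    · intro P hP h hh
      refine hFf P ?_ h hh
      intro q hq hqp hqP
      have h1 : ((CFT.Nm P : ℕ) : 𝓞 M) ∈ P.asIdeal := Ideal.absNorm_mem P.asIdeal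
      rw [hP] at h1
      have hne : q ≠ p := by
        rintro rfl
        exact absurd (hSB q hq) (not_le.2 hpB)
      have hco : Nat.Coprime q p := (Nat.coprime_primes hqp hp).2 hne
      have hco' : IsCoprime (q : ℤ) (p : ℤ) := Nat.isCoprime_iff_coprime.2 hco
      obtain ⟨u, v, huv⟩ := hco'
      apply P.isPrime.ne_top
      rw [Ideal.eq_top_iff_one]
      have h2 : (1 : 𝓞 M) = (u : 𝓞 M) * (q : 𝓞 M) + (v : 𝓞 M) * (p : 𝓞 M) := by
        exact_mod_cast huv.symm
      rw [h2]
      exact P.asIdeal.add_mem (P.asIdeal.mul_mem_left _ hqP) (P.asIdeal.mul_mem_left _ h1)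
  set C1 : ℝ := ∑ p ∈ Finset.range (B0 + 1), ‖ind M.fixingSubgroup F (φ p)‖ with hC1
  set C2 : ℝ := ((A B0).card : ℝ) with hC2
  have hC0 : 0 ≤ |C| := abs_nonneg C
  have hC1' : 0 ≤ C1 := Finset.sum_nonneg fun _ _ => norm_nonneg _
  have hC2' : 0 ≤ C2 := Nat.cast_nonneg _
  have hbound : ∀ x : ℕ, 1 ≤ x → ‖T x - U x‖ ≤ (C1 + C2 + |C|) * Real.sqrt x := by
    intro x hx
    have hsx : 1 ≤ Real.sqrt x := by
      rw [Real.one_le_sqrt]
      exact_mod_cast hx
    have e1 : T x = ∑ p ∈ (Finset.range (x + 1)).filter (fun p => p.Prime ∧ B0 < p), ind M.fixingSubgroup F (φ p) +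
        ∑ p ∈ ((Finset.range (x + 1)).filter (fun p => p.Prime ∧ p ∉ S)).filter (fun p => ¬ B0 < p), ind M.fixingSubgroup F (φ p) := by
      show ∑ p ∈ (Finset.range (x + 1)).filter (fun p => p.Prime ∧ p ∉ S), ind M.fixingSubgroup F (φ p) = _
      rw [← Finset.sum_filter_add_sum_filter_not _ (fun p => B0 < p)]
      congr 1
      refine Finset.sum_congr ?_ fun _ _ => rfl
      ext p
      simp only [Finset.mem_filter, Finset.mem_range]
      constructor
      · rintro ⟨⟨h1, h2, _⟩, h4⟩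
        exact ⟨h1, h2, h4⟩
      · rintro ⟨h1, h2, h4⟩
        exact ⟨⟨h1, h2, fun h5 => absurd (hSB p h5) (not_le.2 h4)⟩, h4⟩
    have e2 : U x = ∑ P ∈ (A x).filter (fun P => (CFT.Nm P).Prime ∧ B0 < CFT.Nm P), f P +
        ∑ P ∈ (A x).filter (fun P => ¬ ((CFT.Nm P).Prime ∧ B0 < CFT.Nm P)), f P := by
      rw [hU, Finset.sum_filter_add_sum_filter_not]
    have e3 : ∑ P ∈ (A x).filter (fun P => (CFT.Nm P).Prime ∧ B0 < CFT.Nm P), f P =
        ∑ p ∈ (Finset.range (x + 1)).filter (fun p => p.Prime ∧ B0 < p), ind M.fixingSubgroup F (φ p) := by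
      rw [← Finset.sum_fiberwise_of_maps_to (g := CFT.Nm) (t := (Finset.range (x + 1)).filter (fun p => p.Prime ∧ B0 < p))]
      · refine Finset.sum_congr rfl fun p hp => ?_
        rw [Finset.mem_filter, Finset.mem_range] at hp
        rw [hval p hp.2.1 hp.2.2 x (by omega)]
        refine Finset.sum_congr ?_ fun _ _ => rfl
        ext P
        simp only [Finset.mem_filter]
        constructor
        · rintro ⟨⟨h1, _⟩, h2⟩
          exact ⟨h1, h2⟩
        · rintro ⟨h1, h2⟩
          exact ⟨⟨h1, h2 ▸ hp.2⟩, h2⟩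
      · intro P hP
        rw [Finset.mem_filter] at hP
        rw [Finset.mem_filter, Finset.mem_range]
        exact ⟨Nat.lt_succ_of_le ((hA x P).1 hP.1), hP.2⟩
    have b1 : ‖∑ p ∈ ((Finset.range (x + 1)).filter (fun p => p.Prime ∧ p ∉ S)).filter (fun p => ¬ B0 < p), ind M.fixingSubgroup F (φ p)‖ ≤ C1 := by
      refine (norm_sum_le _ _).trans ?_
      refine Finset.sum_le_sum_of_subset_of_nonneg ?_ fun _ _ _ => norm_nonneg _
      intro p hp
      rw [Finset.mem_filter] at hp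
      rw [Finset.mem_range]
      omega
    have b2 : ‖∑ P ∈ (A x).filter (fun P => ¬ ((CFT.Nm P).Prime ∧ B0 < CFT.Nm P)), f P‖ ≤ C2 + |C| * Real.sqrt x := by
      refine (norm_sum_le_of_le _ fun P _ => hf P).trans ?_
      rw [Finset.sum_const, nsmul_eq_mul, mul_one]
      have h1 : (A x).filter (fun P => ¬ ((CFT.Nm P).Prime ∧ B0 < CFT.Nm P)) ⊆
          A B0 ∪ (A x).filter (fun P => ¬ (CFT.Nm P).Prime) := by
        intro P hP
        rw [Finset.mem_filter] at hP
        rw [Finset.mem_union, Finset.mem_filter, hA]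
        by_cases h2 : (CFT.Nm P).Prime
        · left
          by_contra h3
          exact hP.2 ⟨h2, not_le.1 h3⟩
        · exact Or.inr ⟨hP.1, h2⟩
      have h2 := (Finset.card_le_card h1).trans (Finset.card_union_le _ _)
      have h3 : (((A x).filter (fun P => ¬ (CFT.Nm P).Prime)).card : ℝ) ≤ C * Real.sqrt x := by
        refine le_trans (le_of_eq ?_) (hC x).2
        rw [← Set.ncard_coe_finset]
        congr 2
        ext P
        rw [Finset.mem_coe, Finset.mem_filter, hA]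
        rfl
      have h4 : (((A x).filter (fun P => ¬ ((CFT.Nm P).Prime ∧ B0 < CFT.Nm P))).card : ℝ) ≤
          ((A B0).card : ℝ) + (((A x).filter (fun P => ¬ (CFT.Nm P).Prime)).card : ℝ) := by exact_mod_cast h2
      have h5 : C * Real.sqrt x ≤ |C| * Real.sqrt x := mul_le_mul_of_nonneg_right (le_abs_self C) (Real.sqrt_nonneg _)
      linarith
    rw [e1, e2, e3, add_sub_add_left_eq_sub]
    refine (norm_sub_le _ _).trans ?_
    nlinarith
  have hlim : Tendsto (fun x : ℕ => (T x - U x) / (Nat.primeCounting x : ℂ)) atTop (𝓝 0) := by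
    rw [tendsto_zero_iff_norm_tendsto_zero]
    have h1 := gb6_sqrt.const_mul (C1 + C2 + |C|)
    rw [mul_zero] at h1
    refine squeeze_zero' (Eventually.of_forall fun x => norm_nonneg _) ?_ h1
    filter_upwards [eventually_ge_atTop 1] with x hx
    rw [norm_div, Complex.norm_natCast, ← mul_div_assoc]
    exact div_le_div_of_nonneg_right (hbound x hx) (Nat.cast_nonneg _)
  have h2 := hlim.add hL
  rw [zero_add] at h2
  refine h2.congr fun x => ?_
  show (T x - U x) / (Nat.primeCounting x : ℂ) + U x / (Nat.primeCounting x : ℂ) = T x / (Nat.primeCounting x : ℂ)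
  rw [← add_div, sub_add_cancel]

end H25G
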