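import Pool.Agent.Lib.H25G.GB7
import Pool.Agent.Lib.H25G.GB3

/-! # H25G, chunk GB8: the value at Frobenius elements is well defined -/

set_option autoImplicit false

open NumberField Pool.Agent.GSem

namespace H25G

variable {l : ℕ} [Fact l.Prime] {n : ℕ}

theorem gb8_prime (M : IntermediateField ℚ Om) [NumberField M] (P : CFT.Pr M) :
    ∃ p : ℕ, p.Prime ∧ (p : 𝓞 M) ∈ P.asIdeal := by
  have hfin : Finite (𝓞 M ⧸ P.asIdeal) := Ideal.finiteQuotientOfFreeOfNeBot P.asIdeal P.ne_bot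
  have hmax : P.asIdeal.IsMaximal := P.isMaximal
  let _ : Field (𝓞 M ⧸ P.asIdeal) := Ideal.Quotient.field P.asIdeal
  let _ : Fintype (𝓞 M ⧸ P.asIdeal) := Fintype.ofFinite _
  obtain ⟨p, hchar⟩ := CharP.exists (𝓞 M ⧸ P.asIdeal)
  obtain ⟨f, hp, hcard⟩ := FiniteField.card (𝓞 M ⧸ P.asIdeal) p
  refine ⟨p, hp, ?_⟩
  rw [← Ideal.Quotient.eq_zero_iff_mem, map_natCast]
  exact CharP.cast_eq_zero _ p

/-- (S) GB8. ψ as in gb7 on the group M.fixingSubgroup, P a prime of M not over S': all Frobenius elements at P have the same value. Proof: gb3_conj: g' = t g t^-1 s, ψ has commutative values, ψ(s) = 1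
(the prime number p in Q is in P; some prime number is in P: P is a nonzero prime ideal, take a prime factor of the absolute norm of P). -/
theorem gb8 (M : IntermediateField ℚ Om) [NumberField M] (ψ : M.fixingSubgroup →* (PadicAlgCl l)ˣ) (S' : Finset ℕ)
    (hψ : ∀ p : ℕ, p.Prime → p ∉ S' → ∀ Q : Ideal (𝓞 Om), Q.IsPrime → (p : 𝓞 Om) ∈ Q →
      ∀ s : M.fixingSubgroup, (∀ x : 𝓞 Om, (s : Gal(Om/ℚ)) • x - x ∈ Q) → ψ s = 1)
    (P : CFT.Pr M) (hP : ∀ p ∈ S', p.Prime → (p : 𝓞 M) ∉ P.asIdeal) (g g' : M.fixingSubgroup) (hg : IsFrP M P g) (hg' : IsFrP M P g') : ψ g = ψ g' := by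
  obtain ⟨p, hp, hpP⟩ := gb8_prime M P
  have hpS : p ∉ S' := fun hps => hP p hps hp hpP
  obtain ⟨t, ht, s, hs, Q, hQ, hQP, hsQ, he⟩ := gb3_conj M P hg hg'
  have hpQ : (p : 𝓞 Om) ∈ Q := by
    rw [← hQP, Ideal.mem_comap, map_natCast] at hpP
    exact hpP
  have h1 : ψ ⟨s, hs⟩ = 1 := hψ p hp hpS Q hQ hpQ ⟨s, hs⟩ hsQ
  have h2 : g' = ⟨t, ht⟩ * g * (⟨t, ht⟩ : M.fixingSubgroup)⁻¹ * ⟨s, hs⟩ := Subtype.ext he
  rw [h2, map_mul, map_mul, map_mul, map_inv, h1, mul_one, mul_comm (ψ ⟨t, ht⟩) (ψ g), mul_inv_cancel_right]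

end H25G
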