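import Pool.Agent.Lib.H25G.GF1
import Pool.Agent.Lib.H25G.GB2B

/-! # H25G, chunk GF2: the values at Frobenius elements have absolute value 1 -/

set_option autoImplicit false

open NumberField Pool.Agent.GSem

namespace H25G

variable {l : ℕ} [Fact l.Prime] {n : ℕ}

/-- The absolute norm of a prime is a prime power, and the prime number is in the prime. -/
theorem gf2_norm (M : IntermediateField ℚ Om) [NumberField M] (P : CFT.Pr M) :
    ∃ p f : ℕ, p.Prime ∧ (p : 𝓞 M) ∈ P.asIdeal ∧ CFT.Nm P = p ^ f := by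
  have hfin : Finite (𝓞 M ⧸ P.asIdeal) := Ideal.finiteQuotientOfFreeOfNeBot P.asIdeal P.ne_bot
  have hmax : P.asIdeal.IsMaximal := P.isMaximal
  let _ : Field (𝓞 M ⧸ P.asIdeal) := Ideal.Quotient.field P.asIdeal
  let _ : Fintype (𝓞 M ⧸ P.asIdeal) := Fintype.ofFinite _
  obtain ⟨p, hchar⟩ := CharP.exists (𝓞 M ⧸ P.asIdeal)
  obtain ⟨f, hp, hcard⟩ := FiniteField.card (𝓞 M ⧸ P.asIdeal) p
  refine ⟨p, f, hp, ?_, ?_⟩
  · rw [← Ideal.Quotient.eq_zero_iff_mem, map_natCast]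
    exact CharP.cast_eq_zero _ p
  · unfold CFT.Nm
    rw [Ideal.absNorm_apply, Submodule.cardQuot_apply, ← hcard, ← Nat.card_eq_fintype_card]

/-- (M) GF2. Geom, j a field embedding of the algebraic closure of Q_l in the complex numbers, ψ good, P a prime of M not over S: |j ψ(h)| = 1 for the Frobenius elements h at P.
Proof. GoodChar: w nonzero with R(h) w = (η(h)^-1 ψ(h)) w, R(h) = the operator of tT a (ρ h with coefficients in k). gf1: η^-1 ψ(h) is a product of numbers 1, μ, μ^-1 with μ a root of the characteristic polynomial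
of ρ h. gb2_pow (some prime number p is in P, Nm P = p^f; the absolute norm of a prime is a prime power): ρ h = (ρ φ)^f, so μ = d^f, d a root of the charpoly of ρ φ = image of P0 in Q[X] (Geom.frob), so
j d is a complex root of P0 and |j d| = 1 (aeval (j d) P0 = j (eval d (P0 mapped to k)), both sides by uniqueness of ring homomorphisms Q -> C). |j η(h)| = 1 because η(h)^N = 1, N > 0. -/
theorem gf2 {ρ : Gal(Om/ℚ) →* GL (Fin n) ℚ_[l]} {S : Finset ℕ} {m : ℕ} (hρ : Geom ρ S m) (j : PadicAlgCl l →+* ℂ)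
    (M : IntermediateField ℚ Om) [NumberField M] (ψ : M.fixingSubgroup →* (PadicAlgCl l)ˣ) (hψ : GoodChar ρ M.fixingSubgroup ψ)
    (P : CFT.Pr M) (hP : ∀ p ∈ S, p.Prime → (p : 𝓞 M) ∉ P.asIdeal) (h : M.fixingSubgroup) (hh : IsFrP M P h) : ‖j (ψ h)‖ = 1 := by
  obtain ⟨_, a, N, U, hN, _, _, η, v, f, hη, _, hψf, hw⟩ := hψ
  obtain ⟨w, hw0, hw1⟩ := hw h
  obtain ⟨p, e, hp, hpP, hNm⟩ := gf2_norm M P
  have hpS : p ∉ S := fun hps => hP p hps hp hpP
  obtain ⟨φ, hφ, hφ2⟩ := gb2_pow hρ.unram M P hh hp hpS hNm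
  obtain ⟨P0, hP0, hP1⟩ := hρ.frob p hp hpS φ hφ
  have key : ∀ μ : PadicAlgCl l,
      ((Matrix.GeneralLinearGroup.map (algebraMap ℚ_[l] (PadicAlgCl l)) (ρ h) : GL (Fin n) (PadicAlgCl l)) :
        Matrix (Fin n) (Fin n) (PadicAlgCl l)).charpoly.IsRoot μ → ‖j μ‖ = 1 := by
    intro μ hμ
    rw [hφ2, map_pow, Units.val_pow_eq_pow_val] at hμ
    obtain ⟨d, hd, rfl⟩ := gf1_pow e _ μ hμ
    have e1 : ((Matrix.GeneralLinearGroup.map (algebraMap ℚ_[l] (PadicAlgCl l)) (ρ φ) : GL (Fin n) (PadicAlgCl l)) :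
        Matrix (Fin n) (Fin n) (PadicAlgCl l)) = (ρ φ : Matrix (Fin n) (Fin n) ℚ_[l]).map (algebraMap ℚ_[l] (PadicAlgCl l)) := rfl
    rw [e1, Matrix.charpoly_map, hP0, Polynomial.map_map, Polynomial.IsRoot.def] at hd
    have h2 := congrArg j hd
    rw [map_zero, ← Polynomial.eval_map_apply, Polynomial.map_map] at h2
    have h3 : Polynomial.aeval (j d) P0 = 0 := by
      rw [Polynomial.aeval_def, Polynomial.eval₂_eq_eval_map]
      rw [← h2]
      congr 2
      exact Subsingleton.elim _ _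
    rw [map_pow, norm_pow, (hP1 (j d) h3).1, one_pow]
  have hw2 : (tT a (Matrix.GeneralLinearGroup.map (algebraMap ℚ_[l] (PadicAlgCl l)) (ρ h))).mulVec w =
      (((η h)⁻¹ * ψ h : (PadicAlgCl l)ˣ) : PadicAlgCl l) • w := hw1
  obtain ⟨μ, hμ, hμ2⟩ := gf1 a _ _ w hw0 hw2
  have hμ3 : ∀ t, ‖j (μ t)‖ = 1 := by
    intro t
    rcases hμ2 t with h1 | h1 | h1
    · rw [h1, map_one, norm_one]
    · exact key _ h1
    · have h2 := key _ h1
      rw [map_inv₀, norm_inv, inv_eq_one] at h2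
      exact h2
  have hη2 : ‖j (η h : PadicAlgCl l)‖ = 1 := by
    have h1 : (j (η h : PadicAlgCl l)) ^ N = 1 := by
      rw [← map_pow, ← Units.val_pow_eq_pow_val, hη h, Units.val_one, map_one]
    have h2 : ‖j (η h : PadicAlgCl l)‖ ^ N = 1 := by rw [← norm_pow, h1, norm_one]
    exact (pow_eq_one_iff_of_nonneg (norm_nonneg _) hN.ne').1 h2
  have h3 : (ψ h : PadicAlgCl l) = (η h : PadicAlgCl l) * ∏ t, μ t := by
    rw [← hμ, ← Units.val_mul, mul_inv_cancel_left]
  rw [h3, map_mul, norm_mul, hη2, one_mul, map_prod, norm_prod]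
  exact Finset.prod_eq_one fun t _ => hμ3 t

end H25G
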