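import Pool.Agent.Lib.H25G.Defs
import Pool.Agent.Lib.CFT.N12

/-! # H25G: the interface theorem (prime number theorem for the characters which occur; proved by helper94 in Lib/CFT/N12.lean) -/

set_option autoImplicit false

open NumberField Pool.Agent.GSem Filter Topology

namespace H25G

variable {l : ℕ} [Fact l.Prime] {n : ℕ}

open Classical in
/-- The prime number theorem for the characters GoodChar. -/
theorem hecke_pnt {ρ : Gal(Om/ℚ) →* GL (Fin n) ℚ_[l]} {S : Finset ℕ} {m : ℕ} (hρ : Geom ρ S m) (j : PadicAlgCl l →+* ℂ)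
    (M : IntermediateField ℚ Om) [NumberField M] (ψ : M.fixingSubgroup →* (PadicAlgCl l)ˣ) (hψ : GoodChar ρ M.fixingSubgroup ψ)
    (f : CFT.Pr M → ℂ) (S' : Finset ℕ) (hf : ∀ P : CFT.Pr M, (∀ p ∈ S', p.Prime → (p : 𝓞 M) ∉ P.asIdeal) → ∀ h : M.fixingSubgroup, IsFrP M P h → f P = j (ψ h))
    (_hf1 : ∀ P, ‖f P‖ ≤ 1) :
    Tendsto (fun x : ℕ => (∑ᶠ P ∈ {P : CFT.Pr M | CFT.Nm P ≤ x}, f P) / (Nat.primeCounting x : ℂ)) atTop (𝓝 (if ψ = 1 then 1 else 0)) :=
  ST32.hecke_pnt hρ j M ψ hψ f S' hf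

end H25G
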