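import Pool.Agent.Lib.H25G.GB6
import Pool.Agent.Lib.H25G.GB8
import Pool.Agent.Lib.H25G.GF2
import Pool.Agent.Lib.H25G.GB3A
import Pool.Agent.Lib.H25G.Targets

/-! # H25G, chunk GB9: the mean value of an induced character over prime numbers -/

set_option autoImplicit false

open NumberField Pool.Agent.GSem Filter Topology

namespace H25G

variable {l : ℕ} [Fact l.Prime] {n : ℕ}

theorem gb9_alg : @Algebra.IsAlgebraic ℚ Om _ _ DivisionRing.toRatAlgebra := by
  have h : (DivisionRing.toRatAlgebra : Algebra ℚ Om) = AlgebraicClosure.instAlgebra ℚ := Subsingleton.elim _ _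
  rw [h]
  exact AlgebraicClosure.isAlgebraic ℚ

theorem gb9_cl : IsAlgClosure ℚ Om := ⟨inferInstance, gb9_alg⟩

theorem gb9_field (H : Subgroup Gal(Om/ℚ)) (hH : IsOpen (H : Set Gal(Om/ℚ))) :
    ∃ M : IntermediateField ℚ Om, FiniteDimensional ℚ M ∧ M.fixingSubgroup = H := by
  have hac : IsAlgClosure ℚ Om := gb9_cl
  have hG : IsGalois ℚ Om := IsAlgClosure.isGalois ℚ Om
  have hcl : IsClosed (H : Set Gal(Om/ℚ)) := Subgroup.isClosed_of_isOpen H hH
  let C : ClosedSubgroup Gal(Om/ℚ) := ⟨H, hcl⟩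
  have h1 : (IntermediateField.fixedField (C : Subgroup Gal(Om/ℚ))).fixingSubgroup = H := InfiniteGalois.fixingSubgroup_fixedField C
  refine ⟨IntermediateField.fixedField (C : Subgroup Gal(Om/ℚ)), ?_, h1⟩
  rw [← InfiniteGalois.isOpen_iff_finite]
  rw [h1]
  exact hH

theorem gb9_bdd (φ : ℕ → ℂ) (S S' : Finset ℕ) (hSS : S ⊆ S') (L : ℂ)
    (h : Tendsto (fun x : ℕ => (∑ p ∈ (Finset.range (x + 1)).filter (fun p => p.Prime ∧ p ∉ S'), φ p) / (Nat.primeCounting x : ℂ)) atTop (𝓝 L)) :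
    Tendsto (fun x : ℕ => (∑ p ∈ (Finset.range (x + 1)).filter (fun p => p.Prime ∧ p ∉ S), φ p) / (Nat.primeCounting x : ℂ)) atTop (𝓝 L) := by
  have h0 : Tendsto (fun x : ℕ => (∑ p ∈ S'.filter (fun p => p.Prime ∧ p ∉ S), φ p) / (Nat.primeCounting x : ℂ)) atTop (𝓝 0) := by
    have h1 : Tendsto (fun x : ℕ => ((Nat.primeCounting x : ℕ) : ℂ)⁻¹) atTop (𝓝 0) :=
      (tendsto_inv_atTop_nhds_zero_nat (𝕜 := ℂ)).comp Nat.tendsto_primeCounting
    have h2 := h1.const_mul (∑ p ∈ S'.filter (fun p => p.Prime ∧ p ∉ S), φ p)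
    rw [mul_zero] at h2
    exact h2
  have h1 := h.add h0
  rw [add_zero] at h1
  refine h1.congr' ?_
  filter_upwards [eventually_ge_atTop (S'.sup id)] with x hx
  rw [← add_div]
  congr 1
  have e1 : (Finset.range (x + 1)).filter (fun p => p.Prime ∧ p ∉ S) =
      (Finset.range (x + 1)).filter (fun p => p.Prime ∧ p ∉ S') ∪ S'.filter (fun p => p.Prime ∧ p ∉ S) := by
    ext p
    simp only [Finset.mem_filter, Finset.mem_union, Finset.mem_range]
    constructor
    · rintro ⟨h1, h2, h3⟩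
      by_cases h4 : p ∈ S'
      · exact Or.inr ⟨h4, h2, h3⟩
      · exact Or.inl ⟨h1, h2, h4⟩
    · rintro (⟨h1, h2, h3⟩ | ⟨h1, h2, h3⟩)
      · exact ⟨h1, h2, fun h4 => h3 (hSS h4)⟩
      · have h4 : p ≤ S'.sup id := Finset.le_sup (f := id) h1
        exact ⟨by omega, h2, h3⟩
  have e2 : Disjoint ((Finset.range (x + 1)).filter (fun p => p.Prime ∧ p ∉ S')) (S'.filter (fun p => p.Prime ∧ p ∉ S)) := by
    rw [Finset.disjoint_left]
    intro p hp hp'
    exact (Finset.mem_filter.1 hp).2.2 (Finset.mem_filter.1 hp').1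
  rw [e1, Finset.sum_union e2]

open Classical in
theorem gb9_ind {k : Type*} [Field k] (j : k →+* ℂ) (H : Subgroup Gal(Om/ℚ)) (F : H → k) (g : Gal(Om/ℚ)) :
    j (ind H F g) = ind H (fun h => j (F h)) g := by
  unfold ind
  have h1 := j.toAddMonoidHom.map_finsum_of_injective j.injective
    (fun t : Gal(Om/ℚ) ⧸ H => if h : t.out⁻¹ * g * t.out ∈ H then F ⟨_, h⟩ else 0)
  refine Eq.trans h1 ?_
  refine finsum_congr fun t => ?_
  show j (if h : t.out⁻¹ * g * t.out ∈ H then F ⟨_, h⟩ else 0) = _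
  split_ifs with h
  · rfl
  · exact map_zero j

open Classical in
/-- (M) GB9. Mean value of the induced character.
Proof. H is open, so H = M.fixingSubgroup for a number field M in Om (M = fixedField H: InfiniteGalois.fixingSubgroup_fixedField for closed subgroups, open subgroups are closed;
finite degree: InfiniteGalois / IntermediateField.finiteDimensional for open subgroups); subst. gb7 gives S'. Define f P = j (ψ h) for a Frobenius element h at P (gb3_exists) if P is not over S', and 0 otherwise.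
|f| <= 1 by gf2, f P = j (ψ h) for all Frobenius elements h by gb8. hecke_pnt gives the mean value over the primes of M, gb6 (with S', F = j o ψ, constant on conjugacy classes) the mean over prime numbers p outside S'.
The finitely many p in S' but not in S change the sum by a bounded amount and primeCounting -> infinity. Finally j (ind ψ) = ind (j o ψ) (finite sums; H has finite index). -/
theorem gb9 {ρ : Gal(Om/ℚ) →* GL (Fin n) ℚ_[l]} {S : Finset ℕ} {m : ℕ} (hρ : Geom ρ S m) (j : PadicAlgCl l →+* ℂ)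
    (H : Subgroup Gal(Om/ℚ)) (ψ : H →* (PadicAlgCl l)ˣ) (hψ : GoodChar ρ H ψ) (φ : ℕ → Gal(Om/ℚ)) (hφ : ∀ p, p.Prime → IsFrobAt p (φ p)) :
    Tendsto (fun x : ℕ => (∑ p ∈ (Finset.range (x + 1)).filter (fun p => p.Prime ∧ p ∉ S), j (ind H (fun h => (ψ h : PadicAlgCl l)) (φ p))) /
      (Nat.primeCounting x : ℂ)) atTop (𝓝 (if ψ = 1 then 1 else 0)) := by
  obtain ⟨M, hM, rfl⟩ := gb9_field H hψ.1
  have hMn : NumberField M := { to_charZero := inferInstance, to_finiteDimensional := hM }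
  obtain ⟨S', hSS, hS'⟩ := gb7 hρ.unram M.fixingSubgroup ψ hψ
  have hex : ∀ P : CFT.Pr M, ∃ h : M.fixingSubgroup, IsFrP M P h := by
    intro P
    obtain ⟨g, hg⟩ := gb3_exists M P
    exact ⟨⟨g, hg.1⟩, hg⟩
  choose fr hfr using hex
  let f : CFT.Pr M → ℂ := fun P => if (∀ p ∈ S', p.Prime → (p : 𝓞 M) ∉ P.asIdeal) then j (ψ (fr P)) else 0
  have hf : ∀ P : CFT.Pr M, (∀ p ∈ S', p.Prime → (p : 𝓞 M) ∉ P.asIdeal) → ∀ h : M.fixingSubgroup, IsFrP M P h → f P = j (ψ h) := by
    intro P hP h hh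
    show (if (∀ p ∈ S', p.Prime → (p : 𝓞 M) ∉ P.asIdeal) then j (ψ (fr P)) else 0) = j (ψ h)
    rw [if_pos hP, gb8 M ψ S' hS' P hP (fr P) h (hfr P) hh]
  have hf1 : ∀ P, ‖f P‖ ≤ 1 := by
    intro P
    by_cases hP : ∀ p ∈ S', p.Prime → (p : 𝓞 M) ∉ P.asIdeal
    · rw [hf P hP (fr P) (hfr P)]
      exact (gf2 hρ j M ψ hψ P (fun p hp => hP p (hSS hp)) (fr P) (hfr P)).le
    · show ‖(if (∀ p ∈ S', p.Prime → (p : 𝓞 M) ∉ P.asIdeal) then j (ψ (fr P)) else 0)‖ ≤ 1
      rw [if_neg hP, norm_zero]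
      exact zero_le_one
  have hL := hecke_pnt hρ j M ψ hψ f S' hf hf1
  have hG := gb6 M S' f hf1 φ hφ (fun h => j (ψ h)) (by
    intro a b
    have e : ψ (a * b * a⁻¹) = ψ b := by
      rw [map_mul, map_mul, map_inv, mul_comm (ψ a) (ψ b), mul_inv_cancel_right]
    rw [e]) (fun P hP h hh => (hf P hP h hh).symm) _ hL
  have hB := gb9_bdd _ S S' hSS _ hG
  refine hB.congr fun x => ?_
  congr 1
  refine Finset.sum_congr rfl fun p _ => ?_
  exact (gb9_ind j M.fixingSubgroup (fun h => (ψ h : PadicAlgCl l)) (φ p)).symm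

end H25G
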