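import Pool.Agent.Lib.H25G.Defs

/-! # H25G, chunk GC1: invariant Hermitian form -/

set_option autoImplicit false

open MeasureTheory Matrix

namespace H25G

theorem gc1_int {K : Type*} [TopologicalSpace K] [CompactSpace K] [MeasurableSpace K] [BorelSpace K] {ι : Type*} [Fintype ι] [DecidableEq ι]
    (F : K → Matrix ι ι ℂ) (hF : Continuous F) (μ : Measure K) [IsFiniteMeasureOnCompacts μ] :
    ∃ P : Matrix ι ι ℂ, ∀ φ : Matrix ι ι ℂ →ₗ[ℂ] ℂ, φ P = ∫ k, φ (F k) ∂μ := by
  refine ⟨Matrix.of fun i j => ∫ k, F k i j ∂μ, fun φ => ?_⟩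
  have h1 : ∀ M : Matrix ι ι ℂ, φ M = ∑ i, ∑ j, M i j * φ (Matrix.single i j 1) := by
    intro M
    conv_lhs => rw [Matrix.matrix_eq_sum_single M]
    rw [map_sum]
    refine Finset.sum_congr rfl fun i _ => ?_
    rw [map_sum]
    refine Finset.sum_congr rfl fun j _ => ?_
    have e : Matrix.single i j (M i j) = M i j • Matrix.single i j (1 : ℂ) := by
      rw [Matrix.smul_single, smul_eq_mul, mul_one]
    rw [e, map_smul, smul_eq_mul]
  have h2 : ∀ i j, Integrable (fun k => F k i j) μ := fun i j =>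
    (hF.matrix_elem i j).integrable_of_hasCompactSupport (HasCompactSupport.of_compactSpace _)
  have h3 : (fun k => φ (F k)) = fun k => ∑ i, ∑ j, F k i j * φ (Matrix.single i j 1) := funext fun k => h1 (F k)
  rw [h1, h3, integral_finsetSum _ fun i _ => integrable_finsetSum _ fun j _ => (h2 i j).mul_const _]
  refine Finset.sum_congr rfl fun i _ => ?_
  rw [integral_finsetSum _ fun j _ => (h2 i j).mul_const _]
  refine Finset.sum_congr rfl fun j _ => ?_
  rw [integral_mul_const]
  rfl

variable {K : Type*} [Group K] [TopologicalSpace K] [IsTopologicalGroup K] [CompactSpace K]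
variable {ι : Type*} [Fintype ι] [DecidableEq ι]

/-- (M) GC1. A continuous representation of a compact group by complex matrices preserves a Hermitian form with invertible matrix.
Proof. Haar probability measure on K (borel σ-algebra; MeasureTheory.Measure.haarMeasure of the compact set univ, or of the whole group; integrals of continuous functions on a compact space). H = integral of
T(k)^H T(k), entrywise. T(x)^H H T(x) = integral of T(kx)^H T(kx) = H (right invariance: on a compact group the left Haar measure is right invariant, unimodular; or integrate T(k^-1)^H T(k^-1) and use left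
invariance). For v not 0: star v H v = integral of |T(k) v|^2 > 0 (continuous, positive), so H v is not 0: H is invertible. -/
theorem gc1 (T : K →* Matrix ι ι ℂ) (hT : Continuous T) : ∃ H : Matrix ι ι ℂ, IsUnit H ∧ ∀ k, (T k)ᴴ * H * T k = H := by
  borelize K
  obtain ⟨μ, hμ⟩ : ∃ μ : Measure K, μ = Measure.haarMeasure ⊤ := ⟨_, rfl⟩
  haveI : μ.IsHaarMeasure := by
    rw [hμ]
    infer_instance
  haveI : IsProbabilityMeasure μ := ⟨by
    rw [hμ]
    exact Measure.haarMeasure_self⟩
  have hTi : Continuous fun k : K => T k⁻¹ := hT.comp continuous_inv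
  obtain ⟨H, hH⟩ := gc1_int (fun k => (T k⁻¹)ᴴ * T k⁻¹) (hTi.matrix_conjTranspose.matrix_mul hTi) μ
  refine ⟨H, ?_, fun x => ?_⟩
  · rw [← Matrix.mulVec_injective_iff_isUnit]
    have hinj : Function.Injective H.mulVecLin := by
      rw [← LinearMap.ker_eq_bot, LinearMap.ker_eq_bot']
      intro v hv
      have hv' : H.mulVec v = 0 := hv
      obtain ⟨φ, hφ⟩ : ∃ φ : Matrix ι ι ℂ →ₗ[ℂ] ℂ, ∀ M, φ M = star v ⬝ᵥ (M.mulVec v) :=
        ⟨{ toFun := fun M => star v ⬝ᵥ (M.mulVec v), map_add' := fun M M' => by rw [Matrix.add_mulVec, dotProduct_add], map_smul' := fun c M => by rw [Matrix.smul_mulVec, dotProduct_smul]; rfl }, fun M => rfl⟩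
      have h1 := hH φ
      rw [hφ, hv', dotProduct_zero] at h1
      have h2 : ∀ k, φ ((T k⁻¹)ᴴ * T k⁻¹) = ((∑ i, ‖((T k⁻¹).mulVec v) i‖ ^ 2 : ℝ) : ℂ) := by
        intro k
        rw [hφ, ← Matrix.mulVec_mulVec, dotProduct_mulVec, ← Matrix.star_mulVec]
        unfold dotProduct
        push_cast
        refine Finset.sum_congr rfl fun i _ => ?_
        rw [Pi.star_apply, mul_comm]
        have h3 := Complex.mul_conj ((T k⁻¹ *ᵥ v) i)
        rw [Complex.normSq_eq_norm_sq] at h3
        push_cast at h3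
        exact h3
      simp only [h2] at h1
      rw [integral_complex_ofReal] at h1
      have h4 : ∫ k, (∑ i, ‖((T k⁻¹).mulVec v) i‖ ^ 2 : ℝ) ∂μ = 0 := by exact_mod_cast h1.symm
      have hc : Continuous fun k : K => (∑ i, ‖((T k⁻¹).mulVec v) i‖ ^ 2 : ℝ) := by
        refine continuous_finsetSum _ fun i _ => ?_
        have h5 : Continuous fun k : K => (T k⁻¹).mulVec v := hTi.matrix_mulVec continuous_const
        exact ((continuous_apply i).comp h5).norm.pow 2
      have h6 := (integral_eq_zero_iff_of_nonneg (fun k => Finset.sum_nonneg fun i _ => by positivity)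
        (hc.integrable_of_hasCompactSupport (HasCompactSupport.of_compactSpace _))).1 h4
      have h7 := (hc.ae_eq_iff_eq μ continuous_zero).1 h6
      have h8 := congrFun h7 1
      have h9 : ∑ i, ‖v i‖ ^ 2 = (0 : ℝ) := by
        simpa using h8
      rw [Finset.sum_eq_zero_iff_of_nonneg fun i _ => by positivity] at h9
      funext i
      exact norm_eq_zero.1 ((pow_eq_zero_iff two_ne_zero).1 (h9 i (Finset.mem_univ i)))
    exact hinj
  · ext i j
    obtain ⟨φ, hφ⟩ : ∃ φ : Matrix ι ι ℂ →ₗ[ℂ] ℂ, ∀ M, φ M = ((T x)ᴴ * M * T x) i j :=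
      ⟨{ toFun := fun M => ((T x)ᴴ * M * T x) i j, map_add' := fun M M' => by rw [Matrix.mul_add, Matrix.add_mul]; rfl, map_smul' := fun c M => by rw [Matrix.mul_smul, Matrix.smul_mul]; rfl }, fun M => rfl⟩
    obtain ⟨ψ, hψ⟩ : ∃ φ : Matrix ι ι ℂ →ₗ[ℂ] ℂ, ∀ M, φ M = M i j :=
      ⟨{ toFun := fun M => M i j, map_add' := fun M M' => rfl, map_smul' := fun c M => rfl }, fun M => rfl⟩
    rw [← hφ, ← hψ H, hH, hH, ← integral_mul_left_eq_self (fun k => ψ ((T k⁻¹)ᴴ * T k⁻¹)) x⁻¹]
    refine integral_congr_ae (Filter.Eventually.of_forall fun k => ?_)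
    show φ ((T k⁻¹)ᴴ * T k⁻¹) = ψ ((T (x⁻¹ * k)⁻¹)ᴴ * T (x⁻¹ * k)⁻¹)
    rw [hφ, hψ, _root_.mul_inv_rev, inv_inv, map_mul, Matrix.conjTranspose_mul]
    simp only [Matrix.mul_assoc]

end H25G
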