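import Pool.Agent.Lib.H25G.Defs

/-! # H25G, chunk GC2: averages over a compact group -/

set_option autoImplicit false

open MeasureTheory Matrix

namespace H25G

variable {K : Type*} [Group K] [TopologicalSpace K] [IsTopologicalGroup K] [CompactSpace K] [MeasurableSpace K] [BorelSpace K]
variable {ι : Type*} [Fintype ι] [DecidableEq ι]

theorem gc2_int (F : K → Matrix ι ι ℂ) (hF : Continuous F) (μ : Measure K) [IsFiniteMeasureOnCompacts μ] :
    ∃ P : Matrix ι ι ℂ, ∀ φ : Matrix ι ι ℂ →ₗ[ℂ] ℂ, φ P = ∫ k, φ (F k) ∂μ := by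
  refine ⟨Matrix.of fun i j => ∫ k, F k i j ∂μ, fun φ => ?_⟩
  have h1 : ∀ M : Matrix ι ι ℂ, φ M = ∑ i, ∑ j, M i j * φ (Matrix.single i j 1) := by
    intro M
    conv_lhs => rw [Matrix.matrix_eq_sum_single M]
    rw [map_sum]
    refine Finset.sum_congr rfl fun i _ => ?_
    rw [map_sum]
    refine Finset.sum_congr rfl fun j _ => ?_
    have e : Matrix.single i j (M i j) = M i j • Matrix.single i j (1 : ℂ) := by
      rw [Matrix.smul_single, smul_eq_mul, mul_one]
    rw [e, map_smul, smul_eq_mul]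
  have h2 : ∀ i j, Integrable (fun k => F k i j) μ := fun i j =>
    (hF.matrix_elem i j).integrable_of_hasCompactSupport (HasCompactSupport.of_compactSpace _)
  have h3 : (fun k => φ (F k)) = fun k => ∑ i, ∑ j, F k i j * φ (Matrix.single i j 1) := funext fun k => h1 (F k)
  rw [h1, h3, integral_finsetSum _ fun i _ => integrable_finsetSum _ fun j _ => (h2 i j).mul_const _]
  refine Finset.sum_congr rfl fun i _ => ?_
  rw [integral_finsetSum _ fun j _ => (h2 i j).mul_const _]
  refine Finset.sum_congr rfl fun j _ => ?_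
  rw [integral_mul_const]
  rfl

/-- (M) GC2a. The average P of T(k) over K with respect to an invariant probability measure μ.
Proof. P = entrywise integral of T k. Continuous functions on the compact space K are integrable (Continuous.integrable_of_hasCompactSupport or ContinuousOn on compact). T(x) P = integral of T(xk) = P
(integral_mul_left_eq_self). P T(x) = integral of T(kx) = P: right invariance (μ is also right invariant: IsMulRightInvariant for Haar measures on compact groups, Mathlib.MeasureTheory.Group / Measure.Haar.Unique,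
unimodular; or: integral T(k^-1) has the same value by inv invariance). P v = v for invariant v, v P = v for invariant row vectors, trace formula: linearity of the integral. -/
theorem gc2_avg (T : K →* Matrix ι ι ℂ) (hT : Continuous T) (μ : Measure K) [μ.IsHaarMeasure] [IsProbabilityMeasure μ] :
    ∃ P : Matrix ι ι ℂ, (∀ k, T k * P = P) ∧ (∀ k, P * T k = P) ∧ (∀ v, (∀ k, (T k).mulVec v = v) → P.mulVec v = v) ∧
      (∀ v, (∀ k, vecMul v (T k) = v) → vecMul v P = v) ∧ ∀ B : Matrix ι ι ℂ, ∫ k, trace (T k * B) ∂μ = trace (P * B) := by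
  obtain ⟨P, hP⟩ := gc2_int (fun k => T k) hT μ
  obtain ⟨Q, hQ⟩ := gc2_int (fun k => T k⁻¹) (hT.comp continuous_inv) μ
  -- linear forms
  have hL : ∀ (A : Matrix ι ι ℂ) (i j : ι), ∃ φ : Matrix ι ι ℂ →ₗ[ℂ] ℂ, ∀ M, φ M = (A * M) i j := by
    intro A i j
    refine ⟨{ toFun := fun M => (A * M) i j, map_add' := fun M M' => by rw [Matrix.mul_add]; rfl, map_smul' := fun c M => by rw [Matrix.mul_smul]; rfl }, fun M => rfl⟩
  have hR : ∀ (A : Matrix ι ι ℂ) (i j : ι), ∃ φ : Matrix ι ι ℂ →ₗ[ℂ] ℂ, ∀ M, φ M = (M * A) i j := by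
    intro A i j
    refine ⟨{ toFun := fun M => (M * A) i j, map_add' := fun M M' => by rw [Matrix.add_mul]; rfl, map_smul' := fun c M => by rw [Matrix.smul_mul]; rfl }, fun M => rfl⟩
  have hE : ∀ i j : ι, ∃ φ : Matrix ι ι ℂ →ₗ[ℂ] ℂ, ∀ M, φ M = M i j := by
    intro i j
    refine ⟨{ toFun := fun M => M i j, map_add' := fun M M' => rfl, map_smul' := fun c M => rfl }, fun M => rfl⟩
  have h1 : ∀ x, T x * P = P := by
    intro x
    ext i j
    obtain ⟨φ, hφ⟩ := hL (T x) i j
    obtain ⟨ψ, hψ⟩ := hE i j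
    rw [← hφ, ← hψ P, hP, hP, ← integral_mul_left_eq_self (fun k => ψ (T k)) x]
    refine integral_congr_ae (Filter.Eventually.of_forall fun k => ?_)
    show φ (T k) = ψ (T (x * k))
    rw [hφ, hψ, map_mul]
  have h2 : ∀ x, Q * T x = Q := by
    intro x
    ext i j
    obtain ⟨φ, hφ⟩ := hR (T x) i j
    obtain ⟨ψ, hψ⟩ := hE i j
    rw [← hφ, ← hψ Q, hQ, hQ, ← integral_mul_left_eq_self (fun k => ψ (T k⁻¹)) x⁻¹]
    refine integral_congr_ae (Filter.Eventually.of_forall fun k => ?_)
    show φ (T k⁻¹) = ψ (T (x⁻¹ * k)⁻¹)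
    rw [hφ, hψ, _root_.mul_inv_rev, inv_inv, map_mul]
  have h3 : Q * P = P := by
    ext i j
    obtain ⟨φ, hφ⟩ := hR P i j
    rw [← hφ, hQ]
    have e : ∀ k, φ (T k⁻¹) = P i j := fun k => by rw [hφ, h1]
    simp only [e]
    rw [integral_const, probReal_univ, one_smul]
  have h4 : Q * P = Q := by
    ext i j
    obtain ⟨φ, hφ⟩ := hL Q i j
    rw [← hφ, hP]
    have e : ∀ k, φ (T k) = Q i j := fun k => by rw [hφ, h2]
    simp only [e]
    rw [integral_const, probReal_univ, one_smul]
  have h5 : P = Q := h3.symm.trans h4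
  refine ⟨P, h1, fun k => by rw [h5]; exact h2 k, fun v hv => ?_, fun v hv => ?_, fun B => ?_⟩
  · funext i
    have hφ : ∃ φ : Matrix ι ι ℂ →ₗ[ℂ] ℂ, ∀ M, φ M = (M.mulVec v) i :=
      ⟨{ toFun := fun M => (M.mulVec v) i, map_add' := fun M M' => by rw [Matrix.add_mulVec]; rfl, map_smul' := fun c M => by rw [Matrix.smul_mulVec]; rfl }, fun M => rfl⟩
    obtain ⟨φ, hφ⟩ := hφ
    rw [← hφ, hP]
    have e : ∀ k, φ (T k) = v i := fun k => by rw [hφ, hv]
    simp only [e]
    rw [integral_const, probReal_univ, one_smul]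
  · funext i
    have hφ : ∃ φ : Matrix ι ι ℂ →ₗ[ℂ] ℂ, ∀ M, φ M = (vecMul v M) i :=
      ⟨{ toFun := fun M => (vecMul v M) i, map_add' := fun M M' => by rw [Matrix.vecMul_add]; rfl, map_smul' := fun c M => by rw [Matrix.vecMul_smul]; rfl }, fun M => rfl⟩
    obtain ⟨φ, hφ⟩ := hφ
    rw [← hφ, hP]
    have e : ∀ k, φ (T k) = v i := fun k => by rw [hφ, hv]
    simp only [e]
    rw [integral_const, probReal_univ, one_smul]
  · have hφ : ∃ φ : Matrix ι ι ℂ →ₗ[ℂ] ℂ, ∀ M, φ M = trace (M * B) :=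
      ⟨{ toFun := fun M => trace (M * B), map_add' := fun M M' => by rw [Matrix.add_mul, trace_add], map_smul' := fun c M => by rw [Matrix.smul_mul, trace_smul]; rfl }, fun M => rfl⟩
    obtain ⟨φ, hφ⟩ := hφ
    rw [← hφ, hP]
    simp only [hφ]

end H25G
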