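import Pool.Agent.Lib.H25G.Defs

/-! # H25G, chunk GC3: invariant projections (Weyl) -/

set_option autoImplicit false

open MeasureTheory Matrix

namespace H25G

theorem gc3_int {K : Type*} [TopologicalSpace K] [CompactSpace K] [MeasurableSpace K] [BorelSpace K] {ι : Type*} [Fintype ι] [DecidableEq ι]
    (F : K → Matrix ι ι ℂ) (hF : Continuous F) (μ : Measure K) [IsFiniteMeasureOnCompacts μ] :
    ∃ P : Matrix ι ι ℂ, ∀ φ : Matrix ι ι ℂ →ₗ[ℂ] ℂ, φ P = ∫ k, φ (F k) ∂μ := by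
  refine ⟨Matrix.of fun i j => ∫ k, F k i j ∂μ, fun φ => ?_⟩
  have h1 : ∀ M : Matrix ι ι ℂ, φ M = ∑ i, ∑ j, M i j * φ (Matrix.single i j 1) := by
    intro M
    conv_lhs => rw [Matrix.matrix_eq_sum_single M]
    rw [map_sum]
    refine Finset.sum_congr rfl fun i _ => ?_
    rw [map_sum]
    refine Finset.sum_congr rfl fun j _ => ?_
    have e : Matrix.single i j (M i j) = M i j • Matrix.single i j (1 : ℂ) := by
      rw [Matrix.smul_single, smul_eq_mul, mul_one]
    rw [e, map_smul, smul_eq_mul]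
  have h2 : ∀ i j, Integrable (fun k => F k i j) μ := fun i j =>
    (hF.matrix_elem i j).integrable_of_hasCompactSupport (HasCompactSupport.of_compactSpace _)
  have h3 : (fun k => φ (F k)) = fun k => ∑ i, ∑ j, F k i j * φ (Matrix.single i j 1) := funext fun k => h1 (F k)
  rw [h1, h3, integral_finsetSum _ fun i _ => integrable_finsetSum _ fun j _ => (h2 i j).mul_const _]
  refine Finset.sum_congr rfl fun i _ => ?_
  rw [integral_finsetSum _ fun j _ => (h2 i j).mul_const _]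
  refine Finset.sum_congr rfl fun j _ => ?_
  rw [integral_mul_const]
  rfl

variable {K : Type*} [Group K] [TopologicalSpace K] [IsTopologicalGroup K] [CompactSpace K]
variable {ι : Type*} [Fintype ι] [DecidableEq ι]

/-- (M) GC3. Every stable subspace of a continuous representation of a compact group is the image of an equivariant projection.
Proof. π0 any projection onto W (Submodule.exists_isCompl / exists_leftInverse), π = integral over the Haar probability measure (choose the borel σ-algebra) of T(k) π0 T(k^-1), entrywise. T(x) π T(x^-1) = π by left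
invariance. For w in W: T(k^-1) w in W, so π0 fixes it and T(k) π0 T(k^-1) w = w. For every v: T(k) π0 T(k^-1) v in W, so linear forms vanishing on W vanish on π v (linear forms commute with the integral). -/
theorem gc3 (T : K →* Matrix ι ι ℂ) (hT : Continuous T) (W : Submodule ℂ (ι → ℂ)) (hW : ∀ k, ∀ w ∈ W, (T k).mulVec w ∈ W) :
    ∃ π : Matrix ι ι ℂ, (∀ k, T k * π = π * T k) ∧ (∀ w ∈ W, π.mulVec w = w) ∧ ∀ v, π.mulVec v ∈ W := by
  borelize K
  obtain ⟨μ, hμ⟩ : ∃ μ : Measure K, μ = Measure.haarMeasure ⊤ := ⟨_, rfl⟩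
  haveI : μ.IsHaarMeasure := by
    rw [hμ]
    infer_instance
  haveI : IsProbabilityMeasure μ := ⟨by
    rw [hμ]
    exact Measure.haarMeasure_self⟩
  -- the projection
  obtain ⟨g, hg⟩ := W.subtype.exists_leftInverse_of_injective (LinearMap.ker_eq_bot.2 W.injective_subtype)
  obtain ⟨π₀, hπ₀⟩ : ∃ π₀ : Matrix ι ι ℂ, π₀ = LinearMap.toMatrix' (W.subtype.comp g) := ⟨_, rfl⟩
  have p1 : ∀ v, π₀.mulVec v = (g v : ι → ℂ) := by
    intro v
    rw [hπ₀, LinearMap.toMatrix'_mulVec]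
    rfl
  have p2 : ∀ v, π₀.mulVec v ∈ W := fun v => by
    rw [p1]
    exact (g v).2
  have p3 : ∀ w ∈ W, π₀.mulVec w = w := by
    intro w hw
    rw [p1]
    exact congrArg Subtype.val (DFunLike.congr_fun hg (⟨w, hw⟩ : W))
  have hTi : Continuous fun k : K => T k⁻¹ := hT.comp continuous_inv
  obtain ⟨π, hπ⟩ := gc3_int (fun k => T k * π₀ * T k⁻¹) ((hT.matrix_mul continuous_const).matrix_mul hTi) μ
  have hTT : ∀ x, T x⁻¹ * T x = 1 := fun x => by rw [← map_mul, inv_mul_cancel, map_one]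
  have h1 : ∀ x, T x * π * T x⁻¹ = π := by
    intro x
    ext i j
    obtain ⟨φ, hφ⟩ : ∃ φ : Matrix ι ι ℂ →ₗ[ℂ] ℂ, ∀ M, φ M = (T x * M * T x⁻¹) i j :=
      ⟨{ toFun := fun M => (T x * M * T x⁻¹) i j, map_add' := fun M M' => by rw [Matrix.mul_add, Matrix.add_mul]; rfl, map_smul' := fun c M => by rw [Matrix.mul_smul, Matrix.smul_mul]; rfl }, fun M => rfl⟩
    obtain ⟨ψ, hψ⟩ : ∃ φ : Matrix ι ι ℂ →ₗ[ℂ] ℂ, ∀ M, φ M = M i j :=
      ⟨{ toFun := fun M => M i j, map_add' := fun M M' => rfl, map_smul' := fun c M => rfl }, fun M => rfl⟩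
    rw [← hφ, ← hψ π, hπ, hπ, ← integral_mul_left_eq_self (fun k => ψ (T k * π₀ * T k⁻¹)) x]
    refine integral_congr_ae (Filter.Eventually.of_forall fun k => ?_)
    show φ (T k * π₀ * T k⁻¹) = ψ (T (x * k) * π₀ * T (x * k)⁻¹)
    rw [hφ, hψ, _root_.mul_inv_rev, map_mul, map_mul]
    simp only [Matrix.mul_assoc]
  have hmv : ∀ (v : ι → ℂ) (f : (ι → ℂ) →ₗ[ℂ] ℂ), ∃ φ : Matrix ι ι ℂ →ₗ[ℂ] ℂ, ∀ M, φ M = f (M.mulVec v) := by
    intro v f
    exact ⟨{ toFun := fun M => f (M.mulVec v), map_add' := fun M M' => by rw [Matrix.add_mulVec, map_add], map_smul' := fun c M => by rw [Matrix.smul_mulVec, map_smul]; rfl }, fun M => rfl⟩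
  refine ⟨π, fun x => ?_, fun w hw => ?_, fun v => ?_⟩
  · conv_rhs => rw [← h1 x]
    rw [Matrix.mul_assoc, hTT, Matrix.mul_one]
  · funext i
    obtain ⟨φ, hφ⟩ := hmv w (LinearMap.proj i)
    have h2 : (LinearMap.proj i : (ι → ℂ) →ₗ[ℂ] ℂ) (π.mulVec w) = (π.mulVec w) i := rfl
    rw [← h2, ← hφ, hπ]
    have e : ∀ k, φ (T k * π₀ * T k⁻¹) = w i := by
      intro k
      rw [hφ, ← Matrix.mulVec_mulVec, ← Matrix.mulVec_mulVec, p3 _ (hW _ _ hw), Matrix.mulVec_mulVec, ← map_mul, mul_inv_cancel,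
        map_one, Matrix.one_mulVec]
      rfl
    simp only [e]
    rw [integral_const, probReal_univ, one_smul]
  · by_contra hv
    obtain ⟨f, hf1, hf2⟩ := Submodule.exists_le_ker_of_notMem hv
    obtain ⟨φ, hφ⟩ := hmv v f
    apply hf1
    rw [← hφ, hπ]
    have e : ∀ k, φ (T k * π₀ * T k⁻¹) = 0 := by
      intro k
      rw [hφ, ← Matrix.mulVec_mulVec, ← Matrix.mulVec_mulVec]
      exact hf2 (hW _ _ (p2 _))
    simp only [e]
    rw [integral_zero]

end H25G
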