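import Pool.Agent.Lib.H25G.Defs

/-! # H25G, chunk GC4: averaging the approximation -/

set_option autoImplicit false

open MeasureTheory Matrix

namespace H25G

section gc4aux

variable {D : Type*} [Group D] [TopologicalSpace D] [IsTopologicalGroup D] [CompactSpace D]
  [MeasurableSpace D] [BorelSpace D]
variable {ι : Type*} [Fintype ι] [DecidableEq ι]

/-- The Haar probability measure of a compact group. -/
noncomputable def gc4_haar (D : Type*) [Group D] [TopologicalSpace D] [IsTopologicalGroup D] [CompactSpace D]
    [MeasurableSpace D] [BorelSpace D] : Measure D := Measure.haarMeasure (⊤ : TopologicalSpace.PositiveCompacts D)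

instance gc4_haar_left : (gc4_haar D).IsMulLeftInvariant := by
  unfold gc4_haar; infer_instance

instance gc4_haar_prob : IsProbabilityMeasure (gc4_haar D) := by
  refine ⟨?_⟩
  have h := Measure.haarMeasure_self (K₀ := (⊤ : TopologicalSpace.PositiveCompacts D))
  simpa [gc4_haar] using h

theorem gc4_integrable {f : D → ℂ} (hf : Continuous f) : Integrable f (gc4_haar D) :=
  hf.integrable_of_hasCompactSupport (HasCompactSupport.of_compactSpace f)

/-- The entrywise integral. -/
noncomputable def gc4_int (M : D → Matrix ι ι ℂ) : Matrix ι ι ℂ := Matrix.of fun i j => ∫ d, M d i j ∂(gc4_haar D)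

theorem gc4_mul {M : D → Matrix ι ι ℂ} (hM : Continuous M) (A B : Matrix ι ι ℂ) :
    A * gc4_int M * B = gc4_int fun d => A * M d * B := by
  have he : ∀ i j, Continuous fun d => M d i j := fun i j => hM.matrix_elem i j
  ext i j
  simp only [gc4_int, Matrix.mul_apply, Matrix.of_apply, Finset.sum_mul]
  rw [integral_finset_sum]
  · refine Finset.sum_congr rfl fun x _ => ?_
    rw [integral_finset_sum]
    · refine Finset.sum_congr rfl fun y _ => ?_
      rw [integral_mul_const, integral_const_mul]
    · intro y _
      exact gc4_integrable ((continuous_const.mul (he y x)).mul continuous_const)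
  · intro x _
    refine gc4_integrable (continuous_finset_sum _ fun y _ => ?_)
    exact (continuous_const.mul (he y x)).mul continuous_const

theorem gc4_trace {M : D → Matrix ι ι ℂ} (hM : Continuous M) :
    trace (gc4_int M) = ∫ d, trace (M d) ∂(gc4_haar D) := by
  have he : ∀ i j, Continuous fun d => M d i j := fun i j => hM.matrix_elem i j
  simp only [Matrix.trace, Matrix.diag_apply, gc4_int, Matrix.of_apply]
  rw [integral_finset_sum]
  intro x _
  exact gc4_integrable (he x x)

theorem gc4_shift (M : D → Matrix ι ι ℂ) (x : D) : gc4_int (fun d => M (x * d)) = gc4_int M := by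
  ext i j
  simp only [gc4_int, Matrix.of_apply]
  exact integral_mul_left_eq_self (μ := gc4_haar D) (fun d => M d i j) x

theorem gc4_bound {M : D → Matrix ι ι ℂ} (hM : Continuous M) (z : ℂ) (ε : ℝ) (h : ∀ d, ‖z - trace (M d)‖ ≤ ε) :
    ‖z - trace (gc4_int M)‖ ≤ ε := by
  have hc : Continuous fun d => trace (M d) := hM.matrix_trace
  rw [gc4_trace hM]
  have h1 : z - ∫ d, trace (M d) ∂(gc4_haar D) = ∫ d, (z - trace (M d)) ∂(gc4_haar D) := by
    rw [integral_sub (integrable_const z) (gc4_integrable hc)]
    simp
  rw [h1]
  refine (norm_integral_le_of_norm_le_const (Filter.Eventually.of_forall h)).trans ?_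
  simp

end gc4aux

variable {K : Type*} [Group K] [TopologicalSpace K] [IsTopologicalGroup K] [CompactSpace K]
variable {ι : Type*} [Fintype ι] [DecidableEq ι]

/-- (M) GC4a. C a subgroup of K, phi right invariant under C. There is a matrix E with T(c) E = E for c in C such that every approximation of phi by trace(T(k) B) stays one after replacing B by E B.
Proof. phi is continuous, so right invariant under the closure D of C (a compact group with Haar probability measure). E = integral over D of T(d) (entrywise). T(c) E = E for c in D by left invariance.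
phi(k) - trace(T(k) E B) = integral over D of (phi(k d) - trace(T(k d) B)), of absolute value <= ε. -/
theorem gc4_left (T : K →* Matrix ι ι ℂ) (hT : Continuous T) (C : Subgroup K) (φ : K → ℂ) (hφ : Continuous φ) (hC : ∀ k, ∀ c ∈ C, φ (k * c) = φ k) :
    ∃ E : Matrix ι ι ℂ, (∀ c ∈ C, T c * E = E) ∧
      ∀ (B : Matrix ι ι ℂ) (ε : ℝ), (∀ k, ‖φ k - trace (T k * B)‖ ≤ ε) → ∀ k, ‖φ k - trace (T k * (E * B))‖ ≤ ε := by
  classical
  let D : Subgroup K := C.topologicalClosure
  haveI : CompactSpace D := isCompact_iff_compactSpace.1 C.isClosed_topologicalClosure.isCompact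
  letI : MeasurableSpace D := borel D
  haveI : BorelSpace D := ⟨rfl⟩
  have hTD : Continuous fun d : D => T (d : K) := hT.comp continuous_subtype_val
  have hD : ∀ k, ∀ d ∈ D, φ (k * d) = φ k := by
    intro k d hd
    have hcl : IsClosed {d : K | φ (k * d) = φ k} :=
      isClosed_eq (hφ.comp (continuous_const.mul continuous_id)) continuous_const
    exact closure_minimal (fun c hc => hC k c hc) hcl hd
  refine ⟨gc4_int fun d : D => T (d : K), ?_, ?_⟩
  · intro c hc
    have hcD : c ∈ D := C.le_topologicalClosure hc
    have h1 := gc4_mul hTD (T c) 1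
    rw [Matrix.mul_one] at h1
    rw [h1]
    have h2 := gc4_shift (fun d : D => T (d : K)) ⟨c, hcD⟩
    rw [← h2]
    congr 1
    funext d
    simp
  · intro B ε h k
    have h1 : T k * (gc4_int (fun d : D => T (d : K)) * B) = gc4_int fun d : D => T k * T (d : K) * B := by
      rw [← Matrix.mul_assoc]
      exact gc4_mul hTD (T k) B
    rw [h1]
    refine gc4_bound ((continuous_const.matrix_mul hTD).matrix_mul continuous_const) _ _ fun d => ?_
    rw [← hD k d d.2, ← map_mul]
    exact h (k * d)

end H25G
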