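import Pool.Agent.Lib.H25G.GC4

/-! # H25G, chunk GC4B: averaging the approximation over conjugation -/

set_option autoImplicit false

open MeasureTheory Matrix

namespace H25G

variable {K : Type*} [Group K] [TopologicalSpace K] [IsTopologicalGroup K] [CompactSpace K]
variable {ι : Type*} [Fintype ι] [DecidableEq ι]

/-- (M) GC4b. C a normal subgroup of K, phi a class function, B with T(c) B = B for c in C. Then B can be replaced by a matrix with the same property which commutes with T(K).
Proof. B' = integral over K of T(a^-1) B T(a). T(x)^-1 B' T(x) = B' by right invariance (a -> a x), so B' commutes. T(c) T(a^-1) B T(a) = T(a^-1) T(a c a^-1) B T(a) = T(a^-1) B T(a).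
phi(k) - trace(T(k) B') = integral of (phi(a k a^-1) - trace(T(a k a^-1) B)). -/
theorem gc4_conj (T : K →* Matrix ι ι ℂ) (hT : Continuous T) (C : Subgroup K) [C.Normal] (φ : K → ℂ) (hcl : ∀ a k, φ (a * k * a⁻¹) = φ k)
    (B : Matrix ι ι ℂ) (hB : ∀ c ∈ C, T c * B = B) (ε : ℝ) (h : ∀ k, ‖φ k - trace (T k * B)‖ ≤ ε) :
    ∃ B' : Matrix ι ι ℂ, (∀ k, T k * B' = B' * T k) ∧ (∀ c ∈ C, T c * B' = B') ∧ ∀ k, ‖φ k - trace (T k * B')‖ ≤ ε := by
  classical
  let iM : MeasurableSpace K := borel K
  have iB : BorelSpace K := ⟨rfl⟩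
  have hM : Continuous fun a : K => T a * B * T a⁻¹ :=
    (hT.matrix_mul continuous_const).matrix_mul (hT.comp continuous_inv)
  have hinv : ∀ a : K, T a⁻¹ * T a = 1 := fun a => by rw [← map_mul, inv_mul_cancel, map_one]
  have hinv' : ∀ a : K, T a * T a⁻¹ = 1 := fun a => by rw [← map_mul, mul_inv_cancel, map_one]
  refine ⟨gc4_int fun a : K => T a * B * T a⁻¹, ?_, ?_, ?_⟩
  · intro k
    have h1 := gc4_mul hM (T k) (T k⁻¹)
    have h2 : (fun d : K => T k * (T d * B * T d⁻¹) * T k⁻¹) = fun d : K => T (k * d) * B * T (k * d)⁻¹ := by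
      funext d
      rw [_root_.mul_inv_rev, map_mul, map_mul]
      simp only [Matrix.mul_assoc]
    have h4 := gc4_shift (fun a : K => T a * B * T a⁻¹) k
    rw [h2, h4] at h1
    have h3 := congrArg (fun M => M * T k) h1
    simp only [Matrix.mul_assoc] at h3
    rw [hinv, Matrix.mul_one] at h3
    simp only [Matrix.mul_assoc]
    exact h3
  · intro c hc
    have h1 := gc4_mul hM (T c) 1
    rw [Matrix.mul_one] at h1
    rw [h1]
    congr 1
    funext a
    have h2 : T c * T a = T a * T (a⁻¹ * c * a) := by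
      rw [← map_mul, ← map_mul]
      congr 1
      group
    have h3 : a⁻¹ * c * a ∈ C := by
      have := (inferInstance : C.Normal).conj_mem c hc a⁻¹
      simpa using this
    rw [Matrix.mul_one, ← Matrix.mul_assoc, ← Matrix.mul_assoc, h2, Matrix.mul_assoc (T a), hB _ h3]
  · intro k
    have h1 := gc4_mul hM (T k) 1
    rw [Matrix.mul_one] at h1
    rw [h1]
    have hM2 : Continuous fun a : K => T k * (T a * B * T a⁻¹) * 1 :=
      (continuous_const.matrix_mul hM).matrix_mul continuous_const
    refine gc4_bound hM2 _ _ fun a => ?_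
    have h2 : trace (T k * (T a * B * T a⁻¹) * 1) = trace (T (a⁻¹ * k * a) * B) := by
      rw [Matrix.mul_one, ← Matrix.mul_assoc, Matrix.trace_mul_comm, ← Matrix.mul_assoc, ← Matrix.mul_assoc,
        ← map_mul, ← map_mul]
    rw [h2]
    have h3 := h (a⁻¹ * k * a)
    have h4 : φ (a⁻¹ * k * a) = φ k := by
      have := hcl a⁻¹ k
      simpa using this
    rwa [h4] at h3

end H25G
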