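import Pool.Agent.Lib.H25G.Defs

/-! # H25G, chunk GC5: matrix coefficients of the Kronecker powers form an algebra -/

set_option autoImplicit false

open Matrix

namespace H25G

variable {k : Type*} [Field k] {n : ℕ}

/-- The functions g -> trace(tT a g B). -/
def Coef (k : Type*) [Field k] (n : ℕ) : Set (GL (Fin n) k → k) := {F | ∃ (a : ℕ) (B : Matrix (Fin a → Jx n) (Fin a → Jx n) k), ∀ g, F g = trace (tT a g * B)}

theorem gc5_prod (a b : ℕ) (B : Matrix (Fin a → Jx n) (Fin a → Jx n) k) (B' : Matrix (Fin b → Jx n) (Fin b → Jx n) k) :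
    ∃ B'' : Matrix (Fin (a + b) → Jx n) (Fin (a + b) → Jx n) k, ∀ g : GL (Fin n) k, trace (tT a g * B) * trace (tT b g * B') = trace (tT (a + b) g * B'') := by
  classical
  refine ⟨Matrix.of fun I J => B (fun i => I (Fin.castAdd b i)) (fun i => J (Fin.castAdd b i)) *
    B' (fun i => I (Fin.natAdd a i)) (fun i => J (Fin.natAdd a i)), fun g => ?_⟩
  have hR : ∀ (F : (Fin (a + b) → Jx n) → k), ∑ I, F I = ∑ x : (Fin a → Jx n), ∑ y : (Fin b → Jx n), F (Fin.append x y) := by
    intro F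
    rw [← Fintype.sum_prod_type', ← (Fin.appendEquiv a b).sum_comp]
    rfl
  simp only [Matrix.trace, Matrix.diag_apply, Matrix.mul_apply, Matrix.of_apply]
  rw [hR, Finset.sum_mul_sum]
  refine Finset.sum_congr rfl fun x _ => Finset.sum_congr rfl fun y _ => ?_
  rw [hR, Finset.sum_mul_sum]
  refine Finset.sum_congr rfl fun x' _ => Finset.sum_congr rfl fun y' _ => ?_
  simp only [tT_apply, Fin.prod_univ_add, Fin.append_left, Fin.append_right]
  ring

theorem gc5_one (x y : Jx n) : ∃ B' : Matrix (Fin 1 → Jx n) (Fin 1 → Jx n) k, ∀ g : GL (Fin n) k, trace (tT 1 g * B') = mM g x y := by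
  classical
  refine ⟨Matrix.single (fun _ => y) (fun _ => x) 1, fun g => ?_⟩
  rw [Matrix.trace_mul_single, tT_apply]
  simp

/-- (M) GC5a. The degree can be raised. Proof: for B let B' I J = B (tail I) (tail J) if I 0 = J 0 = the first index (Sum.inl ()), and 0 otherwise (Fin.consEquiv / Fin.init, Fin.last); mM g has entry 1 there. -/
theorem gc5_succ (a : ℕ) (B : Matrix (Fin a → Jx n) (Fin a → Jx n) k) :
    ∃ B' : Matrix (Fin (a + 1) → Jx n) (Fin (a + 1) → Jx n) k, ∀ g : GL (Fin n) k, trace (tT a g * B) = trace (tT (a + 1) g * B') := by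
  obtain ⟨P, hP⟩ := gc5_one (k := k) (n := n) (Sum.inl ()) (Sum.inl ())
  obtain ⟨B', hB'⟩ := gc5_prod a 1 B P
  refine ⟨B', fun g => ?_⟩
  rw [← hB' g, hP g]
  simp [mM]

/-- (M) GC5b. Products. tT (a + b) is tT a (x) tT b with respect to (Fin (a+b) -> J) = (Fin a -> J) x (Fin b -> J) (Fin.appendEquiv), product over Fin (a+b) splits (Fin.prod_univ_add);
B'' I J = B (I1) (J1) B'(I2) (J2). -/
theorem gc5_mul (a b : ℕ) (B : Matrix (Fin a → Jx n) (Fin a → Jx n) k) (B' : Matrix (Fin b → Jx n) (Fin b → Jx n) k) :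
    ∃ B'' : Matrix (Fin (a + b) → Jx n) (Fin (a + b) → Jx n) k, ∀ g : GL (Fin n) k, trace (tT a g * B) * trace (tT b g * B') = trace (tT (a + b) g * B'') :=
  gc5_prod a b B B'

/-- (S) GC5c. Entries of g, entries of the inverse, constants (a = 1, resp. a = 0). -/
theorem gc5_entry (i j : Fin n) : (fun g : GL (Fin n) k => (g : Matrix (Fin n) (Fin n) k) i j) ∈ Coef k n ∧
    (fun g : GL (Fin n) k => ((g⁻¹ : GL (Fin n) k) : Matrix (Fin n) (Fin n) k) i j) ∈ Coef k n ∧ ∀ c : k, (fun _ : GL (Fin n) k => c) ∈ Coef k n := by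
  classical
  refine ⟨?_, ?_, fun c => ?_⟩
  · obtain ⟨B, hB⟩ := gc5_one (k := k) (n := n) (Sum.inr (Sum.inl i)) (Sum.inr (Sum.inl j))
    refine ⟨1, B, fun g => ?_⟩
    rw [hB g]
    simp [mM]
  · obtain ⟨B, hB⟩ := gc5_one (k := k) (n := n) (Sum.inr (Sum.inr j)) (Sum.inr (Sum.inr i))
    refine ⟨1, B, fun g => ?_⟩
    rw [hB g]
    simp [mM]
  · refine ⟨0, Matrix.of fun _ _ => c, fun g => ?_⟩
    simp [Matrix.trace, Matrix.mul_apply, tT_apply]

theorem gc5_raise (a b : ℕ) (B : Matrix (Fin a → Jx n) (Fin a → Jx n) k) :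
    ∃ B' : Matrix (Fin (a + b) → Jx n) (Fin (a + b) → Jx n) k, ∀ g : GL (Fin n) k, trace (tT a g * B) = trace (tT (a + b) g * B') := by
  induction b with
  | zero => exact ⟨B, fun g => rfl⟩
  | succ b ih =>
    obtain ⟨B1, h1⟩ := ih
    obtain ⟨B2, h2⟩ := gc5_succ (a + b) B1
    exact ⟨B2, fun g => (h1 g).trans (h2 g)⟩

/-- (S) GC5d. Coef is closed under sums and products (raise both degrees to a + b with gc5_succ, then add the matrices). -/
theorem gc5_alg (F G : GL (Fin n) k → k) (hF : F ∈ Coef k n) (hG : G ∈ Coef k n) : (fun g => F g + G g) ∈ Coef k n ∧ (fun g => F g * G g) ∈ Coef k n := by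
  obtain ⟨a, B, hB⟩ := hF
  obtain ⟨b, B', hB'⟩ := hG
  constructor
  · obtain ⟨B1, h1⟩ := gc5_raise a b B
    have h := gc5_raise b a B'
    rw [Nat.add_comm b a] at h
    obtain ⟨B2, h2⟩ := h
    refine ⟨a + b, B1 + B2, fun g => ?_⟩
    show F g + G g = _
    rw [hB g, hB' g, h1 g, h2 g, Matrix.mul_add, Matrix.trace_add]
  · obtain ⟨B'', h⟩ := gc5_prod a b B B'
    refine ⟨a + b, B'', fun g => ?_⟩
    show F g * G g = _
    rw [hB g, hB' g, h g]

end H25G
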