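import Pool.Agent.Lib.H25G.GC1
import Pool.Agent.Lib.H25G.GC5

/-! # H25G, chunk GC6: Stone-Weierstrass for compact subgroups of GL_n(C) -/

set_option autoImplicit false

open Matrix

namespace H25G

variable {n : ℕ}

theorem gc6_add {F G : GL (Fin n) ℂ → ℂ} (hF : F ∈ Coef ℂ n) (hG : G ∈ Coef ℂ n) : (fun g => F g + G g) ∈ Coef ℂ n :=
  (gc5_alg F G hF hG).1

theorem gc6_mul {F G : GL (Fin n) ℂ → ℂ} (hF : F ∈ Coef ℂ n) (hG : G ∈ Coef ℂ n) : (fun g => F g * G g) ∈ Coef ℂ n :=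
  (gc5_alg F G hF hG).2

theorem gc6_const (c : ℂ) : (fun _ : GL (Fin n) ℂ => c) ∈ Coef ℂ n := by
  have h := gc5_one (k := ℂ) (n := n) (Sum.inl ()) (Sum.inl ())
  obtain ⟨B, hB⟩ := h
  refine ⟨1, c • B, fun g => ?_⟩
  rw [Matrix.mul_smul, Matrix.trace_smul, hB g]
  simp [mM]

theorem gc6_sum {ι : Type*} (s : Finset ι) (F : ι → GL (Fin n) ℂ → ℂ) (h : ∀ i ∈ s, F i ∈ Coef ℂ n) :
    (fun g => ∑ i ∈ s, F i g) ∈ Coef ℂ n := by
  classical
  induction s using Finset.induction_on with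
  | empty => simpa using gc6_const (n := n) 0
  | insert i s hi ih =>
    have h1 := gc6_add (h i (Finset.mem_insert_self i s)) (ih fun j hj => h j (Finset.mem_insert_of_mem hj))
    have h2 : (fun g => ∑ j ∈ insert i s, F j g) = fun g => F i g + ∑ j ∈ s, F j g := by
      funext g
      rw [Finset.sum_insert hi]
    rw [h2]
    exact h1

theorem gc6_prod {ι : Type*} (s : Finset ι) (F : ι → GL (Fin n) ℂ → ℂ) (h : ∀ i ∈ s, F i ∈ Coef ℂ n) :
    (fun g => ∏ i ∈ s, F i g) ∈ Coef ℂ n := by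
  classical
  induction s using Finset.induction_on with
  | empty => simpa using gc6_const (n := n) 1
  | insert i s hi ih =>
    have h1 := gc6_mul (h i (Finset.mem_insert_self i s)) (ih fun j hj => h j (Finset.mem_insert_of_mem hj))
    have h2 : (fun g => ∏ j ∈ insert i s, F j g) = fun g => F i g * ∏ j ∈ s, F j g := by
      funext g
      rw [Finset.prod_insert hi]
    rw [h2]
    exact h1

/-- The complex conjugate of F on K is in Coef. -/
def gc6_S (K : Subgroup (GL (Fin n) ℂ)) (F : GL (Fin n) ℂ → ℂ) : Prop := ∃ G ∈ Coef ℂ n, ∀ k ∈ K, G k = star (F k)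

theorem gc6_S_const (K : Subgroup (GL (Fin n) ℂ)) (c : ℂ) : gc6_S K (fun _ => c) := ⟨_, gc6_const (star c), fun _ _ => rfl⟩

theorem gc6_S_mul {K : Subgroup (GL (Fin n) ℂ)} {F G : GL (Fin n) ℂ → ℂ} (hF : gc6_S K F) (hG : gc6_S K G) :
    gc6_S K (fun g => F g * G g) := by
  obtain ⟨F', h1, h2⟩ := hF
  obtain ⟨G', h3, h4⟩ := hG
  refine ⟨_, gc6_mul h1 h3, fun k hk => ?_⟩
  show F' k * G' k = _
  rw [h2 k hk, h4 k hk, star_mul']

theorem gc6_S_sum {K : Subgroup (GL (Fin n) ℂ)} {ι : Type*} (s : Finset ι) (F : ι → GL (Fin n) ℂ → ℂ) (h : ∀ i ∈ s, gc6_S K (F i)) :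
    gc6_S K (fun g => ∑ i ∈ s, F i g) := by
  classical
  choose! G hG1 hG2 using h
  refine ⟨_, gc6_sum s G hG1, fun k hk => ?_⟩
  show ∑ i ∈ s, G i k = _
  rw [star_sum]
  exact Finset.sum_congr rfl fun i hi => hG2 i hi k hk

theorem gc6_S_prod {K : Subgroup (GL (Fin n) ℂ)} {ι : Type*} (s : Finset ι) (F : ι → GL (Fin n) ℂ → ℂ) (h : ∀ i ∈ s, gc6_S K (F i)) :
    gc6_S K (fun g => ∏ i ∈ s, F i g) := by
  classical
  choose! G hG1 hG2 using h
  refine ⟨_, gc6_prod s G hG1, fun k hk => ?_⟩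
  show ∏ i ∈ s, G i k = _
  rw [star_prod]
  exact Finset.prod_congr rfl fun i hi => hG2 i hi k hk

theorem gc6_form (K : Subgroup (GL (Fin n) ℂ)) (hK : IsCompact (K : Set (GL (Fin n) ℂ))) :
    ∃ H H' : Matrix (Fin n) (Fin n) ℂ, ∀ k ∈ K, ((k : Matrix (Fin n) (Fin n) ℂ))ᴴ = H * ((k⁻¹ : GL (Fin n) ℂ) : Matrix (Fin n) (Fin n) ℂ) * H' := by
  have iK : CompactSpace K := isCompact_iff_compactSpace.1 hK
  let T : K →* Matrix (Fin n) (Fin n) ℂ := (Units.coeHom _).comp K.subtype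
  have hT : Continuous T := Units.continuous_val.comp continuous_subtype_val
  obtain ⟨H, ⟨u, hu⟩, hH⟩ := gc1 T hT
  refine ⟨H, ((u⁻¹ : (Matrix (Fin n) (Fin n) ℂ)ˣ) : Matrix (Fin n) (Fin n) ℂ), fun k hk => ?_⟩
  have h1 := hH ⟨k, hk⟩
  have h2 : T ⟨k, hk⟩ = (k : Matrix (Fin n) (Fin n) ℂ) := rfl
  rw [h2] at h1
  have h3 : (k : Matrix (Fin n) (Fin n) ℂ)ᴴ * H = H * ((k⁻¹ : GL (Fin n) ℂ) : Matrix (Fin n) (Fin n) ℂ) := by
    have h4 := congrArg (fun M => M * ((k⁻¹ : GL (Fin n) ℂ) : Matrix (Fin n) (Fin n) ℂ)) h1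
    simp only [Matrix.mul_assoc] at h4
    have h5 : (k : Matrix (Fin n) (Fin n) ℂ) * ((k⁻¹ : GL (Fin n) ℂ) : Matrix (Fin n) (Fin n) ℂ) = 1 := k.mul_inv
    rw [h5, Matrix.mul_one] at h4
    exact h4
  have h6 : H * ((u⁻¹ : (Matrix (Fin n) (Fin n) ℂ)ˣ) : Matrix (Fin n) (Fin n) ℂ) = 1 := by
    rw [← hu]; exact u.mul_inv
  rw [← h3, Matrix.mul_assoc, h6, Matrix.mul_one]

theorem gc6_S_entry (K : Subgroup (GL (Fin n) ℂ)) (hK : IsCompact (K : Set (GL (Fin n) ℂ))) (i j : Fin n) :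
    gc6_S K (fun g => (g : Matrix (Fin n) (Fin n) ℂ) i j) ∧
    gc6_S K (fun g => ((g⁻¹ : GL (Fin n) ℂ) : Matrix (Fin n) (Fin n) ℂ) i j) := by
  obtain ⟨H, H', h⟩ := gc6_form K hK
  constructor
  · refine ⟨fun g => ∑ y, (∑ x, H j x * ((g⁻¹ : GL (Fin n) ℂ) : Matrix (Fin n) (Fin n) ℂ) x y) * H' y i, ?_, fun k hk => ?_⟩
    · refine gc6_sum _ (fun y (g : GL (Fin n) ℂ) => (∑ x, H j x * ((g⁻¹ : GL (Fin n) ℂ) : Matrix (Fin n) (Fin n) ℂ) x y) * H' y i) fun y _ => gc6_mul ?_ (gc6_const _)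
      exact gc6_sum _ (fun x (g : GL (Fin n) ℂ) => H j x * ((g⁻¹ : GL (Fin n) ℂ) : Matrix (Fin n) (Fin n) ℂ) x y) fun x _ => gc6_mul (gc6_const _) (gc5_entry x y).2.1
    · have h1 := congrFun (congrFun (h k hk) j) i
      rw [Matrix.conjTranspose_apply] at h1
      rw [h1]
      simp only [Matrix.mul_apply]
  · refine ⟨fun g => ∑ y, (∑ x, H j x * (g : Matrix (Fin n) (Fin n) ℂ) x y) * H' y i, ?_, fun k hk => ?_⟩
    · refine gc6_sum _ (fun y (g : GL (Fin n) ℂ) => (∑ x, H j x * (g : Matrix (Fin n) (Fin n) ℂ) x y) * H' y i) fun y _ => gc6_mul ?_ (gc6_const _)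
      exact gc6_sum _ (fun x (g : GL (Fin n) ℂ) => H j x * (g : Matrix (Fin n) (Fin n) ℂ) x y) fun x _ => gc6_mul (gc6_const _) (gc5_entry x y).1
    · have h1 := congrFun (congrFun (h k⁻¹ (K.inv_mem hk)) j) i
      rw [Matrix.conjTranspose_apply, inv_inv] at h1
      rw [h1]
      simp only [Matrix.mul_apply]

theorem gc6_S_mM (K : Subgroup (GL (Fin n) ℂ)) (hK : IsCompact (K : Set (GL (Fin n) ℂ))) (x y : Jx n) :
    gc6_S K (fun g => mM g x y) := by
  rcases x with x | x | x <;> rcases y with y | y | y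
  · exact gc6_S_const K _
  · exact gc6_S_const K 0
  · exact gc6_S_const K 0
  · exact gc6_S_const K 0
  · exact (gc6_S_entry K hK x y).1
  · exact gc6_S_const K 0
  · exact gc6_S_const K 0
  · exact gc6_S_const K 0
  · exact (gc6_S_entry K hK y x).2

/-- (S/M) GC6a. On a compact subgroup K of GL_n(C) the complex conjugate of a function in Coef is in Coef.
Proof. gc1 for the inclusion of K: k^H H k = H, so k^H = H k^-1 H^-1: the conjugate of the entry k_ij is the (j,i) entry of H k^-1 H^-1, a combination of entries of k^-1; the conjugate of the entry of k^-1 likewise (apply to k^-1).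
So the conjugates of the entries of mM k are in Coef (restricted to K), and the conjugate of trace(tT a k B) is a sum of products of them. -/
theorem gc6_star (K : Subgroup (GL (Fin n) ℂ)) (hK : IsCompact (K : Set (GL (Fin n) ℂ))) (F : GL (Fin n) ℂ → ℂ) (hF : F ∈ Coef ℂ n) :
    ∃ G ∈ Coef ℂ n, ∀ k ∈ K, G k = star (F k) := by
  obtain ⟨a, B, hB⟩ := hF
  have h : gc6_S K (fun g => ∑ I, ∑ J, (∏ t, mM g (I t) (J t)) * B J I) := by
    refine gc6_S_sum _ (fun I (g : GL (Fin n) ℂ) => ∑ J, (∏ t, mM g (I t) (J t)) * B J I) fun I _ => ?_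
    refine gc6_S_sum _ (fun J (g : GL (Fin n) ℂ) => (∏ t, mM g (I t) (J t)) * B J I) fun J _ => ?_
    refine gc6_S_mul ?_ (gc6_S_const K _)
    exact gc6_S_prod _ (fun t (g : GL (Fin n) ℂ) => mM g (I t) (J t)) fun t _ => gc6_S_mM K hK _ _
  obtain ⟨G, h1, h2⟩ := h
  refine ⟨G, h1, fun k hk => ?_⟩
  rw [h2 k hk, hB k]
  rfl

/-- (M) GC6. Every continuous function on K is a uniform limit of functions in Coef.
Proof. The restrictions to K of functions in Coef form a star subalgebra of C(K, C) (gc5_alg, gc5_entry, gc6_star) which separates points (entries). ContinuousMap.starSubalgebra_topologicalClosure_eq_top_of_separatesPoints. K as a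
compact space: isCompact_iff_compactSpace. Functions in Coef are continuous on GL_n (polynomials in entries of g and g^-1; Units.continuous_val, continuous_inv). -/
theorem gc6 (K : Subgroup (GL (Fin n) ℂ)) (hK : IsCompact (K : Set (GL (Fin n) ℂ))) (φ : K → ℂ) (hφ : Continuous φ) (ε : ℝ) (hε : 0 < ε) :
    ∃ (a : ℕ) (B : Matrix (Fin a → Jx n) (Fin a → Jx n) ℂ), ∀ k : K, ‖φ k - trace (tT a (k : GL (Fin n) ℂ) * B)‖ ≤ ε := by
  have iK : CompactSpace K := isCompact_iff_compactSpace.1 hK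
  let A : StarSubalgebra ℂ C(K, ℂ) :=
    { carrier := {f | ∃ F ∈ Coef ℂ n, ∀ k : K, f k = F k}
      mul_mem' := by
        rintro f g ⟨F, hF, h1⟩ ⟨G, hG, h2⟩
        exact ⟨_, gc6_mul hF hG, fun k => by rw [ContinuousMap.mul_apply, h1, h2]⟩
      add_mem' := by
        rintro f g ⟨F, hF, h1⟩ ⟨G, hG, h2⟩
        exact ⟨_, gc6_add hF hG, fun k => by rw [ContinuousMap.add_apply, h1, h2]⟩
      algebraMap_mem' := fun c => ⟨_, gc6_const c, fun k => rfl⟩
      star_mem' := by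
        rintro f ⟨F, hF, h1⟩
        obtain ⟨G, hG, h2⟩ := gc6_star K hK F hF
        exact ⟨G, hG, fun k => by rw [ContinuousMap.star_apply, h1, h2 k k.2]⟩ }
  have hsep : A.SeparatesPoints := by
    intro x y hxy
    by_contra hcon
    apply hxy
    apply Subtype.ext
    apply Units.ext
    ext i j
    by_contra hne
    apply hcon
    refine ⟨fun k : K => ((k : GL (Fin n) ℂ) : Matrix (Fin n) (Fin n) ℂ) i j, ?_, hne⟩
    refine ⟨⟨fun k : K => ((k : GL (Fin n) ℂ) : Matrix (Fin n) (Fin n) ℂ) i j, ?_⟩, ?_, rfl⟩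
    · exact (Units.continuous_val.comp continuous_subtype_val).matrix_elem i j
    · exact ⟨_, (gc5_entry i j).1, fun k => rfl⟩
  have htop := ContinuousMap.starSubalgebra_topologicalClosure_eq_top_of_separatesPoints A hsep
  have hmem : (⟨φ, hφ⟩ : C(K, ℂ)) ∈ A.topologicalClosure := by
    rw [htop]; trivial
  obtain ⟨f, ⟨F, ⟨a, B, hB⟩, hfF⟩, hd⟩ := Metric.mem_closure_iff.1 hmem ε hε
  refine ⟨a, B, fun k => ?_⟩
  rw [← hB, ← hfF]
  have h1 := ContinuousMap.dist_apply_le_dist (f := (⟨φ, hφ⟩ : C(K, ℂ))) (g := f) k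
  rw [dist_eq_norm] at h1
  exact h1.trans hd.le

/-- (S) GC6c. tT a is continuous on GL_n(C). -/
theorem gc6_cont (a : ℕ) : Continuous (fun g : GL (Fin n) ℂ => tT a g) := by
  have h1 : Continuous fun g : GL (Fin n) ℂ => mM g := by
    unfold mM
    refine Continuous.matrix_fromBlocks continuous_const continuous_const continuous_const ?_
    refine Continuous.matrix_fromBlocks Units.continuous_val continuous_const continuous_const ?_
    exact (Units.continuous_val.comp continuous_inv).matrix_transpose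
  refine continuous_matrix fun I J => ?_
  show Continuous fun g : GL (Fin n) ℂ => ∏ t, mM g (I t) (J t)
  exact continuous_finsetProd _ fun t _ => h1.matrix_elem _ _

end H25G
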