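import Pool.Agent.Lib.H25G.GC4
import Pool.Agent.Lib.H25G.GC4B
import Pool.Agent.Lib.H25G.GC6

/-! # H25G, chunk GC7: approximation of invariant class functions -/

set_option autoImplicit false

open Matrix

namespace H25G

variable {n : ℕ}

/-- (S/M) GC7. K compact subgroup of GL_n(C), K1 a normal subgroup of K, φ a continuous class function on K, right invariant under the commutators of K1. For ε > 0 there are a and B with: B commutes with tT a (K), tT a (c) B = B for
the commutators c of elements of K1, and |φ(k) - trace(tT a k B)| <= ε on K.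
Proof. gc6, then gc4_left and gc4_conj for T = tT a restricted to K, C = the commutator subgroup ⁅K1, K1⁆ of K1 (normal in K; φ is invariant under generators, so under C). -/
theorem gc7 (K : Subgroup (GL (Fin n) ℂ)) (hK : IsCompact (K : Set (GL (Fin n) ℂ))) (K1 : Subgroup K) [K1.Normal] (φ : K → ℂ) (hφ : Continuous φ)
    (hcl : ∀ a k, φ (a * k * a⁻¹) = φ k) (hC : ∀ k, ∀ a ∈ K1, ∀ b ∈ K1, φ (k * (a * b * a⁻¹ * b⁻¹)) = φ k) (ε : ℝ) (hε : 0 < ε) :
    ∃ (a : ℕ) (B : Matrix (Fin a → Jx n) (Fin a → Jx n) ℂ), (∀ k : K, tT a (k : GL (Fin n) ℂ) * B = B * tT a (k : GL (Fin n) ℂ)) ∧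
      (∀ x ∈ K1, ∀ y ∈ K1, tT a ((x * y * x⁻¹ * y⁻¹ : K) : GL (Fin n) ℂ) * B = B) ∧
      ∀ k : K, ‖φ k - trace (tT a (k : GL (Fin n) ℂ) * B)‖ ≤ ε := by
  have : CompactSpace K := isCompact_iff_compactSpace.1 hK
  obtain ⟨a, B, hB⟩ := gc6 K hK φ hφ ε hε
  obtain ⟨T, hTk⟩ : ∃ T : K →* Matrix (Fin a → Jx n) (Fin a → Jx n) ℂ, ∀ k : K, T k = tT a (k : GL (Fin n) ℂ) :=
    ⟨(tT a).comp K.subtype, fun _ => rfl⟩
  have hT : Continuous T := by
    have h1 : (T : K → Matrix (Fin a → Jx n) (Fin a → Jx n) ℂ) = fun k : K => tT a (k : GL (Fin n) ℂ) := funext hTk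
    rw [h1]
    exact (gc6_cont a).comp continuous_subtype_val
  have hC' : ∀ k, ∀ c ∈ ⁅K1, K1⁆, φ (k * c) = φ k := by
    let C' : Subgroup K :=
      { carrier := {c | ∀ k, φ (k * c) = φ k}
        one_mem' := fun k => by rw [mul_one]
        mul_mem' := fun {x y} hx hy k => by rw [← mul_assoc, hy, hx]
        inv_mem' := fun {x} hx k => by
          have := hx (k * x⁻¹)
          rw [inv_mul_cancel_right] at this
          exact this.symm }
    have h1 : ⁅K1, K1⁆ ≤ C' := by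
      rw [Subgroup.commutator_le]
      intro x hx y hy k
      rw [commutatorElement_def]
      exact hC k x hx y hy
    intro k c hc
    exact h1 hc k
  have hB' : ∀ k : K, ‖φ k - trace (T k * B)‖ ≤ ε := by
    intro k
    rw [hTk]
    exact hB k
  obtain ⟨E, hE1, hE2⟩ := gc4_left T hT ⁅K1, K1⁆ φ hφ hC'
  obtain ⟨B', h1, h2, h3⟩ := gc4_conj T hT ⁅K1, K1⁆ φ hcl (E * B) (fun c hc => by
    rw [← Matrix.mul_assoc, hE1 c hc]) ε (hE2 B ε hB')
  refine ⟨a, B', fun k => ?_, fun x hx y hy => ?_, fun k => ?_⟩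
  · rw [← hTk]
    exact h1 k
  · rw [← hTk]
    exact h2 _ (Subgroup.commutator_mem_commutator hx hy)
  · rw [← hTk]
    exact h3 k

end H25G
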