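import Pool.Agent.Lib.H25G.Defs

/-! # H25G, chunk GD1: the Zariski closure of a group is a group -/

set_option autoImplicit false

open Matrix

namespace H25G

variable {k : Type*} [Field k] {n : ℕ}

/-- The point of an element of GL. -/
def gd1_pt (g : GL (Fin n) k) : Vr n → k := Sum.elim (fun ij => (g : Matrix (Fin n) (Fin n) k) ij.1 ij.2)
    (fun ij => ((g⁻¹ : GL (Fin n) k) : Matrix (Fin n) (Fin n) k) ij.1 ij.2)

theorem gd1_rg (f : MvPolynomial (Vr n) k) (g : GL (Fin n) k) : rg f g = MvPolynomial.eval (gd1_pt g) f := rfl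

theorem gd1_bind (f : MvPolynomial (Vr n) k) (s : Vr n → MvPolynomial (Vr n) k) (h h' : GL (Fin n) k)
    (hs : ∀ x, MvPolynomial.eval (gd1_pt h) (s x) = gd1_pt h' x) : rg (MvPolynomial.bind₁ s f) h = rg f h' := by
  rw [gd1_rg, gd1_rg]
  have h1 := MvPolynomial.eval₂Hom_bind₁ (RingHom.id k) (gd1_pt h) s f
  have h2 : (fun i => (MvPolynomial.eval₂Hom (RingHom.id k) (gd1_pt h)) (s i)) = gd1_pt h' := funext hs
  rw [h2] at h1
  exact h1

/-- (M) GD1a. Composition with translations and with the inverse. Proof: the entries of g h and of its inverse h^-1 g^-1 are polynomials in the entries of h and h^-1 (g fixed): substitute (MvPolynomial.bind₁ / aeval), eval of a substitution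
(MvPolynomial.eval₂Hom_bind₁, aeval). Inverse: exchange the two sets of variables (MvPolynomial.rename Sum.swap). -/
theorem gd1_left (f : MvPolynomial (Vr n) k) (g : GL (Fin n) k) : ∃ f' : MvPolynomial (Vr n) k, ∀ h, rg f' h = rg f (g * h) := by
  refine ⟨MvPolynomial.bind₁ (Sum.elim
    (fun ij => ∑ l, MvPolynomial.C ((g : Matrix (Fin n) (Fin n) k) ij.1 l) * MvPolynomial.X (Sum.inl (l, ij.2)))
    (fun ij => ∑ l, MvPolynomial.X (Sum.inr (ij.1, l)) * MvPolynomial.C (((g⁻¹ : GL (Fin n) k) : Matrix (Fin n) (Fin n) k) l ij.2))) f,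
    fun h => gd1_bind f _ h (g * h) ?_⟩
  rintro (ij | ij)
  · simp [gd1_pt, Matrix.mul_apply]
  · simp [gd1_pt, Matrix.mul_apply]

theorem gd1_right (f : MvPolynomial (Vr n) k) (g : GL (Fin n) k) : ∃ f' : MvPolynomial (Vr n) k, ∀ h, rg f' h = rg f (h * g) := by
  refine ⟨MvPolynomial.bind₁ (Sum.elim
    (fun ij => ∑ l, MvPolynomial.X (Sum.inl (ij.1, l)) * MvPolynomial.C ((g : Matrix (Fin n) (Fin n) k) l ij.2))
    (fun ij => ∑ l, MvPolynomial.C (((g⁻¹ : GL (Fin n) k) : Matrix (Fin n) (Fin n) k) ij.1 l) * MvPolynomial.X (Sum.inr (l, ij.2)))) f,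
    fun h => gd1_bind f _ h (h * g) ?_⟩
  rintro (ij | ij)
  · simp [gd1_pt, Matrix.mul_apply]
  · simp [gd1_pt, Matrix.mul_apply]

theorem gd1_inv (f : MvPolynomial (Vr n) k) : ∃ f' : MvPolynomial (Vr n) k, ∀ h, rg f' h = rg f h⁻¹ := by
  refine ⟨MvPolynomial.rename Sum.swap f, fun h => ?_⟩
  rw [gd1_rg, gd1_rg, MvPolynomial.eval_rename]
  have h1 : gd1_pt h ∘ Sum.swap = gd1_pt h⁻¹ := by
    funext x
    rcases x with x | x
    · rfl
    · simp [gd1_pt]
  rw [h1]

/-- (S) GD1b. A is contained in its closure; the closure is monotone. -/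
theorem gd1_sub (A : Set (GL (Fin n) k)) : A ⊆ Zar A := fun g hg f hf => hf g hg

/-- (S/M) GD1. The closure of a subgroup is closed under products and inverses.
Proof. For g in A the function h -> f(g h) vanishes on A if f does, so f(g h) = 0 for h in Zar A. So for h in Zar A the function g -> f(g h) vanishes on A, hence on Zar A. Inverse: f(h^-1) vanishes on A. -/
theorem gd1_mul (A : Subgroup (GL (Fin n) k)) (g h : GL (Fin n) k) (hg : g ∈ Zar (A : Set (GL (Fin n) k))) (hh : h ∈ Zar (A : Set (GL (Fin n) k))) :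
    g * h ∈ Zar (A : Set (GL (Fin n) k)) := by
  intro f hf
  have h1 : ∀ a ∈ (A : Set (GL (Fin n) k)), rg f (a * h) = 0 := by
    intro a ha
    obtain ⟨f', hf'⟩ := gd1_left f a
    rw [← hf' h]
    refine hh f' fun b hb => ?_
    rw [hf' b]
    exact hf _ (A.mul_mem ha hb)
  obtain ⟨f', hf'⟩ := gd1_right f h
  rw [← hf' g]
  refine hg f' fun b hb => ?_
  rw [hf' b]
  exact h1 b hb

theorem gd1_invmem (A : Subgroup (GL (Fin n) k)) (g : GL (Fin n) k) (hg : g ∈ Zar (A : Set (GL (Fin n) k))) : g⁻¹ ∈ Zar (A : Set (GL (Fin n) k)) := by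
  intro f hf
  obtain ⟨f', hf'⟩ := gd1_inv f
  rw [← hf' g]
  refine hg f' fun b hb => ?_
  rw [hf' b]
  exact hf _ (A.inv_mem hb)

end H25G
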