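import Pool.Agent.Lib.H25G.GD1

/-! # H25G, chunk GD2: linear conditions on tT pass to the Zariski closure -/

set_option autoImplicit false

open Matrix

namespace H25G

variable {k : Type*} [Field k] {n : ℕ}

/-- Regular functions. -/
def gd2_reg (F : GL (Fin n) k → k) : Prop := ∃ f : MvPolynomial (Vr n) k, ∀ g : GL (Fin n) k, rg f g = F g

theorem gd2_reg_const (c : k) : gd2_reg (n := n) (fun _ => c) :=
  ⟨MvPolynomial.C c, fun g => by unfold rg; rw [MvPolynomial.eval_C]⟩

theorem gd2_reg_add {F G : GL (Fin n) k → k} (hF : gd2_reg F) (hG : gd2_reg G) : gd2_reg (fun g => F g + G g) := by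
  obtain ⟨f, hf⟩ := hF
  obtain ⟨f', hf'⟩ := hG
  refine ⟨f + f', fun g => ?_⟩
  show rg (f + f') g = F g + G g
  rw [← hf, ← hf']
  unfold rg
  rw [map_add]

theorem gd2_reg_mul {F G : GL (Fin n) k → k} (hF : gd2_reg F) (hG : gd2_reg G) : gd2_reg (fun g => F g * G g) := by
  obtain ⟨f, hf⟩ := hF
  obtain ⟨f', hf'⟩ := hG
  refine ⟨f * f', fun g => ?_⟩
  show rg (f * f') g = F g * G g
  rw [← hf, ← hf']
  unfold rg
  rw [map_mul]

theorem gd2_reg_sub {F G : GL (Fin n) k → k} (hF : gd2_reg F) (hG : gd2_reg G) : gd2_reg (fun g => F g - G g) := by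
  obtain ⟨f, hf⟩ := hF
  obtain ⟨f', hf'⟩ := hG
  refine ⟨f - f', fun g => ?_⟩
  show rg (f - f') g = F g - G g
  rw [← hf, ← hf']
  unfold rg
  rw [map_sub]

theorem gd2_reg_sum {ι : Type*} (s : Finset ι) (F : ι → GL (Fin n) k → k) (hF : ∀ i ∈ s, gd2_reg (F i)) :
    gd2_reg (fun g => ∑ i ∈ s, F i g) := by
  classical
  induction s using Finset.induction_on with
  | empty => simpa using gd2_reg_const (n := n) (0 : k)
  | insert a s ha ih =>
    simp only [Finset.sum_insert ha]
    exact gd2_reg_add (hF a (Finset.mem_insert_self a s)) (ih fun i hi => hF i (Finset.mem_insert_of_mem hi))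

theorem gd2_reg_prod {ι : Type*} (s : Finset ι) (F : ι → GL (Fin n) k → k) (hF : ∀ i ∈ s, gd2_reg (F i)) :
    gd2_reg (fun g => ∏ i ∈ s, F i g) := by
  classical
  induction s using Finset.induction_on with
  | empty => simpa using gd2_reg_const (n := n) (1 : k)
  | insert a s ha ih =>
    simp only [Finset.prod_insert ha]
    exact gd2_reg_mul (hF a (Finset.mem_insert_self a s)) (ih fun i hi => hF i (Finset.mem_insert_of_mem hi))

theorem gd2_reg_mM (i j : Jx n) : gd2_reg (k := k) (fun g : GL (Fin n) k => mM g i j) := by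
  rcases i with i | i | i <;> rcases j with j | j | j
  · have h : (fun g : GL (Fin n) k => mM g (Sum.inl i) (Sum.inl j)) = fun _ => 1 := by
      funext g
      unfold mM
      rw [Matrix.fromBlocks_apply₁₁, Subsingleton.elim i j, Matrix.one_apply_eq]
    rw [h]
    exact gd2_reg_const 1
  · have h : (fun g : GL (Fin n) k => mM g (Sum.inl i) (Sum.inr (Sum.inl j))) = fun _ => 0 := by
      funext g
      unfold mM
      rw [Matrix.fromBlocks_apply₁₂, Matrix.zero_apply]
    rw [h]
    exact gd2_reg_const 0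
  · have h : (fun g : GL (Fin n) k => mM g (Sum.inl i) (Sum.inr (Sum.inr j))) = fun _ => 0 := by
      funext g
      unfold mM
      rw [Matrix.fromBlocks_apply₁₂, Matrix.zero_apply]
    rw [h]
    exact gd2_reg_const 0
  · have h : (fun g : GL (Fin n) k => mM g (Sum.inr (Sum.inl i)) (Sum.inl j)) = fun _ => 0 := by
      funext g
      unfold mM
      rw [Matrix.fromBlocks_apply₂₁, Matrix.zero_apply]
    rw [h]
    exact gd2_reg_const 0
  · refine ⟨MvPolynomial.X (Sum.inl (i, j)), fun g => ?_⟩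
    show rg _ g = mM g (Sum.inr (Sum.inl i)) (Sum.inr (Sum.inl j))
    unfold rg mM
    rw [MvPolynomial.eval_X, Matrix.fromBlocks_apply₂₂, Matrix.fromBlocks_apply₁₁]
    rfl
  · have h : (fun g : GL (Fin n) k => mM g (Sum.inr (Sum.inl i)) (Sum.inr (Sum.inr j))) = fun _ => 0 := by
      funext g
      unfold mM
      rw [Matrix.fromBlocks_apply₂₂, Matrix.fromBlocks_apply₁₂, Matrix.zero_apply]
    rw [h]
    exact gd2_reg_const 0
  · have h : (fun g : GL (Fin n) k => mM g (Sum.inr (Sum.inr i)) (Sum.inl j)) = fun _ => 0 := by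
      funext g
      unfold mM
      rw [Matrix.fromBlocks_apply₂₁, Matrix.zero_apply]
    rw [h]
    exact gd2_reg_const 0
  · have h : (fun g : GL (Fin n) k => mM g (Sum.inr (Sum.inr i)) (Sum.inr (Sum.inl j))) = fun _ => 0 := by
      funext g
      unfold mM
      rw [Matrix.fromBlocks_apply₂₂, Matrix.fromBlocks_apply₂₁, Matrix.zero_apply]
    rw [h]
    exact gd2_reg_const 0
  · refine ⟨MvPolynomial.X (Sum.inr (j, i)), fun g => ?_⟩
    show rg _ g = mM g (Sum.inr (Sum.inr i)) (Sum.inr (Sum.inr j))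
    unfold rg mM
    rw [MvPolynomial.eval_X, Matrix.fromBlocks_apply₂₂, Matrix.fromBlocks_apply₂₂, Matrix.transpose_apply]
    rfl

theorem gd2_reg_tT (a : ℕ) (I J : Fin a → Jx n) : gd2_reg (k := k) (fun g : GL (Fin n) k => tT a g I J) :=
  gd2_reg_prod Finset.univ (fun t g => mM g (I t) (J t)) fun t _ => gd2_reg_mM (I t) (J t)

theorem gd2_reg_zero {F : GL (Fin n) k → k} (hF : gd2_reg F) {A : Set (GL (Fin n) k)} (hA : ∀ g ∈ A, F g = 0)
    {g : GL (Fin n) k} (hg : g ∈ Zar A) : F g = 0 := by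
  obtain ⟨f, hf⟩ := hF
  rw [← hf]
  exact hg f fun g' hg' => by rw [hf]; exact hA g' hg'

/-- (S/M) GD2a. The entries of tT a are regular functions. -/
theorem gd2_entry (a : ℕ) (I J : Fin a → Jx n) : ∃ f : MvPolynomial (Vr n) k, ∀ g : GL (Fin n) k, rg f g = tT a g I J := gd2_reg_tT a I J

/-- (S/M) GD2b. X tT a (g) Y = Z on A implies the same on Zar A (each entry of X tT a (g) Y - Z is a linear combination of regular functions and constants). -/
theorem gd2_lin (a : ℕ) (A : Set (GL (Fin n) k)) (X Y Z : Matrix (Fin a → Jx n) (Fin a → Jx n) k) (h : ∀ g ∈ A, X * tT a g * Y = Z)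
    (g : GL (Fin n) k) (hg : g ∈ Zar A) : X * tT a g * Y = Z := by
  ext I J
  have hreg : gd2_reg (fun g : GL (Fin n) k => (X * tT a g * Y) I J - Z I J) := by
    refine gd2_reg_sub ?_ (gd2_reg_const _)
    simp only [Matrix.mul_apply]
    refine gd2_reg_sum _ _ fun K _ => gd2_reg_mul (gd2_reg_sum _ _ fun L _ => ?_) (gd2_reg_const _)
    exact gd2_reg_mul (gd2_reg_const _) (gd2_reg_tT a L K)
  have h2 := gd2_reg_zero hreg (A := A) (fun g' hg' => by rw [h g' hg', sub_self]) hg
  exact sub_eq_zero.1 h2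

/-- (S/M) GD2c. B commutes with tT a (A) implies that it commutes with tT a (Zar A) (same proof: entries of tT a g B - B tT a g). -/
theorem gd2_comm (a : ℕ) (A : Set (GL (Fin n) k)) (B : Matrix (Fin a → Jx n) (Fin a → Jx n) k) (h : ∀ g ∈ A, tT a g * B = B * tT a g)
    (g : GL (Fin n) k) (hg : g ∈ Zar A) : tT a g * B = B * tT a g := by
  ext I J
  have hreg : gd2_reg (fun g : GL (Fin n) k => (tT a g * B) I J - (B * tT a g) I J) := by
    simp only [Matrix.mul_apply]
    refine gd2_reg_sub (gd2_reg_sum _ _ fun K _ => gd2_reg_mul (gd2_reg_tT a I K) (gd2_reg_const _))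
      (gd2_reg_sum _ _ fun K _ => gd2_reg_mul (gd2_reg_const _) (gd2_reg_tT a K J))
  have h2 := gd2_reg_zero hreg (A := A) (fun g' hg' => by rw [h g' hg', sub_self]) hg
  exact sub_eq_zero.1 h2

/-- (S/M) GD2e. A subspace stable under tT a (A) is stable under tT a (Zar A) (linear forms vanishing on W; Submodule.exists_le_ker / dual annihilator). -/
theorem gd2_stab (a : ℕ) (A : Set (GL (Fin n) k)) (W : Submodule k ((Fin a → Jx n) → k)) (h : ∀ g ∈ A, ∀ w ∈ W, (tT a g).mulVec w ∈ W)
    (g : GL (Fin n) k) (hg : g ∈ Zar A) : ∀ w ∈ W, (tT a g).mulVec w ∈ W := by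
  classical
  intro w hw
  by_contra hcon
  obtain ⟨φ, hφ, hφW⟩ := Submodule.exists_le_ker_of_notMem hcon
  apply hφ
  have hφ1 : ∀ v : (Fin a → Jx n) → k, φ v = ∑ I, v I * φ (Pi.single I 1) := by
    intro v
    conv_lhs => rw [← Finset.univ_sum_single v]
    rw [map_sum]
    refine Finset.sum_congr rfl fun I _ => ?_
    have h3 : (Pi.single I (v I) : (Fin a → Jx n) → k) = v I • Pi.single I (1 : k) := by
      rw [← Pi.single_smul', smul_eq_mul, mul_one]
    rw [h3, map_smul, smul_eq_mul]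
  have hreg : gd2_reg (fun g : GL (Fin n) k => φ ((tT a g).mulVec w)) := by
    have h4 : (fun g : GL (Fin n) k => φ ((tT a g).mulVec w)) = fun g => ∑ I, (∑ J, tT a g I J * w J) * φ (Pi.single I 1) := by
      funext g
      rw [hφ1]
      rfl
    rw [h4]
    exact gd2_reg_sum _ _ fun I _ => gd2_reg_mul (gd2_reg_sum _ _ fun J _ => gd2_reg_mul (gd2_reg_tT a I J) (gd2_reg_const _)) (gd2_reg_const _)
  exact gd2_reg_zero hreg (A := A) (fun g' hg' => hφW (h g' hg' w hw)) hg

end H25G
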