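import Pool.Agent.Lib.H25G.GD2

/-! # H25G, chunk GD2D: commutators -/

set_option autoImplicit false

open Matrix

namespace H25G

variable {k : Type*} [Field k] {n : ℕ}

/-- A matrix valued function whose entries are regular functions. -/
def gd2d_reg {ι : Type*} (F : GL (Fin n) k → Matrix ι ι k) : Prop :=
  ∀ i j, ∃ f : MvPolynomial (Vr n) k, ∀ g, rg f g = F g i j

theorem gd2d_const {ι : Type*} (M : Matrix ι ι k) : gd2d_reg (n := n) fun _ => M := fun i j =>
  ⟨MvPolynomial.C (M i j), fun g => by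
    unfold rg
    rw [MvPolynomial.eval_C]⟩

theorem gd2d_mul {ι : Type*} [Fintype ι] {F G : GL (Fin n) k → Matrix ι ι k} (hF : gd2d_reg F) (hG : gd2d_reg G) :
    gd2d_reg fun g => F g * G g := by
  intro i j
  choose f hf using hF
  choose f' hf' using hG
  refine ⟨∑ l, f i l * f' l j, fun g => ?_⟩
  have h1 : rg (∑ l, f i l * f' l j) g = ∑ l, rg (f i l) g * rg (f' l j) g := by
    unfold rg
    rw [map_sum]
    exact Finset.sum_congr rfl fun l _ => map_mul _ _ _
  rw [h1]
  show _ = (F g * G g) i j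
  rw [Matrix.mul_apply]
  exact Finset.sum_congr rfl fun l _ => by rw [hf, hf']

theorem gd2d_tT (a : ℕ) : gd2d_reg fun g : GL (Fin n) k => tT a g := fun I J => gd2_entry a I J

theorem gd2d_tTi (a : ℕ) : gd2d_reg fun g : GL (Fin n) k => tT a g⁻¹ := fun I J => by
  obtain ⟨f, hf⟩ := gd2_entry (k := k) (n := n) a I J
  obtain ⟨f', hf'⟩ := gd1_inv f
  exact ⟨f', fun g => by rw [hf' g, hf g⁻¹]⟩

theorem gd2d_ext {ι : Type*} {F : GL (Fin n) k → Matrix ι ι k} (hF : gd2d_reg F) {A : Set (GL (Fin n) k)} {B : Matrix ι ι k}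
    (h : ∀ x ∈ A, F x = B) {x : GL (Fin n) k} (hx : x ∈ Zar A) : F x = B := by
  ext i j
  obtain ⟨f, hf⟩ := hF i j
  have h1 : ∀ g, rg (f - MvPolynomial.C (B i j)) g = F g i j - B i j := fun g => by
    rw [← hf g]
    unfold rg
    rw [map_sub, MvPolynomial.eval_C]
  have h2 := hx (f - MvPolynomial.C (B i j)) fun g hg => by rw [h1, h g hg, sub_self]
  rw [h1, sub_eq_zero] at h2
  exact h2

/-- (M) GD2d. tT a of the commutators of elements of A fixes B: the same for the commutators of elements of Zar A.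
Proof. The condition tT(x y x^-1 y^-1) B = B is equivalent to tT(x) tT(y) tT(x^-1) tT(y^-1) B = B; for fixed y in A each entry is a polynomial in the entries of tT a x and tT a x^-1, regular functions of x by gd2_entry and gd1_inv (products and sums
of regular functions are regular), so it holds for x in Zar A, y in A; then fix x in Zar A and vary y. -/
theorem gd2_cmt (a : ℕ) (A : Set (GL (Fin n) k)) (B : Matrix (Fin a → Jx n) (Fin a → Jx n) k) (h : ∀ x ∈ A, ∀ y ∈ A, tT a (x * y * x⁻¹ * y⁻¹) * B = B)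
    (x y : GL (Fin n) k) (hx : x ∈ Zar A) (hy : y ∈ Zar A) : tT a (x * y * x⁻¹ * y⁻¹) * B = B := by
  simp only [map_mul] at h ⊢
  have h1 : ∀ x ∈ Zar A, ∀ y ∈ A, tT a x * tT a y * tT a x⁻¹ * tT a y⁻¹ * B = B := fun x hx y hy =>
    gd2d_ext (F := fun x => tT a x * tT a y * tT a x⁻¹ * tT a y⁻¹ * B)
      (gd2d_mul (gd2d_mul (gd2d_mul (gd2d_mul (gd2d_tT a) (gd2d_const _)) (gd2d_tTi a)) (gd2d_const _)) (gd2d_const _))
      (fun x hx => h x hx y hy) hx
  exact gd2d_ext (F := fun y => tT a x * tT a y * tT a x⁻¹ * tT a y⁻¹ * B)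
      (gd2d_mul (gd2d_mul (gd2d_mul (gd2d_mul (gd2d_const _) (gd2d_tT a)) (gd2d_const _)) (gd2d_tTi a)) (gd2d_const _))
      (fun y hy => h1 x hx y hy) hy

end H25G
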