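import Pool.Agent.Lib.H25G.GD1

/-! # H25G, chunk GD3: subgroups of finite index and Zariski closures -/

set_option autoImplicit false

open Matrix

namespace H25G

variable {k : Type*} [Field k] {n : ℕ}

/-- the closure of K is covered by finitely many translates of the closure of K1 -/
theorem gd3_cover (K : Subgroup (GL (Fin n) k)) (K1 : Subgroup K) [K1.FiniteIndex] (h : GL (Fin n) k)
    (hh : h ∈ Zar (K : Set (GL (Fin n) k))) :
    ∃ q : K ⧸ K1, ((q.out : K) : GL (Fin n) k)⁻¹ * h ∈ Zar ((K1.map K.subtype : Subgroup (GL (Fin n) k)) : Set (GL (Fin n) k)) := by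
  classical
  by_contra hcon
  rw [not_exists] at hcon
  have hf : ∀ q : K ⧸ K1, ∃ f : MvPolynomial (Vr n) k,
      (∀ g ∈ ((K1.map K.subtype : Subgroup (GL (Fin n) k)) : Set (GL (Fin n) k)), rg f g = 0) ∧
      rg f (((q.out : K) : GL (Fin n) k)⁻¹ * h) ≠ 0 := by
    intro q
    have h1 := hcon q
    unfold Zar at h1
    rw [Set.mem_ofPred_eq, not_forall] at h1
    obtain ⟨f, hf⟩ := h1
    rw [Classical.not_imp] at hf
    exact ⟨f, hf.1, hf.2⟩
  choose f hf0 hf1 using hf
  have hg : ∀ q : K ⧸ K1, ∃ f' : MvPolynomial (Vr n) k, ∀ g, rg f' g = rg (f q) (((q.out : K) : GL (Fin n) k)⁻¹ * g) :=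
    fun q => gd1_left (f q) (((q.out : K) : GL (Fin n) k)⁻¹)
  choose f' hf' using hg
  have : Finite (K ⧸ K1) := Subgroup.finite_quotient_of_finiteIndex
  let _ : Fintype (K ⧸ K1) := Fintype.ofFinite _
  have hprod : ∀ g : GL (Fin n) k, rg (∏ q : K ⧸ K1, f' q) g = ∏ q : K ⧸ K1, rg (f' q) g := by
    intro g
    unfold rg
    rw [map_prod]
  have hz : rg (∏ q : K ⧸ K1, f' q) h = 0 := by
    refine hh _ ?_
    intro g hgK
    rw [hprod]
    refine Finset.prod_eq_zero (Finset.mem_univ (QuotientGroup.mk (⟨g, hgK⟩ : K))) ?_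
    rw [hf']
    refine hf0 _ _ ?_
    set q : K ⧸ K1 := QuotientGroup.mk (⟨g, hgK⟩ : K) with hq
    have h2 : (q.out : K)⁻¹ * ⟨g, hgK⟩ ∈ K1 := by
      rw [← QuotientGroup.eq, QuotientGroup.out_eq']
    refine ⟨_, h2, ?_⟩
    rfl
  rw [hprod] at hz
  obtain ⟨q, -, hq⟩ := Finset.prod_eq_zero_iff.1 hz
  rw [hf'] at hq
  exact hf1 q hq

/-- (M) GD3. K a subgroup of GL_n, K1 a subgroup of K of finite index, θ : Γ -> GL_n with values in Zar K. Then {x in Γ : θ x in Zar K1} is a subgroup of finite index of Γ.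
Proof. Subgroup by gd1_mul, gd1_invmem, gd1_sub for the subgroup K1.map K.subtype. K is the union of k_i K1, i in a finite set. Claim: Zar K is contained in the union of the k_i Zar K1: if h is in Zar K and k_i^-1 h is not in Zar K1
for all i, choose f_i vanishing on K1 with f_i(k_i^-1 h) not 0; by gd1_left the functions g -> f_i(k_i^-1 g) are regular, their product vanishes on K and not at h. For x in Γ choose i(x) with k_i^-1 θ x in Zar K1;
i(x) = i(y) implies θ(x^-1 y) in Zar K1; so the index is at most the number of the k_i (an injection from Γ/U to the finite index set). -/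
theorem gd3 {Γ : Type*} [Group Γ] (K : Subgroup (GL (Fin n) k)) (K1 : Subgroup K) [K1.FiniteIndex] (θ : Γ →* GL (Fin n) k)
    (hθ : ∀ x, θ x ∈ Zar (K : Set (GL (Fin n) k))) :
    ∃ U : Subgroup Γ, U.FiniteIndex ∧ ∀ x, x ∈ U ↔ θ x ∈ Zar ((K1.map K.subtype : Subgroup (GL (Fin n) k)) : Set (GL (Fin n) k)) := by
  classical
  let U : Subgroup Γ :=
    { carrier := {x | θ x ∈ Zar ((K1.map K.subtype : Subgroup (GL (Fin n) k)) : Set (GL (Fin n) k))}
      mul_mem' := by
        intro x y hx hy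
        show θ (x * y) ∈ Zar ((K1.map K.subtype : Subgroup (GL (Fin n) k)) : Set (GL (Fin n) k))
        rw [map_mul]
        exact gd1_mul _ _ _ hx hy
      one_mem' := by
        show θ 1 ∈ Zar ((K1.map K.subtype : Subgroup (GL (Fin n) k)) : Set (GL (Fin n) k))
        rw [map_one]
        exact gd1_sub _ (Subgroup.one_mem _)
      inv_mem' := by
        intro x hx
        show θ x⁻¹ ∈ Zar ((K1.map K.subtype : Subgroup (GL (Fin n) k)) : Set (GL (Fin n) k))
        rw [map_inv]
        exact gd1_invmem _ _ hx }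
  have hU : ∀ x, x ∈ U ↔ θ x ∈ Zar ((K1.map K.subtype : Subgroup (GL (Fin n) k)) : Set (GL (Fin n) k)) := fun x => Iff.rfl
  have hc : ∀ x : Γ, ∃ q : K ⧸ K1, ((q.out : K) : GL (Fin n) k)⁻¹ * θ x ∈
      Zar ((K1.map K.subtype : Subgroup (GL (Fin n) k)) : Set (GL (Fin n) k)) := fun x => gd3_cover K K1 (θ x) (hθ x)
  choose i hi using hc
  have hii : ∀ x y, i x = i y → x⁻¹ * y ∈ U := by
    intro x y hxy
    rw [hU, map_mul, map_inv]
    have h1 := gd1_invmem _ _ (hi x)
    have h2 := hi y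
    rw [← hxy] at h2
    have h3 := gd1_mul _ _ _ h1 h2
    have e : (((((i x).out : K) : GL (Fin n) k)⁻¹ * θ x)⁻¹ * ((((i x).out : K) : GL (Fin n) k)⁻¹ * θ y)) = (θ x)⁻¹ * θ y := by
      group
    rw [e] at h3
    exact h3
  refine ⟨U, ?_, hU⟩
  have : Finite (K ⧸ K1) := Subgroup.finite_quotient_of_finiteIndex
  have hfin : Finite (Γ ⧸ U) := by
    refine Finite.of_injective (fun a : Γ ⧸ U => i a.out) ?_
    intro a b hab
    have h1 := hii _ _ hab
    rw [← QuotientGroup.eq, QuotientGroup.out_eq', QuotientGroup.out_eq'] at h1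
    exact h1
  exact Subgroup.finiteIndex_of_finite_quotient

end H25G
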