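import Pool.Agent.Lib.H25G.Defs

/-! # H25G, chunk GD4: descent of linear equations -/

set_option autoImplicit false

open Matrix

namespace H25G

/-- (M) GD4. F -> C an embedding of fields, S a set of linear forms in J variables with coefficients in F. Every solution over C of the linear system S is a linear combination of solutions over F.
Proof. C is an F-vector space through i; choose a basis e_b (Module.Basis.ofVectorSpace with the algebra structure i.toAlgebra). x_j = sum_b i(y_(j,b)) e_b, finitely many b occur (J finite). The equation sum_j i(a_j) x_j = 0 says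
sum_j a_j y_(j,b) = 0 for every b. So x = sum_b e_b i(y_b). Index the finitely many b by Fin r. -/
theorem gd4 {F C : Type*} [Field F] [Field C] (i : F →+* C) {J : Type*} [Fintype J] (S : Set (J → F)) (x : J → C) (hx : ∀ a ∈ S, ∑ j, i (a j) * x j = 0) :
    ∃ (r : ℕ) (c : Fin r → C) (y : Fin r → J → F), (∀ t, ∀ a ∈ S, ∑ j, a j * y t j = 0) ∧ ∀ j, x j = ∑ t, c t * i (y t j) := by
  classical
  let _ : Algebra F C := i.toAlgebra
  let b := Module.Basis.ofVectorSpace F C
  let s : Finset (Module.Basis.ofVectorSpaceIndex F C) := Finset.univ.biUnion fun j => (b.repr (x j)).support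
  refine ⟨s.card, fun t => b (s.equivFin.symm t), fun t j => b.repr (x j) (s.equivFin.symm t), ?_, ?_⟩
  · intro t a ha
    have h1 := congrArg (fun z => b.repr z (s.equivFin.symm t)) (hx a ha)
    have h2 : ∀ j, i (a j) * x j = a j • x j := fun j => (Algebra.smul_def (a j) (x j)).symm
    simp only [h2, map_sum, map_smul, map_zero, Finsupp.coe_zero, Pi.zero_apply, Finsupp.coe_finset_sum, Finset.sum_apply,
      Finsupp.coe_smul, Pi.smul_apply, smul_eq_mul] at h1
    exact h1
  · intro j
    have h1 : x j = ∑ u ∈ s, b u * i (b.repr (x j) u) := by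
      have h2 := b.linearCombination_repr (x j)
      rw [Finsupp.linearCombination_apply] at h2
      have h3 : (b.repr (x j)).support ⊆ s := fun u hu => Finset.mem_biUnion.2 ⟨j, Finset.mem_univ j, hu⟩
      rw [Finsupp.sum_of_support_subset _ h3 _ (fun u _ => zero_smul F (b u))] at h2
      conv_lhs => rw [← h2]
      refine Finset.sum_congr rfl fun u _ => ?_
      rw [Algebra.smul_def, mul_comm]
      rfl
    rw [h1, ← Finset.sum_coe_sort s]
    exact (Equiv.sum_comp s.equivFin.symm (fun u : s => b u * i (b.repr (x j) u))).symm

end H25G
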