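import Pool.Agent.Lib.H25G.GD4

/-! # H25G, chunk GD5: descent of the matrix B -/

set_option autoImplicit false

open Matrix

namespace H25G

variable {n : ℕ}

/-- Coefficients of the linear form X ↦ (A₁ X - X A₂)_{I,K}. -/
private def cf {F J : Type*} [Field F] [DecidableEq J] (A₁ A₂ : Matrix J J F) (I K : J) (p : J × J) : F :=
  (if p.2 = K then A₁ I p.1 else 0) - (if p.1 = I then A₂ p.2 K else 0)

private theorem cf_sum {F C J : Type*} [Field F] [Field C] [Fintype J] [DecidableEq J] (i : F →+* C) (A₁ A₂ : Matrix J J F) (X : Matrix J J C) (I K : J) :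
    ∑ p : J × J, i (cf A₁ A₂ I K p) * X p.1 p.2 = (A₁.map i * X) I K - (X * A₂.map i) I K := by
  rw [Fintype.sum_prod_type]
  unfold cf
  simp only [map_sub, sub_mul, Finset.sum_sub_distrib, apply_ite i, map_zero, ite_mul, zero_mul, Matrix.mul_apply, Matrix.map_apply]
  congr 1
  · refine Finset.sum_congr rfl fun p _ => ?_
    simp
  · rw [Finset.sum_comm]
    refine Finset.sum_congr rfl fun p _ => ?_
    simp [mul_comm]

private theorem descM {F C J : Type*} [Field F] [Field C] [Fintype J] [DecidableEq J] (i : F →+* C) (T : Set (Matrix J J F × Matrix J J F)) (B : Matrix J J C)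
    (hT : ∀ A ∈ T, A.1.map i * B = B * A.2.map i) :
    ∃ (r : ℕ) (c : Fin r → C) (b : Fin r → Matrix J J F), (∀ t, ∀ A ∈ T, A.1 * b t = b t * A.2) ∧ B = ∑ t, c t • (b t).map i := by
  obtain ⟨r, c, y, hy, hB⟩ := gd4 i (J := J × J) {a | ∃ A ∈ T, ∃ I K, a = cf A.1 A.2 I K} (fun p => B p.1 p.2) (by
    rintro a ⟨A, hA, I, K, rfl⟩
    rw [cf_sum, hT A hA, sub_self])
  refine ⟨r, c, fun t => Matrix.of fun I K => y t (I, K), ?_, ?_⟩
  · intro t A hA
    ext I K
    have h := hy t _ ⟨A, hA, I, K, rfl⟩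
    have h2 := cf_sum (RingHom.id F) A.1 A.2 (Matrix.of fun I K => y t (I, K)) I K
    simp only [RingHom.id_apply, Matrix.of_apply, Prod.mk.eta] at h2
    rw [h] at h2
    have e : ∀ A : Matrix J J F, A.map (fun a => a) = A := fun A => by ext; rfl
    have h3 := sub_eq_zero.mp h2.symm
    simpa [e] using h3
  · ext I K
    rw [hB (I, K), Matrix.sum_apply]
    rfl

/-- (M) GD5. Γ a group, ρ : Γ -> GL_n(F), i : F -> C, U a subgroup, B a complex matrix commuting with the tT a (i ρ x) and fixed on the left by tT a (i ρ c) for the commutators c of elements of U. Then B is a combination of matrices i(b_t) with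
the same properties over F. Proof: gd4 with J = pairs of indices: all conditions are homogeneous linear equations for the entries of B with coefficients in i(F) (tT_map). -/
theorem gd5 {F C Γ : Type*} [Field F] [Field C] [Group Γ] (i : F →+* C) (ρ : Γ →* GL (Fin n) F) (U : Subgroup Γ) (a : ℕ) (B : Matrix (Fin a → Jx n) (Fin a → Jx n) C)
    (h1 : ∀ x, (tT a (ρ x)).map i * B = B * (tT a (ρ x)).map i)
    (h2 : ∀ x ∈ U, ∀ y ∈ U, (tT a (ρ (x * y * x⁻¹ * y⁻¹))).map i * B = B) :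
    ∃ (r : ℕ) (c : Fin r → C) (b : Fin r → Matrix (Fin a → Jx n) (Fin a → Jx n) F), (∀ t x, tT a (ρ x) * b t = b t * tT a (ρ x)) ∧
      (∀ t, ∀ x ∈ U, ∀ y ∈ U, tT a (ρ (x * y * x⁻¹ * y⁻¹)) * b t = b t) ∧ B = ∑ t, c t • (b t).map i := by
  obtain ⟨r, c, b, hb, hB⟩ := descM i ({A | ∃ x, A = (tT a (ρ x), tT a (ρ x))} ∪ {A | ∃ x ∈ U, ∃ y ∈ U, A = (tT a (ρ (x * y * x⁻¹ * y⁻¹)), 1)}) B (by
    rintro A (⟨x, rfl⟩ | ⟨x, hx, y, hy, rfl⟩)
    · exact h1 x
    · simp only
      rw [h2 x hx y hy, Matrix.map_one _ (map_zero i) (map_one i), mul_one])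
  refine ⟨r, c, b, fun t x => hb t _ (Or.inl ⟨x, rfl⟩), fun t x hx y hy => ?_, hB⟩
  have h := hb t _ (Or.inr ⟨x, hx, y, hy, rfl⟩)
  simpa using h

end H25G
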