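import Pool.Agent.Lib.H25G.Defs

/-! # H25G, chunk GE1: from finite index to open -/

set_option autoImplicit false

open Matrix

namespace H25G

variable {l : ℕ} [Fact l.Prime] {n : ℕ}

theorem ge1_cont_mM : Continuous fun g : GL (Fin n) ℚ_[l] => mM g := by
  unfold mM
  refine Continuous.matrix_fromBlocks continuous_const continuous_const continuous_const ?_
  refine Continuous.matrix_fromBlocks Units.continuous_val continuous_const continuous_const ?_
  exact Continuous.matrix_transpose (Units.continuous_val.comp continuous_inv)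

theorem ge1_cont_tT (a : ℕ) : Continuous fun g : GL (Fin n) ℚ_[l] => tT a g := by
  refine continuous_matrix fun I J => ?_
  simp only [tT_apply]
  refine continuous_finsetProd _ fun t _ => ?_
  exact ge1_cont_mM.matrix_elem _ _

/-- (M) GE1. U of finite index in the Galois group with tT a (ρ c) b_t = b_t for the commutators c of elements of U. Then there is an open normal subgroup V of finite index with the same property.
Proof. V = normal core of the closure of U (Subgroup.topologicalClosure). The closure has finite index and is closed, so it is open (Subgroup.isOpen_of_isClosed_of_finiteIndex); the normal core of an open subgroup of finite index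
is open of finite index (finite intersection of conjugates; Subgroup.normalCore, in a profinite group; or take any open normal subgroup contained in the closure of U: ProfiniteGrp / krullTopology: fixing subgroup of a finite Galois
extension). The condition tT a (ρ (x y x^-1 y^-1)) b = b is closed in (x, y) (ρ continuous, tT a continuous on GL_n(Q_l), Hausdorff), so it passes from U to the closure of U. -/
theorem ge1 {ρ : Gal(Om/ℚ) →* GL (Fin n) ℚ_[l]} (hc : Continuous ρ) (U : Subgroup Gal(Om/ℚ)) [U.FiniteIndex] (a : ℕ) {r : ℕ}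
    (b : Fin r → Matrix (Fin a → Jx n) (Fin a → Jx n) ℚ_[l])
    (h : ∀ t, ∀ x ∈ U, ∀ y ∈ U, tT a (ρ (x * y * x⁻¹ * y⁻¹)) * b t = b t) :
    ∃ V : Subgroup Gal(Om/ℚ), V.Normal ∧ V.FiniteIndex ∧ IsOpen (V : Set Gal(Om/ℚ)) ∧
      ∀ t, ∀ x ∈ V, ∀ y ∈ V, tT a (ρ (x * y * x⁻¹ * y⁻¹)) * b t = b t := by
  have hcont : Continuous fun z : Gal(Om/ℚ) × Gal(Om/ℚ) =>
      tT a (ρ (z.1 * z.2 * z.1⁻¹ * z.2⁻¹)) := by
    have hcomm : Continuous fun z : Gal(Om/ℚ) × Gal(Om/ℚ) => z.1 * z.2 * z.1⁻¹ * z.2⁻¹ := by
      fun_prop
    exact (ge1_cont_tT a).comp (hc.comp hcomm)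
  have hK1 : U ≤ U.topologicalClosure := U.le_topologicalClosure
  have hKfi : U.topologicalClosure.FiniteIndex := Subgroup.finiteIndex_of_le hK1
  have hKcl : IsClosed (U.topologicalClosure : Set Gal(Om/ℚ)) := U.isClosed_topologicalClosure
  have hVcl : IsClosed (U.topologicalClosure.normalCore : Set Gal(Om/ℚ)) := by
    have : (U.topologicalClosure.normalCore : Set Gal(Om/ℚ))
        = ⋂ g : Gal(Om/ℚ), (fun x => g * x * g⁻¹) ⁻¹' (U.topologicalClosure : Set Gal(Om/ℚ)) := by
      ext x
      simp only [Set.mem_iInter, Set.mem_preimage, SetLike.mem_coe]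
      rfl
    rw [this]
    refine isClosed_iInter fun g => hKcl.preimage ?_
    fun_prop
  refine ⟨U.topologicalClosure.normalCore, Subgroup.normalCore_normal _, inferInstance,
    Subgroup.isOpen_of_isClosed_of_finiteIndex _ hVcl, ?_⟩
  have key : ∀ t, ∀ x ∈ U.topologicalClosure, ∀ y ∈ U.topologicalClosure,
      tT a (ρ (x * y * x⁻¹ * y⁻¹)) * b t = b t := by
    intro t
    have step1 : ∀ x ∈ U.topologicalClosure, ∀ y ∈ U, tT a (ρ (x * y * x⁻¹ * y⁻¹)) * b t = b t := by
      intro x hx y hy
      have hcl : IsClosed {x : Gal(Om/ℚ) | tT a (ρ (x * y * x⁻¹ * y⁻¹)) * b t = b t} :=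
        isClosed_eq ((hcont.comp (continuous_id.prodMk continuous_const)).matrix_mul continuous_const)
          continuous_const
      exact hcl.closure_subset_iff.2 (fun x hx => h t x hx y hy) hx
    intro x hx y hy
    have hcl : IsClosed {y : Gal(Om/ℚ) | tT a (ρ (x * y * x⁻¹ * y⁻¹)) * b t = b t} :=
      isClosed_eq ((hcont.comp (continuous_const.prodMk continuous_id)).matrix_mul continuous_const)
        continuous_const
    exact hcl.closure_subset_iff.2 (fun y hy => step1 x hx y hy) hy
  intro t x hx y hy
  exact key t x (Subgroup.normalCore_le _ hx) y (Subgroup.normalCore_le _ hy)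

end H25G
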