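import Pool.Agent.Lib.H25G.GC2
import Pool.Agent.Lib.H25G.GC3
import Pool.Agent.Lib.H25G.GC6
import Pool.Agent.Lib.H25G.GD2

/-! # H25G, chunk GE6: transfer from K to the image of the Galois group -/

set_option autoImplicit false

open Matrix MeasureTheory

namespace H25G

variable {n : ℕ} {Γ : Type*}

/-- (S/M) GE6a. Subspaces stable under the image of θ are images of equivariant projections. Proof: gd2_stab (K is in the closure of the range of θ), gc3 for tT a restricted to K (continuous by gc6_cont, K compact), gd2_comm (θ x is in the closure of K). -/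
theorem ge6_proj (K : Subgroup (GL (Fin n) ℂ)) (hK : IsCompact (K : Set (GL (Fin n) ℂ))) (θ : Γ → GL (Fin n) ℂ)
    (h1 : ∀ k ∈ K, k ∈ Zar (Set.range θ)) (h2 : ∀ x, θ x ∈ Zar (K : Set (GL (Fin n) ℂ))) (a : ℕ)
    (W : Submodule ℂ ((Fin a → Jx n) → ℂ)) (hW : ∀ x, ∀ w ∈ W, (tT a (θ x)).mulVec w ∈ W) :
    ∃ π : Matrix (Fin a → Jx n) (Fin a → Jx n) ℂ, (∀ x, tT a (θ x) * π = π * tT a (θ x)) ∧ (∀ w ∈ W, π.mulVec w = w) ∧ ∀ v, π.mulVec v ∈ W := by
  have : CompactSpace K := isCompact_iff_compactSpace.1 hK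
  have hst : ∀ k ∈ K, ∀ w ∈ W, (tT a k).mulVec w ∈ W := fun k hk =>
    gd2_stab a (Set.range θ) W (by rintro _ ⟨x, rfl⟩; exact hW x) k (h1 k hk)
  obtain ⟨π, hp1, hp2, hp3⟩ := gc3 ((tT a).comp K.subtype) ((gc6_cont a).comp continuous_subtype_val) W
    (fun k w hw => hst k k.2 w hw)
  refine ⟨π, fun x => ?_, hp2, hp3⟩
  exact gd2_comm a (K : Set (GL (Fin n) ℂ)) π (fun g hg => hp1 ⟨g, hg⟩) (θ x) (h2 x)

/-- (S/M) GE6b. The average over K. Proof: gc2_avg for tT a restricted to K, and gd2_lin to pass from K to θ x and from the θ x to K (vectors as matrices with one or with equal columns, for instance Y = replicateCol v). -/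
theorem ge6_avg (K : Subgroup (GL (Fin n) ℂ)) (hK : IsCompact (K : Set (GL (Fin n) ℂ))) [MeasurableSpace K] [BorelSpace K] (μ : Measure K)
    [μ.IsHaarMeasure] [IsProbabilityMeasure μ] (θ : Γ → GL (Fin n) ℂ)
    (h1 : ∀ k ∈ K, k ∈ Zar (Set.range θ)) (h2 : ∀ x, θ x ∈ Zar (K : Set (GL (Fin n) ℂ))) (a : ℕ) :
    ∃ P : Matrix (Fin a → Jx n) (Fin a → Jx n) ℂ, (∀ x, tT a (θ x) * P = P) ∧ (∀ x, P * tT a (θ x) = P) ∧
      (∀ v, (∀ x, (tT a (θ x)).mulVec v = v) → P.mulVec v = v) ∧ (∀ v, (∀ x, vecMul v (tT a (θ x)) = v) → vecMul v P = v) ∧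
      ∀ B : Matrix (Fin a → Jx n) (Fin a → Jx n) ℂ, ∫ k : K, trace (tT a (k : GL (Fin n) ℂ) * B) ∂μ = trace (P * B) := by
  have : CompactSpace K := isCompact_iff_compactSpace.1 hK
  obtain ⟨P, hP1, hP2, hP3, hP4, hP5⟩ := gc2_avg ((tT a).comp K.subtype) ((gc6_cont a).comp continuous_subtype_val) μ
  refine ⟨P, fun x => ?_, fun x => ?_, fun v hv => hP3 v fun k => ?_, fun v hv => hP4 v fun k => ?_, hP5⟩
  · have h3 := gd2_lin a (K : Set (GL (Fin n) ℂ)) 1 P P (fun g hg => by rw [one_mul]; exact hP1 ⟨g, hg⟩) (θ x) (h2 x)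
    rwa [one_mul] at h3
  · have h3 := gd2_lin a (K : Set (GL (Fin n) ℂ)) P 1 P (fun g hg => by rw [mul_one]; exact hP2 ⟨g, hg⟩) (θ x) (h2 x)
    rwa [mul_one] at h3
  · have h3 := gd2_lin a (Set.range θ) 1 (Matrix.of fun i _ => v i) (Matrix.of fun i _ => v i) (by
      rintro _ ⟨x, rfl⟩
      rw [one_mul]
      ext i j
      exact congrFun (hv x) i) k (h1 k k.2)
    rw [one_mul] at h3
    funext i
    exact congrFun (congrFun h3 i) i
  · have h3 := gd2_lin a (Set.range θ) (Matrix.of fun _ j => v j) 1 (Matrix.of fun _ j => v j) (by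
      rintro _ ⟨x, rfl⟩
      rw [mul_one]
      ext i j
      exact congrFun (hv x) j) k (h1 k k.2)
    rw [mul_one] at h3
    funext i
    exact congrFun (congrFun h3 i) i

end H25G
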