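import Pool.Agent.Lib.H25G.GE5

/-! # H25G, chunk GE5C: descent of the invariant projection -/

set_option autoImplicit false

open Matrix

namespace H25G

/-- (M) GE5c. A matrix P over C which is the invariant projection is defined over k.
Proof. P0 = r(P) entrywise. Applying r: A_g P0 = P0, P0 A_g = P0, P0 v = v for invariant v over k, v P0 = v for invariant row vectors over k. Columns of j(P0) are invariant, so P j(P0) = j(P0). The rows of P are invariant row vectors over C
(P A = P), so combinations of j(invariant row vectors over k) (gd4), which are fixed by j(P0) on the right: P j(P0) = P. So P = j(P0). If b commutes with all A_g: the columns of b P0 are invariant, so P0 b P0 = b P0; the rows of P0 b are invariant,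
so P0 b P0 = P0 b. -/
theorem ge5_inv {k C Γ J : Type*} [Field k] [Field C] [Fintype J] [DecidableEq J] (j : k →+* C) (A : Γ → Matrix J J k) (P : Matrix J J C)
    (h1 : ∀ g, (A g).map j * P = P) (h2 : ∀ g, P * (A g).map j = P) (h3 : ∀ v, (∀ g, ((A g).map j).mulVec v = v) → P.mulVec v = v)
    (h4 : ∀ v, (∀ g, vecMul v ((A g).map j) = v) → vecMul v P = v) :
    ∃ P0 : Matrix J J k, P = P0.map j ∧ (∀ g, A g * P0 = P0) ∧ (∀ g, P0 * A g = P0) ∧ (∀ v, (∀ g, (A g).mulVec v = v) → P0.mulVec v = v) ∧
      ∀ b : Matrix J J k, (∀ g, A g * b = b * A g) → P0 * b = b * P0 := by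
  obtain ⟨r, hr1, hr2⟩ := ge5_retr j
  have hr3 : ∀ x z, r (z * j x) = r z * x := fun x z => by rw [mul_comm, hr1, mul_comm]
  set P0 : Matrix J J k := P.map r with hP0
  have s1 : ∀ g, A g * P0 = P0 := by
    intro g
    ext a b
    have e1 := congrArg r (congrFun (congrFun (h1 g) a) b)
    rw [Matrix.mul_apply, map_sum] at e1
    rw [Matrix.mul_apply]
    simp only [Matrix.map_apply, hr1] at e1
    exact e1
  have s2 : ∀ g, P0 * A g = P0 := by
    intro g
    ext a b
    have e1 := congrArg r (congrFun (congrFun (h2 g) a) b)
    rw [Matrix.mul_apply, map_sum] at e1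
    rw [Matrix.mul_apply]
    simp only [Matrix.map_apply, hr3] at e1
    exact e1
  have s3 : ∀ v, (∀ g, (A g).mulVec v = v) → P0.mulVec v = v := by
    intro v hv
    have e1 : P.mulVec (fun a => j (v a)) = fun a => j (v a) := by
      refine h3 _ fun g => ?_
      ext a
      have e2 := congrArg j (congrFun (hv g) a)
      simp only [Matrix.mulVec, dotProduct, map_sum, map_mul] at e2
      simp only [Matrix.mulVec, dotProduct, Matrix.map_apply]
      exact e2
    ext a
    have e3 := congrArg r (congrFun e1 a)
    simp only [Matrix.mulVec, dotProduct, map_sum, hr3, hr2] at e3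
    exact e3
  have s4 : ∀ v, (∀ g, vecMul v (A g) = v) → vecMul v P0 = v := by
    intro v hv
    have e1 : vecMul (fun a => j (v a)) P = fun a => j (v a) := by
      refine h4 _ fun g => ?_
      ext a
      have e2 := congrArg j (congrFun (hv g) a)
      simp only [Matrix.vecMul, dotProduct, map_sum, map_mul] at e2
      simp only [Matrix.vecMul, dotProduct, Matrix.map_apply]
      exact e2
    ext a
    have e3 := congrArg r (congrFun e1 a)
    simp only [Matrix.vecMul, dotProduct, map_sum, hr1, hr2] at e3
    exact e3
  -- column and row versions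
  have c3 : ∀ B : Matrix J J k, (∀ g, A g * B = B) → P0 * B = B := by
    intro B hB
    ext a b
    have e1 := congrFun (s3 (fun c => B c b) (fun g => by
      ext c
      exact congrFun (congrFun (hB g) c) b)) a
    exact e1
  have c4 : ∀ B : Matrix J J k, (∀ g, B * A g = B) → B * P0 = B := by
    intro B hB
    ext a b
    have e1 := congrFun (s4 (fun c => B a c) (fun g => by
      ext c
      exact congrFun (congrFun (hB g) a) c)) b
    exact e1
  have q1 : P * P0.map j = P0.map j := by
    ext a b
    have e1 := congrFun (h3 (fun c => j (P0 c b)) (fun g => by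
      ext c
      have e2 := congrArg j (congrFun (congrFun (s1 g) c) b)
      rw [Matrix.mul_apply, map_sum] at e2
      simp only [map_mul] at e2
      simp only [Matrix.mulVec, dotProduct, Matrix.map_apply]
      exact e2)) a
    exact e1
  have q2 : P * P0.map j = P := by
    ext a b
    set S : Set (J → k) := {q | ∃ (g : Γ) (b : J), q = fun c => A g c b - (1 : Matrix J J k) c b} with hS
    obtain ⟨n, c, y, hy1, hy2⟩ := gd4 j S (fun c => P a c) (by
      rintro q ⟨g, b, rfl⟩
      have e1 := congrFun (congrFun (h2 g) a) b
      rw [Matrix.mul_apply] at e1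
      simp only [Matrix.map_apply] at e1
      have e2 : ∑ x, j ((1 : Matrix J J k) x b) * P a x = P a b := by
        rw [Finset.sum_eq_single b]
        · rw [Matrix.one_apply_eq, map_one, one_mul]
        · intro x _ hx
          rw [Matrix.one_apply_ne hx, map_zero, zero_mul]
        · intro h
          exact absurd (Finset.mem_univ b) h
      simp only [map_sub, sub_mul, Finset.sum_sub_distrib]
      rw [e2, ← e1, sub_eq_zero]
      exact Finset.sum_congr rfl fun x _ => mul_comm _ _)
    have hy3 : ∀ t, vecMul (y t) P0 = y t := by
      intro t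
      refine s4 (y t) fun g => ?_
      ext b
      have e1 := hy1 t _ ⟨g, b, rfl⟩
      have e2 : ∑ x, (1 : Matrix J J k) x b * y t x = y t b := by
        rw [Finset.sum_eq_single b]
        · rw [Matrix.one_apply_eq, one_mul]
        · intro x _ hx
          rw [Matrix.one_apply_ne hx, zero_mul]
        · intro h
          exact absurd (Finset.mem_univ b) h
      simp only [sub_mul, Finset.sum_sub_distrib] at e1
      rw [e2, sub_eq_zero] at e1
      simp only [Matrix.vecMul, dotProduct]
      rw [← e1]
      exact Finset.sum_congr rfl fun x _ => mul_comm _ _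
    rw [Matrix.mul_apply]
    simp only [Matrix.map_apply]
    have e5 : ∀ x, P a x = ∑ t, c t * j (y t x) := hy2
    simp only [e5]
    simp only [Finset.sum_mul]
    rw [Finset.sum_comm]
    refine Finset.sum_congr rfl fun t _ => ?_
    have e6 := congrArg j (congrFun (hy3 t) b)
    simp only [Matrix.vecMul, dotProduct, map_sum, map_mul] at e6
    rw [← e6, Finset.mul_sum]
    exact Finset.sum_congr rfl fun x _ => mul_assoc _ _ _
  refine ⟨P0, q2.symm.trans q1, s1, s2, s3, fun b hb => ?_⟩
  have w1 : P0 * (b * P0) = b * P0 := by
    refine c3 _ fun g => ?_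
    rw [← Matrix.mul_assoc, hb, Matrix.mul_assoc, s1]
  have w2 : P0 * b * P0 = P0 * b := by
    refine c4 _ fun g => ?_
    rw [Matrix.mul_assoc, ← hb, ← Matrix.mul_assoc, s2]
  rw [← w2, Matrix.mul_assoc, w1]

end H25G
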