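import Pool.Agent.Lib.H25G.Defs

/-! # H25G: the classes x_p -/

set_option autoImplicit false

open Matrix Pool.Agent.GSem

namespace H25G

variable {l : ℕ} [Fact l.Prime] {n : ℕ}

/-- The representation with complex coefficients. -/
noncomputable def th (ι : ℚ_[l] →+* ℂ) (ρ : Gal(Om/ℚ) →* GL (Fin n) ℚ_[l]) : Gal(Om/ℚ) →* GL (Fin n) ℂ := (Matrix.GeneralLinearGroup.map ι).comp ρ

/-- y is conjugate, by an element of the Zariski closure of K, to the semisimple part of the image of a Frobenius element at p: iota(rho(φ)) = s u = u s, u unipotent, s = h y h^-1. -/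
def STClass (ι : ℚ_[l] →+* ℂ) (ρ : Gal(Om/ℚ) →* GL (Fin n) ℚ_[l]) (K : Subgroup (GL (Fin n) ℂ)) (p : ℕ) (y : GL (Fin n) ℂ) : Prop :=
  ∃ (φ : Gal(Om/ℚ)) (h u : GL (Fin n) ℂ), IsFrobAt p φ ∧ h ∈ Zar (K : Set (GL (Fin n) ℂ)) ∧ IsNilpotent ((u : Matrix (Fin n) (Fin n) ℂ) - 1) ∧
    (h * y * h⁻¹) * u = u * (h * y * h⁻¹) ∧ th ι ρ φ = (h * y * h⁻¹) * u

end H25G
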