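import Pool.Agent.Lib.H25G.GE4
import Pool.Agent.Lib.H25G.GE5C
import Pool.Agent.Lib.H25G.GB9
import Pool.Agent.Lib.H25G.StD

/-! # H25G, chunk GE8: the mean value of trace(tT(Frob) b) -/

set_option autoImplicit false

open Matrix Filter Topology Pool.Agent.GSem

namespace H25G

variable {l : ℕ} [Fact l.Prime] {n : ℕ}

/-- (M) GE8. b a matrix over Q_l commuting with tT a (ρ g), fixed by the commutators of the open normal subgroup V; P a complex matrix, the invariant projection. Then the mean over p <= N, p not in S, of trace(tT a (iota ρ(φ_p)) iota(b)) tends to trace(P iota(b)).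
Proof. k = PadicAlgCl l, j : k -> C extending iota (IsAlgClosed.lift for the algebraic extension k of Q_l and C as a Q_l-algebra through iota). R = Rl ρ a, bk = operator of the matrix b over k. hSS: ge5 with A g = tT a (ρ g) over k
and the hypothesis hC (tT_map: the image under j of tT a (ρ g over k) is tT a (th iota ρ g)), translated from matrices to operators (Matrix.toLin'). P0 from ge5_inv. ge4: trace(R(g) bk) = sum c_i ind ψ_i(g), sum of the c_i with ψ_i = 1 = trace(P0 b).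
H_i is open (contains V), so GoodChar ρ (H_i) ψ_i with U = V, N = card (Gal/V) > 0. gb9 for every i, linear combination with coefficients j(c_i): the mean of j(trace(R(φ_p) bk)) = trace(tT a (th ι ρ φ_p) ι(b)) tends to
sum j(c_i) [ψ_i = 1] = j(trace(P0 bk)) = trace(P ι(b)). -/
theorem ge8 {ρ : Gal(Om/ℚ) →* GL (Fin n) ℚ_[l]} {S : Finset ℕ} {m : ℕ} (hρ : Geom ρ S m) (ι : ℚ_[l] →+* ℂ)
    (V : Subgroup Gal(Om/ℚ)) [V.Normal] [V.FiniteIndex] (hV : IsOpen (V : Set Gal(Om/ℚ))) (a : ℕ)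
    (b : Matrix (Fin a → Jx n) (Fin a → Jx n) ℚ_[l]) (hb : ∀ x, tT a (ρ x) * b = b * tT a (ρ x))
    (hc : ∀ x ∈ V, ∀ y ∈ V, tT a (ρ (x * y * x⁻¹ * y⁻¹)) * b = b)
    (hC : ∀ W : Submodule ℂ ((Fin a → Jx n) → ℂ), (∀ x, ∀ w ∈ W, (tT a (th ι ρ x)).mulVec w ∈ W) →
      ∃ π : Matrix (Fin a → Jx n) (Fin a → Jx n) ℂ, (∀ x, tT a (th ι ρ x) * π = π * tT a (th ι ρ x)) ∧ (∀ w ∈ W, π.mulVec w = w) ∧ ∀ v, π.mulVec v ∈ W)
    (P : Matrix (Fin a → Jx n) (Fin a → Jx n) ℂ) (h1 : ∀ x, tT a (th ι ρ x) * P = P) (h2 : ∀ x, P * tT a (th ι ρ x) = P)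
    (h3 : ∀ v, (∀ x, (tT a (th ι ρ x)).mulVec v = v) → P.mulVec v = v) (h4 : ∀ v, (∀ x, vecMul v (tT a (th ι ρ x)) = v) → vecMul v P = v)
    (φ : ℕ → Gal(Om/ℚ)) (hφ : ∀ p, p.Prime → IsFrobAt p (φ p)) :
    Tendsto (fun N : ℕ => (∑ p ∈ (Finset.range (N + 1)).filter (fun p => p.Prime ∧ p ∉ S), trace (tT a (th ι ρ (φ p)) * b.map ι)) /
      (Nat.primeCounting N : ℂ)) atTop (𝓝 (trace (P * b.map ι))) := by
  classical
  -- the embedding of the algebraic closure of Q_l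
  obtain ⟨j, hj⟩ : ∃ j : PadicAlgCl l →+* ℂ, ∀ x, j (algebraMap ℚ_[l] (PadicAlgCl l) x) = ι x := by
    letI : Algebra ℚ_[l] ℂ := ι.toAlgebra
    let f : PadicAlgCl l →ₐ[ℚ_[l]] ℂ := IsAlgClosed.lift
    exact ⟨f.toRingHom, fun x => f.commutes x⟩
  have hj' : j.comp (algebraMap ℚ_[l] (PadicAlgCl l)) = ι := RingHom.ext hj
  let A : Gal(Om/ℚ) → Matrix (Fin a → Jx n) (Fin a → Jx n) (PadicAlgCl l) := fun g =>
    tT a (Matrix.GeneralLinearGroup.map (algebraMap ℚ_[l] (PadicAlgCl l)) (ρ g))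
  have hA : ∀ g, A g = (tT a (ρ g)).map (algebraMap ℚ_[l] (PadicAlgCl l)) := fun g => tT_map a (ρ g) _
  have hθ : ∀ g, tT a (th ι ρ g) = (tT a (ρ g)).map ι := fun g => tT_map a (ρ g) ι
  have hAj : ∀ g, (A g).map j = tT a (th ι ρ g) := by
    intro g
    rw [hA, hθ, Matrix.map_map]
    congr 1
    funext x
    exact hj x
  set bk : Matrix (Fin a → Jx n) (Fin a → Jx n) (PadicAlgCl l) := b.map (algebraMap ℚ_[l] (PadicAlgCl l)) with hbk
  have hbj : bk.map j = b.map ι := by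
    rw [hbk, Matrix.map_map]
    congr 1
    funext x
    exact hj x
  let e : Matrix (Fin a → Jx n) (Fin a → Jx n) (PadicAlgCl l) ≃ₐ[PadicAlgCl l] Module.End (PadicAlgCl l) ((Fin a → Jx n) → PadicAlgCl l) :=
    Matrix.toLinAlgEquiv'
  have heA : ∀ g, Rl ρ a g = e (A g) := fun g => rfl
  have hev : ∀ (M : Matrix (Fin a → Jx n) (Fin a → Jx n) (PadicAlgCl l)) v, e M v = M.mulVec v := fun M v => Matrix.toLinAlgEquiv'_apply M v
  have hetr : ∀ M : Matrix (Fin a → Jx n) (Fin a → Jx n) (PadicAlgCl l), LinearMap.trace (PadicAlgCl l) _ (e M) = M.trace := fun M =>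
    Matrix.trace_toLin'_eq M
  have hAb : ∀ g, A g * bk = bk * A g := by
    intro g
    rw [hA, hbk, ← Matrix.map_mul, hb, Matrix.map_mul]
  have hAc : ∀ x ∈ V, ∀ y ∈ V, A (x * y * x⁻¹ * y⁻¹) * bk = bk := by
    intro x hx y hy
    rw [hA, hbk, ← Matrix.map_mul, hc x hx y hy]
  -- projections
  have hSS : ∀ W : Submodule (PadicAlgCl l) ((Fin a → Jx n) → PadicAlgCl l), (∀ g, ∀ w ∈ W, Rl ρ a g w ∈ W) →
      ∃ q : Module.End (PadicAlgCl l) ((Fin a → Jx n) → PadicAlgCl l), (∀ g, Rl ρ a g * q = q * Rl ρ a g) ∧ (∀ w ∈ W, q w = w) ∧ ∀ v, q v ∈ W := by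
    intro W hW
    obtain ⟨π, hπ1, hπ2, hπ3⟩ := ge5 j A (fun W' hW' => by
      obtain ⟨π, q1, q2, q3⟩ := hC W' (fun x w hw => by
        have := hW' x w hw
        rwa [hAj] at this)
      exact ⟨π, fun g => by rw [hAj]; exact q1 g, q2, q3⟩) W (fun g w hw => by
        have := hW g w hw
        rwa [heA, hev] at this)
    refine ⟨e π, fun g => ?_, fun w hw => ?_, fun v => ?_⟩
    · rw [heA, ← map_mul, hπ1, map_mul]
    · rw [hev]
      exact hπ2 w hw
    · rw [hev]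
      exact hπ3 v
  obtain ⟨P0, hP0, p1, p2, p3, p4⟩ := ge5_inv j A P (fun g => by rw [hAj]; exact h1 g) (fun g => by rw [hAj]; exact h2 g)
    (fun v hv => h3 v fun x => by rw [← hAj]; exact hv x) (fun v hv => h4 v fun x => by rw [← hAj]; exact hv x)
  obtain ⟨m', H, ψ, c, hVH, hCst, htr, hsum⟩ := ge4 (Rl ρ a) V (e bk) (fun g => by rw [heA, ← map_mul, hAb, map_mul])
    (fun x hx y hy => by rw [heA, ← map_mul, hAc x hx y hy]) hSS (e P0) (fun g => by rw [heA, ← map_mul, p1])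
    (fun g => by rw [heA, ← map_mul, p2]) (fun v hv => by
      rw [hev]
      refine p3 v fun g => ?_
      have := hv g
      rwa [heA, hev] at this) (by rw [← map_mul, p4 bk hAb, map_mul])
  have hgood : ∀ i, GoodChar ρ (H i) (ψ i) := fun i =>
    ⟨Subgroup.isOpen_mono (hVH i) hV, a, Nat.card (Gal(Om/ℚ) ⧸ V), V, Nat.card_pos, hV, hVH i, hCst i⟩
  have hlim := tendsto_finsetSum Finset.univ (fun i _ => (gb9 hρ j (H i) (ψ i) (hgood i) φ hφ).const_mul (j (c i)))
  have e1 : ∑ i, j (c i) * (if ψ i = 1 then 1 else 0) = trace (P * b.map ι) := by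
    have h5 := congrArg j hsum
    rw [map_sum, ← map_mul, hetr] at h5
    have h6 : trace (P * b.map ι) = j (P0 * bk).trace := by
      rw [hP0, ← hbj, ← Matrix.map_mul]
      exact (AddMonoidHom.map_trace (j : PadicAlgCl l →+ ℂ) (P0 * bk)).symm
    rw [h6, ← h5]
    refine Finset.sum_congr rfl fun i _ => ?_
    rw [map_mul]
    congr 1
    split_ifs <;> simp
  rw [e1] at hlim
  refine hlim.congr fun N => ?_
  have e2 : ∀ g, trace (tT a (th ι ρ g) * b.map ι) = ∑ i, j (c i) * j (ind (H i) (fun h => (ψ i h : PadicAlgCl l)) g) := by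
    intro g
    have h7 : trace (tT a (th ι ρ g) * b.map ι) = j (A g * bk).trace := by
      rw [← hAj, ← hbj, ← Matrix.map_mul]
      exact (AddMonoidHom.map_trace (j : PadicAlgCl l →+ ℂ) (A g * bk)).symm
    rw [h7, ← hetr, map_mul, ← heA, htr, map_sum]
    exact Finset.sum_congr rfl fun i _ => map_mul _ _ _
  rw [Finset.sum_congr rfl fun p _ => e2 (φ p), Finset.sum_comm, Finset.sum_div]
  refine Finset.sum_congr rfl fun i _ => ?_
  rw [← Finset.mul_sum, mul_div_assoc]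

end H25G
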