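import Pool.Agent.Lib.H25G.GE1
import Pool.Agent.Lib.H25G.GE6
import Pool.Agent.Lib.H25G.GE8
import Pool.Agent.Lib.H25G.GD3
import Pool.Agent.Lib.H25G.GD2D
import Pool.Agent.Lib.H25G.GD5

/-! # H25G, chunk GE9: the mean value of trace(tT(Frob) B) -/

set_option autoImplicit false

open Matrix Filter Topology MeasureTheory Pool.Agent.GSem

namespace H25G

variable {l : ℕ} [Fact l.Prime] {n : ℕ}

/-- (M) GE9. Mean value for a complex matrix B commuting with tT a (K) and fixed by the commutators of K1.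
Proof. θ = th ι ρ. K is in Zar(range θ) and θ x is in Zar K (hZ and gd1_sub). gd2_comm: B commutes with tT a (θ x). gd2_cmt for A = K1.map K.subtype and gd3: U of finite index in the Galois group with θ(U) in Zar K1, so
tT a (θ(x y x^-1 y^-1)) B = B for x, y in U. gd5 (i = ι, tT_map): B = sum c_t ι(b_t). ge1: V. ge6_proj, ge6_avg: hC and P. ge8 for every b_t and linearity; trace(P B) = integral. -/
theorem ge9 {ρ : Gal(Om/ℚ) →* GL (Fin n) ℚ_[l]} {S : Finset ℕ} {m : ℕ} (hρ : Geom ρ S m) (ι : ℚ_[l] →+* ℂ)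
    (K : Subgroup (GL (Fin n) ℂ)) (hK : IsCompact (K : Set (GL (Fin n) ℂ)))
    (hZ : Zar (K : Set (GL (Fin n) ℂ)) = Zar (Set.range (th ι ρ))) [MeasurableSpace K] [BorelSpace K] (μ : Measure K) [μ.IsHaarMeasure] [IsProbabilityMeasure μ]
    (K1 : Subgroup K) [K1.FiniteIndex] (a : ℕ) (B : Matrix (Fin a → Jx n) (Fin a → Jx n) ℂ)
    (hB : ∀ k : K, tT a (k : GL (Fin n) ℂ) * B = B * tT a (k : GL (Fin n) ℂ))
    (hc : ∀ x ∈ K1, ∀ y ∈ K1, tT a ((x * y * x⁻¹ * y⁻¹ : K) : GL (Fin n) ℂ) * B = B)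
    (φ : ℕ → Gal(Om/ℚ)) (hφ : ∀ p, p.Prime → IsFrobAt p (φ p)) :
    Tendsto (fun N : ℕ => (∑ p ∈ (Finset.range (N + 1)).filter (fun p => p.Prime ∧ p ∉ S), trace (tT a (th ι ρ (φ p)) * B)) /
      (Nat.primeCounting N : ℂ)) atTop (𝓝 (∫ k : K, trace (tT a (k : GL (Fin n) ℂ) * B) ∂μ)) := by
  set θ := th ι ρ with hθ
  have h1 : ∀ k ∈ K, k ∈ Zar (Set.range θ) := fun k hk => by
    rw [← hZ]
    exact gd1_sub _ hk
  have h2 : ∀ x, θ x ∈ Zar (K : Set (GL (Fin n) ℂ)) := fun x => by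
    rw [hZ]
    exact gd1_sub _ ⟨x, rfl⟩
  have hBθ : ∀ x, tT a (θ x) * B = B * tT a (θ x) := fun x =>
    gd2_comm a (K : Set (GL (Fin n) ℂ)) B (fun g hg => hB ⟨g, hg⟩) (θ x) (h2 x)
  obtain ⟨U, hUf, hU⟩ := gd3 K K1 θ h2
  have hcU : ∀ x ∈ U, ∀ y ∈ U, tT a (θ (x * y * x⁻¹ * y⁻¹)) * B = B := by
    intro x hx y hy
    have h3 := gd2_cmt a ((K1.map K.subtype : Subgroup (GL (Fin n) ℂ)) : Set (GL (Fin n) ℂ)) B ?_ (θ x) (θ y)
      ((hU x).1 hx) ((hU y).1 hy)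
    · have e : θ (x * y * x⁻¹ * y⁻¹) = θ x * θ y * (θ x)⁻¹ * (θ y)⁻¹ := by rw [map_mul, map_mul, map_mul, map_inv, map_inv]
      rw [e]
      exact h3
    · rintro _ ⟨x, hx, rfl⟩ _ ⟨y, hy, rfl⟩
      exact hc x hx y hy
  have hmap : ∀ x, (tT a (ρ x)).map ι = tT a (θ x) := fun x => (tT_map a (ρ x) ι).symm
  obtain ⟨r, c, b, hb1, hb2, hb3⟩ := gd5 ι ρ U a B (fun x => by rw [hmap]; exact hBθ x)
    (fun x hx y hy => by rw [hmap]; exact hcU x hx y hy)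
  obtain ⟨V, hVn, hVf, hVo, hV⟩ := ge1 hρ.cont U a b hb2
  obtain ⟨P, p1, p2, p3, p4, p5⟩ := ge6_avg K hK μ θ h1 h2 a
  have key := fun t => ge8 hρ ι V hVo a (b t) (hb1 t) (hV t) (fun W hW => ge6_proj K hK θ h1 h2 a W hW) P p1 p2 p3 p4 φ hφ
  rw [p5 B]
  have hsum := tendsto_finsetSum Finset.univ (fun t _ => (key t).const_mul (c t))
  have e1 : ∑ t, c t * trace (P * (b t).map ι) = trace (P * B) := by
    rw [hb3, Matrix.mul_sum, trace_sum]
    refine Finset.sum_congr rfl fun t _ => ?_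
    rw [Matrix.mul_smul, trace_smul, smul_eq_mul]
  rw [e1] at hsum
  refine hsum.congr fun N => ?_
  have e2 : ∀ p, trace (tT a (θ (φ p)) * B) = ∑ t, c t * trace (tT a (θ (φ p)) * (b t).map ι) := by
    intro p
    rw [hb3, Matrix.mul_sum, trace_sum]
    refine Finset.sum_congr rfl fun t _ => ?_
    rw [Matrix.mul_smul, trace_smul, smul_eq_mul]
  rw [Finset.sum_congr rfl fun p _ => e2 p, Finset.sum_comm, Finset.sum_div]
  refine Finset.sum_congr rfl fun t _ => ?_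
  rw [← Finset.mul_sum, mul_div_assoc]

end H25G
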