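import Pool.Agent.Lib.H25G.Defs

/-! # H25G: Om is an algebraic closure of the rationals (for the algebra structure used by Gal(Om/Q)) -/

set_option autoImplicit false

namespace H25G

instance omIsAlgClosure : IsAlgClosure ℚ Om := by
  have h : IsAlgClosure ℚ (AlgebraicClosure ℚ) := @AlgebraicClosure.instIsAlgClosure ℚ _
  have e : (DivisionRing.toRatAlgebra : Algebra ℚ (AlgebraicClosure ℚ)) = AlgebraicClosure.instAlgebra ℚ := Subsingleton.elim _ _
  rw [e]
  exact h

instance omIsGalois : IsGalois ℚ Om := IsAlgClosure.isGalois ℚ Om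

end H25G
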