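import Pool.Agent.Lib.H25G.GE7
import Pool.Agent.Lib.H25G.GE9
import Pool.Agent.Lib.H25G.GC7
import Pool.Agent.Lib.Helper95.Ord.FrobExists
import Pool.Agent.Lib.H25G.OmI

/-! # H25G, chunk GE10: equidistribution -/

set_option autoImplicit false

open Matrix Filter Topology MeasureTheory Pool.Agent.GSem

namespace H25G

variable {l : ℕ} [Fact l.Prime] {n : ℕ}

/-- (M) GE10. The main theorem (equidistribution on ST/[ST0,ST0]).
Proof. Replace K1 by its normal core in K (finite index, normal, hinv still holds). φp: for p prime outside S the Frobenius element in STClass, otherwise any (Pool.Agent.Ord.exists_frob). Let ε > 0; gc7 gives a, B with |f(k) - trace(tT a k B)| <= ε. ge9: the mean M_N of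
trace(tT a (θ φp) B) over p <= N, p not in S, divided by primeCounting N, tends to the integral of trace(tT a k B), which differs from the integral of f by at most ε. ge7 (gd2_comm: B commutes with tT a (Zar K); s u = θ φp is in Zar K by hZ): trace(tT a (θ φp) B) = trace(tT a (x p) B),
which differs from f(x p) by at most ε. primeCounting N divided by the number of the p tends to 1 (S finite, infinitely many primes). So the limsup of |mean - integral| is at most 3 ε. -/
theorem ge10 {ρ : Gal(Om/ℚ) →* GL (Fin n) ℚ_[l]} {S : Finset ℕ} {m : ℕ} (hρ : Geom ρ S m) (ι : ℚ_[l] →+* ℂ)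
    (K : Subgroup (GL (Fin n) ℂ)) (hK : IsCompact (K : Set (GL (Fin n) ℂ)))
    (hZ : Zar (K : Set (GL (Fin n) ℂ)) = Zar (Set.range (th ι ρ))) [MeasurableSpace K] [BorelSpace K] (μ : Measure K) [μ.IsHaarMeasure] [IsProbabilityMeasure μ]
    (K1 : Subgroup K) [K1.FiniteIndex] (f : K → ℂ) (hf : Continuous f) (hcl : ∀ a k, f (a * k * a⁻¹) = f k)
    (hinv : ∀ k, ∀ a ∈ K1, ∀ b ∈ K1, f (k * (a * b * a⁻¹ * b⁻¹)) = f k)
    (x : ℕ → K) (hx : ∀ p, p.Prime → p ∉ S → STClass ι ρ K p (x p : GL (Fin n) ℂ)) :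
    Tendsto (fun N : ℕ => (∑ p ∈ (Finset.range (N + 1)).filter (fun p => p.Prime ∧ p ∉ S), f (x p)) /
      (((Finset.range (N + 1)).filter (fun p => p.Prime ∧ p ∉ S)).card : ℂ)) atTop (𝓝 (∫ k : K, f k ∂μ)) := by
  classical
  -- a normal subgroup of finite index
  set K2 : Subgroup K := K1.normalCore with hK2
  have hK2n : K2.Normal := K1.normalCore_normal
  have hK2f : K2.FiniteIndex := inferInstance
  have hK21 : K2 ≤ K1 := K1.normalCore_le
  -- the Frobenius elements
  have hex : ∀ p : ℕ, ∃ φ : Gal(Om/ℚ), (p.Prime → IsFrobAt p φ) ∧ (p.Prime → p ∉ S → ∃ h u : GL (Fin n) ℂ, h ∈ Zar (K : Set (GL (Fin n) ℂ)) ∧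
      IsNilpotent ((u : Matrix (Fin n) (Fin n) ℂ) - 1) ∧ (h * (x p : GL (Fin n) ℂ) * h⁻¹) * u = u * (h * (x p : GL (Fin n) ℂ) * h⁻¹) ∧
      th ι ρ φ = (h * (x p : GL (Fin n) ℂ) * h⁻¹) * u) := by
    intro p
    by_cases hp : p.Prime
    · by_cases hpS : p ∈ S
      · obtain ⟨φ, hφ⟩ := Pool.Agent.Ord.exists_frob (Ω := Om) hp
        exact ⟨φ, fun _ => hφ, fun _ h => absurd hpS h⟩
      · obtain ⟨φ, h, u, h1, h2, h3, h4, h5⟩ := hx p hp hpS
        exact ⟨φ, fun _ => h1, fun _ _ => ⟨h, u, h2, h3, h4, h5⟩⟩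
    · exact ⟨1, fun h => absurd h hp, fun h => absurd h hp⟩
  choose φ hφ hφ2 using hex
  have hZ2 : ∀ g, th ι ρ g ∈ Zar (K : Set (GL (Fin n) ℂ)) := fun g => by
    rw [hZ]
    exact gd1_sub _ ⟨g, rfl⟩
  -- the sets of primes
  set A : ℕ → Finset ℕ := fun N => (Finset.range (N + 1)).filter (fun p => p.Prime ∧ p ∉ S) with hA
  have hAle : ∀ N, (A N).card ≤ Nat.primeCounting N := by
    intro N
    rw [Nat.primeCounting, Nat.primeCounting', Nat.count_eq_card_filter_range]
    refine Finset.card_le_card fun p hp => ?_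
    rw [hA, Finset.mem_filter] at hp
    exact Finset.mem_filter.2 ⟨hp.1, hp.2.1⟩
  have hAge : ∀ N, Nat.primeCounting N ≤ (A N).card + S.card := by
    intro N
    rw [Nat.primeCounting, Nat.primeCounting', Nat.count_eq_card_filter_range]
    refine (Finset.card_le_card (t := A N ∪ S) fun p hp => ?_).trans (Finset.card_union_le _ _)
    rw [Finset.mem_filter] at hp
    rw [Finset.mem_union]
    by_cases h : p ∈ S
    · exact Or.inr h
    · exact Or.inl (Finset.mem_filter.2 ⟨hp.1, hp.2, h⟩)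
  have hpi : Tendsto (fun N : ℕ => (Nat.primeCounting N : ℝ)) atTop atTop :=
    tendsto_natCast_atTop_atTop.comp Nat.tendsto_primeCounting
  have hcard : Tendsto (fun N : ℕ => ((A N).card : ℝ)) atTop atTop := by
    refine tendsto_atTop_mono (f := fun N : ℕ => (Nat.primeCounting N : ℝ) - S.card) (fun N => ?_)
      (tendsto_atTop_add_const_right _ _ hpi)
    have := hAge N
    have h2 : (Nat.primeCounting N : ℝ) ≤ (A N).card + S.card := by exact_mod_cast this
    linarith
  have hratio : Tendsto (fun N : ℕ => (Nat.primeCounting N : ℂ) / ((A N).card : ℂ)) atTop (𝓝 1) := by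
    have h1 : Tendsto (fun N : ℕ => (Nat.primeCounting N : ℝ) / ((A N).card : ℝ)) atTop (𝓝 1) := by
      have h2 : Tendsto (fun N : ℕ => 1 + (S.card : ℝ) / ((A N).card : ℝ)) atTop (𝓝 1) := by
        have h3 := (hcard.const_div_atTop (S.card : ℝ)).const_add (1 : ℝ)
        rwa [add_zero] at h3
      refine tendsto_of_tendsto_of_tendsto_of_le_of_le' tendsto_const_nhds h2 ?_ ?_
      · filter_upwards [hcard.eventually_gt_atTop 0] with N hN
        rw [le_div_iff₀ hN, one_mul]
        exact_mod_cast hAle N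
      · filter_upwards [hcard.eventually_gt_atTop 0] with N hN
        have h4 : (Nat.primeCounting N : ℝ) ≤ (A N).card + S.card := by exact_mod_cast hAge N
        rw [div_le_iff₀ hN, add_mul, one_mul, div_mul_cancel₀ _ hN.ne']
        exact h4
    have h5 := (Complex.continuous_ofReal.tendsto _).comp h1
    refine (h5.congr fun N => ?_).trans ?_
    · simp
    · simp
  -- epsilon
  rw [Metric.tendsto_atTop]
  intro ε hε
  have hε4 : 0 < ε / 4 := by positivity
  obtain ⟨a, B, hB1, hB2, hB3⟩ := gc7 K hK K2 f hf hcl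
    (fun k y hy z hz => hinv k y (hK21 hy) z (hK21 hz)) (ε / 4) hε4
  have hm := ge9 hρ ι K hK hZ μ K2 a B hB1 hB2 φ hφ
  have hm2 := hm.mul hratio
  rw [mul_one] at hm2
  have hBZ : ∀ g ∈ Zar (K : Set (GL (Fin n) ℂ)), tT a g * B = B * tT a g := fun g hg =>
    gd2_comm a (K : Set (GL (Fin n) ℂ)) B (fun k hk => hB1 ⟨k, hk⟩) g hg
  have htr : ∀ p, p.Prime → p ∉ S → trace (tT a (th ι ρ (φ p)) * B) = trace (tT a (x p : GL (Fin n) ℂ) * B) := by
    intro p hp hpS
    obtain ⟨h, u, h2, h3, h4, h5⟩ := hφ2 p hp hpS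
    have h6 := hZ2 (φ p)
    rw [h5] at h6 ⊢
    exact ge7 K a B hBZ _ h u (x p).2 h2 h3 h4 h6
  have hcpt : CompactSpace K := isCompact_iff_compactSpace.1 hK
  -- comparison of the integrals
  have hint : ‖(∫ k : K, trace (tT a (k : GL (Fin n) ℂ) * B) ∂μ) - ∫ k : K, f k ∂μ‖ ≤ ε / 4 := by
    have hc1 : Continuous fun k : K => trace (tT a (k : GL (Fin n) ℂ) * B) := by
      refine Continuous.matrix_trace ?_
      exact ((gc6_cont a).comp continuous_subtype_val).matrix_mul continuous_const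
    have hi1 : Integrable (fun k : K => trace (tT a (k : GL (Fin n) ℂ) * B)) μ := hc1.integrable_of_hasCompactSupport
      (HasCompactSupport.of_compactSpace _)
    have hi2 : Integrable f μ := hf.integrable_of_hasCompactSupport (HasCompactSupport.of_compactSpace _)
    rw [← integral_sub hi1 hi2]
    refine (norm_integral_le_of_norm_le_const (C := ε / 4) (Eventually.of_forall fun k => ?_)).trans ?_
    · rw [norm_sub_rev]
      exact hB3 k
    · rw [probReal_univ, mul_one]
  obtain ⟨N0, hN0⟩ := (Metric.tendsto_atTop.1 hm2) (ε / 4) hε4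
  obtain ⟨N1, hN1⟩ := eventually_atTop.1 (hcard.eventually_gt_atTop 0)
  have hpi0 : ∀ N, 0 < ((A N).card : ℝ) → (Nat.primeCounting N : ℂ) ≠ 0 := by
    intro N hN h0
    have h1 : (Nat.primeCounting N : ℕ) = 0 := by exact_mod_cast h0
    have h2 := hAle N
    rw [h1] at h2
    have h3 : (A N).card = 0 := by omega
    rw [h3] at hN
    simp at hN
  refine ⟨max N0 N1, fun N hN => ?_⟩
  have hN2 := hN1 N (le_of_max_le_right hN)
  have hA0 : ((A N).card : ℂ) ≠ 0 := by
    intro h0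
    have : (A N).card = 0 := by exact_mod_cast h0
    rw [this] at hN2
    simp at hN2
  have h7 := hN0 N (le_of_max_le_left hN)
  rw [dist_eq_norm] at h7 ⊢
  have h8 : (∑ p ∈ A N, trace (tT a (th ι ρ (φ p)) * B)) / (Nat.primeCounting N : ℂ) * ((Nat.primeCounting N : ℂ) / ((A N).card : ℂ)) =
      (∑ p ∈ A N, trace (tT a (x p : GL (Fin n) ℂ) * B)) / ((A N).card : ℂ) := by
    rw [div_mul_div_cancel₀ (hpi0 N hN2)]
    congr 1
    refine Finset.sum_congr rfl fun p hp => ?_
    rw [hA, Finset.mem_filter] at hp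
    exact htr p hp.2.1 hp.2.2
  have h9 : ‖(∑ p ∈ A N, f (x p)) / ((A N).card : ℂ) - (∑ p ∈ A N, trace (tT a (x p : GL (Fin n) ℂ) * B)) / ((A N).card : ℂ)‖ ≤ ε / 4 := by
    rw [← sub_div, ← Finset.sum_sub_distrib, norm_div, Complex.norm_natCast, div_le_iff₀ hN2]
    refine (norm_sum_le _ _).trans ?_
    refine (Finset.sum_le_sum fun p _ => hB3 (x p)).trans ?_
    rw [Finset.sum_const, nsmul_eq_mul, mul_comm]
  have h10 : (∑ p ∈ A N, trace (tT a (th ι ρ (φ p)) * B)) = ∑ p ∈ (Finset.range (N + 1)).filter (fun p => p.Prime ∧ p ∉ S), trace (tT a (th ι ρ (φ p)) * B) := rfl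
  rw [← h10, h8] at h7
  calc ‖(∑ p ∈ A N, f (x p)) / ((A N).card : ℂ) - ∫ k : K, f k ∂μ‖
      = ‖((∑ p ∈ A N, f (x p)) / ((A N).card : ℂ) - (∑ p ∈ A N, trace (tT a (x p : GL (Fin n) ℂ) * B)) / ((A N).card : ℂ)) +
        ((∑ p ∈ A N, trace (tT a (x p : GL (Fin n) ℂ) * B)) / ((A N).card : ℂ) - ∫ k : K, trace (tT a (k : GL (Fin n) ℂ) * B) ∂μ) +
        ((∫ k : K, trace (tT a (k : GL (Fin n) ℂ) * B) ∂μ) - ∫ k : K, f k ∂μ)‖ := by
          congr 1
          ring
    _ ≤ ‖(∑ p ∈ A N, f (x p)) / ((A N).card : ℂ) - (∑ p ∈ A N, trace (tT a (x p : GL (Fin n) ℂ) * B)) / ((A N).card : ℂ)‖ +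
        ‖(∑ p ∈ A N, trace (tT a (x p : GL (Fin n) ℂ) * B)) / ((A N).card : ℂ) - ∫ k : K, trace (tT a (k : GL (Fin n) ℂ) * B) ∂μ‖ +
        ‖(∫ k : K, trace (tT a (k : GL (Fin n) ℂ) * B) ∂μ) - ∫ k : K, f k ∂μ‖ := (norm_add_le _ _).trans (by gcongr; exact norm_add_le _ _)
    _ < ε := by linarith

end H25G
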