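import Pool.Agent.Lib.H25G.Defs

/-! # H25G, chunk GE2: decomposition with respect to a commuting operator -/

set_option autoImplicit false

open Module

namespace H25G

/-- (M) GE2. b an operator on a finite dimensional space over an algebraically closed field. There are scalars β_i and projections π_i (onto the generalized eigenspaces of b for the nonzero eigenvalues β_i), commuting with everything that
commutes with b, with image in the image of b, and trace(A b) = sum β_i trace(A π_i) for all A commuting with b.
Proof. V is the direct sum of the generalized eigenspaces V_β (Module.End.iSup_maxGenEigenspace_eq_top, independent_maxGenEigenspace). π_β: projection on V_β along the sum of the others (DirectSum.IsInternal, or Submodule.IsCompl). A commuting with b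
maps every V_β into itself, so it commutes with π_β. For β not 0, V_β is in the image of b ((b-β)^N = 0 on V_β: β^N v is in the image of b). N_β = (b - β) π_β is nilpotent and commutes with A, so A N_β is nilpotent and
has trace 0 (LinearMap.trace of nilpotent: isNilpotent_trace_of_isNilpotent). trace(A b) = sum_β trace(A b π_β) = sum_β (β trace(A π_β) + trace(A N_β)); the term β = 0 vanishes. -/
theorem ge2 {k V : Type*} [Field k] [IsAlgClosed k] [AddCommGroup V] [Module k V] [FiniteDimensional k V] (b : Module.End k V) :
    ∃ (r : ℕ) (β : Fin r → k) (π : Fin r → Module.End k V), (∀ i, π i * π i = π i) ∧ (∀ i A, A * b = b * A → A * π i = π i * A) ∧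
      (∀ i, LinearMap.range (π i) ≤ LinearMap.range b) ∧
      ∀ A, A * b = b * A → LinearMap.trace k V (A * b) = ∑ i, β i * LinearMap.trace k V (A * π i) := by
  classical
  obtain ⟨n, hn, s, hs, hnil, hss, hbns⟩ := Module.End.exists_isNilpotent_isSemisimple (K := k) (f := b)
  -- polynomials vanishing at the eigenvalues of `s` kill `s`
  have hsq := hss.minpoly_squarefree
  have hmon : (minpoly k s).Monic := minpoly.monic (Algebra.IsIntegral.isIntegral s)
  have hnodup : (minpoly k s).roots.Nodup := by
    have hsep : (minpoly k s).Separable := PerfectField.separable_iff_squarefree.2 hsq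
    exact Polynomial.nodup_roots hsep
  have hkill : ∀ P : Polynomial k, (∀ x ∈ (minpoly k s).roots, P.eval x = 0) →
      Polynomial.aeval s P = 0 := by
    intro P hP
    by_cases hP0 : P = 0
    · rw [hP0, map_zero]
    have h1 : minpoly k s ∣ P := by
      rw [(IsAlgClosed.splits (minpoly k s)).eq_prod_roots_of_monic hmon]
      rw [Multiset.prod_X_sub_C_dvd_iff_le_roots hP0]
      rw [Multiset.le_iff_subset hnodup]
      intro x hx
      rw [Polynomial.mem_roots hP0]
      exact hP x hx
    exact (minpoly.dvd_iff).1 h1
  set S : Finset k := (minpoly k s).roots.toFinset with hS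
  have hmemS : ∀ x, x ∈ (minpoly k s).roots ↔ x ∈ S := fun x => by rw [hS, Multiset.mem_toFinset]
  set e : k → Polynomial k := fun x => Lagrange.basis S id x with he
  have he1 : ∀ x ∈ S, (e x).eval x = 1 := fun x hx =>
    Lagrange.eval_basis_self (v := id) (Set.injOn_id _) hx
  have he0 : ∀ x y, x ≠ y → y ∈ S → (e x).eval y = 0 := fun x y hxy hy =>
    Lagrange.eval_basis_of_ne (v := id) hxy hy
  set π : k → Module.End k V := fun x => Polynomial.aeval s (e x) with hπ
  have hidem : ∀ x ∈ S, π x * π x = π x := by
    intro x hx
    have h1 := hkill (e x * e x - e x) (fun y hy => by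
      rw [Polynomial.eval_sub, Polynomial.eval_mul]
      by_cases hxy : x = y
      · subst hxy
        rw [he1 x hx]
        ring
      · rw [he0 x y hxy ((hmemS y).1 hy)]
        ring)
    rw [map_sub, map_mul, sub_eq_zero] at h1
    exact h1
  have heig : ∀ x ∈ S, s * π x = x • π x := by
    intro x hx
    have h1 := hkill (Polynomial.X * e x - Polynomial.C x * e x) (fun y hy => by
      rw [Polynomial.eval_sub, Polynomial.eval_mul, Polynomial.eval_mul, Polynomial.eval_X,
        Polynomial.eval_C]
      by_cases hxy : x = y
      · subst hxy
        ring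
      · rw [he0 x y hxy ((hmemS y).1 hy)]
        ring)
    rw [map_sub, map_mul, map_mul, Polynomial.aeval_X, Polynomial.aeval_C, sub_eq_zero] at h1
    rw [h1, Algebra.smul_def]
  have hsum : s = ∑ x ∈ S, x • π x := by
    have h1 := hkill (Polynomial.X - ∑ x ∈ S, Polynomial.C x * e x) (fun y hy => by
      rw [Polynomial.eval_sub, Polynomial.eval_finsetSum, Polynomial.eval_X]
      rw [Finset.sum_eq_single y]
      · rw [Polynomial.eval_mul, Polynomial.eval_C, he1 y ((hmemS y).1 hy)]
        ring
      · intro x _ hxy
        rw [Polynomial.eval_mul, he0 x y hxy ((hmemS y).1 hy), mul_zero]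
      · intro h
        exact absurd ((hmemS y).1 hy) h)
    rw [map_sub, map_sum, Polynomial.aeval_X, sub_eq_zero] at h1
    rw [h1]
    refine Finset.sum_congr rfl fun x _ => ?_
    rw [map_mul, Polynomial.aeval_C, Algebra.smul_def]
  -- commutation
  have hcomm_s : ∀ A : Module.End k V, A * b = b * A → Commute A s := fun A hA =>
    Algebra.commute_of_mem_adjoin_singleton_of_commute hs hA
  have hcomm_n : ∀ A : Module.End k V, A * b = b * A → Commute A n := fun A hA =>
    Algebra.commute_of_mem_adjoin_singleton_of_commute hn hA
  have hcomm_π : ∀ (A : Module.End k V) (x : k), Commute A s → Commute A (π x) := by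
    intro A x hA
    have : π x ∈ Algebra.adjoin k {s} := by
      rw [Algebra.adjoin_singleton_eq_range_aeval]
      exact ⟨e x, rfl⟩
    exact Algebra.commute_of_mem_adjoin_singleton_of_commute this hA
  have hns : Commute n s := by
    have h1 : Commute n b :=
      (Algebra.commute_of_mem_adjoin_singleton_of_commute hn (Commute.refl b)).symm
    exact Algebra.commute_of_mem_adjoin_singleton_of_commute hs h1
  -- the index set
  set T : Finset k := S.filter (fun x => x ≠ 0) with hT
  let φ := T.equivFin
  refine ⟨T.card, fun i => (φ.symm i : k), fun i => π (φ.symm i : k), ?_, ?_, ?_, ?_⟩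
  · intro i
    exact hidem _ (Finset.mem_filter.1 (φ.symm i).2).1
  · intro i A hA
    exact hcomm_π A _ (hcomm_s A hA)
  · intro i
    obtain ⟨h1, h2⟩ := Finset.mem_filter.1 (φ.symm i).2
    set x : k := (φ.symm i : k) with hx
    have hu : IsUnit (x • (1 : Module.End k V) + n) := by
      have h3 : IsUnit (x • (1 : Module.End k V)) := by
        rw [← Algebra.algebraMap_eq_smul_one]
        exact (IsUnit.mk0 x h2).map _
      exact hnil.isUnit_add_left_of_commute h3 (Commute.smul_right (Commute.one_right n) x)
    obtain ⟨u, hu⟩ := hu
    have h4 : b * π x = u * π x := by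
      rw [hu, hbns, add_mul, add_mul, heig x h1, smul_mul_assoc, one_mul, add_comm]
    have h5 : Commute (u : Module.End k V) (π x) := by
      refine hcomm_π _ x ?_
      rw [hu]
      exact Commute.add_left (Commute.smul_left (Commute.one_left s) x) hns
    have h6 : b * (π x * ((u⁻¹ : (Module.End k V)ˣ) : Module.End k V)) = π x := by
      rw [← mul_assoc, h4, h5.eq, mul_assoc, Units.mul_inv, mul_one]
    change LinearMap.range (π x) ≤ LinearMap.range b
    rw [← h6]
    exact LinearMap.range_comp_le_range _ _
  · intro A hA
    have h1 : LinearMap.trace k V (A * n) = 0 := by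
      have h2 : IsNilpotent (A * n) := (hcomm_n A hA).isNilpotent_mul_left hnil
      exact (LinearMap.isNilpotent_trace_of_isNilpotent h2).eq_zero
    have h3 : ∑ i : Fin T.card, (φ.symm i : k) * LinearMap.trace k V (A * π (φ.symm i : k))
        = ∑ x ∈ T, x * LinearMap.trace k V (A * π x) := by
      rw [← Finset.sum_coe_sort T (fun x => x * LinearMap.trace k V (A * π x))]
      exact Equiv.sum_comp φ.symm (fun y : T => (y : k) * LinearMap.trace k V (A * π (y : k)))
    have h4 : ∑ x ∈ T, x * LinearMap.trace k V (A * π x)
        = ∑ x ∈ S, x * LinearMap.trace k V (A * π x) := by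
      rw [hT]
      refine Finset.sum_filter_of_ne fun x _ hx h0 => hx ?_
      rw [h0, zero_mul]
    rw [h3, h4]
    conv_lhs => rw [hbns, mul_add, map_add, h1, zero_add, hsum, Finset.mul_sum, map_sum]
    refine Finset.sum_congr rfl fun x _ => ?_
    rw [mul_smul_comm, map_smul, smul_eq_mul]

end H25G
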