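import Pool.Agent.Lib.H25G.RsD

/-! # H25G, chunk GE3: restriction to the image of an equivariant projection -/

set_option autoImplicit false

open Module

namespace H25G

variable {Γ k V : Type*} [Group Γ] [Field k] [AddCommGroup V] [Module k V]

/-- (S) GE3a. The trace on the image of a projection. -/
theorem ge3_trace [FiniteDimensional k V] (π A : Module.End k V) (hπ : π * π = π) (hA : A * π = π * A) (h : ∀ w ∈ LinearMap.range π, A w ∈ LinearMap.range π) :
    LinearMap.trace k (LinearMap.range π) (A.restrict h) = LinearMap.trace k V (A * π) := by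
  have hfix : ∀ w ∈ LinearMap.range π, π w = w := by
    rintro w ⟨v, rfl⟩
    exact LinearMap.congr_fun hπ v
  have h1 := LinearMap.trace_comp_comm' (R := k) (LinearMap.rangeRestrict π)
    ((LinearMap.range π).subtype ∘ₗ A.restrict h)
  have e1 : ((LinearMap.range π).subtype ∘ₗ A.restrict h) ∘ₗ LinearMap.rangeRestrict π = A * π := by
    ext v
    rfl
  have e2 : LinearMap.rangeRestrict π ∘ₗ ((LinearMap.range π).subtype ∘ₗ A.restrict h) = A.restrict h := by
    ext w
    change π (A (w : V)) = A (w : V)
    exact hfix _ (h _ w.2)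
  rw [e1, e2] at h1
  exact h1.symm

/-- (S/M) GE3b. P0 a projection onto the invariants of Γ with R P0 = P0 = P0 R, π a projection commuting with R and P0. The dimension of the invariants in the image of π is trace(P0 π).
Proof. P0 π = π P0 is a projection (P0 P0 = P0 because the columns of P0 are invariant) whose image is the intersection of the image of π with the invariants; LinearMap.IsProj.trace or ge3_trace with A = 1. -/
theorem ge3_inv [CharZero k] [FiniteDimensional k V] (R : Γ →* Module.End k V) (π P0 : Module.End k V) (hπ : π * π = π) (hR : ∀ g, R g * π = π * R g)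
    (h1 : ∀ g, R g * P0 = P0) (h2 : ∀ g, P0 * R g = P0) (h3 : ∀ v, (∀ g, R g v = v) → P0 v = v) (h4 : P0 * π = π * P0)
    (hW : ∀ g, ∀ w ∈ LinearMap.range π, R g w ∈ LinearMap.range π) :
    (Module.finrank k (inv (rs R (LinearMap.range π) hW) ⊤) : k) = LinearMap.trace k V (P0 * π) := by
  have hP0inv : ∀ (v : V) (g : Γ), R g (P0 v) = P0 v := fun v g => LinearMap.congr_fun (h1 g) v
  have hfix : ∀ w ∈ LinearMap.range π, π w = w := by
    rintro w ⟨v, rfl⟩
    exact LinearMap.congr_fun hπ v
  have hproj : LinearMap.IsProj ((inv (rs R (LinearMap.range π) hW) ⊤).map (LinearMap.range π).subtype) (P0 * π) := by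
    refine ⟨fun v => ?_, ?_⟩
    · have h5 : (P0 * π) v = π (P0 v) := by
        rw [h4]
        rfl
      have h6 : (P0 * π) v ∈ LinearMap.range π := by
        rw [h5]
        exact ⟨_, rfl⟩
      refine ⟨⟨(P0 * π) v, h6⟩, ?_, rfl⟩
      intro g _
      apply Subtype.ext
      rw [rs_apply]
      exact hP0inv _ g
    · rintro _ ⟨w, hw, rfl⟩
      change P0 (π (w : V)) = (w : V)
      rw [hfix _ w.2]
      refine h3 _ fun g => ?_
      have h7 := congrArg Subtype.val (hw g (Subgroup.mem_top g))
      rw [rs_apply] at h7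
      exact h7
  rw [hproj.trace, Submodule.finrank_map_subtype_eq]

/-- (S/M) GE3c. If every stable subspace of V is the image of an equivariant projection, the invariants of a normal subgroup U in a stable subspace W have a stable complement in W.
Proof. The invariants X of U in W (a subspace of V) are stable; p the equivariant projection of V onto X. W' = kernel of p in W. -/
theorem ge3_compl (R : Γ →* Module.End k V) (U : Subgroup Γ) [U.Normal]
    (hSS : ∀ W : Submodule k V, (∀ g, ∀ w ∈ W, R g w ∈ W) → ∃ p : Module.End k V, (∀ g, R g * p = p * R g) ∧ (∀ w ∈ W, p w = w) ∧ ∀ v, p v ∈ W)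
    (W : Submodule k V) (hW : ∀ g, ∀ w ∈ W, R g w ∈ W) :
    ∃ W' : Submodule k W, (∀ g, ∀ w ∈ W', rs R W hW g w ∈ W') ∧ IsCompl (inv (rs R W hW) U) W' := by
  have hXst : ∀ g, ∀ w ∈ (inv (rs R W hW) U).map W.subtype, R g w ∈ (inv (rs R W hW) U).map W.subtype := by
    rintro g _ ⟨w, hw, rfl⟩
    refine ⟨rs R W hW g w, ?_, rfl⟩
    intro u hu
    have h1 : rs R W hW u (rs R W hW g w) = rs R W hW (g * (g⁻¹ * u * g)) w := by
      rw [← Module.End.mul_apply, ← map_mul]
      congr 2
      group
    rw [h1, map_mul, Module.End.mul_apply]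
    congr 1
    refine hw _ ?_
    have := ‹U.Normal›.conj_mem u hu g⁻¹
    rwa [inv_inv] at this
  obtain ⟨p, hp1, hp2, hp3⟩ := hSS _ hXst
  have hXW : ∀ v ∈ (inv (rs R W hW) U).map W.subtype, v ∈ W := by
    rintro _ ⟨w, -, rfl⟩
    exact w.2
  refine ⟨(LinearMap.ker p).comap W.subtype, ?_, ?_⟩
  · intro g w hw
    rw [Submodule.mem_comap, LinearMap.mem_ker] at hw ⊢
    change p (R g (w : V)) = 0
    have h1 := LinearMap.congr_fun (hp1 g) (w : V)
    change R g (p (w : V)) = p (R g (w : V)) at h1
    rw [← h1]
    change p (w : V) = 0 at hw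
    rw [hw, map_zero]
  · rw [isCompl_iff]
    constructor
    · rw [Submodule.disjoint_def]
      intro w hw1 hw2
      rw [Submodule.mem_comap, LinearMap.mem_ker] at hw2
      have h1 := hp2 (w : V) ⟨w, hw1, rfl⟩
      change p (w : V) = 0 at hw2
      apply Subtype.ext
      rw [← h1, hw2]
      rfl
    · rw [codisjoint_iff, eq_top_iff]
      intro w _
      obtain ⟨x, hx, hxe⟩ := hp3 (w : V)
      have h2 : w = x + (w - x) := by abel
      rw [h2]
      refine Submodule.add_mem_sup hx ?_
      rw [Submodule.mem_comap, LinearMap.mem_ker]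
      change p ((w : V) - (x : V)) = 0
      have h3 : (x : V) = p (w : V) := hxe
      rw [map_sub, h3, hp2 (p (w : V)) (hp3 _), sub_self]

end H25G
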