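import Pool.Agent.Lib.H25G.GE2
import Pool.Agent.Lib.H25G.GE3
import Pool.Agent.Lib.H25G.GA9

/-! # H25G, chunk GE4: trace(R(g) b) as a combination of induced characters -/

set_option autoImplicit false

open Module

namespace H25G

variable {Γ k V : Type*} [Group Γ] [Field k] [AddCommGroup V] [Module k V]

theorem ge4_cst (R : Γ →* Module.End k V) (A : Submodule k V) (hA : ∀ g, ∀ w ∈ A, R g w ∈ A) (U H : Subgroup Γ) (N : ℕ)
    (ψ : H →* kˣ) (h : Cst (rs R A hA) U H N ψ) : Cst R U H N ψ := by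
  obtain ⟨η, v, f, h1, h2, h3, h4⟩ := h
  obtain ⟨f', hf'⟩ := LinearMap.exists_extend f
  refine ⟨η, v, f', h1, h2, fun g => ?_, fun g => ?_⟩
  · rw [h3 g]
    congr 1
    exact (congrArg (fun T : A →ₗ[k] k => T ((rs R A hA) g v)) hf').symm
  · obtain ⟨w, hw0, hw⟩ := h4 g
    exact ⟨w, fun h => hw0 (Subtype.ext h), congrArg Subtype.val hw⟩

open Classical in
/-- (M) GE4. b commutes with R(Γ) and is fixed by R of the commutators of U. Then g -> trace(R(g) b) is a combination of functions induced from characters of type Cst, and the coefficients of the trivial ones add up to trace(P0 b).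
Proof. ge2 for b: β_i, π_i. π_i commutes with R(g). W_i = range π_i is stable; R restricted to W_i: U acts through commuting operators, because W_i is in the image of b, where R(x y x^-1 y^-1) is the identity for x, y in U.
ge3_compl: complement of the invariants of U. ga9 for W_i: trace(R(g)|W_i) = sum .., and the sum of the coefficients of the trivial characters is dim of the invariants = trace(P0 π_i) (ge3_inv; P0 π_i = π_i P0 by h4 and ge2 with A = P0).
trace(R(g) b) = sum β_i trace(R(g) π_i) = sum β_i trace(R(g)|W_i) (ge3_trace); trace(P0 b) = sum β_i trace(P0 π_i). Cst for the restriction to W_i implies Cst for V (extend the linear form; vectors of W_i are vectors of V). Collect the families. -/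
theorem ge4 [IsAlgClosed k] [CharZero k] [FiniteDimensional k V] (R : Γ →* Module.End k V) (U : Subgroup Γ) [U.Normal] [U.FiniteIndex]
    (b : Module.End k V) (hb : ∀ g, R g * b = b * R g) (hc : ∀ x ∈ U, ∀ y ∈ U, R (x * y * x⁻¹ * y⁻¹) * b = b)
    (hSS : ∀ W : Submodule k V, (∀ g, ∀ w ∈ W, R g w ∈ W) → ∃ p : Module.End k V, (∀ g, R g * p = p * R g) ∧ (∀ w ∈ W, p w = w) ∧ ∀ v, p v ∈ W)
    (P0 : Module.End k V) (h1 : ∀ g, R g * P0 = P0) (h2 : ∀ g, P0 * R g = P0) (h3 : ∀ v, (∀ g, R g v = v) → P0 v = v) (h4 : P0 * b = b * P0) :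
    ∃ (m : ℕ) (H : Fin m → Subgroup Γ) (ψ : ∀ i, H i →* kˣ) (c : Fin m → k), (∀ i, U ≤ H i) ∧
      (∀ i, Cst R U (H i) (Nat.card (Γ ⧸ U)) (ψ i)) ∧
      (∀ g, LinearMap.trace k V (R g * b) = ∑ i, c i * ind (H i) (fun h => (ψ i h : k)) g) ∧
      ∑ i, c i * (if ψ i = 1 then 1 else 0) = LinearMap.trace k V (P0 * b) := by
  obtain ⟨r, β, π, hπ1, hπ2, hπ3, hπ4⟩ := ge2 b
  have hRπ : ∀ i g, R g * π i = π i * R g := fun i g => hπ2 i (R g) (hb g)
  have hW : ∀ i, ∀ g, ∀ w ∈ LinearMap.range (π i), R g w ∈ LinearMap.range (π i) := by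
    rintro i g _ ⟨v, rfl⟩
    exact ⟨R g v, (LinearMap.congr_fun (hRπ i g) v).symm⟩
  have hU : ∀ i, ∀ x ∈ U, ∀ y ∈ U, rs R (LinearMap.range (π i)) (hW i) x * rs R (LinearMap.range (π i)) (hW i) y
      = rs R (LinearMap.range (π i)) (hW i) y * rs R (LinearMap.range (π i)) (hW i) x := by
    intro i x hx y hy
    rw [← map_mul, ← map_mul]
    refine LinearMap.ext fun w => Subtype.ext ?_
    rw [rs_apply, rs_apply]
    obtain ⟨v, hv⟩ := hπ3 i w.2
    have h5 : (b * R (y * x)) v = R (y * x) (w : V) := by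
      rw [← hb, ← hv]
      rfl
    have h6 : R (x * y) (w : V) = R (x * y * x⁻¹ * y⁻¹) (R (y * x) (w : V)) := by
      rw [← Module.End.mul_apply, ← map_mul]
      congr 2
      group
    rw [h6, ← h5]
    exact LinearMap.congr_fun (hc x hx y hy) (R (y * x) v)
  have hex : ∀ i, ∃ (m : ℕ) (H : Fin m → Subgroup Γ) (ψ : ∀ i, H i →* kˣ) (c : Fin m → k), (∀ i, U ≤ H i) ∧
      (∀ i, Cst R U (H i) (Nat.card (Γ ⧸ U)) (ψ i)) ∧
      (∀ g, LinearMap.trace k V (R g * π i) = ∑ i, c i * ind (H i) (fun h => (ψ i h : k)) g) ∧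
      ∑ i, c i * (if ψ i = 1 then 1 else 0) = LinearMap.trace k V (P0 * π i) := by
    intro i
    obtain ⟨W', hW'1, hW'2⟩ := ge3_compl R U hSS (LinearMap.range (π i)) (hW i)
    obtain ⟨m, H, ψ, c, q1, q2, q3, q4⟩ := ga9 (rs R (LinearMap.range (π i)) (hW i)) U (hU i) W' hW'1 hW'2
    refine ⟨m, H, ψ, c, q1, fun t => ge4_cst R _ (hW i) U (H t) _ (ψ t) (q2 t), fun g => ?_, ?_⟩
    · rw [← q3 g, ← ge3_trace (π i) (R g) (hπ1 i) (hRπ i g) (hW i g)]
      rfl
    · rw [q4]
      exact ge3_inv R (π i) P0 (hπ1 i) (hRπ i) h1 h2 h3 (hπ2 i P0 h4) (hW i)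
  choose m H ψ c q1 q2 q3 q4 using hex
  let e : (Σ i : Fin r, Fin (m i)) ≃ Fin (∑ i, m i) := finSigmaFinEquiv
  refine ⟨∑ i, m i, fun j => H (e.symm j).1 (e.symm j).2, fun j => ψ (e.symm j).1 (e.symm j).2,
    fun j => β (e.symm j).1 * c (e.symm j).1 (e.symm j).2, fun j => q1 _ _, fun j => q2 _ _, fun g => ?_, ?_⟩
  · rw [hπ4 (R g) (hb g)]
    rw [Equiv.sum_comp e.symm (fun z : (Σ i : Fin r, Fin (m i)) =>
      β z.1 * c z.1 z.2 * ind (H z.1 z.2) (fun h => (ψ z.1 z.2 h : k)) g)]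
    rw [Fintype.sum_sigma]
    refine Finset.sum_congr rfl fun i _ => ?_
    rw [q3 i g, Finset.mul_sum]
    exact Finset.sum_congr rfl fun t _ => (mul_assoc _ _ _).symm
  · rw [hπ4 P0 h4]
    rw [Equiv.sum_comp e.symm (fun z : (Σ i : Fin r, Fin (m i)) =>
      β z.1 * c z.1 z.2 * (if ψ z.1 z.2 = 1 then 1 else 0))]
    rw [Fintype.sum_sigma]
    refine Finset.sum_congr rfl fun i _ => ?_
    rw [← q4 i, Finset.mul_sum]
    exact Finset.sum_congr rfl fun t _ => mul_assoc _ _ _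

end H25G
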