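import Pool.Agent.Lib.H25G.GD4

/-! # H25G, chunk GE5: descent of projections -/

set_option autoImplicit false

open Matrix

namespace H25G

/-- (S) GE5a. A linear retraction of a field extension. Proof: C is a k-vector space through j, 1 is not 0: extend the linear map k 1 -> k (LinearMap.exists_leftInverse_of_injective for the map x -> j x). -/
theorem ge5_retr {k C : Type*} [Field k] [Field C] (j : k →+* C) : ∃ r : C →+ k, (∀ x z, r (j x * z) = x * r z) ∧ ∀ x, r (j x) = x := by
  let _ : Algebra k C := j.toAlgebra
  have hker : LinearMap.ker (Algebra.linearMap k C) = ⊥ := by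
    rw [LinearMap.ker_eq_bot]
    exact j.injective
  obtain ⟨g, hg⟩ := LinearMap.exists_leftInverse_of_injective (Algebra.linearMap k C) hker
  refine ⟨g.toAddMonoidHom, fun x z => ?_, fun x => ?_⟩
  · have h1 : j x * z = x • z := (Algebra.smul_def x z).symm
    change g (j x * z) = x * g z
    rw [h1, map_smul, smul_eq_mul]
  · exact LinearMap.congr_fun hg x

/-- (S/M) GE5. If over C every subspace stable under the matrices j(A_g) is the image of a projection commuting with them, the same holds over k.
Proof. W_C = span over C of the vectors j(w), w in W, is stable. π from hC. Put π' = r(π) entrywise. A_g π' = π' A_g and π' w = w for w in W by applying r to the equations with coefficients in j(k). For a linear form λ on k^J vanishing on W, j(λ) vanishes on W_C, so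
j(λ) π = 0, so λ π' = 0: the image of π' is in W (Submodule.dualAnnihilator / a vector not in W is detected by a linear form vanishing on W). -/
theorem ge5 {k C Γ J : Type*} [Field k] [Field C] [Fintype J] [DecidableEq J] (j : k →+* C) (A : Γ → Matrix J J k)
    (hC : ∀ W : Submodule C (J → C), (∀ g, ∀ w ∈ W, ((A g).map j).mulVec w ∈ W) →
      ∃ π : Matrix J J C, (∀ g, (A g).map j * π = π * (A g).map j) ∧ (∀ w ∈ W, π.mulVec w = w) ∧ ∀ v, π.mulVec v ∈ W)
    (W : Submodule k (J → k)) (hW : ∀ g, ∀ w ∈ W, (A g).mulVec w ∈ W) :
    ∃ π : Matrix J J k, (∀ g, A g * π = π * A g) ∧ (∀ w ∈ W, π.mulVec w = w) ∧ ∀ v, π.mulVec v ∈ W := by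
  obtain ⟨r, hr1, hr2⟩ := ge5_retr j
  have hr3 : ∀ x z, r (z * j x) = r z * x := fun x z => by rw [mul_comm, hr1, mul_comm]
  set WC : Submodule C (J → C) := Submodule.span C ((fun w : J → k => fun a => j (w a)) '' (W : Set (J → k))) with hWC
  have hmap : ∀ (B : Matrix J J k) (w : J → k), (B.map j).mulVec (fun a => j (w a)) = fun a => j (B.mulVec w a) := by
    intro B w
    ext a
    simp only [Matrix.mulVec, dotProduct, Matrix.map_apply, map_sum, map_mul]
  have hst : ∀ g, ∀ w ∈ WC, ((A g).map j).mulVec w ∈ WC := by
    intro g w hw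
    rw [hWC] at hw
    induction hw using Submodule.span_induction with
    | mem x hx =>
      obtain ⟨w, hw, rfl⟩ := hx
      rw [hmap]
      exact Submodule.subset_span ⟨_, hW g w hw, rfl⟩
    | zero =>
      rw [Matrix.mulVec_zero]
      exact WC.zero_mem
    | add x y _ _ hx hy =>
      rw [Matrix.mulVec_add]
      exact WC.add_mem hx hy
    | smul c x _ hx =>
      rw [Matrix.mulVec_smul]
      exact WC.smul_mem c hx
  obtain ⟨π, hπ1, hπ2, hπ3⟩ := hC WC hst
  refine ⟨π.map r, fun g => ?_, fun w hw => ?_, fun v => ?_⟩
  · ext a b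
    have h1 := congrArg r (congrFun (congrFun (hπ1 g) a) b)
    rw [Matrix.mul_apply, Matrix.mul_apply, map_sum, map_sum] at h1
    rw [Matrix.mul_apply, Matrix.mul_apply]
    simp only [Matrix.map_apply] at h1 ⊢
    simp only [hr1, hr3] at h1
    exact h1
  · ext a
    have h1 := congrArg r (congrFun (hπ2 _ (Submodule.subset_span ⟨w, hw, rfl⟩)) a)
    simp only [Matrix.mulVec, dotProduct, map_sum, hr3, hr2] at h1
    simp only [Matrix.mulVec, dotProduct, Matrix.map_apply]
    exact h1
  · by_contra hn
    obtain ⟨f, hf1, hf2⟩ := Submodule.exists_dual_map_eq_bot_of_notMem hn inferInstance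
    apply hf1
    have hf3 : ∀ w ∈ W, f w = 0 := by
      intro w hw
      have : f w ∈ W.map f := ⟨w, hw, rfl⟩
      rw [hf2, Submodule.mem_bot] at this
      exact this
    set q : J → k := fun a => f (Pi.single a 1) with hq
    have hfq : ∀ w : J → k, f w = ∑ a, q a * w a := by
      intro w
      conv_lhs => rw [pi_eq_sum_univ' w]
      rw [map_sum]
      refine Finset.sum_congr rfl fun a _ => ?_
      rw [map_smul, smul_eq_mul, mul_comm]
    have hC0 : ∀ z ∈ WC, ∑ a, j (q a) * z a = 0 := by
      intro z hz
      rw [hWC] at hz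
      induction hz using Submodule.span_induction with
      | mem x hx =>
        obtain ⟨w, hw, rfl⟩ := hx
        have := congrArg j (hf3 w hw)
        rw [hfq, map_sum, map_zero] at this
        simp only [map_mul] at this
        exact this
      | zero => simp
      | add x y _ _ hx hy =>
        simp only [Pi.add_apply, mul_add, Finset.sum_add_distrib]
        rw [hx, hy, add_zero]
      | smul c x _ hx =>
        have : ∑ a, j (q a) * (c • x) a = c * ∑ a, j (q a) * x a := by
          rw [Finset.mul_sum]
          refine Finset.sum_congr rfl fun a _ => ?_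
          rw [Pi.smul_apply, smul_eq_mul]
          ring
        rw [this, hx, mul_zero]
    have h1 := congrArg r (hC0 _ (hπ3 (fun a => j (v a))))
    rw [map_zero, map_sum] at h1
    rw [hfq, ← h1]
    refine Finset.sum_congr rfl fun a _ => ?_
    rw [hr1]
    congr 1
    simp only [Matrix.mulVec, dotProduct, Matrix.map_apply, map_sum, hr3]

end H25G
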