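import Pool.Agent.Lib.H25G.GF1
import Pool.Agent.Lib.H25G.GD2

/-! # H25G, chunk GE7: the unipotent part does not change the traces -/

set_option autoImplicit false

open Matrix

namespace H25G

variable {n : ℕ}

/-- (S/M) GE7a. u - 1 nilpotent implies that tT a u - 1 is nilpotent. Proof: the roots of the characteristic polynomial of u are 1 (u - 1 nilpotent), so by gf1 all eigenvalues of tT a u are 1; over the algebraically closed field C the characteristic polynomial
of tT a u is a power of X - 1, Cayley-Hamilton. -/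
theorem ge7_nil (a : ℕ) (u : GL (Fin n) ℂ) (hu : IsNilpotent ((u : Matrix (Fin n) (Fin n) ℂ) - 1)) : IsNilpotent (tT a u - 1) := by
  classical
  obtain ⟨N, hN⟩ := hu
  have h1 : ∀ α : ℂ, (u : Matrix (Fin n) (Fin n) ℂ).charpoly.IsRoot α → α = 1 := by
    intro α hα
    obtain ⟨v, hv, hv2⟩ := gf1_root' _ _ hα
    have h2 : ∀ k : ℕ, (((u : Matrix (Fin n) (Fin n) ℂ) - 1) ^ k).mulVec v = (α - 1) ^ k • v := by
      intro k
      induction k with
      | zero => rw [pow_zero, pow_zero, one_smul, Matrix.one_mulVec]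
      | succ k ih =>
        rw [pow_succ, ← Matrix.mulVec_mulVec, Matrix.sub_mulVec, hv2, Matrix.one_mulVec]
        have e : α • v - v = (α - 1) • v := by rw [sub_smul, one_smul]
        rw [e, Matrix.mulVec_smul, ih, smul_smul, pow_succ, mul_comm]
    have h3 := h2 N
    rw [hN, Matrix.zero_mulVec] at h3
    rcases smul_eq_zero.1 h3.symm with h4 | h4
    · by_contra hne
      exact pow_ne_zero N (sub_ne_zero.2 hne) h4
    · exact absurd h4 hv
  have h5 : ∀ c : ℂ, (tT a u).charpoly.IsRoot c → c = 1 := by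
    intro c hc
    obtain ⟨w, hw, hw2⟩ := gf1_root' _ _ hc
    obtain ⟨μ, hμ, hμ2⟩ := gf1 a u c w hw hw2
    rw [hμ]
    refine Finset.prod_eq_one fun t _ => ?_
    rcases hμ2 t with h6 | h6 | h6
    · exact h6
    · exact h1 _ h6
    · exact inv_eq_one.1 (h1 _ h6)
  have hmon := Matrix.charpoly_monic (tT a u)
  have hspl : (tT a u).charpoly.Splits := IsAlgClosed.splits _
  have hroots : (tT a u).charpoly.roots = Multiset.replicate (Multiset.card (tT a u).charpoly.roots) 1 := by
    rw [Multiset.eq_replicate]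
    refine ⟨rfl, fun c hc => h5 c ?_⟩
    exact (Polynomial.mem_roots hmon.ne_zero).1 hc
  have hprod : (tT a u).charpoly = (Polynomial.X - Polynomial.C 1) ^ (Multiset.card (tT a u).charpoly.roots) := by
    have h7 := hspl.eq_prod_roots_of_monic hmon
    rw [hroots, Multiset.map_replicate, Multiset.prod_replicate] at h7
    exact h7
  refine ⟨Multiset.card (tT a u).charpoly.roots, ?_⟩
  have h8 := Matrix.aeval_self_charpoly (tT a u)
  rw [hprod, map_pow, map_sub, Polynomial.aeval_X, Polynomial.aeval_C, map_one] at h8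
  exact h8


/-- (S/M) GE7. y in K, s = h y h^-1 with h in Zar K, u unipotent commuting with s, s u in Zar K, B commuting with tT a (Zar K): trace(tT a (s u) B) = trace(tT a y B).
Proof. u = s^-1 (s u) is in Zar K (gd1), so tT a u commutes with B and with tT a s. (tT a u - 1) (tT a s B) is nilpotent, trace 0. So trace(tT a (s u) B) = trace(tT a s B) = trace(tT a h tT a y tT a h^-1 B) = trace(tT a y B) since B commutes with tT a h. -/
theorem ge7 (K : Subgroup (GL (Fin n) ℂ)) (a : ℕ) (B : Matrix (Fin a → Jx n) (Fin a → Jx n) ℂ)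
    (hB : ∀ g ∈ Zar (K : Set (GL (Fin n) ℂ)), tT a g * B = B * tT a g) (y h u : GL (Fin n) ℂ) (hy : y ∈ K) (hh : h ∈ Zar (K : Set (GL (Fin n) ℂ)))
    (hu : IsNilpotent ((u : Matrix (Fin n) (Fin n) ℂ) - 1)) (hc : (h * y * h⁻¹) * u = u * (h * y * h⁻¹))
    (hz : (h * y * h⁻¹) * u ∈ Zar (K : Set (GL (Fin n) ℂ))) : trace (tT a ((h * y * h⁻¹) * u) * B) = trace (tT a y * B) := by
  have hs : h * y * h⁻¹ ∈ Zar (K : Set (GL (Fin n) ℂ)) := gd1_mul K _ _ (gd1_mul K _ _ hh (gd1_sub _ hy)) (gd1_invmem K _ hh)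
  have hu2 : u ∈ Zar (K : Set (GL (Fin n) ℂ)) := by
    have h1 := gd1_mul K _ _ (gd1_invmem K _ hs) hz
    rwa [inv_mul_cancel_left] at h1
  have hSU : tT a (h * y * h⁻¹) * tT a u = tT a u * tT a (h * y * h⁻¹) := by
    rw [← map_mul, hc, map_mul]
  have hSB := hB _ hs
  have hUB := hB _ hu2
  have hnil := ge7_nil a u hu
  have hcomm : Commute (tT a u - 1) (tT a (h * y * h⁻¹) * B) := by
    refine Commute.sub_left ?_ (Commute.one_left _)
    change tT a u * (tT a (h * y * h⁻¹) * B) = tT a (h * y * h⁻¹) * B * tT a u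
    calc tT a u * (tT a (h * y * h⁻¹) * B) = (tT a u * tT a (h * y * h⁻¹)) * B := (mul_assoc _ _ _).symm
      _ = (tT a (h * y * h⁻¹) * tT a u) * B := by rw [← hSU]
      _ = tT a (h * y * h⁻¹) * (tT a u * B) := mul_assoc _ _ _
      _ = tT a (h * y * h⁻¹) * (B * tT a u) := by rw [hUB]
      _ = tT a (h * y * h⁻¹) * B * tT a u := (mul_assoc _ _ _).symm
  have h2 : IsNilpotent ((tT a u - 1) * (tT a (h * y * h⁻¹) * B)) := hcomm.isNilpotent_mul_right hnil
  have h3 : trace ((tT a u - 1) * (tT a (h * y * h⁻¹) * B)) = 0 := (Matrix.isNilpotent_trace_of_isNilpotent h2).eq_zero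
  have h4 : trace (tT a (h * y * h⁻¹ * u) * B) = trace (tT a (h * y * h⁻¹) * B) := by
    rw [map_mul, hSU]
    rw [sub_mul, one_mul, Matrix.trace_sub, sub_eq_zero] at h3
    rw [mul_assoc]
    exact h3
  rw [h4, map_mul, map_mul]
  have h5 : tT a h⁻¹ * B * tT a h = B := by
    rw [mul_assoc, ← hB h hh, ← mul_assoc, ← map_mul, inv_mul_cancel, map_one, one_mul]
  have h6 : tT a h * tT a y * tT a h⁻¹ * B = tT a h * (tT a y * (tT a h⁻¹ * B)) := by
    simp only [mul_assoc]
  rw [h6, Matrix.trace_mul_comm, mul_assoc, h5]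


end H25G
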