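import Pool.Agent.Lib.H25G.HD

/-! # H25G, chunk HA1: a basis adapted to a subspace -/

set_option autoImplicit false

open Matrix

namespace H25G

variable {k : Type*} [Field k] {J : Type*} [Fintype J] [DecidableEq J]

/-- (M) HA1. Proof. C a complement of W (Submodule.exists_isCompl), bases of W and C indexed by Fin d and Fin d' (Module.finBasis), together a basis b of J -> k indexed by Fin d ⊕ Fin d' (Submodule.prodEquivOfIsCompl, Basis.prod; Basis.map).
Y = matrix with columns the basis vectors (Y i a = b a i), X a j = b.repr (Pi.single j 1) a. X Y = 1, Y X = 1 (Module.Basis.toMatrix_mul_toMatrix_flip with the standard basis Pi.basisFun: Y = (Pi.basisFun).toMatrix b, X = b.toMatrix (Pi.basisFun)).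
Lower left block: for a in Fin d', c in Fin d: (X A Y) a c = coordinate a of A b_c, b_c in W, A b_c in W, so its coordinates in Fin d' vanish. d + d' = card J: dimension. -/
theorem ha1 (W : Submodule k (J → k)) (h0 : W ≠ ⊥) (h1 : W ≠ ⊤) :
    ∃ (d d' : ℕ) (X : Matrix (Fin d ⊕ Fin d') J k) (Y : Matrix J (Fin d ⊕ Fin d') k), 0 < d ∧ 0 < d' ∧ d + d' = Fintype.card J ∧
      X * Y = 1 ∧ Y * X = 1 ∧ ∀ A : Matrix J J k, (∀ w ∈ W, A.mulVec w ∈ W) → (X * A * Y).toBlocks₂₁ = 0 := by
  classical
  obtain ⟨C, hC⟩ := Submodule.exists_isCompl W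
  let b : Module.Basis (Fin (Module.finrank k W) ⊕ Fin (Module.finrank k C)) k (J → k) :=
    ((Module.finBasis k W).prod (Module.finBasis k C)).map (Submodule.prodEquivOfIsCompl W C hC)
  have hCb : C ≠ ⊥ := by
    rintro rfl
    exact h1 (by simpa using hC.sup_eq_top)
  have hbl : ∀ c, b (Sum.inl c) ∈ W := by
    intro c
    have e : b (Sum.inl c) = ((Module.finBasis k W c : W) : J → k) := by
      simp only [b, Module.Basis.map_apply, Module.Basis.prod_apply, Sum.elim_inl, Function.comp_apply,
        LinearMap.inl_apply, Submodule.coe_prodEquivOfIsCompl', ZeroMemClass.coe_zero, add_zero]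
    rw [e]
    exact Submodule.coe_mem _
  have hrepr : ∀ (v : J → k), v ∈ W → ∀ a, b.repr v (Sum.inr a) = 0 := by
    intro v hv a
    have e : (Submodule.prodEquivOfIsCompl W C hC).symm v = (⟨v, hv⟩, 0) :=
      Submodule.prodEquivOfIsCompl_symm_apply_left W C hC ⟨v, hv⟩
    simp only [b, Module.Basis.map_repr, LinearEquiv.trans_apply, e, Module.Basis.prod_repr_inr]
    simp
  refine ⟨Module.finrank k W, Module.finrank k C, b.toMatrix (Pi.basisFun k J), (Pi.basisFun k J).toMatrix b,
    Submodule.one_le_finrank_iff.mpr h0, Submodule.one_le_finrank_iff.mpr hCb, ?_,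
    Module.Basis.toMatrix_mul_toMatrix_flip _ _, Module.Basis.toMatrix_mul_toMatrix_flip _ _, ?_⟩
  · rw [Submodule.finrank_add_eq_of_isCompl hC, Module.finrank_fintype_fun_eq_card]
  · intro A hA
    ext a c
    rw [Matrix.toBlocks₂₁, Matrix.of_apply, Matrix.zero_apply, Matrix.mul_assoc]
    have e1 : (b.toMatrix (Pi.basisFun k J) * (A * (Pi.basisFun k J).toMatrix b)) (Sum.inr a) (Sum.inl c) =
        (b.toMatrix (Pi.basisFun k J) *ᵥ (A *ᵥ b (Sum.inl c))) (Sum.inr a) := by
      rw [Matrix.mul_apply, Matrix.mulVec, dotProduct]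
      refine Finset.sum_congr rfl fun j _ => ?_
      congr 1
    have e2 := Module.Basis.toMatrix_mulVec_repr (Pi.basisFun k J) b (A *ᵥ b (Sum.inl c))
    have e3 : ((Pi.basisFun k J).repr (A *ᵥ b (Sum.inl c)) : J → k) = A *ᵥ b (Sum.inl c) := by
      funext j
      simp
    rw [e3] at e2
    rw [e1, e2]
    exact hrepr _ (hA _ (hbl c)) a

end H25G
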