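import Pool.Agent.Lib.H25G.HD

/-! # H25G, chunk HA2: irreducible families and direct sums -/

set_option autoImplicit false

open Matrix

namespace H25G

variable {k : Type*} [Field k] {J : Type*} [Fintype J] [DecidableEq J]

/-- (S/M) HA2a. An irreducible representation has property SSm.
Proof. Let I be a left ideal of the span consisting of nilpotent matrices, v a vector. I v = {a v : a in I} is a subspace stable under R x, so it is 0 or everything. If it is everything there is a in I with a v = v; then a^m v = v for all m, so v = 0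
(a nilpotent). So I v = 0 for all v (v = 0 is trivial): I = 0. -/
theorem ha2 {Γ : Type*} [Group Γ] (R : Γ →* Matrix J J k)
    (hirr : ∀ W : Submodule k (J → k), (∀ x, ∀ w ∈ W, (R x).mulVec w ∈ W) → W = ⊥ ∨ W = ⊤) : SSm (fun x => R x) := by
  intro I _ hst hnil
  have key : ∀ v : J → k, ∀ a ∈ I, a *ᵥ v = 0 := by
    intro v
    let φ : Matrix J J k →ₗ[k] (J → k) :=
      { toFun := fun a => a *ᵥ v
        map_add' := fun a b => Matrix.add_mulVec a b v
        map_smul' := fun c a => Matrix.smul_mulVec c a v }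
    have hφ : ∀ a, φ a = a *ᵥ v := fun _ => rfl
    have hW : ∀ x, ∀ w ∈ I.map φ, (R x) *ᵥ w ∈ I.map φ := by
      rintro x _ ⟨a, ha, rfl⟩
      refine ⟨R x * a, hst x a ha, ?_⟩
      rw [hφ, hφ, Matrix.mulVec_mulVec]
    rcases hirr (I.map φ) hW with h | h
    · intro a ha
      have h1 : φ a ∈ I.map φ := Submodule.mem_map_of_mem ha
      rw [h, Submodule.mem_bot] at h1
      exact h1
    · have h1 : v ∈ I.map φ := by
        rw [h]
        exact Submodule.mem_top
      obtain ⟨a, ha, hav⟩ := h1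
      rw [hφ] at hav
      have hpow : ∀ n : ℕ, a ^ n *ᵥ v = v := by
        intro n
        induction n with
        | zero => rw [pow_zero, Matrix.one_mulVec]
        | succ n ih => rw [pow_succ, ← Matrix.mulVec_mulVec, hav, ih]
      obtain ⟨n, hn⟩ := hnil a ha
      have hv : v = 0 := by rw [← hpow n, hn, Matrix.zero_mulVec]
      intro b _
      rw [hv, Matrix.mulVec_zero]
  rw [Submodule.eq_bot_iff]
  intro a ha
  ext i j
  have h1 := congrFun (key (Pi.single j 1) a ha) i
  rw [Matrix.mulVec_single_one] at h1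
  exact h1

/-- (S/M) HA2b. Direct sums.
Proof. I in the span of the fromBlocks (D1 x) 0 0 (D2 x): all elements of I are of the form fromBlocks a1 0 0 a2 (span induction). The image I1 of I under a -> a1 (toBlocks₁₁ as a linear map) is in the span of the D1 x, stable under left multiplication by D1 x,
and consists of nilpotent matrices ((fromBlocks a1 0 0 a2)^m = fromBlocks (a1^m) 0 0 (a2^m), fromBlocks_multiply). So I1 = 0, likewise I2 = 0, so I = 0. -/
theorem ha2_sum {Γ : Type*} {J1 J2 : Type*} [Fintype J1] [DecidableEq J1] [Fintype J2] [DecidableEq J2] (D1 : Γ → Matrix J1 J1 k) (D2 : Γ → Matrix J2 J2 k)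
    (h1 : SSm D1) (h2 : SSm D2) : SSm (fun x => Matrix.fromBlocks (D1 x) 0 0 (D2 x)) := by
  intro I hI hst hnil
  -- the elements are block diagonal
  have hdiag : ∀ a ∈ I, a = Matrix.fromBlocks a.toBlocks₁₁ 0 0 a.toBlocks₂₂ := by
    intro a ha
    refine Submodule.span_induction (p := fun a _ => a = Matrix.fromBlocks a.toBlocks₁₁ 0 0 a.toBlocks₂₂) ?_ ?_ ?_ ?_ (hI ha)
    · rintro _ ⟨x, rfl⟩
      rfl
    · ext i j
      rcases i with i | i <;> rcases j with j | j <;> rfl
    · intro a b _ _ h1 h2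
      rw [h1, h2, Matrix.fromBlocks_add]
      ext i j
      rcases i with i | i <;> rcases j with j | j <;> simp
    · intro c a _ h1
      rw [h1, Matrix.fromBlocks_smul]
      ext i j
      rcases i with i | i <;> rcases j with j | j <;> simp
  let T1 : Matrix (J1 ⊕ J2) (J1 ⊕ J2) k →ₗ[k] Matrix J1 J1 k :=
    { toFun := fun a => a.toBlocks₁₁
      map_add' := fun a b => rfl
      map_smul' := fun c a => rfl }
  let T2 : Matrix (J1 ⊕ J2) (J1 ⊕ J2) k →ₗ[k] Matrix J2 J2 k :=
    { toFun := fun a => a.toBlocks₂₂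
      map_add' := fun a b => rfl
      map_smul' := fun c a => rfl }
  have hT1 : ∀ a, T1 a = a.toBlocks₁₁ := fun _ => rfl
  have hT2 : ∀ a, T2 a = a.toBlocks₂₂ := fun _ => rfl
  have h11 : I.map T1 = ⊥ := by
    refine h1 (I.map T1) ?_ ?_ ?_
    · refine (Submodule.map_mono hI).trans ?_
      rw [Submodule.map_span]
      refine Submodule.span_mono ?_
      rintro _ ⟨_, ⟨x, rfl⟩, rfl⟩
      exact ⟨x, rfl⟩
    · rintro x _ ⟨a, ha, rfl⟩
      refine ⟨_, hst x a ha, ?_⟩
      rw [hT1, hT1, hdiag a ha, Matrix.fromBlocks_multiply, Matrix.toBlocks_fromBlocks₁₁, Matrix.toBlocks_fromBlocks₁₁,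
        Matrix.mul_zero, add_zero]
    · rintro _ ⟨a, ha, rfl⟩
      obtain ⟨n, hn⟩ := hnil a ha
      refine ⟨n, ?_⟩
      rw [hT1]
      rw [hdiag a ha, Matrix.fromBlocks_diagonal_pow] at hn
      have h3 := congrArg Matrix.toBlocks₁₁ hn
      rw [Matrix.toBlocks_fromBlocks₁₁] at h3
      rw [h3]
      rfl
  have h22 : I.map T2 = ⊥ := by
    refine h2 (I.map T2) ?_ ?_ ?_
    · refine (Submodule.map_mono hI).trans ?_
      rw [Submodule.map_span]
      refine Submodule.span_mono ?_
      rintro _ ⟨_, ⟨x, rfl⟩, rfl⟩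
      exact ⟨x, rfl⟩
    · rintro x _ ⟨a, ha, rfl⟩
      refine ⟨_, hst x a ha, ?_⟩
      rw [hT2, hT2, hdiag a ha, Matrix.fromBlocks_multiply, Matrix.toBlocks_fromBlocks₂₂, Matrix.toBlocks_fromBlocks₂₂,
        Matrix.mul_zero, zero_add]
    · rintro _ ⟨a, ha, rfl⟩
      obtain ⟨n, hn⟩ := hnil a ha
      refine ⟨n, ?_⟩
      rw [hT2]
      rw [hdiag a ha, Matrix.fromBlocks_diagonal_pow] at hn
      have h3 := congrArg Matrix.toBlocks₂₂ hn
      rw [Matrix.toBlocks_fromBlocks₂₂] at h3
      rw [h3]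
      rfl
  rw [Submodule.eq_bot_iff]
  intro a ha
  have e1 : a.toBlocks₁₁ = 0 := by
    have h3 : T1 a ∈ I.map T1 := Submodule.mem_map_of_mem ha
    rw [h11, Submodule.mem_bot] at h3
    exact h3
  have e2 : a.toBlocks₂₂ = 0 := by
    have h3 : T2 a ∈ I.map T2 := Submodule.mem_map_of_mem ha
    rw [h22, Submodule.mem_bot] at h3
    exact h3
  rw [hdiag a ha, e1, e2, Matrix.fromBlocks_zero]

end H25G
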