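import Pool.Agent.Lib.H25G.HA2

/-! # H25G, chunk HA3: gluing block triangular forms -/

set_option autoImplicit false

open Matrix

namespace H25G

variable {k : Type*} [Field k]

/-- (S/M) HA3. Gluing. Proof. b a natural number greater than all values of β1 (finite type). β = Sum.elim β1 (fun j => β2 j + b), X = fromBlocks X1 0 0 X2, Y = fromBlocks Y1 0 0 Y2. X (fromBlocks A B 0 C) Y = fromBlocks (X1 A Y1) (X1 B Y2) 0 (X2 C Y2)
(fromBlocks_multiply). Block triangular: cases (rows in J2, columns in J1: entry 0; rows in J1, columns in J2: β(column) > β(row)). bd β of it is fromBlocks (bd β1 ..) 0 0 (bd β2 ..) because β1 i ≠ β2 j + b. Then ha2_sum. -/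
theorem ha3 {Γ : Type*} {J1 J2 J1' J2' : Type} [Fintype J1] [DecidableEq J1] [Fintype J2] [DecidableEq J2] [Fintype J1'] [DecidableEq J1'] [Fintype J2'] [DecidableEq J2']
    (A : Γ → Matrix J1 J1 k) (B : Γ → Matrix J1 J2 k) (C : Γ → Matrix J2 J2 k)
    (X1 : Matrix J1' J1 k) (Y1 : Matrix J1 J1' k) (β1 : J1' → ℕ) (h1 : ∀ x, BlockTriangular (X1 * A x * Y1) β1) (s1 : SSm (fun x => bd β1 (X1 * A x * Y1)))
    (X2 : Matrix J2' J2 k) (Y2 : Matrix J2 J2' k) (β2 : J2' → ℕ) (h2 : ∀ x, BlockTriangular (X2 * C x * Y2) β2) (s2 : SSm (fun x => bd β2 (X2 * C x * Y2))) :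
    ∃ β : J1' ⊕ J2' → ℕ, (∀ x, BlockTriangular (fromBlocks X1 0 0 X2 * fromBlocks (A x) (B x) 0 (C x) * fromBlocks Y1 0 0 Y2) β) ∧
      SSm (fun x => bd β (fromBlocks X1 0 0 X2 * fromBlocks (A x) (B x) 0 (C x) * fromBlocks Y1 0 0 Y2)) := by
  classical
  obtain ⟨b, hb⟩ : ∃ b : ℕ, ∀ i, β1 i < b := by
    refine ⟨Finset.univ.sup β1 + 1, fun i => ?_⟩
    exact Nat.lt_succ_of_le (Finset.le_sup (f := β1) (Finset.mem_univ i))
  have hM : ∀ x, fromBlocks X1 0 0 X2 * fromBlocks (A x) (B x) 0 (C x) * fromBlocks Y1 0 0 Y2 =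
      fromBlocks (X1 * A x * Y1) (X1 * B x * Y2) 0 (X2 * C x * Y2) := by
    intro x
    rw [fromBlocks_multiply, fromBlocks_multiply]
    simp
  refine ⟨Sum.elim β1 (fun j => β2 j + b), fun x => ?_, ?_⟩
  · rw [hM]
    rintro (i | i) (j | j) hij
    · exact h1 x hij
    · have h3 : β2 j + b < β1 i := hij
      have := hb i
      omega
    · rfl
    · have h3 : β2 j + b < β2 i + b := hij
      exact h2 x (show β2 j < β2 i by omega)
  · have hfun : (fun x => bd (Sum.elim β1 (fun j => β2 j + b)) (fromBlocks X1 0 0 X2 * fromBlocks (A x) (B x) 0 (C x) * fromBlocks Y1 0 0 Y2)) =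
        fun x => fromBlocks (bd β1 (X1 * A x * Y1)) 0 0 (bd β2 (X2 * C x * Y2)) := by
      funext x
      rw [hM]
      ext i j
      rcases i with i | i <;> rcases j with j | j
      · rfl
      · rw [bd_apply]
        show (if β1 i = β2 j + b then _ else 0) = 0
        have := hb i
        rw [if_neg (by omega)]
      · rw [bd_apply]
        show (if β2 i + b = β1 j then (0 : k) else 0) = 0
        rw [ite_self]
      · rw [bd_apply]
        show (if β2 i + b = β2 j + b then (X2 * C x * Y2) i j else 0) = bd β2 (X2 * C x * Y2) i j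
        rw [bd_apply]
        by_cases h : β2 i = β2 j
        · rw [if_pos h, if_pos (by omega)]
        · rw [if_neg h, if_neg (by omega)]
    rw [hfun]
    exact ha2_sum _ _ s1 s2

end H25G
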