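import Pool.Agent.Lib.H25G.HA1
import Pool.Agent.Lib.H25G.HA3

/-! # H25G, chunk HA4: block triangular form with semisimple block diagonal part (composition series) -/

set_option autoImplicit false

open Matrix

namespace H25G

variable {k : Type*} [Field k]

/-- The diagonal blocks of a block triangular representation. -/
theorem ha4_blocks {Γ : Type*} [Group Γ] {J1 J2 : Type*} [Fintype J1] [DecidableEq J1] [Fintype J2] [DecidableEq J2] (T : Γ →* Matrix (J1 ⊕ J2) (J1 ⊕ J2) k)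
    (h : ∀ x, (T x).toBlocks₂₁ = 0) : ∃ (R1 : Γ →* Matrix J1 J1 k) (R2 : Γ →* Matrix J2 J2 k) (B : Γ → Matrix J1 J2 k),
      ∀ x, T x = fromBlocks (R1 x) (B x) 0 (R2 x) := by
  have h1 : ∀ x, T x = fromBlocks (T x).toBlocks₁₁ (T x).toBlocks₁₂ 0 (T x).toBlocks₂₂ := fun x => by
    conv_lhs => rw [← Matrix.fromBlocks_toBlocks (T x), h x]
  have h2 : ∀ x y, fromBlocks (T (x * y)).toBlocks₁₁ (T (x * y)).toBlocks₁₂ 0 (T (x * y)).toBlocks₂₂ =
      fromBlocks ((T x).toBlocks₁₁ * (T y).toBlocks₁₁) ((T x).toBlocks₁₁ * (T y).toBlocks₁₂ + (T x).toBlocks₁₂ * (T y).toBlocks₂₂) 0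
        ((T x).toBlocks₂₂ * (T y).toBlocks₂₂) := fun x y => by
    rw [← h1, map_mul]
    conv_lhs => rw [h1 x, h1 y, fromBlocks_multiply]
    simp
  have h3 : fromBlocks (T 1).toBlocks₁₁ (T 1).toBlocks₁₂ 0 (T 1).toBlocks₂₂ = fromBlocks 1 0 0 1 := by
    rw [← h1, map_one, fromBlocks_one]
  refine ⟨⟨⟨fun x => (T x).toBlocks₁₁, ?_⟩, ?_⟩, ⟨⟨fun x => (T x).toBlocks₂₂, ?_⟩, ?_⟩, fun x => (T x).toBlocks₁₂, h1⟩
  · exact (fromBlocks_inj.1 h3).1
  · intro x y
    exact (fromBlocks_inj.1 (h2 x y)).1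
  · exact (fromBlocks_inj.1 h3).2.2.2
  · intro x y
    exact (fromBlocks_inj.1 (h2 x y)).2.2.2

theorem ha4_bd {J : Type*} (M : Matrix J J k) : bd (fun _ => 0) M = M := by
  ext i j
  rw [bd_apply, if_pos rfl]

/-- (M) HA4. Proof. Induction on n. If R is irreducible (no stable subspace except 0 and everything): J' = J, X = Y = 1, β = 0 (BlockTriangular trivial, bd 0 M = M), ha2. Otherwise W stable with 0 ≠ W ≠ everything, ha1: d, d', X0, Y0;
X0 R(x) Y0 = fromBlocks (R1 x) (B x) 0 (R2 x) (Matrix.fromBlocks_toBlocks); x -> X0 R(x) Y0 is multiplicative (Y0 X0 = 1) and R(1) -> 1, so R1, R2 are homomorphisms Γ →* Matrix (fromBlocks_multiply, toBlocks). d < card J and d' < card J,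
so the induction hypothesis gives J1', X1, Y1, β1 and J2', X2, Y2, β2. J' = J1' ⊕ J2', X = fromBlocks X1 0 0 X2 * X0, Y = Y0 * fromBlocks Y1 0 0 Y2, β from ha3. -/
theorem ha4 {Γ : Type*} [Group Γ] (n : ℕ) : ∀ (J : Type) [Fintype J] [DecidableEq J], Fintype.card J ≤ n → ∀ R : Γ →* Matrix J J k,
    ∃ (J' : Type) (_ : Fintype J') (_ : DecidableEq J') (X : Matrix J' J k) (Y : Matrix J J' k) (β : J' → ℕ), X * Y = 1 ∧ Y * X = 1 ∧
      (∀ x, BlockTriangular (X * R x * Y) β) ∧ SSm (fun x => bd β (X * R x * Y)) := by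
  induction n using Nat.strong_induction_on with
  | _ n ih =>
    intro J _ _ hJ R
    by_cases hirr : ∀ W : Submodule k (J → k), (∀ x, ∀ w ∈ W, (R x).mulVec w ∈ W) → W = ⊥ ∨ W = ⊤
    · refine ⟨J, inferInstance, inferInstance, 1, 1, fun _ => 0, mul_one _, mul_one _, fun x => ?_, ?_⟩
      · intro i j hij
        exact absurd hij (lt_irrefl _)
      · have h1 : (fun x => bd (fun _ => 0) (1 * R x * 1 : Matrix J J k)) = fun x => R x := by
          funext x
          rw [ha4_bd, one_mul, mul_one]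
        rw [h1]
        exact ha2 R hirr
    · push Not at hirr
      obtain ⟨W, hW, hW0, hW1⟩ := hirr
      obtain ⟨d, d', X0, Y0, hd, hd', hdd, hXY, hYX, hA⟩ := ha1 W hW0 hW1
      let T : Γ →* Matrix (Fin d ⊕ Fin d') (Fin d ⊕ Fin d') k :=
        { toFun := fun x => X0 * R x * Y0
          map_one' := by rw [map_one, Matrix.mul_one, hXY]
          map_mul' := fun x y => by
            rw [map_mul, Matrix.mul_assoc (X0 * R x) Y0, ← Matrix.mul_assoc Y0, ← Matrix.mul_assoc Y0, hYX, Matrix.one_mul, Matrix.mul_assoc, Matrix.mul_assoc, Matrix.mul_assoc] }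
      obtain ⟨R1, R2, B, hT⟩ := ha4_blocks T (fun x => hA (R x) (hW x))
      obtain ⟨J1, i1, i1', X1, Y1, β1, a1, b1, c1, s1⟩ := ih (n - 1) (by omega) (Fin d) (by rw [Fintype.card_fin]; omega) R1
      obtain ⟨J2, i2, i2', X2, Y2, β2, a2, b2, c2, s2⟩ := ih (n - 1) (by omega) (Fin d') (by rw [Fintype.card_fin]; omega) R2
      obtain ⟨β, h1, h2⟩ := ha3 (fun x => R1 x) B (fun x => R2 x) X1 Y1 β1 c1 s1 X2 Y2 β2 c2 s2
      have hX : ∀ x, fromBlocks X1 0 0 X2 * fromBlocks (R1 x) (B x) 0 (R2 x) * fromBlocks Y1 0 0 Y2 =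
          (fromBlocks X1 0 0 X2 * X0) * R x * (Y0 * fromBlocks Y1 0 0 Y2) := fun x => by
        rw [← hT x]
        change fromBlocks X1 0 0 X2 * (X0 * R x * Y0) * fromBlocks Y1 0 0 Y2 = _
        simp only [Matrix.mul_assoc]
      refine ⟨J1 ⊕ J2, inferInstance, inferInstance, fromBlocks X1 0 0 X2 * X0, Y0 * fromBlocks Y1 0 0 Y2, β, ?_, ?_, fun x => ?_, ?_⟩
      · rw [Matrix.mul_assoc, ← Matrix.mul_assoc X0, hXY, Matrix.one_mul, fromBlocks_multiply]
        simp [a1, a2]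
      · rw [Matrix.mul_assoc, ← Matrix.mul_assoc (fromBlocks Y1 0 0 Y2), fromBlocks_multiply]
        simp [b1, b2, hYX]
      · rw [← hX x]
        exact h1 x
      · have h3 : (fun x => bd β (fromBlocks X1 0 0 X2 * X0 * R x * (Y0 * fromBlocks Y1 0 0 Y2))) =
            fun x => bd β (fromBlocks X1 0 0 X2 * fromBlocks (R1 x) (B x) 0 (R2 x) * fromBlocks Y1 0 0 Y2) := by
          funext x
          rw [hX x]
        rw [h3]
        exact h2

end H25G
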