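import Pool.Agent.Lib.H25G.HA4

/-! # H25G, chunk HA5: block triangular form in GL_n -/

set_option autoImplicit false

open Matrix

namespace H25G

variable {k : Type*} [Field k] {n : ℕ}

theorem ha5_ss {Γ J J' : Type*} [Fintype J] [DecidableEq J] [Fintype J'] [DecidableEq J'] (e : J ≃ J') (D : Γ → Matrix J' J' k) (h : SSm D) :
    SSm (fun x => (D x).submatrix e e) := by
  intro I hI hl hn
  let φ : Matrix J' J' k ≃ₐ[k] Matrix J J k := Matrix.reindexAlgEquiv k k e.symm
  have hφ : ∀ a, φ a = a.submatrix e e := fun a => rfl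
  have h1 : I.comap φ.toLinearMap = ⊥ := by
    refine h _ ?_ ?_ ?_
    · intro a ha
      have h2 : φ a ∈ Submodule.span k (Set.range fun x => (D x).submatrix e e) := hI ha
      have h3 : (Set.range fun x => (D x).submatrix e e) = φ.toLinearMap '' (Set.range D) := by
        rw [← Set.range_comp]
        rfl
      rw [h3, Submodule.span_image] at h2
      obtain ⟨b, hb, hb2⟩ := h2
      have h4 : b = a := φ.injective hb2
      rwa [h4] at hb
    · intro x a ha
      change φ (D x * a) ∈ I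
      rw [map_mul]
      exact hl x _ ha
    · intro a ha
      obtain ⟨r, hr⟩ := hn (φ a) ha
      refine ⟨r, ?_⟩
      rw [← map_pow] at hr
      exact φ.injective (by rw [hr, map_zero])
  rw [Submodule.eq_bot_iff]
  intro a ha
  have h2 : φ.symm a ∈ I.comap φ.toLinearMap := by
    change φ (φ.symm a) ∈ I
    rw [φ.apply_symm_apply]
    exact ha
  rw [h1, Submodule.mem_bot] at h2
  have h3 := congrArg φ h2
  rwa [φ.apply_symm_apply, map_zero] at h3

/-- (S/M) HA5. Proof. ha4 for J = Fin n and R x = the matrix of ρ x (Units.coeHom). card J' = n (X Y = 1, Y X = 1: trace or rank; Matrix.card_eq_of_mul... or the linear equivalence of (J' → k) and (Fin n → k) given by X and Y). e : Fin n ≃ J'.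
g = the matrix X.submatrix e id (a unit with inverse Y.submatrix id e), β' = β ∘ e. g ρ(x) g^-1 = (X ρ(x) Y).submatrix e e; BlockTriangular.submatrix; bd (β ∘ e) (M.submatrix e e) = (bd β M).submatrix e e; SSm is invariant under the
linear (and multiplicative) equivalence Matrix.reindexAlgEquiv / submatrix e e: transport the left ideal I. -/
theorem ha5 {Γ : Type*} [Group Γ] (ρ : Γ →* GL (Fin n) k) : ∃ (g : GL (Fin n) k) (β : Fin n → ℕ),
    (∀ x, BlockTriangular ((g * ρ x * g⁻¹ : GL (Fin n) k) : Matrix (Fin n) (Fin n) k) β) ∧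
    SSm (fun x => bd β ((g * ρ x * g⁻¹ : GL (Fin n) k) : Matrix (Fin n) (Fin n) k)) := by
  obtain ⟨J', i1, i2, X, Y, β, h1, h2, h3, h4⟩ := ha4 (k := k) n (Fin n) (by rw [Fintype.card_fin]) ((Units.coeHom (Matrix (Fin n) (Fin n) k)).comp ρ)
  have hc : Fintype.card J' = n := by
    have h5 := (Matrix.toLin'OfInv h1 h2).finrank_eq
    rw [Module.finrank_fintype_fun_eq_card, Module.finrank_fintype_fun_eq_card, Fintype.card_fin] at h5
    omega
  let e : Fin n ≃ J' := (Fintype.equivFinOfCardEq hc).symm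
  have hg1 : X.submatrix e (Equiv.refl (Fin n)) * Y.submatrix (Equiv.refl (Fin n)) e = 1 := by
    rw [Matrix.submatrix_mul_equiv, h1, Matrix.submatrix_one_equiv]
  have hg2 : Y.submatrix (Equiv.refl (Fin n)) e * X.submatrix e (Equiv.refl (Fin n)) = 1 := by
    rw [Matrix.submatrix_mul_equiv, h2]
    exact Matrix.submatrix_one_equiv (Equiv.refl (Fin n))
  let g : GL (Fin n) k := ⟨X.submatrix e (Equiv.refl (Fin n)), Y.submatrix (Equiv.refl (Fin n)) e, hg1, hg2⟩
  have hg : ∀ x, ((g * ρ x * g⁻¹ : GL (Fin n) k) : Matrix (Fin n) (Fin n) k) = (X * (ρ x : Matrix (Fin n) (Fin n) k) * Y).submatrix e e := by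
    intro x
    change X.submatrix e (Equiv.refl (Fin n)) * ((ρ x : Matrix (Fin n) (Fin n) k).submatrix (Equiv.refl (Fin n)) (Equiv.refl (Fin n))) * Y.submatrix (Equiv.refl (Fin n)) e = _
    rw [Matrix.submatrix_mul_equiv, Matrix.submatrix_mul_equiv]
  have hbd : ∀ x, bd (β ∘ e) ((g * ρ x * g⁻¹ : GL (Fin n) k) : Matrix (Fin n) (Fin n) k) = (bd β (X * (ρ x : Matrix (Fin n) (Fin n) k) * Y)).submatrix e e := by
    intro x
    rw [hg x]
    rfl
  refine ⟨g, β ∘ e, fun x => ?_, ?_⟩
  · rw [hg x]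
    exact (h3 x).submatrix
  · have h5 : (fun x => bd (β ∘ e) ((g * ρ x * g⁻¹ : GL (Fin n) k) : Matrix (Fin n) (Fin n) k)) =
        fun x => (bd β (X * (ρ x : Matrix (Fin n) (Fin n) k) * Y)).submatrix e e := funext hbd
    rw [h5]
    exact ha5_ss e _ h4

end H25G
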