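import Pool.Agent.Lib.H25G.HD

/-! # H25G, chunk HB1: characteristic polynomial and unipotence of the block diagonal part -/

set_option autoImplicit false

open Matrix

namespace H25G

variable {k : Type*} [Field k] {J : Type*} [Fintype J] [DecidableEq J]

/-- (S) HB1a. Proof: Mathlib Matrix.BlockTriangular.charpoly for M and for bd β M (which is block triangular); the square blocks are equal. -/
theorem hb1_charpoly (β : J → ℕ) (M : Matrix J J k) (h : BlockTriangular M β) : (bd β M).charpoly = M.charpoly := by
  have h1 : BlockTriangular (bd β M) β := fun i j hij => by rw [bd_apply, if_neg (ne_of_gt hij)]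
  rw [h1.charpoly, h.charpoly]
  refine Finset.prod_congr rfl fun a _ => ?_
  congr 1
  ext i j
  have hi : β i = a := i.2
  have hj : β j = a := j.2
  change bd β M i j = M i j
  rw [bd_apply, if_pos (hi.trans hj.symm)]

/-- (S) HB1b. If M is block triangular and bd β M = 1 then M - 1 is nilpotent. Proof: M - 1 is block triangular, bd β (M - 1) = 0, so by hb1_charpoly the characteristic polynomial of M - 1 is that of 0, X^card J; Cayley-Hamilton (Matrix.aeval_self_charpoly). -/
theorem hb1_unip (β : J → ℕ) (M : Matrix J J k) (h : BlockTriangular M β) (h1 : bd β M = 1) : IsNilpotent (M - 1) := by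
  have h2 : BlockTriangular (M - 1) β := h.sub blockTriangular_one
  have h3 : bd β (M - 1) = 0 := by
    ext i j
    have h4 := congrFun (congrFun h1 i) j
    rw [bd_apply] at h4
    rw [bd_apply, Matrix.zero_apply]
    split_ifs with hij
    · rw [if_pos hij] at h4
      rw [Matrix.sub_apply, h4, sub_self]
    · rfl
  have h5 := hb1_charpoly β _ h2
  rw [h3, Matrix.charpoly_zero] at h5
  have h6 := Matrix.aeval_self_charpoly (M - 1)
  rw [← h5, map_pow, Polynomial.aeval_X] at h6
  exact ⟨_, h6⟩

/-- (S) HB1c. If M is block triangular and M - 1 is nilpotent then bd β M - 1 is nilpotent. Proof: bd_mul: bd β ((M - 1)^m) = (bd β M - 1)^m (BlockTriangular.pow; bd is additive, bd_one). -/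
theorem hb1_nil (β : J → ℕ) (M : Matrix J J k) (h : BlockTriangular M β) (h1 : IsNilpotent (M - 1)) : IsNilpotent (bd β M - 1) := by
  have h2 : BlockTriangular (M - 1) β := h.sub blockTriangular_one
  have h3 : bd β (M - 1) = bd β M - 1 := by
    have h4 := bd_one (k := k) β
    ext i j
    have h5 := congrFun (congrFun h4 i) j
    rw [bd_apply] at h5
    rw [Matrix.sub_apply, bd_apply, bd_apply, Matrix.sub_apply, ← h5]
    split_ifs <;> simp
  have h4 : ∀ r : ℕ, bd β ((M - 1) ^ r) = (bd β M - 1) ^ r := by
    intro r
    induction r with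
    | zero => rw [pow_zero, pow_zero, bd_one]
    | succ r ih => rw [pow_succ, pow_succ, bd_mul β _ _ (h2.pow r) h2, ih, h3]
  obtain ⟨r, hr⟩ := h1
  refine ⟨r, ?_⟩
  rw [← h4, hr]
  ext i j
  rw [bd_apply, Matrix.zero_apply]
  split_ifs <;> rfl

end H25G
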