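import Pool.Agent.Lib.H25G.HD

/-! # H25G, chunk HB2: the block diagonal part and Zariski closures -/

set_option autoImplicit false

open Matrix

namespace H25G

variable {k : Type*} [Field k] {n : ℕ}

/-- The entries of g x g^-1 and of its inverse as regular functions of x. -/
noncomputable def hb2_ent (g : GL (Fin n) k) (c : Fin n × Fin n → Vr n) (i j : Fin n) : MvPolynomial (Vr n) k :=
  ∑ l' : Fin n, (∑ l : Fin n, MvPolynomial.C ((g : Matrix (Fin n) (Fin n) k) i l) * MvPolynomial.X (c (l, l'))) *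
    MvPolynomial.C (((g⁻¹ : GL (Fin n) k) : Matrix (Fin n) (Fin n) k) l' j)

theorem hb2_ent_inl (g : GL (Fin n) k) (i j : Fin n) (x : GL (Fin n) k) :
    MvPolynomial.eval (gd1_pt x) (hb2_ent g Sum.inl i j) = ((g * x * g⁻¹ : GL (Fin n) k) : Matrix (Fin n) (Fin n) k) i j := by
  simp [hb2_ent, gd1_pt, Matrix.mul_apply]

theorem hb2_ent_inr (g : GL (Fin n) k) (i j : Fin n) (x : GL (Fin n) k) :
    MvPolynomial.eval (gd1_pt x) (hb2_ent g Sum.inr i j) = ((g * x⁻¹ * g⁻¹ : GL (Fin n) k) : Matrix (Fin n) (Fin n) k) i j := by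
  simp [hb2_ent, gd1_pt, Matrix.mul_apply]

/-- (S/M) HB2a. The closure of a subset of Pb is in Pb. Proof: the entries of g x g^-1 and g x^-1 g^-1 with β j < β i are regular functions of x (gd1_left, gd1_right, gd1_inv applied to the variables X (Sum.inl (i, j))), they vanish on A. -/
theorem hb2_mem (g : GL (Fin n) k) (β : Fin n → ℕ) (A : Set (GL (Fin n) k)) (hA : ∀ x ∈ A, x ∈ Pb g β) (x : GL (Fin n) k) (hx : x ∈ Zar A) : x ∈ Pb g β := by
  rw [mem_Pb]
  constructor
  · intro i j hij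
    rw [← hb2_ent_inl, ← gd1_rg]
    refine hx _ fun a ha => ?_
    rw [gd1_rg, hb2_ent_inl]
    exact ((mem_Pb g β a).1 (hA a ha)).1 hij
  · intro i j hij
    rw [← hb2_ent_inr, ← gd1_rg]
    refine hx _ fun a ha => ?_
    rw [gd1_rg, hb2_ent_inr]
    exact ((mem_Pb g β a).1 (hA a ha)).2 hij

/-- (S/M) HB2b. dg maps the closure of A into the closure of the image. Proof: for a regular function f there is f' with rg f' x = rg f (dg g β x) for all x in Pb: gd1_bind style: the entries of dg(x) are sum_{l,l'} g_il x_ll' (g^-1)_l'j if β i = β j and 0 otherwise,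
those of its inverse (dg_inv) the same with x^-1: substitute (MvPolynomial.bind₁ with Sum.elim, as in gd1_left). If f vanishes on the image of A, f' vanishes on A, so at x. -/
theorem hb2 (g : GL (Fin n) k) (β : Fin n → ℕ) (A : Set (GL (Fin n) k)) (hA : ∀ x ∈ A, x ∈ Pb g β) (x : GL (Fin n) k) (hx : x ∈ Zar A) (hx' : x ∈ Pb g β) :
    dg g β ⟨x, hx'⟩ ∈ Zar {y | ∃ (a : GL (Fin n) k) (ha : a ∈ Pb g β), a ∈ A ∧ y = dg g β ⟨a, ha⟩} := by
  classical
  intro f hf
  let s : Vr n → MvPolynomial (Vr n) k := Sum.elim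
    (fun ij => if β ij.1 = β ij.2 then hb2_ent g Sum.inl ij.1 ij.2 else 0)
    (fun ij => if β ij.1 = β ij.2 then hb2_ent g Sum.inr ij.1 ij.2 else 0)
  have hs : ∀ (a : GL (Fin n) k) (ha : a ∈ Pb g β), rg (MvPolynomial.bind₁ s f) a = rg f (dg g β ⟨a, ha⟩) := by
    intro a ha
    refine gd1_bind f s a (dg g β ⟨a, ha⟩) ?_
    rintro (ij | ij)
    · change MvPolynomial.eval (gd1_pt a) (if β ij.1 = β ij.2 then hb2_ent g Sum.inl ij.1 ij.2 else 0) =
        (dg g β ⟨a, ha⟩ : Matrix (Fin n) (Fin n) k) ij.1 ij.2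
      rw [dg_val, bd_apply]
      split_ifs
      · exact hb2_ent_inl g _ _ a
      · exact map_zero _
    · change MvPolynomial.eval (gd1_pt a) (if β ij.1 = β ij.2 then hb2_ent g Sum.inr ij.1 ij.2 else 0) =
        (((dg g β ⟨a, ha⟩)⁻¹ : GL (Fin n) k) : Matrix (Fin n) (Fin n) k) ij.1 ij.2
      rw [dg_inv, bd_apply]
      split_ifs
      · exact hb2_ent_inr g _ _ a
      · exact map_zero _
  rw [← hs x hx']
  refine hx _ fun a ha => ?_
  rw [hs a (hA a ha)]
  exact hf _ ⟨a, hA a ha, ha, rfl⟩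

end H25G
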