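import Pool.Agent.Lib.H25G.HD

/-! # H25G, chunk HC1: semisimple families have a nondegenerate trace form -/

set_option autoImplicit false

open Matrix

namespace H25G

variable {k : Type*} [Field k] {J : Type*} [Fintype J] [DecidableEq J]

/-- (S/M) HC1a. A matrix a with trace(a q(a)) = 0 for all polynomials q is nilpotent (characteristic 0). Proof (Fitting): p = minimal polynomial (or characteristic polynomial) of a, p = X^m g with g(0) not 0 (Polynomial.exists_eq_pow_rootMultiplicity_mul_and_not_dvd
for the root 0). X^(m+1) and g are coprime: u X^(m+1) + v g = 1. e = u(a) a^(m+1) is idempotent (e (1 - e) = u(a) v(a) a^(m+1) g(a) = 0) and e = a q(a), so trace e = 0; the trace of an idempotent matrix is its rank (LinearMap.IsProj.trace /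
LinearMap.IsIdempotentElem...; Matrix.toLin') so, in characteristic 0, e = 0; then v(a) g(a) = 1 and a^m = a^m v(a) g(a) = 0 (if m = 0 this also holds: p = g). -/
theorem hc1_nil [CharZero k] (a : Matrix J J k) (h : ∀ q : Polynomial k, trace (a * Polynomial.aeval a q) = 0) : IsNilpotent a := by
  obtain ⟨g, hg, hX⟩ := Polynomial.exists_eq_pow_rootMultiplicity_mul_and_not_dvd a.charpoly
    (Matrix.charpoly_monic a).ne_zero 0
  rw [Polynomial.C_0, sub_zero] at hg hX
  set m := Polynomial.rootMultiplicity 0 a.charpoly with hm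
  have hcop : IsCoprime (Polynomial.X ^ (m + 1)) g :=
    IsCoprime.pow_left ((Polynomial.irreducible_X.coprime_iff_not_dvd).mpr hX)
  obtain ⟨u, v, huv⟩ := hcop
  have hp0 : Polynomial.aeval a (Polynomial.X ^ m * g) = 0 := by
    rw [← hg]
    exact Matrix.aeval_self_charpoly a
  have h1 : Polynomial.aeval a (u * Polynomial.X ^ (m + 1)) + Polynomial.aeval a (v * g) = 1 := by
    rw [← map_add, huv, map_one]
  have h2 : Polynomial.aeval a (u * Polynomial.X ^ (m + 1)) * Polynomial.aeval a (v * g) = 0 := by
    rw [← map_mul]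
    have e : u * Polynomial.X ^ (m + 1) * (v * g) = u * v * Polynomial.X * (Polynomial.X ^ m * g) := by ring
    rw [e, map_mul, hp0, mul_zero]
  have hid : IsIdempotentElem (Polynomial.aeval a (u * Polynomial.X ^ (m + 1))) := by
    have e : Polynomial.aeval a (u * Polynomial.X ^ (m + 1)) =
        Polynomial.aeval a (u * Polynomial.X ^ (m + 1)) *
          (Polynomial.aeval a (u * Polynomial.X ^ (m + 1)) + Polynomial.aeval a (v * g)) := by
      rw [h1, mul_one]
    rw [mul_add, h2, add_zero] at e
    exact e.symm
  have htr : trace (Polynomial.aeval a (u * Polynomial.X ^ (m + 1))) = 0 := by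
    have e : u * Polynomial.X ^ (m + 1) = Polynomial.X * (u * Polynomial.X ^ m) := by ring
    rw [e, map_mul, Polynomial.aeval_X]
    exact h _
  have hzero : Polynomial.aeval a (u * Polynomial.X ^ (m + 1)) = 0 := by
    generalize Polynomial.aeval a (u * Polynomial.X ^ (m + 1)) = e at hid htr
    have hid2 : IsIdempotentElem (Matrix.toLin' e) := by
      change Matrix.toLin' e * Matrix.toLin' e = Matrix.toLin' e
      rw [Module.End.mul_eq_comp, ← Matrix.toLin'_mul, hid.eq]
    have hpr := (LinearMap.isProj_range_iff_isIdempotentElem (Matrix.toLin' e)).mpr hid2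
    have h3 := hpr.trace
    rw [Matrix.trace_toLin'_eq, htr] at h3
    have h4 : Module.finrank k (LinearMap.range (Matrix.toLin' e)) = 0 := by exact_mod_cast h3.symm
    have h5 : LinearMap.range (Matrix.toLin' e) = ⊥ := Submodule.finrank_eq_zero.mp h4
    have h6 : Matrix.toLin' e = 0 := LinearMap.range_eq_bot.mp h5
    rw [← LinearMap.toMatrix'_toLin' e, h6, map_zero]
  rw [hzero, zero_add] at h1
  refine ⟨m, ?_⟩
  have h7 : a ^ m = Polynomial.aeval a (Polynomial.X ^ m : Polynomial k) * Polynomial.aeval a (v * g) := by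
    rw [h1, mul_one, map_pow, Polynomial.aeval_X]
  rw [h7, ← map_mul]
  have e : Polynomial.X ^ m * (v * g) = v * (Polynomial.X ^ m * g) := by ring
  rw [e, map_mul, hp0, mul_zero]

/-- (S/M) HC1. Proof. I = {a in the span A of the D x : trace(a D y) = 0 for all y}. A is closed under products and contains 1 = D 1 (D x D y = D (xy)), so it contains D x a and the q(a). I is stable under left multiplication: trace(D x a D y) = trace(a D(y x)) = 0.
a in I: trace(a b) = 0 for all b in A, so a is nilpotent by hc1_nil. SSm: I = 0. -/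
theorem hc1 [CharZero k] {Γ : Type*} [Group Γ] (D : Γ → Matrix J J k) (h1 : D 1 = 1) (hm : ∀ x y, D (x * y) = D x * D y) (h : SSm D) : TSm D := by
  have hmul : ∀ a ∈ Submodule.span k (Set.range D), ∀ b ∈ Submodule.span k (Set.range D),
      a * b ∈ Submodule.span k (Set.range D) := by
    intro a ha b hb
    have h2 : a * b ∈ Submodule.span k (Set.range D) * Submodule.span k (Set.range D) :=
      Submodule.mul_mem_mul ha hb
    rw [Submodule.span_mul_span] at h2
    refine Submodule.span_mono ?_ h2
    rintro _ ⟨_, ⟨x, rfl⟩, _, ⟨y, rfl⟩, rfl⟩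
    exact ⟨x * y, hm x y⟩
  have hD : ∀ x, D x ∈ Submodule.span k (Set.range D) := fun x => Submodule.subset_span ⟨x, rfl⟩
  have hone : (1 : Matrix J J k) ∈ Submodule.span k (Set.range D) := by
    rw [← h1]
    exact hD 1
  have hpow : ∀ a ∈ Submodule.span k (Set.range D), ∀ i : ℕ, a ^ i ∈ Submodule.span k (Set.range D) := by
    intro a ha i
    induction i with
    | zero => rw [pow_zero]; exact hone
    | succ i ih => rw [pow_succ]; exact hmul _ ih _ ha
  let I : Submodule k (Matrix J J k) :=
    { carrier := {a | a ∈ Submodule.span k (Set.range D) ∧ ∀ y, trace (a * D y) = 0}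
      add_mem' := fun {a b} ha hb => ⟨Submodule.add_mem _ ha.1 hb.1, fun y => by
        rw [add_mul, trace_add, ha.2 y, hb.2 y, add_zero]⟩
      zero_mem' := ⟨Submodule.zero_mem _, fun y => by rw [zero_mul, trace_zero]⟩
      smul_mem' := fun c a ha => ⟨Submodule.smul_mem _ c ha.1, fun y => by
        rw [smul_mul_assoc, trace_smul, ha.2 y, smul_zero]⟩ }
  have hI : I = ⊥ := by
    apply h I (fun a ha => ha.1)
    · intro x a ha
      refine ⟨hmul _ (hD x) _ ha.1, fun y => ?_⟩
      rw [trace_mul_cycle, trace_mul_comm, ← hm]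
      exact ha.2 _
    · intro a ha
      apply hc1_nil
      intro q
      have hq : Polynomial.aeval a q ∈ Submodule.span k (Set.range D) := by
        rw [Polynomial.aeval_eq_sum_range]
        exact Submodule.sum_mem _ (fun i _ => Submodule.smul_mem _ _ (hpow a ha.1 i))
      refine Submodule.span_induction (p := fun b _ => trace (a * b) = 0) ?_ ?_ ?_ ?_ hq
      · rintro _ ⟨y, rfl⟩
        exact ha.2 y
      · rw [mul_zero, trace_zero]
      · intro b c _ _ hb hc
        rw [mul_add, trace_add, hb, hc, add_zero]
      · intro c b _ hb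
        rw [mul_smul_comm, trace_smul, hb, smul_zero]
  intro a ha hy
  have h3 : a ∈ I := ⟨ha, hy⟩
  rw [hI, Submodule.mem_bot] at h3
  exact h3

end H25G
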