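import Pool.Agent.Lib.H25G.HD
import Pool.Agent.Lib.H25G.GD4

/-! # H25G, chunk HC2: extension of scalars for the trace form -/

set_option autoImplicit false

open Matrix

namespace H25G

/-- (M) HC2. Proof. A = span over k of the D x, finite dimensional: x_1, .., x_r with A = span of the D x_i (linearly independent; Module.finBasis / exists_linearIndependent / Basis extracted from the spanning set; Submodule.fg). The span over C of the j(D x)
is spanned by the j(D x_i) (every D x is a k-combination of the D x_i). a = sum c_i j(D x_i). The conditions trace(a j(D y)) = 0 read sum_i j(trace(D x_i D y)) c_i = 0. gd4: c = sum_t c'_t j(y_t) with sum_i trace(D x_i D y) y_(t,i) = 0 for all y: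
the element sum_i y_(t,i) D x_i of A is orthogonal to all D y, so it is 0 (TSm D). So a = sum_t c'_t j(sum_i y_(t,i) D x_i) = 0. -/
theorem hc2 {k C : Type*} [Field k] [Field C] {J : Type*} [Fintype J] [DecidableEq J] {Γ : Type*} (j : k →+* C) (D : Γ → Matrix J J k) (h : TSm D) :
    TSm (fun x => (D x).map j) := by
  classical
  intro a ha hy
  obtain ⟨c, hc⟩ := Finsupp.mem_span_range_iff_exists_finsupp.mp ha
  rw [Finsupp.sum] at hc
  have htr : ∀ M : Matrix J J k, trace (M.map j) = j (trace M) := by
    intro M
    simp only [trace, map_sum, diag_apply, map_apply]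
  have hx : ∀ b ∈ Set.range (fun y : Γ => fun x : {x // x ∈ c.support} => trace (D x * D y)),
      ∑ x : {x // x ∈ c.support}, j (b x) * c x = 0 := by
    rintro _ ⟨y, rfl⟩
    have h1 := hy y
    rw [← hc, Finset.sum_mul, trace_sum, ← Finset.sum_coe_sort] at h1
    rw [← h1]
    refine Finset.sum_congr rfl fun x _ => ?_
    change j (trace (D x * D y)) * c x = trace (c x • (D x).map j * (D y).map j)
    rw [smul_mul_assoc, trace_smul, ← Matrix.map_mul, htr, smul_eq_mul, mul_comm]
  obtain ⟨r, d, z, hz1, hz2⟩ := gd4 j _ (fun x : {x // x ∈ c.support} => c x) hx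
  have hzero : ∀ t, ∑ x : {x // x ∈ c.support}, z t x • D x = 0 := by
    intro t
    apply h
    · exact Submodule.sum_mem _ fun x _ => Submodule.smul_mem _ _ (Submodule.subset_span ⟨x, rfl⟩)
    · intro y
      have h1 := hz1 t _ ⟨y, rfl⟩
      rw [Finset.sum_mul, trace_sum, ← h1]
      refine Finset.sum_congr rfl fun x _ => ?_
      rw [smul_mul_assoc, trace_smul, smul_eq_mul, mul_comm]
  have hzero2 : ∀ t, ∑ x : {x // x ∈ c.support}, j (z t x) • (D x).map j = 0 := by
    intro t
    have h1 := congrArg (fun M : Matrix J J k => M.map j) (hzero t)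
    ext p q
    have h2 := congrFun (congrFun h1 p) q
    simp only [map_apply, Matrix.sum_apply, Matrix.smul_apply, smul_eq_mul, map_sum, map_mul, Matrix.zero_apply,
      map_zero] at h2 ⊢
    exact h2
  rw [← hc, ← Finset.sum_coe_sort]
  have h3 : ∀ x : {x // x ∈ c.support}, c x • (D x).map j = ∑ t, d t • (j (z t x) • (D x).map j) := by
    intro x
    rw [hz2 x, Finset.sum_smul]
    exact Finset.sum_congr rfl fun t _ => by rw [smul_smul]
  rw [Finset.sum_congr rfl fun x _ => h3 x, Finset.sum_comm]
  refine Finset.sum_eq_zero fun t _ => ?_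
  rw [← Finset.smul_sum, hzero2 t, smul_zero]

end H25G
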