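import Pool.Agent.Lib.H25G.HD
import Pool.Agent.Lib.H25G.GA5
import Pool.Agent.Lib.Helper71.Kolchin

/-! # H25G, chunk HC3: normal unipotent subgroups and traces -/

set_option autoImplicit false

namespace H25G

/-- (M) HC3. N a normal subgroup of Γ acting by unipotent operators: trace((R u - 1) R g) = 0 for u in N, g in Γ.
Proof. Induction on dim V. V = 0: trivial. F = the vectors fixed by N (inv R N in Defs), not 0 by Kolchin (Pool.Agent.Lib.Helper71.exists_fixed for the representation of the group N), stable under Γ (N normal: R u R g v = R g R(g^-1 u g) v = R g v).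
Trace on V = trace on F + trace on V/F (ga5_trace in GA5). On F, (R u - 1) R g is 0. On V/F: the representation of Γ on the quotient (Submodule.mapQ, see GA5 / GA4 for such constructions), N acts by unipotent operators; dim V/F < dim V. -/
theorem hc3 {Γ k : Type*} [Group Γ] [Field k] (N : Subgroup Γ) [N.Normal] (m : ℕ) : ∀ (V : Type) [AddCommGroup V] [Module k V] [FiniteDimensional k V], Module.finrank k V ≤ m →
    ∀ (R : Γ →* Module.End k V), (∀ u ∈ N, IsNilpotent (R u - 1)) → ∀ u ∈ N, ∀ g, LinearMap.trace k V ((R u - 1) * R g) = 0 := by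
  classical
  induction m with
  | zero =>
    intro V _ _ _ hn R _ u _ g
    have hs : Subsingleton V := Module.finrank_zero_iff.mp (Nat.le_zero.mp hn)
    have : (R u - 1) * R g = 0 := by
      ext w
      exact Subsingleton.elim _ _
    rw [this, map_zero]
  | succ m ih =>
    intro V _ _ _ hn R hN u hu g
    by_cases hV : Subsingleton V
    · have : (R u - 1) * R g = 0 := by
        ext w
        exact Subsingleton.elim _ _
      rw [this, map_zero]
    have hNV : Nontrivial V := not_subsingleton_iff_nontrivial.mp hV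
    obtain ⟨v0, hv0, hfix⟩ := Pool.Agent.Lib.Helper71.exists_fixed (k := k) (G := N) (V := V) (R.comp N.subtype) (fun x => hN x x.2)
    set A : Submodule k V := inv R N with hA
    have hmem : ∀ v : V, v ∈ A ↔ ∀ u ∈ N, R u v = v := fun v => Iff.rfl
    have hstab : ∀ g, ∀ w ∈ A, R g w ∈ A := by
      intro g w hw
      rw [hmem]
      intro u hu
      have h1 : u * g = g * (g⁻¹ * u * g) := by group
      have h2 : g⁻¹ * u * g ∈ N := by
        have := (inferInstance : N.Normal).conj_mem u hu g⁻¹
        rwa [inv_inv] at this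
      calc R u (R g w) = R (u * g) w := by rw [map_mul]; rfl
        _ = R g (R (g⁻¹ * u * g) w) := by rw [h1, map_mul]; rfl
        _ = R g w := by rw [(hmem w).1 hw _ h2]
    have hA0 : A ≠ ⊥ := by
      intro h
      apply hv0
      have : v0 ∈ A := (hmem v0).2 fun u hu => hfix ⟨u, hu⟩
      rwa [h, Submodule.mem_bot] at this
    have hle : ∀ g, A ≤ A.comap (R g) := fun g w hw => hstab g w hw
    let RB : Γ →* Module.End k (V ⧸ A) :=
      { toFun := fun g => A.mapQ A (R g) (hle g)
        map_one' := by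
          ext w
          simp
        map_mul' := by
          intro g h
          ext w
          simp }
    have hRB : ∀ g (w : V), RB g (A.mkQ w) = A.mkQ (R g w) := fun g w => by simp [RB]
    have hNB : ∀ u ∈ N, IsNilpotent (RB u - 1) := by
      intro u hu
      obtain ⟨n, hn⟩ := hN u hu
      refine ⟨n, ?_⟩
      have h3 : ∀ (j : ℕ) (w : V), ((RB u - 1) ^ j) (A.mkQ w) = A.mkQ (((R u - 1) ^ j) w) := by
        intro j
        induction j with
        | zero => intro w; simp
        | succ j ihj =>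
          intro w
          rw [pow_succ', pow_succ', Module.End.mul_apply, Module.End.mul_apply, ihj, LinearMap.sub_apply, hRB]
          simp
      apply LinearMap.ext
      intro w
      obtain ⟨w, rfl⟩ := A.mkQ_surjective w
      rw [h3, hn]
      simp
    have hnA : Nontrivial A := Submodule.nontrivial_iff_ne_bot.mpr hA0
    have hposA : 0 < Module.finrank k A := Module.finrank_pos
    have hadd := Submodule.finrank_quotient_add_finrank A
    have hI := ih (V ⧸ A) (by omega) RB hNB u hu g
    have hle2 : A ≤ A.comap ((R u - 1) * R g) := by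
      intro w hw
      rw [Submodule.mem_comap, Module.End.mul_apply, LinearMap.sub_apply]
      exact A.sub_mem (hstab u _ (hstab g w hw)) (hstab g w hw)
    rw [ga5_trace A _ hle2]
    have h4 : LinearMap.restrict ((R u - 1) * R g) (p := A) (q := A) hle2 = 0 := by
      ext w
      change ((R u - 1) * R g) (w : V) = 0
      rw [Module.End.mul_apply, LinearMap.sub_apply, (hmem _).1 (hstab g w w.2) u hu]
      simp
    have h5 : A.mapQ A ((R u - 1) * R g) hle2 = (RB u - 1) * RB g := by
      apply LinearMap.ext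
      intro w
      obtain ⟨w, rfl⟩ := A.mkQ_surjective w
      rw [Module.End.mul_apply, hRB, LinearMap.sub_apply, hRB]
      simp
    rw [h4, h5, hI, map_zero, add_zero]

/-- (S) HC3b. The same for matrices (Matrix.toLin', trace_toLin'_eq). -/
theorem hc3_mat {Γ : Type*} [Group Γ] {n : ℕ} (N : Subgroup Γ) [N.Normal] (R : Γ →* GL (Fin n) ℂ)
    (hN : ∀ u ∈ N, IsNilpotent ((R u : Matrix (Fin n) (Fin n) ℂ) - 1)) (u : Γ) (hu : u ∈ N) (g : Γ) :
    Matrix.trace (((R u : Matrix (Fin n) (Fin n) ℂ) - 1) * (R g : Matrix (Fin n) (Fin n) ℂ)) = 0 := by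
  let S : Γ →* Module.End ℂ (Fin n → ℂ) :=
    ((Matrix.toLinAlgEquiv' : Matrix (Fin n) (Fin n) ℂ ≃ₐ[ℂ] ((Fin n → ℂ) →ₗ[ℂ] (Fin n → ℂ))) : Matrix (Fin n) (Fin n) ℂ →* Module.End ℂ (Fin n → ℂ)).comp
      ((Units.coeHom _).comp R)
  have hS : ∀ g, S g = Matrix.toLinAlgEquiv' (R g : Matrix (Fin n) (Fin n) ℂ) := fun g => rfl
  have h1 : ∀ u ∈ N, IsNilpotent (S u - 1) := by
    intro u hu
    obtain ⟨m, hm⟩ := hN u hu
    refine ⟨m, ?_⟩
    rw [hS, ← map_one (Matrix.toLinAlgEquiv' : Matrix (Fin n) (Fin n) ℂ ≃ₐ[ℂ] ((Fin n → ℂ) →ₗ[ℂ] (Fin n → ℂ))), ← map_sub, ← map_pow, hm, map_zero]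
  have h2 := hc3 N (Module.finrank ℂ (Fin n → ℂ)) (Fin n → ℂ) le_rfl S h1 u hu g
  rw [hS, hS, ← map_one (Matrix.toLinAlgEquiv' : Matrix (Fin n) (Fin n) ℂ ≃ₐ[ℂ] ((Fin n → ℂ) →ₗ[ℂ] (Fin n → ℂ))), ← map_sub, ← map_mul] at h2
  rw [← h2]
  exact (Matrix.trace_toLin'_eq _).symm

end H25G
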