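import Pool.Agent.Lib.H25G.HD

/-! # H25G, chunk HC4: linear spans and Zariski closures -/

set_option autoImplicit false

open Matrix

namespace H25G

/-- (S/M) HC4. The matrices in the Zariski closure of A are in the linear span of A. Proof: if x is not in the span there is a linear form φ on the matrices which vanishes on the span and not at x (Submodule.exists_le_ker_of_notMem);
φ(y) = sum_ij φ(E_ij) y_ij is a regular function of y (MvPolynomial: sum of C (φ E_ij) * X (Sum.inl (i, j))). -/
theorem hc4 {k : Type*} [Field k] {n : ℕ} (A : Set (GL (Fin n) k)) (x : GL (Fin n) k) (hx : x ∈ Zar A) :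
    (x : Matrix (Fin n) (Fin n) k) ∈ Submodule.span k ((fun y : GL (Fin n) k => (y : Matrix (Fin n) (Fin n) k)) '' A) := by
  classical
  by_contra hcon
  obtain ⟨φ, hφ2, hφ1⟩ := Submodule.exists_le_ker_of_notMem hcon
  let f : MvPolynomial (Vr n) k := ∑ i : Fin n, ∑ j : Fin n, MvPolynomial.C (φ (Matrix.single i j 1)) * MvPolynomial.X (Sum.inl (i, j))
  have hf : ∀ y : GL (Fin n) k, rg f y = φ (y : Matrix (Fin n) (Fin n) k) := by
    intro y
    rw [gd1_rg]
    simp only [f, map_sum, map_mul, MvPolynomial.eval_C, MvPolynomial.eval_X]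
    conv_rhs => rw [Matrix.matrix_eq_sum_single (y : Matrix (Fin n) (Fin n) k)]
    rw [map_sum]
    refine Finset.sum_congr rfl fun i _ => ?_
    rw [map_sum]
    refine Finset.sum_congr rfl fun j _ => ?_
    have h1 : Matrix.single i j ((y : Matrix (Fin n) (Fin n) k) i j) = ((y : Matrix (Fin n) (Fin n) k) i j) • Matrix.single i j (1 : k) := by
      rw [Matrix.smul_single, smul_eq_mul, mul_one]
    rw [h1, map_smul, smul_eq_mul, mul_comm]
    rfl
  have h1 : rg f x = 0 := hx f fun a ha => by
    rw [hf a]
    exact hφ1 (Submodule.subset_span ⟨a, ha, rfl⟩)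
  rw [hf x] at h1
  exact hφ2 h1

end H25G
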