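import Pool.Agent.Lib.H25G.GD1
import Mathlib

/-! # H25G, module H: definitions (block diagonal part, trace form) -/

set_option autoImplicit false

open Matrix

namespace H25G

section

variable {k : Type*} [Field k] {J : Type*} [Fintype J] [DecidableEq J]

/-- The block diagonal part of a matrix. -/
def bd (β : J → ℕ) (M : Matrix J J k) : Matrix J J k := Matrix.of fun i j => if β i = β j then M i j else 0

omit [Fintype J] [DecidableEq J] in
theorem bd_apply (β : J → ℕ) (M : Matrix J J k) (i j : J) : bd β M i j = if β i = β j then M i j else 0 := rfl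

/-- The span of the matrices D x contains no nonzero left ideal consisting of nilpotent matrices. -/
def SSm {Γ : Type*} (D : Γ → Matrix J J k) : Prop := ∀ I : Submodule k (Matrix J J k), I ≤ Submodule.span k (Set.range D) →
  (∀ x, ∀ a ∈ I, D x * a ∈ I) → (∀ a ∈ I, IsNilpotent a) → I = ⊥

/-- The trace form is nondegenerate on the span of the matrices D x. -/
def TSm {Γ : Type*} (D : Γ → Matrix J J k) : Prop := ∀ a ∈ Submodule.span k (Set.range D), (∀ y, trace (a * D y) = 0) → a = 0

omit [Fintype J] in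
theorem bd_one (β : J → ℕ) : bd β (1 : Matrix J J k) = 1 := by
  ext i j
  rw [bd_apply]
  by_cases h : i = j
  · subst h
    simp
  · rw [Matrix.one_apply_ne h]
    simp

omit [DecidableEq J] in
/-- The block diagonal part is multiplicative on block triangular matrices. -/
theorem bd_mul (β : J → ℕ) (M M' : Matrix J J k) (h : BlockTriangular M β) (h' : BlockTriangular M' β) : bd β (M * M') = bd β M * bd β M' := by
  ext i j
  rw [bd_apply, Matrix.mul_apply, Matrix.mul_apply]
  split_ifs with hij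
  · refine Finset.sum_congr rfl fun l _ => ?_
    rw [bd_apply, bd_apply]
    rcases lt_trichotomy (β l) (β i) with h1 | h1 | h1
    · rw [h h1, zero_mul, if_neg (by omega), zero_mul]
    · rw [if_pos h1.symm, if_pos (h1.trans hij)]
    · rw [h' (show β j < β l by omega), mul_zero, if_neg (show ¬ β l = β j by omega), mul_zero]
  · refine (Finset.sum_eq_zero fun l _ => ?_).symm
    rw [bd_apply, bd_apply]
    by_cases h1 : β i = β l
    · rw [if_neg (show ¬ β l = β j by omega), mul_zero]
    · rw [if_neg h1, zero_mul]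

end

section

variable {k : Type*} [Field k] {n : ℕ}

/-- The group of the x such that g x g^-1 is block upper triangular. -/
def Pb (g : GL (Fin n) k) (β : Fin n → ℕ) : Subgroup (GL (Fin n) k) where
  carrier := {x | BlockTriangular ((g * x * g⁻¹ : GL (Fin n) k) : Matrix (Fin n) (Fin n) k) β ∧
    BlockTriangular ((g * x⁻¹ * g⁻¹ : GL (Fin n) k) : Matrix (Fin n) (Fin n) k) β}
  one_mem' := by
    constructor
    · rw [mul_one, mul_inv_cancel]
      exact blockTriangular_one
    · rw [inv_one, mul_one, mul_inv_cancel]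
      exact blockTriangular_one
  mul_mem' := fun {x y} hx hy => by
    constructor
    · have h : g * (x * y) * g⁻¹ = (g * x * g⁻¹) * (g * y * g⁻¹) := by group
      rw [h, Units.val_mul]
      exact hx.1.mul hy.1
    · have h : g * (x * y)⁻¹ * g⁻¹ = (g * y⁻¹ * g⁻¹) * (g * x⁻¹ * g⁻¹) := by group
      rw [h, Units.val_mul]
      exact hy.2.mul hx.2
  inv_mem' := fun {x} hx => ⟨hx.2, by rw [inv_inv]; exact hx.1⟩

theorem mem_Pb (g : GL (Fin n) k) (β : Fin n → ℕ) (x : GL (Fin n) k) : x ∈ Pb g β ↔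
    BlockTriangular ((g * x * g⁻¹ : GL (Fin n) k) : Matrix (Fin n) (Fin n) k) β ∧
    BlockTriangular ((g * x⁻¹ * g⁻¹ : GL (Fin n) k) : Matrix (Fin n) (Fin n) k) β := Iff.rfl

/-- The block diagonal part as a homomorphism. -/
def dg (g : GL (Fin n) k) (β : Fin n → ℕ) : Pb g β →* GL (Fin n) k where
  toFun := fun x => ⟨bd β ((g * x * g⁻¹ : GL (Fin n) k) : Matrix (Fin n) (Fin n) k), bd β ((g * (x : GL (Fin n) k)⁻¹ * g⁻¹ : GL (Fin n) k) : Matrix (Fin n) (Fin n) k),
    by rw [← bd_mul β _ _ x.2.1 x.2.2, ← Units.val_mul, show (g * (x : GL (Fin n) k) * g⁻¹) * (g * (x : GL (Fin n) k)⁻¹ * g⁻¹) = 1 by group, Units.val_one, bd_one],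
    by rw [← bd_mul β _ _ x.2.2 x.2.1, ← Units.val_mul, show (g * (x : GL (Fin n) k)⁻¹ * g⁻¹) * (g * (x : GL (Fin n) k) * g⁻¹) = 1 by group, Units.val_one, bd_one]⟩
  map_one' := by
    ext1
    change bd β ((g * ((1 : Pb g β) : GL (Fin n) k) * g⁻¹ : GL (Fin n) k) : Matrix (Fin n) (Fin n) k) = 1
    rw [Subgroup.coe_one, mul_one, mul_inv_cancel, Units.val_one, bd_one]
  map_mul' := fun x y => by
    ext1
    change bd β ((g * ((x * y : Pb g β) : GL (Fin n) k) * g⁻¹ : GL (Fin n) k) : Matrix (Fin n) (Fin n) k) =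
      bd β ((g * x * g⁻¹ : GL (Fin n) k) : Matrix (Fin n) (Fin n) k) * bd β ((g * y * g⁻¹ : GL (Fin n) k) : Matrix (Fin n) (Fin n) k)
    rw [← bd_mul β _ _ x.2.1 y.2.1, ← Units.val_mul, show (g * (x : GL (Fin n) k) * g⁻¹) * (g * (y : GL (Fin n) k) * g⁻¹) = g * ((x * y : Pb g β) : GL (Fin n) k) * g⁻¹ by
      rw [Subgroup.coe_mul]; group]

theorem dg_val (g : GL (Fin n) k) (β : Fin n → ℕ) (x : Pb g β) : (dg g β x : Matrix (Fin n) (Fin n) k) =
    bd β ((g * x * g⁻¹ : GL (Fin n) k) : Matrix (Fin n) (Fin n) k) := rfl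

theorem dg_inv (g : GL (Fin n) k) (β : Fin n → ℕ) (x : Pb g β) : (((dg g β x)⁻¹ : GL (Fin n) k) : Matrix (Fin n) (Fin n) k) =
    bd β ((g * (x : GL (Fin n) k)⁻¹ * g⁻¹ : GL (Fin n) k) : Matrix (Fin n) (Fin n) k) := rfl

end

end H25G
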