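import Pool.Agent.Lib.H25G.HD

/-! # H25G, chunk HD1: unipotent elements of compact subgroups -/

set_option autoImplicit false

open Matrix

namespace H25G

/-- (S/M) HD1. A unipotent element of a compact subgroup of GL_n(C) is 1. Proof. A = k - 1, suppose A is not 0, r >= 1 with A^r not 0 and A^(r+1) = 0. (1 + A)^m A^(r-1) = A^(r-1) + m A^r. The powers k^m are in the compact set K, so their entries are bounded, so the
entries of A^(r-1) + m A^r are bounded: contradiction for m -> infinity. -/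
theorem hd1 {n : ℕ} (K : Subgroup (GL (Fin n) ℂ)) (hK : IsCompact (K : Set (GL (Fin n) ℂ))) (x : GL (Fin n) ℂ) (hx : x ∈ K)
    (h : IsNilpotent ((x : Matrix (Fin n) (Fin n) ℂ) - 1)) : x = 1 := by
  classical
  set A : Matrix (Fin n) (Fin n) ℂ := (x : Matrix (Fin n) (Fin n) ℂ) - 1 with hA
  by_contra hne
  have hA0 : A ≠ 0 := by
    intro h0
    apply hne
    ext1
    rw [Units.val_one, ← sub_eq_zero]
    exact h0
  -- the nilpotency class
  obtain ⟨r, hr1, hr2⟩ : ∃ r : ℕ, A ^ (r + 1) ≠ 0 ∧ A ^ (r + 2) = 0 := by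
    have hex : ∃ j : ℕ, A ^ j = 0 := h
    have h1 := Nat.find_spec hex
    have h2 : Nat.find hex ≠ 0 := by
      intro h0
      rw [h0, pow_zero] at h1
      apply hA0
      rw [← mul_one A, h1, mul_zero]
    have h3 : Nat.find hex ≠ 1 := by
      intro h0
      rw [h0, pow_one] at h1
      exact hA0 h1
    refine ⟨Nat.find hex - 2, ?_, ?_⟩
    · exact Nat.find_min hex (by omega)
    · rw [show Nat.find hex - 2 + 2 = Nat.find hex by omega]
      exact h1
  have hx1 : (x : Matrix (Fin n) (Fin n) ℂ) = 1 + A := by rw [hA]; abel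
  have hpow : ∀ m : ℕ, ((x : Matrix (Fin n) (Fin n) ℂ)) ^ m * A ^ r = A ^ r + (m : ℂ) • A ^ (r + 1) := by
    intro m
    induction m with
    | zero => simp
    | succ m ih =>
      rw [pow_succ', mul_assoc, ih, hx1, add_mul, one_mul, mul_add, mul_smul_comm, ← pow_succ', ← pow_succ', hr2, smul_zero, add_zero]
      push_cast
      rw [add_smul, one_smul]
      abel
  obtain ⟨i, j, hij⟩ : ∃ i j, (A ^ (r + 1)) i j ≠ 0 := by
    by_contra hcon
    push Not at hcon
    exact hr1 (Matrix.ext hcon)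
  -- the bounded function
  have hcont : Continuous fun y : GL (Fin n) ℂ => ‖((y : Matrix (Fin n) (Fin n) ℂ) * A ^ r) i j‖ := by
    have h1 : Continuous fun y : GL (Fin n) ℂ => (y : Matrix (Fin n) (Fin n) ℂ) := Units.continuous_val
    have h2 : Continuous fun y : GL (Fin n) ℂ => (y : Matrix (Fin n) (Fin n) ℂ) * A ^ r := h1.matrix_mul continuous_const
    exact (h2.matrix_elem i j).norm
  obtain ⟨C, hC⟩ := (hK.image hcont).bddAbove
  have hb : ∀ m : ℕ, ‖((A ^ r) i j) + (m : ℂ) * (A ^ (r + 1)) i j‖ ≤ C := by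
    intro m
    have h1 : x ^ m ∈ K := K.pow_mem hx m
    have h2 := hC (Set.mem_image_of_mem _ h1)
    simp only [Units.val_pow_eq_pow_val] at h2
    rw [hpow m] at h2
    simpa using h2
  have hpos : 0 < ‖(A ^ (r + 1)) i j‖ := norm_pos_iff.2 hij
  obtain ⟨m, hm⟩ := exists_nat_gt ((C + ‖(A ^ r) i j‖) / ‖(A ^ (r + 1)) i j‖)
  rw [div_lt_iff₀ hpos] at hm
  have h3 := hb m
  have h4 : ‖(m : ℂ) * (A ^ (r + 1)) i j‖ ≤ ‖((A ^ r) i j) + (m : ℂ) * (A ^ (r + 1)) i j‖ + ‖(A ^ r) i j‖ := by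
    have := norm_sub_le (((A ^ r) i j) + (m : ℂ) * (A ^ (r + 1)) i j) ((A ^ r) i j)
    simpa using this
  rw [norm_mul, Complex.norm_natCast] at h4
  linarith

end H25G
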