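import Pool.Agent.Lib.H25G.HED
import Pool.Agent.Lib.H25G.HB1

/-! # H25G, chunk HE1: the block diagonal part of a geometric representation is geometric -/

set_option autoImplicit false

open Matrix Pool.Agent.GSem

namespace H25G

variable {l : ℕ} [Fact l.Prime] {n : ℕ}

/-- (S) HE1a. Continuity. Proof: Units.continuous_iff (values and inverses), entries: bd_apply, sums and products of entries of ρ x and of its inverse (dg_inv). -/
theorem he1_cont (ρ : Gal(Om/ℚ) →* GL (Fin n) ℚ_[l]) (hc : Continuous ρ) (g : GL (Fin n) ℚ_[l]) (β : Fin n → ℕ) (hb : ∀ x, ρ x ∈ Pb g β) :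
    Continuous (rp ρ g β hb) := by
  have hbd : ∀ f : Gal(Om/ℚ) → GL (Fin n) ℚ_[l], Continuous f →
      Continuous fun x => bd β ((g * f x * g⁻¹ : GL (Fin n) ℚ_[l]) : Matrix (Fin n) (Fin n) ℚ_[l]) := by
    intro f hf
    have h1 : Continuous fun x => ((g * f x * g⁻¹ : GL (Fin n) ℚ_[l]) : Matrix (Fin n) (Fin n) ℚ_[l]) :=
      Units.continuous_val.comp ((continuous_const.mul hf).mul continuous_const)
    refine continuous_matrix fun i j => ?_
    simp only [bd_apply]
    split_ifs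
    · exact h1.matrix_elem i j
    · exact continuous_const
  rw [Units.continuous_iff]
  constructor
  · exact hbd _ hc
  · exact hbd (fun x => (ρ x)⁻¹) hc.inv

/-- (S) HE1. Unramified: ρ s = 1 gives rp s = 1. Frobenius: hb1_charpoly and the invariance of the characteristic polynomial under conjugation (Matrix.charpoly_units_conj). -/
theorem he1 {ρ : Gal(Om/ℚ) →* GL (Fin n) ℚ_[l]} {S : Finset ℕ} {m : ℕ} (hρ : Geom ρ S m) (g : GL (Fin n) ℚ_[l]) (β : Fin n → ℕ) (hb : ∀ x, ρ x ∈ Pb g β) :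
    Geom (rp ρ g β hb) S m := by
  refine ⟨he1_cont ρ hρ.cont g β hb, ?_, ?_⟩
  · intro p hp hpS Q hQ hpQ s hs
    have h1 := hρ.unram p hp hpS Q hQ hpQ s hs
    apply Units.ext
    rw [rp_val, h1, mul_one, mul_inv_cancel, Units.val_one, bd_one]
  · intro p hp hpS φ hφ
    obtain ⟨P, h1, h2⟩ := hρ.frob p hp hpS φ hφ
    refine ⟨P, ?_, h2⟩
    have e : ((g * ρ φ * g⁻¹ : GL (Fin n) ℚ_[l]) : Matrix (Fin n) (Fin n) ℚ_[l]) =
        (g : Matrix (Fin n) (Fin n) ℚ_[l]) * (ρ φ : Matrix (Fin n) (Fin n) ℚ_[l]) * (g : Matrix (Fin n) (Fin n) ℚ_[l])⁻¹ := by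
      rw [Units.val_mul, Units.val_mul, Matrix.coe_units_inv]
    rw [rp_val, hb1_charpoly β _ (hb φ).1, ← h1, e, Matrix.charpoly_units_conj]

end H25G
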