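import Pool.Agent.Lib.H25G.HED
import Pool.Agent.Lib.H25G.HB1
import Pool.Agent.Lib.H25G.HB2
import Pool.Agent.Lib.H25G.HC1
import Pool.Agent.Lib.H25G.HC2
import Pool.Agent.Lib.H25G.HC3
import Pool.Agent.Lib.H25G.HC4

/-! # H25G, chunk HE2: a normal unipotent subgroup acts trivially in the block diagonal part -/

set_option autoImplicit false

open Matrix

namespace H25G

/-- (S) HE2a. Extension of scalars: the image of Pb is in Pb and dg commutes with it. Proof: entries, ring homomorphism (Matrix.map_mul, Matrix.GeneralLinearGroup.map). -/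
theorem he2_map {F C : Type*} [Field F] [Field C] (ι : F →+* C) {n : ℕ} (g : GL (Fin n) F) (β : Fin n → ℕ) (x : GL (Fin n) F) (hx : x ∈ Pb g β) :
    ∃ h : Matrix.GeneralLinearGroup.map ι x ∈ Pb (Matrix.GeneralLinearGroup.map ι g) β,
      dg (Matrix.GeneralLinearGroup.map ι g) β ⟨_, h⟩ = Matrix.GeneralLinearGroup.map ι (dg g β ⟨x, hx⟩) := by
  have e1 : Matrix.GeneralLinearGroup.map ι g * Matrix.GeneralLinearGroup.map ι x * (Matrix.GeneralLinearGroup.map ι g)⁻¹ =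
      Matrix.GeneralLinearGroup.map ι (g * x * g⁻¹) := by rw [map_mul, map_mul, map_inv]
  have e2 : Matrix.GeneralLinearGroup.map ι g * (Matrix.GeneralLinearGroup.map ι x)⁻¹ * (Matrix.GeneralLinearGroup.map ι g)⁻¹ =
      Matrix.GeneralLinearGroup.map ι (g * x⁻¹ * g⁻¹) := by rw [map_mul, map_mul, map_inv, map_inv]
  have hv : ∀ y : GL (Fin n) F, ((Matrix.GeneralLinearGroup.map ι y : GL (Fin n) C) : Matrix (Fin n) (Fin n) C) =
      (y : Matrix (Fin n) (Fin n) F).map ι := fun y => rfl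
  have h : Matrix.GeneralLinearGroup.map ι x ∈ Pb (Matrix.GeneralLinearGroup.map ι g) β := by
    rw [mem_Pb, e1, e2, hv, hv]
    constructor
    · intro i j hij
      rw [Matrix.map_apply, hx.1 hij, map_zero]
    · intro i j hij
      rw [Matrix.map_apply, hx.2 hij, map_zero]
  refine ⟨h, ?_⟩
  ext i j
  rw [dg_val, hv, dg_val, Matrix.map_apply, bd_apply, bd_apply, apply_ite ι, map_zero]
  simp only []
  rw [e1, hv, Matrix.map_apply]

/-- (M) HE2. Proof. θ x = map ι (ρ x), gC = map ι g, G = Zar(range θ), a subgroup G' (gd1_mul, gd1_invmem for θ.range), in Pb gC β (he2_map, hb2_mem). R = dg gC β restricted to G', N' = N.subgroupOf G', normal. For u in N, R u - 1 is nilpotent (hb1_nil, conjugation;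
import HB1 if needed), so hc3_mat: trace((R u - 1) R y) = 0 for y in G'. D x = (bd β (g ρ x g^-1)).map ι = R(θ x) (he2_map). TSm D by hc1 and hc2. R u is in Zar of the set of the R(θ x) (hb2), so in the span of the D x (hc4); 1 = D 1 too. So R u - 1 = 0. -/
theorem he2 {F Γ : Type*} [Field F] [CharZero F] [Group Γ] (ι : F →+* ℂ) {n : ℕ} (ρ : Γ →* GL (Fin n) F) (g : GL (Fin n) F) (β : Fin n → ℕ) (hb : ∀ x, ρ x ∈ Pb g β)
    (hS : SSm (fun x => bd β ((g * ρ x * g⁻¹ : GL (Fin n) F) : Matrix (Fin n) (Fin n) F)))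
    (N : Subgroup (GL (Fin n) ℂ)) (hN1 : ∀ u ∈ N, u ∈ Zar (Set.range fun x => Matrix.GeneralLinearGroup.map ι (ρ x)))
    (hN2 : ∀ y ∈ Zar (Set.range fun x => Matrix.GeneralLinearGroup.map ι (ρ x)), ∀ u ∈ N, y * u * y⁻¹ ∈ N)
    (hN3 : ∀ u ∈ N, IsNilpotent ((u : Matrix (Fin n) (Fin n) ℂ) - 1)) (u : GL (Fin n) ℂ) (hu : u ∈ N) (hu' : u ∈ Pb (Matrix.GeneralLinearGroup.map ι g) β) :
    dg (Matrix.GeneralLinearGroup.map ι g) β ⟨u, hu'⟩ = 1 := by
  classical
  set θ : Γ →* GL (Fin n) ℂ := (Matrix.GeneralLinearGroup.map ι).comp ρ with hθ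
  set gC : GL (Fin n) ℂ := Matrix.GeneralLinearGroup.map ι g with hgC
  have hA : (Set.range fun x => Matrix.GeneralLinearGroup.map ι (ρ x)) = (θ.range : Set (GL (Fin n) ℂ)) := by
    ext y
    simp [hθ]
  rw [hA] at hN1 hN2
  have hAP : ∀ x ∈ (θ.range : Set (GL (Fin n) ℂ)), x ∈ Pb gC β := by
    rintro x ⟨y, rfl⟩
    exact (he2_map ι g β (ρ y) (hb y)).1
  let G' : Subgroup (GL (Fin n) ℂ) :=
    { carrier := Zar (θ.range : Set (GL (Fin n) ℂ))
      mul_mem' := fun {a b} ha hb => gd1_mul θ.range a b ha hb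
      one_mem' := gd1_sub _ θ.range.one_mem
      inv_mem' := fun {a} ha => gd1_invmem θ.range a ha }
  have hG' : ∀ y, y ∈ G' ↔ y ∈ Zar (θ.range : Set (GL (Fin n) ℂ)) := fun y => Iff.rfl
  have hGP : G' ≤ Pb gC β := fun y hy => hb2_mem gC β _ hAP y hy
  let R : G' →* GL (Fin n) ℂ := (dg gC β).comp (Subgroup.inclusion hGP)
  have hR : ∀ y : G', R y = dg gC β ⟨(y : GL (Fin n) ℂ), hGP y.2⟩ := fun y => rfl
  have hnorm : (N.subgroupOf G').Normal := by
    refine ⟨fun v hv y => ?_⟩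
    rw [Subgroup.mem_subgroupOf] at hv ⊢
    exact hN2 y y.2 v hv
  have hnil : ∀ v ∈ N.subgroupOf G', IsNilpotent ((R v : Matrix (Fin n) (Fin n) ℂ) - 1) := by
    intro v hv
    rw [Subgroup.mem_subgroupOf] at hv
    rw [hR, dg_val]
    refine hb1_nil β _ (hGP v.2).1 ?_
    obtain ⟨m, hm⟩ := hN3 v hv
    refine ⟨m, ?_⟩
    have e : ((gC * (v : GL (Fin n) ℂ) * gC⁻¹ : GL (Fin n) ℂ) : Matrix (Fin n) (Fin n) ℂ) - 1 =
        (gC : Matrix (Fin n) (Fin n) ℂ) * (((v : GL (Fin n) ℂ) : Matrix (Fin n) (Fin n) ℂ) - 1) *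
          ((gC⁻¹ : GL (Fin n) ℂ) : Matrix (Fin n) (Fin n) ℂ) := by
      rw [mul_sub, sub_mul, mul_one, Units.val_mul, Units.val_mul, Units.mul_inv]
    rw [e, Units.conj_pow, hm, mul_zero, zero_mul]
  -- the family D
  set D : Γ → Matrix (Fin n) (Fin n) F := fun x => bd β ((g * ρ x * g⁻¹ : GL (Fin n) F) : Matrix (Fin n) (Fin n) F) with hD
  have hDrp : ∀ x, D x = (rp ρ g β hb x : Matrix (Fin n) (Fin n) F) := fun x => rfl
  have hD1 : D 1 = 1 := by rw [hDrp, map_one, Units.val_one]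
  have hDm : ∀ x y, D (x * y) = D x * D y := fun x y => by rw [hDrp, hDrp, hDrp, map_mul, Units.val_mul]
  have hT : TSm (fun x => (D x).map ι) := hc2 ι D (hc1 D hD1 hDm hS)
  have hθG : ∀ x, θ x ∈ G' := fun x => gd1_sub _ ⟨x, rfl⟩
  have hRD : ∀ x, (R ⟨θ x, hθG x⟩ : Matrix (Fin n) (Fin n) ℂ) = (D x).map ι := by
    intro x
    rw [hR]
    have h := (he2_map ι g β (ρ x) (hb x)).2
    have h2 := congrArg (fun z : GL (Fin n) ℂ => (z : Matrix (Fin n) (Fin n) ℂ)) h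
    exact h2
  have huG : u ∈ G' := hN1 u hu
  have hspan : (R ⟨u, huG⟩ : Matrix (Fin n) (Fin n) ℂ) - 1 ∈ Submodule.span ℂ (Set.range fun x => (D x).map ι) := by
    refine Submodule.sub_mem _ ?_ ?_
    · have h := hc4 _ _ (hb2 gC β (θ.range : Set (GL (Fin n) ℂ)) hAP u huG hu')
      refine Submodule.span_mono ?_ h
      rintro _ ⟨y, ⟨a, ha, ⟨x, rfl⟩, rfl⟩, rfl⟩
      exact ⟨x, (hRD x).symm⟩
    · refine Submodule.subset_span ⟨1, ?_⟩
      simp only []
      rw [hD1, Matrix.map_one _ (map_zero ι) (map_one ι)]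
  have h0 := hT _ hspan (fun y => by
    change Matrix.trace (((R ⟨u, huG⟩ : Matrix (Fin n) (Fin n) ℂ) - 1) * ((D y).map ι)) = 0
    rw [← hRD y]
    exact hc3_mat (N.subgroupOf G') R hnil ⟨u, huG⟩ (by rw [Subgroup.mem_subgroupOf]; exact hu) ⟨θ y, hθG y⟩)
  have h1 : (R ⟨u, huG⟩ : Matrix (Fin n) (Fin n) ℂ) = 1 := sub_eq_zero.mp h0
  exact Units.ext h1

end H25G
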