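import Pool.Agent.Lib.H25G.HED
import Pool.Agent.Lib.H25G.HB1
import Pool.Agent.Lib.H25G.HD1

/-! # H25G, chunk HE3: the image of K -/

set_option autoImplicit false

open Matrix

namespace H25G

variable {n : ℕ}

theorem he3_bd (β : Fin n → ℕ) : Continuous (fun M : Matrix (Fin n) (Fin n) ℂ => bd β M) := by
  refine continuous_matrix fun i j => ?_
  by_cases h : β i = β j
  · simp only [bd_apply, if_pos h]
    exact continuous_id.matrix_elem i j
  · simp only [bd_apply, if_neg h]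
    exact continuous_const

/-- (S) HE3a. cK is continuous (Units.continuous_iff, entries; dg_inv). -/
theorem he3_cont (K : Subgroup (GL (Fin n) ℂ)) (g : GL (Fin n) ℂ) (β : Fin n → ℕ) (h : K ≤ Pb g β) : Continuous (cK K g β h) := by
  rw [Units.continuous_iff]
  constructor
  · change Continuous fun x : K => bd β ((g * (x : GL (Fin n) ℂ) * g⁻¹ : GL (Fin n) ℂ) : Matrix (Fin n) (Fin n) ℂ)
    exact (he3_bd β).comp (Units.continuous_val.comp ((continuous_const.mul continuous_subtype_val).mul continuous_const))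
  · change Continuous fun x : K => bd β ((g * (x : GL (Fin n) ℂ)⁻¹ * g⁻¹ : GL (Fin n) ℂ) : Matrix (Fin n) (Fin n) ℂ)
    exact (he3_bd β).comp (Units.continuous_val.comp ((continuous_const.mul continuous_subtype_val.inv).mul continuous_const))

/-- (S/M) HE3b. cK is injective on a compact K. Proof: dg x = 1 gives g x g^-1 - 1 nilpotent (hb1_unip), so x - 1 nilpotent, so x = 1 (hd1). -/
theorem he3_inj (K : Subgroup (GL (Fin n) ℂ)) (hK : IsCompact (K : Set (GL (Fin n) ℂ))) (g : GL (Fin n) ℂ) (β : Fin n → ℕ) (h : K ≤ Pb g β) :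
    Function.Injective (cK K g β h) := by
  rw [injective_iff_map_eq_one]
  intro x hx
  have h0 : bd β ((g * (x : GL (Fin n) ℂ) * g⁻¹ : GL (Fin n) ℂ) : Matrix (Fin n) (Fin n) ℂ) = 1 := congrArg Units.val hx
  have h1 := hb1_unip β _ (h x.2).1 h0
  have h2 : IsNilpotent (((x : GL (Fin n) ℂ) : Matrix (Fin n) (Fin n) ℂ) - 1) := by
    obtain ⟨r, hr⟩ := h1
    refine ⟨r, ?_⟩
    have h8 : (((g * (x : GL (Fin n) ℂ) * g⁻¹ : GL (Fin n) ℂ) : Matrix (Fin n) (Fin n) ℂ) - 1) =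
        (g : Matrix (Fin n) (Fin n) ℂ) * (((x : GL (Fin n) ℂ) : Matrix (Fin n) (Fin n) ℂ) - 1) * ((g⁻¹ : GL (Fin n) ℂ) : Matrix (Fin n) (Fin n) ℂ) := by
      rw [mul_sub, sub_mul, mul_one, Units.val_mul, Units.val_mul, ← Units.val_mul g g⁻¹, mul_inv_cancel, Units.val_one]
    rw [h8, Units.conj_pow] at hr
    have h9 : ((g⁻¹ : GL (Fin n) ℂ) : Matrix (Fin n) (Fin n) ℂ) * ((g : Matrix (Fin n) (Fin n) ℂ) * (((x : GL (Fin n) ℂ) : Matrix (Fin n) (Fin n) ℂ) - 1) ^ r *
        ((g⁻¹ : GL (Fin n) ℂ) : Matrix (Fin n) (Fin n) ℂ)) * (g : Matrix (Fin n) (Fin n) ℂ) = (((x : GL (Fin n) ℂ) : Matrix (Fin n) (Fin n) ℂ) - 1) ^ r := by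
      rw [← mul_assoc, ← mul_assoc, Units.inv_mul, one_mul, mul_assoc, Units.inv_mul, mul_one]
    rw [← h9, hr, mul_zero, zero_mul]
  exact Subtype.ext (hd1 K hK x x.2 h2)

/-- (S) HE3c. The image is compact. -/
theorem he3_cpt (K : Subgroup (GL (Fin n) ℂ)) (hK : IsCompact (K : Set (GL (Fin n) ℂ))) (g : GL (Fin n) ℂ) (β : Fin n → ℕ) (h : K ≤ Pb g β) :
    IsCompact ((cK K g β h).range : Set (GL (Fin n) ℂ)) := by
  haveI : CompactSpace K := isCompact_iff_compactSpace.1 hK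
  rw [MonoidHom.coe_range]
  exact isCompact_range (he3_cont K g β h)

end H25G
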