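import Pool.Agent.Lib.H25G.HE2

/-! # H25G, chunk HE4: Zariski closure of the image of K -/

set_option autoImplicit false

open Matrix

namespace H25G

/-- A set contained in a closed set: the closure is contained. -/
theorem he4_le {k : Type*} [Field k] {n : ℕ} {A B : Set (GL (Fin n) k)} (h : A ⊆ Zar B) : Zar A ⊆ Zar B :=
  fun _ hy f hf => hy f fun a ha => h ha f hf

/-- The closure is monotone. -/
theorem he4_mono {k : Type*} [Field k] {n : ℕ} {A B : Set (GL (Fin n) k)} (h : A ⊆ B) : Zar A ⊆ Zar B :=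
  fun _ hy f hf => hy f fun a ha => hf a (h ha)

/-- (M) HE4. θ x = map ι (ρ x), G = Zar(range θ), K a subgroup of G with G = N Zar(K), N normal unipotent in G. The closure of the image of K is the closure of the image of the block diagonal part.
Proof. gC = map ι g. Every y in G: y in Pb (he2_map, hb2_mem), y = u h, dg y = dg u dg h = dg h (he2), h in Zar K, so dg y in Zar(cK(K)) (hb2 with A = K). In particular map ι (rp ρ x) = dg(θ x) (he2_map) is in Zar(cK(K)): range contained, so Zar(range) is contained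
(Zar is monotone and idempotent: an element of Zar(A) with A in Zar(B) is in Zar(B)). Conversely for k in K, k in G, cK k = dg k is in Zar{dg(θ x)} by hb2 with A = range θ. -/
theorem he4 {F Γ : Type*} [Field F] [CharZero F] [Group Γ] (ι : F →+* ℂ) {n : ℕ} (ρ : Γ →* GL (Fin n) F) (g : GL (Fin n) F) (β : Fin n → ℕ) (hb : ∀ x, ρ x ∈ Pb g β)
    (hS : SSm (fun x => bd β ((g * ρ x * g⁻¹ : GL (Fin n) F) : Matrix (Fin n) (Fin n) F)))
    (N : Subgroup (GL (Fin n) ℂ)) (hN1 : ∀ u ∈ N, u ∈ Zar (Set.range fun x => Matrix.GeneralLinearGroup.map ι (ρ x)))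
    (hN2 : ∀ y ∈ Zar (Set.range fun x => Matrix.GeneralLinearGroup.map ι (ρ x)), ∀ u ∈ N, y * u * y⁻¹ ∈ N)
    (hN3 : ∀ u ∈ N, IsNilpotent ((u : Matrix (Fin n) (Fin n) ℂ) - 1))
    (K : Subgroup (GL (Fin n) ℂ)) (hK1 : ∀ x ∈ K, x ∈ Zar (Set.range fun x => Matrix.GeneralLinearGroup.map ι (ρ x)))
    (hK2 : ∀ y ∈ Zar (Set.range fun x => Matrix.GeneralLinearGroup.map ι (ρ x)), ∃ u ∈ N, ∃ h ∈ Zar (K : Set (GL (Fin n) ℂ)), y = u * h)
    (h : K ≤ Pb (Matrix.GeneralLinearGroup.map ι g) β) :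
    Zar ((cK K (Matrix.GeneralLinearGroup.map ι g) β h).range : Set (GL (Fin n) ℂ)) = Zar (Set.range fun x => Matrix.GeneralLinearGroup.map ι (rp ρ g β hb x)) := by
  classical
  set gC := Matrix.GeneralLinearGroup.map ι g with hgC
  have hθ : ∀ x, ∃ h : Matrix.GeneralLinearGroup.map ι (ρ x) ∈ Pb gC β, dg gC β ⟨_, h⟩ = Matrix.GeneralLinearGroup.map ι (rp ρ g β hb x) :=
    fun x => he2_map ι g β (ρ x) (hb x)
  have hG : ∀ y ∈ Zar (Set.range fun x => Matrix.GeneralLinearGroup.map ι (ρ x)), y ∈ Pb gC β := by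
    intro y hy
    refine hb2_mem gC β _ ?_ y hy
    rintro _ ⟨x, rfl⟩
    exact (hθ x).1
  apply Set.Subset.antisymm
  · apply he4_le
    rintro _ ⟨y, rfl⟩
    rw [cK_apply]
    have h1 := hb2 gC β (Set.range fun x => Matrix.GeneralLinearGroup.map ι (ρ x)) (by rintro _ ⟨x, rfl⟩; exact (hθ x).1)
      (y : GL (Fin n) ℂ) (hK1 y y.2) (h y.2)
    refine he4_mono ?_ h1
    rintro _ ⟨a, ha, ⟨x, rfl⟩, rfl⟩
    exact ⟨x, (hθ x).2.symm⟩
  · apply he4_le
    rintro _ ⟨x, rfl⟩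
    obtain ⟨hx, hx'⟩ := hθ x
    change Matrix.GeneralLinearGroup.map ι (rp ρ g β hb x) ∈ _
    rw [← hx']
    obtain ⟨u, hu, z, hz, huz⟩ := hK2 _ (gd1_sub _ (Set.mem_range_self x))
    have hzP : z ∈ Pb gC β := hb2_mem gC β (K : Set (GL (Fin n) ℂ)) (fun y hy => h hy) z hz
    have huP : u ∈ Pb gC β := hG u (hN1 u hu)
    have h1 : dg gC β ⟨Matrix.GeneralLinearGroup.map ι (ρ x), hx⟩ = dg gC β ⟨z, hzP⟩ := by
      have h2 : (⟨Matrix.GeneralLinearGroup.map ι (ρ x), hx⟩ : Pb gC β) = ⟨u, huP⟩ * ⟨z, hzP⟩ := Subtype.ext huz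
      rw [h2, map_mul, he2 ι ρ g β hb hS N hN1 hN2 hN3 u hu huP, one_mul]
    rw [h1]
    refine he4_mono ?_ (hb2 gC β (K : Set (GL (Fin n) ℂ)) (fun y hy => h hy) z hz hzP)
    rintro _ ⟨a, ha, haK, rfl⟩
    exact ⟨⟨a, haK⟩, rfl⟩

end H25G
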