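import Pool.Agent.Lib.H25G.HA5
import Pool.Agent.Lib.H25G.HE1
import Pool.Agent.Lib.H25G.HE3
import Pool.Agent.Lib.H25G.HE4
import Pool.Agent.Lib.H25G.GE10

/-! # H25G, chunk HE5: equidistribution, general case (every maximal compact subgroup, rho not necessarily semisimple) -/

set_option autoImplicit false

open Matrix Filter Topology MeasureTheory Pool.Agent.GSem

namespace H25G

variable {l : ℕ} [Fact l.Prime] {n : ℕ}

/-- elements of the closure of the image are in Pb -/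
theorem he5_pb (ρ : Gal(Om/ℚ) →* GL (Fin n) ℚ_[l]) (ι : ℚ_[l] →+* ℂ) (g : GL (Fin n) ℚ_[l]) (β : Fin n → ℕ) (hb : ∀ x, ρ x ∈ Pb g β)
    (y : GL (Fin n) ℂ) (hy : y ∈ Zar (Set.range (th ι ρ))) : y ∈ Pb (Matrix.GeneralLinearGroup.map ι g) β := by
  refine hb2_mem _ _ (Set.range (th ι ρ)) ?_ y hy
  rintro _ ⟨x, rfl⟩
  exact (he2_map ι g β (ρ x) (hb x)).1

/-- the classes of the block diagonal part -/
theorem he5_cls (ρ : Gal(Om/ℚ) →* GL (Fin n) ℚ_[l]) (ι : ℚ_[l] →+* ℂ) (g : GL (Fin n) ℚ_[l]) (β : Fin n → ℕ) (hb : ∀ x, ρ x ∈ Pb g β)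
    (K' : Subgroup (GL (Fin n) ℂ)) (hZ : Zar (K' : Set (GL (Fin n) ℂ)) = Zar (Set.range (th ι (rp ρ g β hb))))
    (p : ℕ) (y : GL (Fin n) ℂ) (hy : y ∈ Pb (Matrix.GeneralLinearGroup.map ι g) β) (h : STClassG ι ρ p y) :
    STClass ι (rp ρ g β hb) K' p (dg (Matrix.GeneralLinearGroup.map ι g) β ⟨y, hy⟩) := by
  obtain ⟨φ, h, u, h1, h2, h3, h4, h5⟩ := h
  have hφ : ∀ x, ∃ hx : th ι ρ x ∈ Pb (Matrix.GeneralLinearGroup.map ι g) β, dg (Matrix.GeneralLinearGroup.map ι g) β ⟨_, hx⟩ = th ι (rp ρ g β hb) x :=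
    fun x => he2_map ι g β (ρ x) (hb x)
  obtain ⟨hφ1, hφ2⟩ := hφ φ
  have hh : h ∈ Pb (Matrix.GeneralLinearGroup.map ι g) β := he5_pb ρ ι g β hb h h2
  have hu0 : u = (h * y * h⁻¹)⁻¹ * th ι ρ φ := by rw [h5]; group
  have hu : u ∈ Pb (Matrix.GeneralLinearGroup.map ι g) β := by
    rw [hu0]
    exact mul_mem (inv_mem (mul_mem (mul_mem hh hy) (inv_mem hh))) hφ1
  refine ⟨φ, dg _ β ⟨h, hh⟩, dg _ β ⟨u, hu⟩, h1, ?_, ?_, ?_, ?_⟩
  · rw [hZ]
    have h6 := hb2 (Matrix.GeneralLinearGroup.map ι g) β (Set.range (th ι ρ)) (fun z hz => he5_pb ρ ι g β hb z (gd1_sub _ hz)) h h2 hh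
    have h7 : {y | ∃ (a : GL (Fin n) ℂ) (ha : a ∈ Pb (Matrix.GeneralLinearGroup.map ι g) β), a ∈ Set.range (th ι ρ) ∧ y = dg (Matrix.GeneralLinearGroup.map ι g) β ⟨a, ha⟩} =
        Set.range (th ι (rp ρ g β hb)) := by
      ext z
      constructor
      · rintro ⟨a, ha, ⟨x, rfl⟩, rfl⟩
        exact ⟨x, (hφ x).2.symm⟩
      · rintro ⟨x, rfl⟩
        exact ⟨th ι ρ x, (hφ x).1, ⟨x, rfl⟩, (hφ x).2.symm⟩
    rwa [h7] at h6
  · rw [dg_val]
    refine hb1_nil β _ hu.1 ?_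
    obtain ⟨r, hr⟩ := h3
    refine ⟨r, ?_⟩
    have h8 : (((Matrix.GeneralLinearGroup.map ι g * u * (Matrix.GeneralLinearGroup.map ι g)⁻¹ : GL (Fin n) ℂ) : Matrix (Fin n) (Fin n) ℂ) - 1) =
        (Matrix.GeneralLinearGroup.map ι g : Matrix (Fin n) (Fin n) ℂ) * ((u : Matrix (Fin n) (Fin n) ℂ) - 1) *
        (((Matrix.GeneralLinearGroup.map ι g)⁻¹ : GL (Fin n) ℂ) : Matrix (Fin n) (Fin n) ℂ) := by
      rw [mul_sub, sub_mul, mul_one, Units.val_mul, Units.val_mul, ← Units.val_mul (Matrix.GeneralLinearGroup.map ι g) (Matrix.GeneralLinearGroup.map ι g)⁻¹,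
        mul_inv_cancel, Units.val_one]
    rw [h8, Units.conj_pow, hr, mul_zero, zero_mul]
  · have h9 : (⟨h, hh⟩ * ⟨y, hy⟩ * (⟨h, hh⟩ : Pb (Matrix.GeneralLinearGroup.map ι g) β)⁻¹) * ⟨u, hu⟩ =
        ⟨u, hu⟩ * (⟨h, hh⟩ * ⟨y, hy⟩ * (⟨h, hh⟩ : Pb (Matrix.GeneralLinearGroup.map ι g) β)⁻¹) := Subtype.ext h4
    have h10 := congrArg (dg (Matrix.GeneralLinearGroup.map ι g) β) h9
    simpa only [map_mul, map_inv] using h10
  · rw [← hφ2]
    have h9 : (⟨th ι ρ φ, hφ1⟩ : Pb (Matrix.GeneralLinearGroup.map ι g) β) =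
        (⟨h, hh⟩ * ⟨y, hy⟩ * (⟨h, hh⟩ : Pb (Matrix.GeneralLinearGroup.map ι g) β)⁻¹) * ⟨u, hu⟩ := Subtype.ext h5
    rw [h9]
    simp only [map_mul, map_inv]

/-- Equidistribution, general case. K compact subgroup of G = Zar(image of rho), N a normal subgroup of G consisting of unipotent elements, G = N Zar(K) (this holds for every maximal compact subgroup K of G, N the unipotent radical).
The classes x_p in K (STClassG). For f a continuous class function on K invariant under the commutators of a subgroup K1 of finite index, the mean of f(x_p) is the integral of f. -/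
theorem he5 {ρ : Gal(Om/ℚ) →* GL (Fin n) ℚ_[l]} {S : Finset ℕ} {m : ℕ} (hρ : Geom ρ S m) (ι : ℚ_[l] →+* ℂ)
    (K : Subgroup (GL (Fin n) ℂ)) (hK : IsCompact (K : Set (GL (Fin n) ℂ))) (hK1 : ∀ x ∈ K, x ∈ Zar (Set.range (th ι ρ)))
    (N : Subgroup (GL (Fin n) ℂ)) (hN1 : ∀ u ∈ N, u ∈ Zar (Set.range (th ι ρ)))
    (hN2 : ∀ y ∈ Zar (Set.range (th ι ρ)), ∀ u ∈ N, y * u * y⁻¹ ∈ N) (hN3 : ∀ u ∈ N, IsNilpotent ((u : Matrix (Fin n) (Fin n) ℂ) - 1))
    (hK2 : ∀ y ∈ Zar (Set.range (th ι ρ)), ∃ u ∈ N, ∃ h ∈ Zar (K : Set (GL (Fin n) ℂ)), y = u * h)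
    [MeasurableSpace K] [BorelSpace K] (μ : Measure K) [μ.IsHaarMeasure] [IsProbabilityMeasure μ]
    (K1 : Subgroup K) [K1.FiniteIndex] (f : K → ℂ) (hf : Continuous f) (hcl : ∀ a k, f (a * k * a⁻¹) = f k)
    (hinv : ∀ k, ∀ a ∈ K1, ∀ b ∈ K1, f (k * (a * b * a⁻¹ * b⁻¹)) = f k)
    (x : ℕ → K) (hx : ∀ p, p.Prime → p ∉ S → STClassG ι ρ p (x p : GL (Fin n) ℂ)) :
    Tendsto (fun N : ℕ => (∑ p ∈ (Finset.range (N + 1)).filter (fun p => p.Prime ∧ p ∉ S), f (x p)) /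
      (((Finset.range (N + 1)).filter (fun p => p.Prime ∧ p ∉ S)).card : ℂ)) atTop (𝓝 (∫ k : K, f k ∂μ)) := by
  obtain ⟨g, β, h1, h2⟩ := ha5 ρ
  have hb : ∀ x, ρ x ∈ Pb g β := fun x => ⟨h1 x, by rw [← map_inv]; exact h1 x⁻¹⟩
  have hP := he5_pb ρ ι g β hb
  have hKP : K ≤ Pb (Matrix.GeneralLinearGroup.map ι g) β := fun y hy => hP y (hK1 y hy)
  have hinj := he3_inj K hK _ β hKP
  have hcont := he3_cont K _ β hKP
  have hcpt := he3_cpt K hK _ β hKP
  have hZ : Zar ((cK K (Matrix.GeneralLinearGroup.map ι g) β hKP).range : Set (GL (Fin n) ℂ)) = Zar (Set.range (th ι (rp ρ g β hb))) :=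
    he4 ι ρ g β hb h2 N hN1 hN2 hN3 K hK1 hK2 hKP
  let K' := (cK K (Matrix.GeneralLinearGroup.map ι g) β hKP).range
  haveI : CompactSpace K := isCompact_iff_compactSpace.1 hK
  let e : K ≃* K' := MonoidHom.ofInjective hinj
  have hev : ∀ k : K, ((e k : K') : GL (Fin n) ℂ) = cK K (Matrix.GeneralLinearGroup.map ι g) β hKP k := fun k => rfl
  have hec : Continuous e := Continuous.subtype_mk hcont _
  have hes : Continuous e.symm := hec.continuous_symm_of_equiv_compact_to_t2 (f := e.toEquiv)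
  letI : MeasurableSpace K' := borel K'
  haveI : BorelSpace K' := ⟨rfl⟩
  haveI h3 : (μ.map e).IsHaarMeasure := MulEquiv.isHaarMeasure_map μ e hec hes
  haveI h4 : IsProbabilityMeasure (μ.map e) := Measure.isProbabilityMeasure_map hec.measurable.aemeasurable
  haveI h5 : (K1.map e.toMonoidHom).FiniteIndex := by
    refine ⟨?_⟩
    have h50 : (K1.map (e : K →* K')).index = K1.index := Subgroup.index_map_equiv K1 e
    have h51 : (K1.map e.toMonoidHom).index = K1.index := h50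
    rw [h51]
    exact Subgroup.FiniteIndex.index_ne_zero
  have key := ge10 (he1 hρ g β hb) ι K' hcpt hZ (μ.map e) (K1.map e.toMonoidHom) (fun k => f (e.symm k)) (hf.comp hes)
    (fun a k => by simp only [map_mul, map_inv]; exact hcl _ _)
    (fun k a ha b hb' => by
      obtain ⟨a0, ha0, rfl⟩ := ha
      obtain ⟨b0, hb0, rfl⟩ := hb'
      simp only [map_mul, map_inv]
      have e1 : e.symm (e.toMonoidHom a0) = a0 := e.symm_apply_apply a0
      have e2 : e.symm (e.toMonoidHom b0) = b0 := e.symm_apply_apply b0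
      rw [e1, e2]
      exact hinv _ a0 ha0 b0 hb0)
    (fun p => e (x p)) (fun p hp hpS => he5_cls ρ ι g β hb K' hZ p (x p : GL (Fin n) ℂ) (hKP (x p).2) (hx p hp hpS))
  have h6 : ∫ k : K', f (e.symm k) ∂(μ.map e) = ∫ k : K, f k ∂μ := by
    rw [integral_map hec.measurable.aemeasurable (f := fun k => f (e.symm k)) (hf.comp hes).aestronglyMeasurable]
    refine integral_congr_ae (Filter.Eventually.of_forall fun k => ?_)
    change f (e.symm (e k)) = f k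
    rw [e.symm_apply_apply]
  rw [h6] at key
  simpa only [MulEquiv.symm_apply_apply] using key

end H25G
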