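import Pool.Agent.Lib.H25G.HD
import Pool.Agent.Lib.H25G.StD

/-! # H25G, module H: definitions (block diagonal representation, image of K, classes for the group G) -/

set_option autoImplicit false

open Matrix Pool.Agent.GSem

namespace H25G

/-- The block diagonal part of a representation. -/
noncomputable def rp {Γ k : Type*} [Group Γ] [Field k] {n : ℕ} (ρ : Γ →* GL (Fin n) k) (g : GL (Fin n) k) (β : Fin n → ℕ) (hb : ∀ x, ρ x ∈ Pb g β) : Γ →* GL (Fin n) k :=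
  (dg g β).comp (ρ.codRestrict (Pb g β) hb)

theorem rp_val {Γ k : Type*} [Group Γ] [Field k] {n : ℕ} (ρ : Γ →* GL (Fin n) k) (g : GL (Fin n) k) (β : Fin n → ℕ) (hb : ∀ x, ρ x ∈ Pb g β) (x : Γ) :
    (rp ρ g β hb x : Matrix (Fin n) (Fin n) k) = bd β ((g * ρ x * g⁻¹ : GL (Fin n) k) : Matrix (Fin n) (Fin n) k) := rfl

/-- The block diagonal part on a subgroup K of Pb. -/
noncomputable def cK {n : ℕ} (K : Subgroup (GL (Fin n) ℂ)) (g : GL (Fin n) ℂ) (β : Fin n → ℕ) (h : K ≤ Pb g β) : K →* GL (Fin n) ℂ :=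
  (dg g β).comp (Subgroup.inclusion h)

theorem cK_apply {n : ℕ} (K : Subgroup (GL (Fin n) ℂ)) (g : GL (Fin n) ℂ) (β : Fin n → ℕ) (h : K ≤ Pb g β) (x : K) :
    cK K g β h x = dg g β ⟨(x : GL (Fin n) ℂ), h x.2⟩ := rfl

/-- y in K is conjugate, by an element of the algebraic group G = Zar(image of rho), to the semisimple part of the image of a Frobenius element at p:
iota(rho(φ)) = s u = u s, u unipotent, s = h y h^-1, h in G. -/
def STClassG {l : ℕ} [Fact l.Prime] {n : ℕ} (ι : ℚ_[l] →+* ℂ) (ρ : Gal(Om/ℚ) →* GL (Fin n) ℚ_[l]) (p : ℕ) (y : GL (Fin n) ℂ) : Prop :=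
  ∃ (φ : Gal(Om/ℚ)) (h u : GL (Fin n) ℂ), IsFrobAt p φ ∧ h ∈ Zar (Set.range (th ι ρ)) ∧ IsNilpotent ((u : Matrix (Fin n) (Fin n) ℂ) - 1) ∧
    (h * y * h⁻¹) * u = u * (h * y * h⁻¹) ∧ th ι ρ φ = (h * y * h⁻¹) * u

end H25G
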