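import Pool.Agent.Lib.H25G.Defs

/-! # H25G: restriction to a stable subspace -/

set_option autoImplicit false

open Module

namespace H25G

variable {Γ k V : Type*} [Group Γ] [Field k] [AddCommGroup V] [Module k V]

/-- The restriction of a representation to a stable subspace. -/
def rs (R : Γ →* Module.End k V) (W : Submodule k V) (hW : ∀ g, ∀ w ∈ W, R g w ∈ W) : Γ →* Module.End k W where
  toFun := fun g => (R g).restrict (hW g)
  map_one' := by
    ext w
    simp
  map_mul' := fun g h => by
    ext w
    simp

theorem rs_apply (R : Γ →* Module.End k V) (W : Submodule k V) (hW : ∀ g, ∀ w ∈ W, R g w ∈ W) (g : Γ) (w : W) : ((rs R W hW g w : W) : V) = R g w := rfl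

end H25G
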