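import Pool.Agent.Lib.H25G.HE5

/-! # H25G: Sato-Tate groups, final form -/

set_option autoImplicit false

open Matrix Filter Topology MeasureTheory Pool.Agent.GSem

namespace H25G

variable {l : ℕ} [Fact l.Prime] {n : ℕ}

/-- K is a Sato-Tate group of ρ (for the embedding ι). G is the Zariski closure of the image of ρ in GL_n(C). K is a compact subgroup of G, and G = N Zar(K), where N is a normal subgroup of G which consists of
unipotent elements. (Every maximal compact subgroup K of G has this property, with N the unipotent radical of G: Mostow.) -/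
structure IsST (ι : ℚ_[l] →+* ℂ) (ρ : Gal(Om/ℚ) →* GL (Fin n) ℚ_[l]) (K : Subgroup (GL (Fin n) ℂ)) : Prop where
  compact : IsCompact (K : Set (GL (Fin n) ℂ))
  sub : ∀ k ∈ K, k ∈ Zar (Set.range (th ι ρ))
  dense : ∃ N : Subgroup (GL (Fin n) ℂ), (∀ u ∈ N, u ∈ Zar (Set.range (th ι ρ))) ∧ (∀ g ∈ Zar (Set.range (th ι ρ)), ∀ u ∈ N, g * u * g⁻¹ ∈ N) ∧
    (∀ u ∈ N, IsNilpotent ((u : Matrix (Fin n) (Fin n) ℂ) - 1)) ∧ ∀ g ∈ Zar (Set.range (th ι ρ)), ∃ u ∈ N, ∃ h ∈ Zar (K : Set (GL (Fin n) ℂ)), g = u * h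

theorem st_main {ρ : Gal(Om/ℚ) →* GL (Fin n) ℚ_[l]} {S : Finset ℕ} {m : ℕ} (hρ : Geom ρ S m) (ι : ℚ_[l] →+* ℂ)
    (K : Subgroup (GL (Fin n) ℂ)) (hK : IsST ι ρ K) [MeasurableSpace K] [BorelSpace K] (μ : Measure K) [μ.IsHaarMeasure] [IsProbabilityMeasure μ]
    (K1 : Subgroup K) [K1.FiniteIndex] (f : K → ℂ) (hf : Continuous f) (hcl : ∀ a k, f (a * k * a⁻¹) = f k)
    (hinv : ∀ k, ∀ a ∈ K1, ∀ b ∈ K1, f (k * (a * b * a⁻¹ * b⁻¹)) = f k)
    (x : ℕ → K) (hx : ∀ p, p.Prime → p ∉ S → STClassG ι ρ p (x p : GL (Fin n) ℂ)) :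
    Tendsto (fun N : ℕ => (∑ p ∈ (Finset.range (N + 1)).filter (fun p => p.Prime ∧ p ∉ S), f (x p)) /
      (((Finset.range (N + 1)).filter (fun p => p.Prime ∧ p ∉ S)).card : ℂ)) atTop (𝓝 (∫ k : K, f k ∂μ)) := by
  obtain ⟨N, h1, h2, h3, h4⟩ := hK.dense
  exact he5 hρ ι K hK.compact hK.sub N h1 h2 h3 h4 μ K1 f hf hcl hinv x hx

end H25G
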