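import Pool.Agent.Lib.H25G.Defs

/-! # H25G: the translate of a prime -/

set_option autoImplicit false

open NumberField Pool.Agent.GSem

namespace H25G

/-- The prime ideal {x : t x in Q}. -/
noncomputable def tw (Q : Ideal (𝓞 Om)) (t : Gal(Om/ℚ)) : Ideal (𝓞 Om) := Q.comap (MulSemiringAction.toRingHom Gal(Om/ℚ) (𝓞 Om) t)

theorem mem_tw (Q : Ideal (𝓞 Om)) (t : Gal(Om/ℚ)) (x : 𝓞 Om) : x ∈ tw Q t ↔ t • x ∈ Q := Iff.rfl

end H25G
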